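import Pool.Agent.Helper41.FatMove

set_option autoImplicit false

open Polynomial

namespace Pool.Agent.Helper7.Free

open Pool.Agent.Helper41.Fat

variable {K : Type*} [Field K]

/-- Dual Vandermonde coefficients for consecutive integers, over every field. -/
theorem exists_dual_range (a : ℕ) : ∀ s k : ℕ, k < s → ∃ α : ℕ → K, ∀ j < s,
    ∑ i ∈ Finset.range s, α i * ((a + i).choose j : K) = if j = k then 1 else 0 := by
  intro s
  induction s with
  | zero => intro k hk; omega
  | succ s ih =>
    have step : ∀ k, k < s → ∃ α : ℕ → K, ∀ j < s + 1,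
        ∑ i ∈ Finset.range (s + 1), α i * ((a + i).choose j : K) = if j = k + 1 then 1 else 0 := by
      intro k hk
      obtain ⟨α, hα⟩ := ih k hk
      refine ⟨fun i => (if i = 0 then 0 else α (i - 1)) - (if i < s then α i else 0), ?_⟩
      intro j hj
      simp only [sub_mul, Finset.sum_sub_distrib]
      rw [Finset.sum_range_succ', Finset.sum_range_succ _ s]
      have h1 : ∑ i ∈ Finset.range s, (if i + 1 = 0 then (0 : K) else α (i + 1 - 1)) *
          ((a + (i + 1)).choose j : K) = ∑ i ∈ Finset.range s, α i * ((a + i + 1).choose j : K) := by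
        apply Finset.sum_congr rfl
        intro i _
        rw [if_neg (by omega)]
        rfl
      have h2 : ∑ i ∈ Finset.range s, (if i < s then α i else 0) * ((a + i).choose j : K) =
          ∑ i ∈ Finset.range s, α i * ((a + i).choose j : K) := by
        apply Finset.sum_congr rfl
        intro i hi
        rw [Finset.mem_range] at hi
        rw [if_pos hi]
      rw [h1, h2, if_pos rfl, if_neg (lt_irrefl s), zero_mul, zero_mul, add_zero, add_zero,
        ← Finset.sum_sub_distrib]
      cases j with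
      | zero =>
        rw [if_neg (by omega)]
        apply Finset.sum_eq_zero
        intro i _
        simp
      | succ j =>
        have h3 := hα j (by omega)
        have h4 : (if j + 1 = k + 1 then (1 : K) else 0) = if j = k then 1 else 0 := by
          simp
        rw [h4, ← h3]
        apply Finset.sum_congr rfl
        intro i _
        rw [Nat.choose_succ_succ (a + i) j]
        push_cast
        ring
    intro k hk
    cases k with
    | succ k => exact step k (by omega)
    | zero =>
      choose! β hβ using step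
      refine ⟨fun i => (if i = 0 then 1 else 0) -
        ∑ l ∈ Finset.range s, ((a.choose (l + 1) : ℕ) : K) * β l i, ?_⟩
      intro j hj
      simp only [sub_mul, Finset.sum_sub_distrib]
      have h1 : ∑ i ∈ Finset.range (s + 1), (if i = 0 then (1 : K) else 0) *
          ((a + i).choose j : K) = (a.choose j : K) := by
        rw [Finset.sum_eq_single 0]
        · simp
        · intro i _ hi
          rw [if_neg hi, zero_mul]
        · intro h
          exact absurd (Finset.mem_range.mpr (by omega)) h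
      have h2 : ∑ i ∈ Finset.range (s + 1), (∑ l ∈ Finset.range s,
          ((a.choose (l + 1) : ℕ) : K) * β l i) * ((a + i).choose j : K) =
          ∑ l ∈ Finset.range s, ((a.choose (l + 1) : ℕ) : K) * (if j = l + 1 then 1 else 0) := by
        simp only [Finset.sum_mul]
        rw [Finset.sum_comm]
        apply Finset.sum_congr rfl
        intro l hl
        rw [Finset.mem_range] at hl
        rw [← hβ l hl j hj, Finset.mul_sum]
        apply Finset.sum_congr rfl
        intro i _
        ring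
      rw [h1, h2]
      cases j with
      | zero => simp
      | succ j =>
        rw [Finset.sum_eq_single j]
        · simp
        · intro l _ hl
          rw [if_neg (by omega), mul_zero]
        · intro h
          exact absurd (Finset.mem_range.mpr (by omega)) h

theorem exists_dual_Ico (a s k : ℕ) (hk : k < s) : ∃ α : ℕ → K, ∀ j < s,
    ∑ e ∈ Finset.Ico a (a + s), α e * (e.choose j : K) = if j = k then 1 else 0 := by
  obtain ⟨α, hα⟩ := exists_dual_range (K := K) a s k hk
  refine ⟨fun e => α (e - a), fun j hj => ?_⟩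
  rw [← hα j hj, Finset.sum_Ico_eq_sum_range]
  have : a + s - a = s := by omega
  rw [this]
  apply Finset.sum_congr rfl
  intro i _
  have : a + i - a = i := by omega
  beta_reduce
  rw [this]

/-- The generator lemma with prescribed index sets. -/
theorem generator_algS {S : Type*} [CommRing S] [Algebra K S] (x z : S)
    {n : ℕ → ℕ} (lam B M : ℕ) (i k : ℕ) (U : Finset ℕ) (Ss : ℕ → Finset ℕ)
    (hM : k < M) (hS : ∀ u ∈ U, Ss u ⊆ act lam B n u)
    (hβ0 : ∀ u ∈ U, ∃ β : ℕ → K, ∀ j ≤ i,
      ∑ c ∈ Ss u, β c * (c.choose j : K) = if j = i then 1 else 0)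
    (hα0 : ∃ α : ℕ → K, ∀ j ≤ k,
      ∑ u ∈ U, α u * ((u - lam * i).choose j : K) = if j = k then 1 else 0) :
    ∃ (γ : ℕ → ℕ → K) (V : S[X]), ∑ u ∈ U, ∑ c ∈ Ss u,
      C (algebraMap K S (γ u c)) * ((1 + X * C x) ^ (u - lam * c) *
        ((1 + X * C x) ^ lam + X ^ M * C z) ^ c)
      = X ^ (M * i + k) * (C (x ^ k * z ^ i) + X * V) := by
  classical
  choose! β hβ using hβ0
  obtain ⟨α, hα⟩ := hα0
  -- the auxiliary elements
  generalize hA : (1 + X * C x : S[X]) = A
  generalize hzz : (C z : S[X]) = zz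
  let cst : K → S[X] := fun a => C (algebraMap K S a)
  have hcst_mul : ∀ a b, cst (a * b) = cst a * cst b := by intro a b; simp [cst]
  have hcst_nat : ∀ a : ℕ, cst (a : K) = (a : S[X]) := by intro a; simp [cst]
  have hcst_sum : ∀ (s : Finset ℕ) (f : ℕ → K), cst (∑ x ∈ s, f x) = ∑ x ∈ s, cst (f x) := by
    intro s f; simp [cst]
  have hiB : ∀ u ∈ U, i < B := by
    intro u hu
    have h1 := hβ u hu i le_rfl
    rw [if_pos rfl] at h1
    obtain ⟨c, hc, hc2⟩ : ∃ c ∈ Ss u, β u c * (c.choose i : K) ≠ 0 := by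
      by_contra hcon
      push Not at hcon
      rw [Finset.sum_eq_zero hcon] at h1
      exact zero_ne_one h1
    have h2 : i ≤ c := by
      by_contra hcon
      push Not at hcon
      rw [Nat.choose_eq_zero_of_lt hcon] at hc2
      simp at hc2
    have h3 := hS u hu hc
    rw [mem_act] at h3
    omega
  -- inner sum
  have hinner : ∀ u ∈ U, ∃ W : S[X], ∑ c ∈ Ss u,
      cst (α u * β u c) * (A ^ (u - lam * c) * (A ^ lam + X ^ M * zz) ^ c)
      = cst (α u) * (X ^ (M * i) * zz ^ i * A ^ (u - lam * i))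
        + X ^ (M * (i + 1)) * W := by
    intro u hu
    have h1 : ∑ c ∈ Ss u,
      cst (α u * β u c) * (A ^ (u - lam * c) * (A ^ lam + X ^ M * zz) ^ c)
      = cst (α u) * ∑ l ∈ Finset.range B,
          cst (∑ c ∈ Ss u, β u c * (c.choose l : K)) *
            (X ^ (M * l) * zz ^ l * A ^ (u - lam * l)) := by
      rw [Finset.mul_sum]
      simp only [hcst_sum, Finset.sum_mul, Finset.mul_sum]
      rw [Finset.sum_comm]
      refine Finset.sum_congr rfl fun c hc => ?_
      have hc := hS u hu hc
      rw [mem_act] at hc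
      rw [expand_one lam M B u c hc.1 hc.2.1, Finset.mul_sum]
      refine Finset.sum_congr rfl fun l _ => ?_
      rw [hcst_mul, hcst_mul, hcst_nat]
      ring
    rw [h1]
    have h2 : ∀ l ∈ Finset.range B, l ≠ i → ∃ W : S[X],
        cst (∑ c ∈ Ss u, β u c * (c.choose l : K)) *
            (X ^ (M * l) * zz ^ l * A ^ (u - lam * l)) = X ^ (M * (i + 1)) * W := by
      intro l _ hli
      rcases lt_or_gt_of_ne hli with h | h
      · refine ⟨0, ?_⟩
        rw [hβ u hu l h.le, if_neg hli]
        simp [cst]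
      · obtain ⟨b, rfl⟩ : ∃ b, l = i + 1 + b := ⟨l - (i + 1), by omega⟩
        exact ⟨cst (∑ c ∈ Ss u, β u c * (c.choose (i + 1 + b) : K)) *
          (X ^ (M * b) * zz ^ (i + 1 + b) * A ^ (u - lam * (i + 1 + b))), by
            rw [mul_add M, pow_add]; ring⟩
    choose! W hW using h2
    refine ⟨cst (α u) * ∑ l ∈ (Finset.range B).erase i, W l, ?_⟩
    have hi := Finset.mem_range.2 (hiB u hu)
    rw [← Finset.add_sum_erase _ _ hi, hβ u hu i le_rfl, if_pos rfl, mul_add, Finset.mul_sum,
      Finset.mul_sum, Finset.mul_sum]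
    congr 1
    · simp [cst]
    · refine Finset.sum_congr rfl fun l hl => ?_
      rw [hW l (Finset.mem_of_mem_erase hl) (Finset.ne_of_mem_erase hl)]
      ring
  choose! W hW using hinner
  -- outer sum
  have houter : ∃ W' : S[X], ∑ u ∈ U, cst (α u) * A ^ (u - lam * i)
      = X ^ k * C (x ^ k) + X ^ (k + 1) * W' := by
    have hdvd : X ^ (k + 1) ∣ (∑ u ∈ U, cst (α u) * A ^ (u - lam * i)
        - X ^ k * C (x ^ k)) := by
      rw [X_pow_dvd_iff]
      intro j hj
      have hcoef : ∀ e : ℕ, (A ^ e).coeff j = x ^ j * ((e.choose j : ℕ) : S) := by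
        intro e
        have h1 : A = C x * X + C 1 := by rw [← hA, C_1]; ring
        rw [h1, (Commute.all _ _).add_pow, finsetSum_coeff]
        have h2 : ∀ b ∈ Finset.range (e + 1),
            ((C x * X) ^ b * C 1 ^ (e - b) * ((e.choose b : ℕ) : S[X])).coeff j
            = if b = j then x ^ j * ((e.choose j : ℕ) : S) else 0 := by
          intro b _
          have h3 : ((C x * X) ^ b * C 1 ^ (e - b) * ((e.choose b : ℕ) : S[X]))
              = C (x ^ b * ((e.choose b : ℕ) : S)) * X ^ b := by
            simp only [mul_pow, C_1, one_pow, mul_one, C_mul, C_pow, map_natCast]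
            ring
          rw [h3, coeff_C_mul_X_pow]
          by_cases hbj : b = j
          · subst hbj; simp
          · rw [if_neg hbj, if_neg (Ne.symm hbj)]
        rw [Finset.sum_congr rfl h2, Finset.sum_ite_eq']
        by_cases hje : j ∈ Finset.range (e + 1)
        · rw [if_pos hje]
        · rw [if_neg hje, Nat.choose_eq_zero_of_lt (by rw [Finset.mem_range] at hje; omega)]
          simp
      rw [coeff_sub, finsetSum_coeff]
      have h4 : ∀ u ∈ U, (cst (α u) * A ^ (u - lam * i)).coeff j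
          = algebraMap K S (α u * ((u - lam * i).choose j : K)) * x ^ j := by
        intro u _
        simp only [cst]
        rw [coeff_C_mul, hcoef]
        simp only [map_mul, map_natCast]
        ring
      rw [Finset.sum_congr rfl h4, ← Finset.sum_mul, ← map_sum, hα j (by omega), X_pow_mul,
        coeff_C_mul_X_pow]
      by_cases hjk : j = k
      · subst hjk; simp
      · simp [hjk]
    obtain ⟨W', hW'⟩ := hdvd
    exact ⟨W', by rw [← hW']; ring⟩
  obtain ⟨W', hW'⟩ := houter
  obtain ⟨b, hb⟩ : ∃ b, M = k + 1 + b := ⟨M - (k + 1), by omega⟩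
  refine ⟨fun u c => α u * β u c, zz ^ i * W' + X ^ b * ∑ u ∈ U, W u, ?_⟩
  have h6 : ∑ u ∈ U, ∑ c ∈ Ss u,
      C (algebraMap K S (α u * β u c)) *
        (A ^ (u - lam * c) * (A ^ lam + X ^ M * zz) ^ c)
      = X ^ (M * i) * zz ^ i * (∑ u ∈ U, cst (α u) * A ^ (u - lam * i))
      + X ^ (M * (i + 1)) * ∑ u ∈ U, W u := by
    have h7 : ∑ u ∈ U, ∑ c ∈ Ss u,
        C (algebraMap K S (α u * β u c)) *
        (A ^ (u - lam * c) * (A ^ lam + X ^ M * zz) ^ c)
        = ∑ u ∈ U, (cst (α u) *
        (X ^ (M * i) * zz ^ i * A ^ (u - lam * i)) + X ^ (M * (i + 1)) * W u) :=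
      Finset.sum_congr rfl fun u hu => hW u hu
    rw [h7, Finset.sum_add_distrib, Finset.mul_sum, Finset.mul_sum]
    congr 1
    exact Finset.sum_congr rfl fun u _ => by ring
  have h8 : (X : S[X]) ^ (M * (i + 1)) = X ^ (M * i + k) * (X * X ^ b) := by
    rw [← pow_succ', ← pow_add]; congr 1; rw [hb]; ring
  rw [h6, hW', h8, C_mul, C_pow, C_pow, hzz, pow_add]
  ring

theorem generatorS {n : ℕ → ℕ} (lam B M : ℕ) (i k : ℕ) (U : Finset ℕ) (Ss : ℕ → Finset ℕ)
    (hM : k < M) (hS : ∀ u ∈ U, Ss u ⊆ act lam B n u)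
    (hβ0 : ∀ u ∈ U, ∃ β : ℕ → K, ∀ j ≤ i,
      ∑ c ∈ Ss u, β c * (c.choose j : K) = if j = i then 1 else 0)
    (hα0 : ∃ α : ℕ → K, ∀ j ≤ k,
      ∑ u ∈ U, α u * ((u - lam * i).choose j : K) = if j = k then 1 else 0) :
    ∃ w : K[X][X][X], w.coeff 0 = C (X ^ k) * X ^ i ∧ ∀ t : K, t ≠ 0 →
      ∃ z ∈ rows K n, Gt t (t ^ M) ((1 + C t * X) ^ lam) z
        = w.eval (algebraMap K K[X][X] t) := by
  obtain ⟨γ, V, h⟩ := generator_algS (K := K) (S := K[X][X]) (C X) X lam B M i k U Ss hM hS
    hβ0 hα0
  refine ⟨C ((C X : K[X][X]) ^ k * X ^ i) + X * V, ?_, ?_⟩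
  · rw [coeff_add, coeff_C_zero, mul_coeff_zero, coeff_X_zero, zero_mul, add_zero, C_pow]
  · intro t ht
    refine ⟨(t ^ (M * i + k))⁻¹ • ∑ u ∈ U, ∑ c ∈ Ss u,
      γ u c • (C ((1 + X) ^ (u - lam * c)) * X ^ c), ?_, ?_⟩
    · apply Submodule.smul_mem
      apply Submodule.sum_mem
      intro u hu
      apply Submodule.sum_mem
      intro c hc
      have hc := hS u hu hc
      rw [mem_act] at hc
      apply Submodule.smul_mem
      apply mono_mem_rows
      rw [mem_degreeLT]
      have h1 : ((1 + X : K[X]) ^ (u - lam * c)).natDegree = u - lam * c := by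
        have h2 : (1 + X : K[X]) = X + C 1 := by rw [C_1]; ring
        rw [h2, natDegree_pow, natDegree_X_add_C, mul_one]
      have h3 : ((1 + X : K[X]) ^ (u - lam * c)) ≠ 0 := by
        have h2 : (1 + X : K[X]) = X + C 1 := by rw [C_1]; ring
        rw [h2]
        exact pow_ne_zero _ (X_add_C_ne_zero 1)
      rw [degree_eq_natDegree h3, h1]
      exact_mod_cast (by omega : u - lam * c < n c)
    · have h1 := congrArg (fun q => eval (algebraMap K K[X][X] t) q) h
      simp only [eval_finsetSum, eval_mul, eval_C, eval_pow, eval_add, eval_one, eval_X] at h1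
      have h2 : Gt t (t ^ M) ((1 + C t * X) ^ lam) (∑ u ∈ U, ∑ c ∈ Ss u,
          γ u c • (C ((1 + X) ^ (u - lam * c)) * X ^ c))
          = (algebraMap K K[X][X] t) ^ (M * i + k) *
            ((C X : K[X][X]) ^ k * X ^ i + (algebraMap K K[X][X] t) *
              eval (algebraMap K K[X][X] t) V) := by
        rw [← h1, map_sum]
        refine Finset.sum_congr rfl fun u _ => ?_
        rw [map_sum]
        refine Finset.sum_congr rfl fun c _ => ?_
        have e1 : (C (((1 + X : K[X]) ^ (u - lam * c)).comp (C t * X)) : K[X][X])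
            = (1 + C (C t) * C X) ^ (u - lam * c) := by
          rw [pow_comp, add_comp, one_comp, X_comp, C_pow, C_add, C_1, C_mul]
        have e2 : (C ((1 + C t * X) ^ lam) + C (C (t ^ M)) * X : K[X][X])
            = (1 + C (C t) * C X) ^ lam + (C (C t)) ^ M * X := by
          rw [C_pow, C_add, C_1, C_mul, C_pow, C_pow]
        rw [Gt_smul, map_mul, Gt_C, map_pow, Gt_X, smul_eq_CC, e1, e2]
        rfl
      rw [Gt_smul, h2, smul_eq_CC]
      have h4 : (C (C (t ^ (M * i + k))⁻¹) : K[X][X]) * (algebraMap K K[X][X] t) ^ (M * i + k)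
          = 1 := by
        rw [algebraMap_eq_CC, ← C_pow, ← C_pow, ← C_mul, ← C_mul,
          inv_mul_cancel₀ (pow_ne_zero _ ht), C_1, C_1]
      rw [← mul_assoc, h4, one_mul]
      simp

/-- The interval condition for a move. -/
def StepI (lam : ℕ) (n n' : ℕ → ℕ) : Prop :=
  ∃ B : ℕ, ∀ i, ∃ a, lam * i ≤ a ∧ ∀ u, a ≤ u → u < a + n' i →
    ∃ c0, ∀ c, c0 ≤ c → c ≤ c0 + i → c ∈ act lam B n u

theorem limit_existsI {n n' : ℕ → ℕ} (lam B M : ℕ)
    (hM : ∀ i, n' i ≤ M)
    (hU : ∀ i, ∃ a, lam * i ≤ a ∧ ∀ u, a ≤ u → u < a + n' i →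
      ∃ c0, ∀ c, c0 ≤ c → c ≤ c0 + i → c ∈ act lam B n u)
    {P : K[X][X]} (hP : P ∈ rows K n') :
    ∃ w : K[X][X][X], w.coeff 0 = P ∧ ∀ t : K, t ≠ 0 →
      ∃ z ∈ rows K n, Gt t (t ^ M) ((1 + C t * X) ^ lam) z
        = w.eval (algebraMap K K[X][X] t) := by
  classical
  -- the set of such `P` is a submodule
  let T : Submodule K K[X][X] :=
    { carrier := {P | ∃ w : K[X][X][X], w.coeff 0 = P ∧ ∀ t : K, t ≠ 0 →
        ∃ z ∈ rows K n, Gt t (t ^ M) ((1 + C t * X) ^ lam) z
          = w.eval (algebraMap K K[X][X] t)}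
      zero_mem' := ⟨0, by simp, fun t _ => ⟨0, Submodule.zero_mem _, by simp⟩⟩
      add_mem' := by
        rintro P Q ⟨w, hw, hw'⟩ ⟨v, hv, hv'⟩
        refine ⟨w + v, by rw [coeff_add, hw, hv], fun t ht => ?_⟩
        obtain ⟨z, hz, hz'⟩ := hw' t ht
        obtain ⟨y, hy, hy'⟩ := hv' t ht
        exact ⟨z + y, Submodule.add_mem _ hz hy, by rw [map_add, hz', hy', eval_add]⟩
      smul_mem' := by
        rintro a P ⟨w, hw, hw'⟩
        refine ⟨C (C (C a)) * w, by rw [coeff_C_mul, hw, smul_eq_CC], fun t ht => ?_⟩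
        obtain ⟨z, hz, hz'⟩ := hw' t ht
        exact ⟨a • z, Submodule.smul_mem _ _ hz, by
          rw [Gt_smul, hz', eval_mul, eval_C, smul_eq_CC]⟩ }
  suffices h : P ∈ T from h
  have hmono : ∀ i k, k < n' i → (C (X ^ k) * X ^ i : K[X][X]) ∈ T := by
    intro i k hk
    obtain ⟨a, ha, hU1⟩ := hU i
    choose! c0 hc0 using hU1
    apply generatorS lam B M i k (Finset.Ico a (a + (k + 1)))
      (fun u => Finset.Ico (c0 u) (c0 u + (i + 1))) (lt_of_lt_of_le hk (hM i))
    · intro u hu c hc
      rw [Finset.mem_Ico] at hu hc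
      exact hc0 u hu.1 (by omega) c hc.1 (by omega)
    · intro u _
      obtain ⟨β, hβ⟩ := exists_dual_Ico (K := K) (c0 u) (i + 1) i (by omega)
      exact ⟨β, fun j hj => hβ j (by omega)⟩
    · obtain ⟨α, hα⟩ := exists_dual_range (K := K) (a - lam * i) (k + 1) k (by omega)
      refine ⟨fun u => α (u - a), fun j hj => ?_⟩
      rw [← hα j (by omega), Finset.sum_Ico_eq_sum_range]
      have h1 : a + (k + 1) - a = k + 1 := by omega
      rw [h1]
      apply Finset.sum_congr rfl
      intro l _
      have h2 : a + l - a = l := by omega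
      have h3 : a + l - lam * i = a - lam * i + l := by omega
      beta_reduce
      rw [h2, h3]
  rw [P.as_sum_support_C_mul_X_pow]
  apply Submodule.sum_mem
  intro i _
  have hc := hP i
  rw [degreeLT_eq_span_X_pow] at hc
  have hmap : Submodule.map ((LinearMap.mulRight K (X ^ i : K[X][X])) ∘ₗ
      ((Algebra.linearMap K[X] K[X][X]).restrictScalars K))
      (Submodule.span K ↑(Finset.image (fun n => (X : K[X]) ^ n) (Finset.range (n' i)))) ≤ T := by
    rw [Submodule.map_span_le]
    intro q hq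
    simp only [Finset.coe_image, Finset.coe_range, Set.mem_image, Set.mem_Iio] at hq
    obtain ⟨k, hk, rfl⟩ := hq
    exact hmono i k hk
  exact hmap (Submodule.mem_map_of_mem hc)

/-- **The characteristic-free move.** -/
theorem moveI [Infinite K] {r m : ℕ} {n n' : ℕ → ℕ} {ρ : ℕ} {lam : ℕ} (h : StepI lam n n')
    (hg : Good K r m n' ρ) : Good K r m n ρ := by
  classical
  obtain ⟨B, hU⟩ := h
  obtain ⟨η', w', hw', hl⟩ := hg
  have hB : ∀ i, B ≤ i → n' i = 0 := by
    intro i hi
    obtain ⟨a, _, hU1⟩ := hU i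
    by_contra hne
    obtain ⟨c0, hc0⟩ := hU1 a le_rfl (by omega)
    have := hc0 (c0 + i) (by omega) le_rfl
    rw [mem_act] at this
    omega
  let M := ∑ i ∈ Finset.range B, n' i
  have hM : ∀ i, n' i ≤ M := by
    intro i
    by_cases hi : i < B
    · exact Finset.single_le_sum (fun _ _ => Nat.zero_le _) (Finset.mem_range.2 hi)
    · rw [hB i (by omega)]; exact Nat.zero_le _
  choose w hw0 hwt using fun a => limit_existsI lam B M hM hU (hw' a)
  obtain ⟨t, ht, hlt⟩ := exists_specialization (Phi K r m η') w (by simpa only [hw0] using hl)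
  choose z hz hzt using fun a => hwt a t ht
  refine ⟨(1 + X) ^ lam + C (t ^ M) * η'.comp (C t⁻¹ * X), z, hz, ?_⟩
  have hη : ((1 + X) ^ lam + C (t ^ M) * η'.comp (C t⁻¹ * X) : K[X]).comp (C t * X)
      = (1 + C t * X) ^ lam + C (t ^ M) * η' := by
    rw [add_comp, mul_comp, C_comp, pow_comp, add_comp, one_comp, X_comp, comp_assoc, mul_comp,
      C_comp, X_comp, ← mul_assoc, ← C_mul, inv_mul_cancel₀ ht, C_1, one_mul, comp_X]
  apply transport hη
  simpa only [hzt] using hlt

end Pool.Agent.Helper7.Free
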