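import Pool.Agent.Helper7.ShellB

set_option autoImplicit false

open MvPolynomial Module

namespace Pool.Agent.Helper7.Shell

noncomputable section

/-- Every algebra homomorphism `K[x,y] → K[x,y]/(y,x^r)^m` is one of the `psi α`. -/
theorem exists_psi {K : Type*} [Field K] {r m : ℕ}
    (ψ : MvPolynomial (Fin 2) K →ₐ[K] (MvPolynomial (Fin 2) K ⧸ zIdeal K r m)) :
    ∃ α : Fin 2 × Idx r m → K, psi α = ψ := by
  choose P hP using fun e => Ideal.Quotient.mk_surjective (ψ (X e))
  refine ⟨fun p => (P p.1).coeff (expo p.2), ?_⟩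
  apply MvPolynomial.algHom_ext
  intro e
  rw [psi, aeval_X, exists_jet, hP]

/-- `psi` is injective: the coefficients `α` are determined by the homomorphism. -/
theorem psi_injective {K : Type*} [Field K] {r m : ℕ} :
    Function.Injective (psi (K := K) (r := r) (m := m)) := by
  intro α β h
  funext ⟨e, c⟩
  have h1 := DFunLike.congr_fun h (X e)
  rw [psi, psi, aeval_X, aeval_X, ← sub_eq_zero, ← map_sub, mk_eq_zero] at h1
  have h2 := h1 c
  rwa [coeff_sub, coeff_jet, coeff_jet, sub_eq_zero] at h2

section

variable {K : Type*} [Field K] {r m : ℕ}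

theorem psi_apply (α : Fin 2 × Idx r m → K) (G : MvPolynomial (Fin 2) K) :
    psi α G = Ideal.Quotient.mk (zIdeal K r m) (aeval (jet α) G) := by
  have := MvPolynomial.comp_aeval_apply (Ideal.Quotient.mkₐ K (zIdeal K r m)) (f := jet α) G
  simpa [psi] using this.symm

theorem psi_poly_eq_zero {d : ℕ} (α : Fin 2 × Idx r m → K) (v : Mon d → K) :
    psi α (poly v) = 0 ↔ (evm α d).mulVecLin v = 0 := by
  rw [psi_apply, mk_eq_zero]
  constructor
  · intro h
    funext c
    rw [Matrix.mulVecLin_apply, evm_mulVec, h c]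
    rfl
  · intro h c
    have := congrFun h c
    rw [Matrix.mulVecLin_apply, evm_mulVec] at this
    exact this

/-- Exponent in three variables. -/
def expo3 {d : ℕ} (p : Mon d) : Fin 3 →₀ ℕ :=
  Finsupp.single 0 (d - p.1.1 - p.1.2) + Finsupp.single 1 (p.1.1 : ℕ) +
    Finsupp.single 2 (p.1.2 : ℕ)

theorem expo3_injective {d : ℕ} : Function.Injective (expo3 (d := d)) := by
  intro p q h
  have h1 := DFunLike.congr_fun h 1
  have h2 := DFunLike.congr_fun h 2
  simp [expo3] at h1 h2
  apply Subtype.ext
  apply Prod.ext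
  · exact Fin.ext h1
  · exact Fin.ext h2

/-- The homogeneous polynomial with coefficient vector `v`. -/
def hom3 (d : ℕ) : (Mon d → K) →ₗ[K] MvPolynomial (Fin 3) K where
  toFun v := ∑ p : Mon d, monomial (expo3 p) (v p)
  map_add' := by
    intro v w
    rw [← Finset.sum_add_distrib]
    apply Finset.sum_congr rfl
    intro p _
    rw [Pi.add_apply, map_add]
  map_smul' := by
    intro a v
    rw [Finset.smul_sum]
    apply Finset.sum_congr rfl
    intro p _
    rw [Pi.smul_apply, smul_monomial]
    rfl

theorem hom3_apply {d : ℕ} (v : Mon d → K) :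
    hom3 d v = ∑ p : Mon d, monomial (expo3 p) (v p) := rfl

theorem coeff_hom3 {d : ℕ} (v : Mon d → K) (p : Mon d) : (hom3 d v).coeff (expo3 p) = v p := by
  rw [hom3_apply, coeff_sum, Finset.sum_eq_single p]
  · rw [coeff_monomial, if_pos rfl]
  · intro q _ hq
    rw [coeff_monomial, if_neg]
    intro h
    exact hq (expo3_injective h)
  · intro h
    exact absurd (Finset.mem_univ _) h

theorem hom3_injective {d : ℕ} : Function.Injective (hom3 (K := K) d) := by
  intro v w h
  funext p
  rw [← coeff_hom3 v p, h, coeff_hom3]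

theorem hom3_range {d : ℕ} : LinearMap.range (hom3 (K := K) d) = homogeneousSubmodule (Fin 3) K d := by
  apply le_antisymm
  · rintro _ ⟨v, rfl⟩
    rw [mem_homogeneousSubmodule, hom3_apply]
    apply IsHomogeneous.sum
    intro p _
    apply isHomogeneous_monomial
    rw [expo3]
    have := p.2
    simp only [map_add, Finsupp.degree_single]
    omega
  · intro F hF
    rw [mem_homogeneousSubmodule] at hF
    refine ⟨fun p => F.coeff (expo3 p), ?_⟩
    ext s
    by_cases hs : s.degree = d
    · have h3 : s 0 + s 1 + s 2 = d := by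
        rw [← hs, Finsupp.degree_eq_sum, Fin.sum_univ_three]
      let p : Mon d := ⟨(⟨s 1, by omega⟩, ⟨s 2, by omega⟩), by simp only; omega⟩
      have hp : expo3 p = s := by
        ext e
        fin_cases e
        · simp only [expo3, p, Fin.zero_eta, Finsupp.add_apply, Finsupp.single_eq_same]
          simp
          omega
        · simp [expo3, p]
        · simp [expo3, p]
      rw [← hp, coeff_hom3]
    · rw [hF.coeff_eq_zero hs, hom3_apply, coeff_sum]
      apply Finset.sum_eq_zero
      intro p _
      rw [coeff_monomial, if_neg]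
      intro h
      apply hs
      rw [← h, expo3]
      have := p.2
      simp only [map_add, Finsupp.degree_single]
      omega

theorem dehom_hom3 {d : ℕ} (v : Mon d → K) :
    aeval (![1, X 0, X 1] : Fin 3 → MvPolynomial (Fin 2) K) (hom3 d v) = poly v := by
  rw [hom3_apply, map_sum, poly]
  apply Finset.sum_congr rfl
  intro p _
  rw [aeval_monomial, algebraMap_eq, Finsupp.prod_fintype _ _ (by simp), Fin.prod_univ_three]
  simp [expo3]

theorem H0_eq {d : ℕ} (α : Fin 2 × Idx r m → K) :
    H0 d α = (LinearMap.ker (evm α d).mulVecLin).map (hom3 d) := by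
  ext F
  rw [H0, ← hom3_range, Submodule.mem_inf, Submodule.mem_map]
  constructor
  · rintro ⟨⟨v, rfl⟩, hF⟩
    refine ⟨v, ?_, rfl⟩
    rw [LinearMap.mem_ker] at hF ⊢
    rw [← psi_poly_eq_zero, ← dehom_hom3]
    exact hF
  · rintro ⟨v, hv, rfl⟩
    refine ⟨⟨v, rfl⟩, ?_⟩
    rw [LinearMap.mem_ker] at hv ⊢
    rw [← psi_poly_eq_zero, ← dehom_hom3] at hv
    exact hv

theorem finrank_H0 {d : ℕ} (α : Fin 2 × Idx r m → K) :
    finrank K (H0 d α) + (evm α d).rank = Fintype.card (Mon d) := by
  have h1 : finrank K (H0 d α) = finrank K (LinearMap.ker (evm α d).mulVecLin) := by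
    rw [H0_eq]
    exact (Submodule.equivMapOfInjective (hom3 d) hom3_injective _).finrank_eq.symm
  rw [h1, add_comm]
  have := LinearMap.finrank_range_add_finrank_ker (evm α d).mulVecLin
  simpa [Matrix.rank] using this

theorem sum_sub_eq (n : ℕ) : ∑ i ∈ Finset.range n, (n - i) = (n + 1).choose 2 := by
  induction n with
  | zero => simp
  | succ n ih =>
    rw [Finset.sum_range_succ']
    have h1 : ∀ i ∈ Finset.range n, n + 1 - (i + 1) = n - i := by
      intro i _
      omega
    rw [Finset.sum_congr rfl h1, ih]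
    have h2 : (n + 1 + 1).choose 2 = (n + 1).choose 1 + (n + 1).choose 2 :=
      Nat.choose_succ_succ' (n + 1) 1
    rw [h2, Nat.choose_one_right]
    omega

/-- `Mon d` as a sigma type. -/
def monEquiv (d : ℕ) : Mon d ≃ Σ i : Fin (d + 1), Fin (d + 1 - i) where
  toFun p := ⟨p.1.1, ⟨p.1.2, by have := p.2; omega⟩⟩
  invFun p := ⟨(p.1, ⟨p.2, by have := p.2.2; omega⟩), by
    have := p.2.2
    have := p.1.2
    simp only
    omega⟩
  left_inv p := rfl
  right_inv p := rfl

theorem card_Mon (d : ℕ) : Fintype.card (Mon d) = (d + 2).choose 2 := by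
  rw [Fintype.card_congr (monEquiv d), Fintype.card_sigma]
  simp only [Fintype.card_fin]
  rw [Fin.sum_univ_eq_sum_range (fun i => d + 1 - i) (d + 1), sum_sub_eq]

theorem card_Idx (r m : ℕ) : Fintype.card (Idx r m) = r * (m + 1).choose 2 := by
  rw [Fintype.card_sigma]
  simp only [Fintype.card_fin]
  rw [← Finset.mul_sum, Fin.sum_univ_eq_sum_range (fun i => m - i) m, sum_sub_eq]

/-- The generic minor specializes to the minor at `α`. -/
theorem eval_minor {d q : ℕ} (f : Fin q → Idx r m) (g : Fin q → Mon d)
    (α : Fin 2 × Idx r m → K) :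
    MvPolynomial.eval α (((evm (MvPolynomial.X : Fin 2 × Idx r m →
      MvPolynomial (Fin 2 × Idx r m) K) d).submatrix f g).det) =
      ((evm α d).submatrix f g).det := by
  rw [RingHom.map_det]
  congr 1
  have h1 : (evm (MvPolynomial.X : Fin 2 × Idx r m → MvPolynomial (Fin 2 × Idx r m) K) d).map
      (MvPolynomial.eval α) = evm α d := by
    rw [map_evm]
    congr 1
    funext p
    exact MvPolynomial.eval_X p
  rw [← h1]
  rfl

/-- The monomial `x^i y^j` as a monomial of degree at most `r m + m`. -/
def idxMon (c : Idx r m) : Mon (r * m + m) :=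
  have h1 : (c.2 : ℕ) < r * m := by
    have := expo_lt c
    rw [expo_zero] at this
    omega
  ⟨(⟨c.2, by omega⟩, ⟨c.1, by have := c.1.2; omega⟩), by
    have := c.1.2
    simp only
    omega⟩

theorem surjective_of_minor (α : Fin 2 × Idx r m → K)
    (e : Fin (Fintype.card (Idx r m)) ≃ Idx r m)
    (h : ((evm α (r * m + m)).submatrix e (fun i => idxMon (e i))).det ≠ 0) :
    Function.Surjective (psi α) := by
  have hrank := le_rank_of_minor _ _ _ _ h
  have htop : LinearMap.range (evm α (r * m + m)).mulVecLin = ⊤ := by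
    apply Submodule.eq_top_of_finrank_eq
    apply le_antisymm (Submodule.finrank_le _)
    rw [Module.finrank_fintype_fun_eq_card]
    exact hrank
  intro z
  obtain ⟨G, rfl⟩ := Ideal.Quotient.mk_surjective z
  have hG : (fun c : Idx r m => G.coeff (expo c)) ∈
      LinearMap.range (evm α (r * m + m)).mulVecLin := by
    rw [htop]
    trivial
  obtain ⟨v, hv⟩ := hG
  refine ⟨poly v, ?_⟩
  rw [psi_apply, ← sub_eq_zero, ← map_sub, mk_eq_zero]
  intro c
  have h1 := congrFun hv c
  rw [Matrix.mulVecLin_apply, evm_mulVec] at h1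
  rw [coeff_sub, h1, sub_self]

theorem identity_minor (e : Fin (Fintype.card (Idx r m)) ≃ Idx r m) :
    ((evm (fun p : Fin 2 × Idx r m => (X p.1 : MvPolynomial (Fin 2) K).coeff (expo p.2))
      (r * m + m)).submatrix e (fun i => idxMon (e i))).det = 1 := by
  have h1 : (evm (fun p : Fin 2 × Idx r m => (X p.1 : MvPolynomial (Fin 2) K).coeff (expo p.2))
      (r * m + m)).submatrix e (fun i => idxMon (e i)) = 1 := by
    ext i j
    rw [Matrix.submatrix_apply, evm, Matrix.one_apply]
    have h2 := coeff_aeval_congr (exists_jet (R := K) r m (fun e => X e))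
      (X 0 ^ ((idxMon (e j)).1.1 : ℕ) * X 1 ^ ((idxMon (e j)).1.2 : ℕ)) (e i)
    simp only [map_mul, map_pow, aeval_X] at h2
    rw [h2]
    have h3 : (X 0 ^ ((idxMon (e j)).1.1 : ℕ) * X 1 ^ ((idxMon (e j)).1.2 : ℕ) :
        MvPolynomial (Fin 2) K) = monomial (expo (e j)) 1 := by
      rw [X_pow_eq_monomial, X_pow_eq_monomial, monomial_mul, one_mul]
      rfl
    rw [h3, coeff_monomial]
    by_cases hij : i = j
    · rw [if_pos hij, if_pos (by rw [hij])]
    · rw [if_neg hij, if_neg]
      intro h
      exact hij (e.injective (expo_injective h)).symm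
  rw [h1, Matrix.det_one]

/-- **The shell.**  If one germ imposes the expected number of conditions then a general
homomorphism is surjective and its kernel has the expected postulation in degree `d`. -/
theorem shell (d : ℕ)
    (h : Pool.Agent.Helper41.Fat.Good K r m (fun b => d + 1 - b)
      (min ((d + 2).choose 2) (r * (m + 1).choose 2))) :
    ∃ Φ : MvPolynomial (Fin 2 × Idx r m) K, Φ ≠ 0 ∧
      ∀ α : Fin 2 × Idx r m → K, MvPolynomial.eval α Φ ≠ 0 →
        Function.Surjective (psi α) ∧
        finrank K (H0 d α) = (d + 2).choose 2 - r * (m + 1).choose 2 := by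
  classical
  obtain ⟨α₀, hα₀⟩ := le_rank_of_good h
  obtain ⟨f, g, hfg⟩ := exists_minor_le _ _ hα₀
  let e : Fin (Fintype.card (Idx r m)) ≃ Idx r m := (Fintype.equivFin _).symm
  let Φ₁ : MvPolynomial (Fin 2 × Idx r m) K := ((evm (MvPolynomial.X : Fin 2 × Idx r m →
      MvPolynomial (Fin 2 × Idx r m) K) d).submatrix f g).det
  let Φ₂ : MvPolynomial (Fin 2 × Idx r m) K := ((evm (MvPolynomial.X : Fin 2 × Idx r m →
      MvPolynomial (Fin 2 × Idx r m) K) (r * m + m)).submatrix e (fun i => idxMon (e i))).det
  refine ⟨Φ₁ * Φ₂, ?_, ?_⟩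
  · apply mul_ne_zero
    · intro h0
      apply hfg
      rw [← eval_minor]
      show MvPolynomial.eval α₀ Φ₁ = 0
      rw [h0, map_zero]
    · intro h0
      have h1 := identity_minor (K := K) e
      rw [← eval_minor] at h1
      have h2 : MvPolynomial.eval (fun p : Fin 2 × Idx r m =>
        (X p.1 : MvPolynomial (Fin 2) K).coeff (expo p.2)) Φ₂ = 1 := h1
      rw [h0, map_zero] at h2
      exact zero_ne_one h2
  · intro α hα
    rw [map_mul] at hα
    have hα1 := left_ne_zero_of_mul hα
    have hα2 := right_ne_zero_of_mul hα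
    constructor
    · apply surjective_of_minor α e
      rw [← eval_minor]
      exact hα2
    · have h1 : min ((d + 2).choose 2) (r * (m + 1).choose 2) ≤ (evm α d).rank := by
        apply le_rank_of_minor _ _ f g
        rw [← eval_minor]
        exact hα1
      have h2 : (evm α d).rank ≤ (d + 2).choose 2 := by
        rw [← card_Mon]
        exact Matrix.rank_le_card_width _
      have h3 : (evm α d).rank ≤ r * (m + 1).choose 2 := by
        rw [← card_Idx]
        exact Matrix.rank_le_card_height _
      have h4 := finrank_H0 (d := d) α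
      rw [card_Mon] at h4
      omega

end

end

end Pool.Agent.Helper7.Shell
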