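import Pool.Agent.Helper7.FatShell
import Pool.Agent.Helper41.FatArith

set_option autoImplicit false

open Polynomial

namespace Pool.Agent.Helper7.Scale

open Pool.Agent.Helper41.Fat

variable {K : Type*} [Field K]

theorem mem_rows_iff {d : ℕ} {P : K[X][X]} :
    P ∈ rows K (fun b => d + 1 - b) ↔ ∀ j i, (P.coeff j).coeff i ≠ 0 → i + j ≤ d := by
  constructor
  · intro h j i hne
    have h1 : P.coeff j ∈ degreeLT K (d + 1 - j) := h j
    rw [mem_degreeLT] at h1
    by_contra hc
    apply hne
    apply coeff_eq_zero_of_degree_lt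
    refine lt_of_lt_of_le h1 ?_
    exact_mod_cast (by omega : d + 1 - j ≤ i)
  · intro h j
    rw [mem_degreeLT, degree_lt_iff_coeff_zero]
    intro i hi
    by_contra hne
    have := h j i hne
    have h2 : d + 1 - j ≤ i := hi
    omega

theorem rows_mul {d e : ℕ} {P Q : K[X][X]} (hP : P ∈ rows K (fun b => d + 1 - b))
    (hQ : Q ∈ rows K (fun b => e + 1 - b)) : P * Q ∈ rows K (fun b => d + e + 1 - b) := by
  rw [mem_rows_iff] at *
  intro j i hne
  rw [coeff_mul, finsetSum_coeff] at hne
  obtain ⟨p, hp, hp2⟩ := Finset.exists_ne_zero_of_sum_ne_zero hne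
  rw [coeff_mul] at hp2
  obtain ⟨q, hq, hq2⟩ := Finset.exists_ne_zero_of_sum_ne_zero hp2
  have h1 := hP _ _ (left_ne_zero_of_mul hq2)
  have h2 := hQ _ _ (right_ne_zero_of_mul hq2)
  have h3 := Finset.HasAntidiagonal.mem_antidiagonal.mp hp
  have h4 := Finset.HasAntidiagonal.mem_antidiagonal.mp hq
  omega

theorem rows_pow {d : ℕ} {P : K[X][X]} (hP : P ∈ rows K (fun b => d + 1 - b)) (t : ℕ) :
    P ^ t ∈ rows K (fun b => t * d + 1 - b) := by
  induction t with
  | zero =>
    rw [mem_rows_iff]
    intro j i hne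
    rw [pow_zero] at hne
    by_cases hj : j = 0
    · subst hj
      by_cases hi : i = 0
      · omega
      · rw [coeff_one_zero, coeff_one, if_neg hi] at hne
        exact absurd rfl hne
    · rw [coeff_one, if_neg hj, coeff_zero] at hne
      exact absurd rfl hne
  | succ t ih =>
    rw [pow_succ]
    have := rows_mul ih hP
    have h : t * d + d = (t + 1) * d := by ring
    rwa [h] at this

theorem cond_mul {r m m' : ℕ} {P Q : K[X][X]} (hP : P ∈ cond K r m) (hQ : Q ∈ cond K r m') :
    P * Q ∈ cond K r (m + m') := by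
  intro j hj
  rw [coeff_mul]
  apply Finset.dvd_sum
  intro p hp
  have h3 := Finset.HasAntidiagonal.mem_antidiagonal.mp hp
  have h1 : (X : K[X]) ^ (r * (m - p.1)) ∣ P.coeff p.1 := by
    by_cases h : p.1 < m
    · exact hP _ h
    · have : m - p.1 = 0 := by omega
      rw [this, mul_zero, pow_zero]
      exact one_dvd _
  have h2 : (X : K[X]) ^ (r * (m' - p.2)) ∣ Q.coeff p.2 := by
    by_cases h : p.2 < m'
    · exact hQ _ h
    · have : m' - p.2 = 0 := by omega
      rw [this, mul_zero, pow_zero]
      exact one_dvd _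
  have h4 : r * (m + m' - j) ≤ r * (m - p.1) + r * (m' - p.2) := by
    rw [← mul_add]
    apply Nat.mul_le_mul_left
    omega
  refine dvd_trans (pow_dvd_pow _ h4) ?_
  rw [pow_add]
  exact mul_dvd_mul h1 h2

theorem cond_pow {r m : ℕ} {P : K[X][X]} (hP : P ∈ cond K r m) (t : ℕ) :
    P ^ t ∈ cond K r (t * m) := by
  induction t with
  | zero =>
    intro j hj
    rw [zero_mul] at hj
    omega
  | succ t ih =>
    rw [pow_succ]
    have := cond_mul ih hP
    have h : t * m + m = (t + 1) * m := by ring
    rwa [h] at this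

/-- The scaling trick: if the conditions are injective on degree `t d` for multiplicity `t m`
then they are injective on degree `d` for multiplicity `m`. -/
theorem good_scale {r m d : ℕ} (t : ℕ) (ht : 0 < t)
    (h : Good K r (t * m) (fun b => t * d + 1 - b) ((t * d + 2).choose 2)) :
    Good K r m (fun b => d + 1 - b) ((d + 2).choose 2) := by
  rw [← Shell.sum_sub_eq] at h
  obtain ⟨η, hη⟩ := h.inj (t * d + 1) (by intro c hc; omega)
  rw [← Shell.sum_sub_eq]
  apply good_of_inj (d + 1) η
  intro P hP hP0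
  have h1 : P ^ t = 0 := by
    apply hη _ (rows_pow hP t)
    rw [Phi_eq_zero_iff] at hP0 ⊢
    rw [taylor_pow]
    exact cond_pow hP0 t
  exact pow_eq_zero_iff ht.ne' |>.mp h1

end Pool.Agent.Helper7.Scale
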