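import Pool.Agent.Helper7.FreeMove
import Pool.Agent.Helper7.FatScale
import Pool.Agent.Helper42.Envelope

set_option autoImplicit false

open Polynomial

namespace Pool.Agent.Helper7.Free

open Pool.Agent.Helper41.Fat Pool.Agent.Helper42.Game

/-- The lower envelope is transported by a move, with interval index sets. -/
theorem lower_stepI {k : ℕ} {n : ℕ → ℕ} {D ρ ρ' : ℝ} (hρ : 0 < ρ) (hk : ρ * ρ' = k)
    (hle : ρ ≤ ρ') (hn : ∀ c : ℕ, ρ * D - ρ ^ 2 * (c : ℝ) ≤ n c) :
    ∃ n' : ℕ → ℕ, StepI k n n' ∧ ∀ i : ℕ, ρ' * (D - (ρ' - ρ)) - ρ' ^ 2 * (i : ℝ) ≤ n' i := by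
  have hρ' : 0 < ρ' := lt_of_lt_of_le hρ hle
  have hk0 : (0 : ℝ) < k := by rw [← hk]; positivity
  have hkN : 0 < k := by exact_mod_cast hk0
  set β' : ℝ := ρ' * (D - (ρ' - ρ)) with hβ'
  refine ⟨fun i => ⌈β' - ρ' ^ 2 * (i : ℝ)⌉₊, ⟨⌈β'⌉₊ + 1, fun i => ?_⟩, fun i => Nat.le_ceil _⟩
  refine ⟨k * i, le_rfl, fun u hu1 hu2 => ?_⟩
  have hu3 : ((u - k * i : ℕ) : ℝ) < β' - ρ' ^ 2 * (i : ℝ) := by
    apply Nat.lt_ceil.1
    have h : u < k * i + ⌈β' - ρ' ^ 2 * (i : ℝ)⌉₊ := hu2
    omega
  have hu4 : (u : ℝ) < k * i + (β' - ρ' ^ 2 * (i : ℝ)) := by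
    rw [Nat.cast_sub hu1] at hu3
    push_cast at hu3
    linarith
  have hi0 : (0 : ℝ) ≤ i := Nat.cast_nonneg i
  -- the quotient
  have hdiv1 : k * (u / k) ≤ u := Nat.mul_div_le u k
  have hdiv2 : u < k * (u / k) + k := by
    have := Nat.lt_mul_div_succ u hkN
    rw [Nat.mul_add] at this
    simpa using this
  have hiu : i ≤ u / k := by
    rw [Nat.le_div_iff_mul_le hkN]; rw [mul_comm]; exact hu1
  have huβ : (u : ℝ) < β' := by
    have : (k : ℝ) * i ≤ ρ' ^ 2 * i := by
      rw [← hk]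
      have : ρ * ρ' ≤ ρ' ^ 2 := by rw [sq]; exact mul_le_mul_of_nonneg_right hle hρ'.le
      exact mul_le_mul_of_nonneg_right this hi0
    linarith
  have huB : u < ⌈β'⌉₊ := Nat.lt_ceil.2 huβ
  refine ⟨u / k - i, fun c hc1 hc2' => ?_⟩
  have hc2 : c ≤ u / k := by omega
  rw [mem_act]
  refine ⟨?_, ?_, ?_⟩
  · have : u / k ≤ u := Nat.div_le_self u k
    omega
  · calc k * c ≤ k * (u / k) := Nat.mul_le_mul_left k hc2
      _ ≤ u := hdiv1
  · have hreal : (u : ℝ) < k * c + n c := by
      have h1 := hn c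
      have hc1' : ((u / k : ℕ) : ℝ) - i ≤ c := by
        have : u / k ≤ c + i := by omega
        have : ((u / k : ℕ) : ℝ) ≤ c + i := by exact_mod_cast this
        linarith
      have hdiv2' : (u : ℝ) + 1 ≤ k * ((u / k : ℕ) : ℝ) + k := by exact_mod_cast hdiv2
      have hkc : (u : ℝ) + 1 - k - k * i ≤ k * c := by
        have := mul_le_mul_of_nonneg_left hc1' hk0.le
        linarith
      -- it suffices to compare after multiplication by ρ'
      have hkey : ρ' * u < ρ' * (k * c + n c) := by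
        have h2 : ρ' * (ρ * D - ρ ^ 2 * (c : ℝ)) ≤ ρ' * n c := mul_le_mul_of_nonneg_left h1 hρ'.le
        have h3 : (ρ' - ρ) * ((u : ℝ) + 1 - k - k * i) ≤ (ρ' - ρ) * (k * c) :=
          mul_le_mul_of_nonneg_left hkc (by linarith)
        have h4 : ρ * u < ρ * (k * i + (β' - ρ' ^ 2 * (i : ℝ))) := by
          exact mul_lt_mul_of_pos_left hu4 hρ
        have e1 : ρ' * (ρ * D - ρ ^ 2 * (c : ℝ)) = k * D - ρ * (k * c) := by
          rw [← hk]; ring
        have e2 : ρ * (k * i + (β' - ρ' ^ 2 * (i : ℝ)))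
            = k * D - k * (ρ' - ρ) - (ρ' - ρ) * (k * i) := by
          rw [hβ', ← hk]; ring
        rw [e1] at h2
        rw [e2] at h4
        have e3 : (ρ' - ρ) * ((u : ℝ) + 1 - k - k * i)
            = ρ' * u - ρ * u + (ρ' - ρ) - k * (ρ' - ρ) - (ρ' - ρ) * (k * i) := by ring
        have e4 : ρ' * (k * c + n c) = ρ' * n c + (ρ' - ρ) * (k * c) + ρ * (k * c) := by ring
        rw [e3] at h3
        rw [e4]
        linarith
      exact lt_of_mul_lt_mul_left hkey hρ'.le
    exact_mod_cast hreal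

variable {K : Type*} [Field K]

theorem above_chainI [Infinite K] {r m R : ℕ} {a ρ D : ℝ} (ha : 0 < a) (h : Chain a ρ)
    (hg : ∀ n : ℕ → ℕ, Above ρ (D - (ρ - a)) n → Good K r m n R) :
    ∀ n : ℕ → ℕ, Above a D n → Good K r m n R := by
  induction h with
  | base => simpa using hg
  | @step ρ ρ' k h1 h2 h3 ih =>
    apply ih
    intro n hn
    have hpos := lt_of_lt_of_le ha h1.le
    obtain ⟨n', hs, hn'⟩ := lower_stepI hpos h3 h2 hn
    apply moveI hs
    apply hg
    intro i
    have := hn' i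
    have e : D - (ρ - a) - (ρ' - ρ) = D - (ρ' - a) := by ring
    rw [e] at this
    exact this

/-- **Regularity criterion for chains starting at `1`, in every characteristic.** -/
theorem chain_regularI [Infinite K] {r m d : ℕ} {ρ : ℝ} (h : Chain 1 ρ)
    (h1 : m * ρ ≤ d + 2 - ρ) (h2 : r * m ≤ ρ * (d + 2 - ρ)) :
    Good K r m (fun b => d + 1 - b) (r * (m + 1).choose 2) := by
  have hρ : 0 < ρ := lt_of_lt_of_le one_pos h.le
  have e : (d : ℝ) + 1 - (ρ - 1) = d + 2 - ρ := by ring
  refine above_chainI (K := K) (D := (d : ℝ) + 1) one_pos h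
    (fun n hn => good_of_above hρ ?_ ?_ n hn) (fun b => d + 1 - b) ?_
  · rw [e]; exact h1
  · rw [e]; exact h2
  · intro c
    have : (d : ℝ) + 1 - c ≤ ((d + 1 - c : ℕ) : ℝ) := by
      rw [sub_le_iff_le_add]
      have : d + 1 ≤ (d + 1 - c) + c := by omega
      exact_mod_cast this
    linarith

/-! ### Emptiness from regularity -/

/-- The conditions as a linear map to a finite-dimensional space. -/
noncomputable def Lm (r m : ℕ) (η : K[X]) : K[X][X] →ₗ[K] (Shell.Idx r m → K) :=
  LinearMap.pi (fun c => (lcoeff K (c.2 : ℕ)) ∘ₗ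
    ((lcoeff K[X] (c.1 : ℕ)).restrictScalars K) ∘ₗ ((taylor η).restrictScalars K))

theorem Lm_apply (r m : ℕ) (η : K[X]) (P : K[X][X]) (c : Shell.Idx r m) :
    Lm r m η P c = ((taylor η P).coeff (c.1 : ℕ)).coeff (c.2 : ℕ) := rfl

theorem Lm_eq_zero_iff {r m : ℕ} {η : K[X]} {P : K[X][X]} :
    Lm r m η P = 0 ↔ taylor η P ∈ cond K r m := by
  constructor
  · intro h j hj
    rw [X_pow_dvd_iff]
    intro i hi
    exact congrFun h ⟨⟨j, hj⟩, ⟨i, hi⟩⟩
  · intro h
    funext c
    rw [Lm_apply]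
    exact (X_pow_dvd_iff.1 (h c.1 c.1.2)) c.2 c.2.2

theorem empty_of_regular {r m m' d d' : ℕ} (hd : d ≤ d') (hm : m ≤ m')
    (hg : Good K r m' (fun b => d' + 1 - b) (r * (m' + 1).choose 2))
    (hlt : (d' + 2).choose 2 + r * (m' - m + 1).choose 2 <
      (d' - d + 2).choose 2 + r * (m' + 1).choose 2) :
    Good K r m (fun b => d + 1 - b) ((d + 2).choose 2) := by
  classical
  obtain ⟨η, w, hw, hl⟩ := hg
  rw [← Shell.sum_sub_eq]
  apply good_of_inj (d + 1) η
  intro P hP hP0
  by_contra hPne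
  rw [Phi_eq_zero_iff] at hP0
  -- the two spaces
  obtain ⟨hfin1, hrank1⟩ := finrank_rows_le (K := K) (d' + 1) (fun b => d' + 1 - b)
    (fun c hc => by omega)
  obtain ⟨hfin2, _⟩ := finrank_rows_le (K := K) (d' - d + 1) (fun b => d' - d + 1 - b)
    (fun c hc => by omega)
  rw [Shell.sum_sub_eq] at hrank1
  have hrank2 : (d' - d + 2).choose 2 ≤
      Module.finrank K (rows K (fun b => d' - d + 1 - b)) := by
    have hli : LinearIndependent K (fun p : (Σ c : Fin (d' - d + 1), Fin (d' - d + 1 - c)) =>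
        (⟨monoFam K (d' - d + 1) (fun b => d' - d + 1 - b) p,
          mono_mem (d' - d + 1) (fun b => d' - d + 1 - b) p⟩ :
          rows K (fun b => d' - d + 1 - b))) := by
      apply LinearIndependent.of_comp (rows K (fun b => d' - d + 1 - b)).subtype
      exact mono_linearIndependent (K := K) (d' - d + 1) (fun b => d' - d + 1 - b)
    have h1 := hli.fintype_card_le_finrank
    rw [card_idx (d' - d + 1) (fun b => d' - d + 1 - b), Shell.sum_sub_eq] at h1
    exact h1
  -- the restricted condition maps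
  let f : rows K (fun b => d' + 1 - b) →ₗ[K] (Shell.Idx r m' → K) :=
    (Lm r m' η).domRestrict (rows K (fun b => d' + 1 - b))
  let g : rows K (fun b => d' - d + 1 - b) →ₗ[K] (Shell.Idx r (m' - m) → K) :=
    (Lm r (m' - m) η).domRestrict (rows K (fun b => d' - d + 1 - b))
  have hf : r * (m' + 1).choose 2 ≤ Module.finrank K (LinearMap.range f) := by
    have hli : LinearIndependent K (fun i : Fin (r * (m' + 1).choose 2) =>
        (⟨f ⟨w i, hw i⟩, LinearMap.mem_range_self f _⟩ : LinearMap.range f)) := by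
      apply LinearIndependent.of_comp (LinearMap.range f).subtype
      rw [Fintype.linearIndependent_iff] at hl ⊢
      intro c hc
      apply hl c
      have h1 : ∑ i, c i • Phi K r m' η (w i) = Phi K r m' η (∑ i, c i • w i) := by
        simp only [map_sum, map_smul]
      rw [h1, Phi_eq_zero_iff, ← Lm_eq_zero_iff, map_sum]
      rw [← hc]
      apply Finset.sum_congr rfl
      intro i _
      rw [map_smul]
      rfl
    have h1 := hli.fintype_card_le_finrank
    rwa [Fintype.card_fin] at h1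
  have hg2 : Module.finrank K (LinearMap.range g) ≤ r * (m' - m + 1).choose 2 := by
    rw [← Shell.card_Idx, ← Module.finrank_fintype_fun_eq_card K (η := Shell.Idx r (m' - m))]
    exact Submodule.finrank_le _
  have hf3 := LinearMap.finrank_range_add_finrank_ker (K := K)
    (V := rows K (fun b => d' + 1 - b)) (V₂ := Shell.Idx r m' → K) f
  have hg3 := LinearMap.finrank_range_add_finrank_ker (K := K)
    (V := rows K (fun b => d' - d + 1 - b)) (V₂ := Shell.Idx r (m' - m) → K) g
  -- multiplication by `P`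
  have hmul : ∀ Q : rows K (fun b => d' - d + 1 - b), (P * (Q : K[X][X])) ∈
      rows K (fun b => d' + 1 - b) := by
    intro Q
    have h1 := Scale.rows_mul hP Q.2
    have h2 : d + (d' - d) = d' := by omega
    rwa [h2] at h1
  let μ : LinearMap.ker g →ₗ[K] LinearMap.ker f :=
    { toFun := fun Q => ⟨⟨P * ((Q : rows K (fun b => d' - d + 1 - b)) : K[X][X]), hmul Q⟩, by
        have h1 : Lm r (m' - m) η ((Q : rows K (fun b => d' - d + 1 - b)) : K[X][X]) = 0 := Q.2
        rw [Lm_eq_zero_iff] at h1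
        show Lm r m' η (P * ((Q : rows K (fun b => d' - d + 1 - b)) : K[X][X])) = 0
        rw [Lm_eq_zero_iff, taylor_mul]
        have h2 := Scale.cond_mul hP0 h1
        have h3 : m + (m' - m) = m' := by omega
        rwa [h3] at h2⟩
      map_add' := by
        intro Q R
        apply Subtype.ext
        apply Subtype.ext
        show P * (((Q : rows K (fun b => d' - d + 1 - b)) : K[X][X]) +
          ((R : rows K (fun b => d' - d + 1 - b)) : K[X][X])) = _
        rw [mul_add]
        rfl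
      map_smul' := by
        intro a Q
        apply Subtype.ext
        apply Subtype.ext
        show P * (a • ((Q : rows K (fun b => d' - d + 1 - b)) : K[X][X])) = _
        rw [mul_smul_comm]
        rfl }
  have hμ : Function.Injective μ := by
    intro Q R h
    have h1 : P * ((Q : rows K (fun b => d' - d + 1 - b)) : K[X][X]) =
        P * ((R : rows K (fun b => d' - d + 1 - b)) : K[X][X]) := by
      have := congrArg (fun z : LinearMap.ker f =>
        ((z : rows K (fun b => d' + 1 - b)) : K[X][X])) h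
      exact this
    have h2 := mul_left_cancel₀ hPne h1
    exact Subtype.ext (Subtype.ext h2)
  have hker : Module.Finite K (LinearMap.ker f) :=
    @FiniteDimensional.finiteDimensional_submodule K (rows K (fun b => d' + 1 - b)) _ _ _ hfin1
      (LinearMap.ker f)
  have h4 := LinearMap.finrank_le_finrank_of_injective hμ
  have h5 : (d' + 1 + 1).choose 2 = (d' + 2).choose 2 := rfl
  omega

/-- **Emptiness criterion for chains starting at `1`, in every characteristic.** -/
theorem chain_emptyI [Infinite K] {r m d : ℕ} {ρ : ℝ} (h : Chain 1 ρ) (h1 : (d : ℝ) < m * ρ)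
    (h2 : ρ * d < r * m) : Good K r m (fun b => d + 1 - b) ((d + 2).choose 2) := by
  have hρ : 0 < ρ := lt_of_lt_of_le one_pos h.le
  have hd0 : (0 : ℝ) ≤ d := Nat.cast_nonneg d
  have hrm : (0 : ℝ) < r * m := lt_of_le_of_lt (by positivity) h2
  have hr : (0 : ℝ) < r := by
    rcases (Nat.cast_nonneg r : (0 : ℝ) ≤ r).lt_or_eq with h | h
    · exact h
    · rw [← h] at hrm
      simp at hrm
  set κ : ℝ := max ρ (r / ρ) with hκ
  have hκ1 : ρ ≤ κ := le_max_left _ _
  have hκ2 : (r : ℝ) / ρ ≤ κ := le_max_right _ _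
  have hκ0 : 0 < κ := by linarith
  have hdκ : d * κ < r * m := by
    rcases max_choice ρ ((r : ℝ) / ρ) with h3 | h3
    · rw [hκ, h3]
      linarith
    · rw [hκ, h3, mul_div_assoc', div_lt_iff₀ hρ]
      have : (r : ℝ) * d < r * (m * ρ) := mul_lt_mul_of_pos_left h1 hr
      linarith
  -- choice of the auxiliary multiplicity
  obtain ⟨t, ht⟩ := exists_nat_gt ((d * (2 * ρ + 7 + d) + r * m * m) / (2 * (r * m - d * κ)))
  set m' : ℕ := t + m with hm'
  set d' : ℕ := ⌈κ * m' + ρ⌉₊ + d with hd'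
  have hpos : 0 < 2 * ((r : ℝ) * m - d * κ) := by linarith
  rw [div_lt_iff₀ hpos] at ht
  have hceil1 : κ * m' + ρ ≤ (⌈κ * m' + ρ⌉₊ : ℝ) := Nat.le_ceil _
  have hceil2 : (⌈κ * m' + ρ⌉₊ : ℝ) < κ * m' + ρ + 1 := Nat.ceil_lt_add_one (by positivity)
  have hd'R : (d' : ℝ) = (⌈κ * m' + ρ⌉₊ : ℝ) + d := by
    rw [hd']
    push_cast
    ring
  have hm'R : (m' : ℝ) = t + m := by
    rw [hm']
    push_cast
    ring
  have hm0 : (0 : ℝ) ≤ m := Nat.cast_nonneg m
  have hm'0 : (0 : ℝ) ≤ m' := Nat.cast_nonneg m'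
  apply empty_of_regular (m' := m') (d' := d') (by omega) (by omega)
  · apply chain_regularI h
    · have h3 : (m' : ℝ) * ρ ≤ κ * m' := by
        rw [mul_comm]
        exact mul_le_mul_of_nonneg_right hκ1 hm'0
      linarith
    · have h3 : κ * m' ≤ d' + 2 - ρ := by linarith
      have h4 : ρ * (κ * m') ≤ ρ * (d' + 2 - ρ) := mul_le_mul_of_nonneg_left h3 hρ.le
      have h5 : (r : ℝ) ≤ ρ * κ := by
        rw [div_le_iff₀ hρ] at hκ2
        linarith
      have h6 : (r : ℝ) * m' ≤ ρ * κ * m' := mul_le_mul_of_nonneg_right h5 hm'0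
      linarith
  · have h3 : (((d' + 2).choose 2 + r * (m' - m + 1).choose 2 : ℕ) : ℝ) <
        (((d' - d + 2).choose 2 + r * (m' + 1).choose 2 : ℕ) : ℝ) := by
      have e1 : ((d' - d : ℕ) : ℝ) = d' - d := by
        rw [Nat.cast_sub (by omega)]
      have e2 : ((m' - m : ℕ) : ℝ) = m' - m := by
        rw [Nat.cast_sub (by omega)]
      rw [Nat.cast_add, Nat.cast_add, Nat.cast_mul, Nat.cast_mul, Nat.cast_choose_two,
        Nat.cast_choose_two, Nat.cast_choose_two, Nat.cast_choose_two]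
      push_cast
      rw [e1, e2]
      have h4 : (d : ℝ) * (2 * d' - d + 3) < r * m * (2 * m' - m + 1) := by
        have h5 : (d' : ℝ) ≤ κ * m' + ρ + 1 + d := by linarith
        have h6 : (d : ℝ) * (2 * d' - d + 3) ≤ d * (2 * (κ * m' + ρ + 1 + d) - d + 3) :=
          mul_le_mul_of_nonneg_left (by linarith) hd0
        have h7 : (t : ℝ) ≤ m' := by linarith
        have h8 : (t : ℝ) * (2 * ((r : ℝ) * m - d * κ)) ≤ m' * (2 * ((r : ℝ) * m - d * κ)) :=
          mul_le_mul_of_nonneg_right h7 hpos.le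
        have h9 : (d : ℝ) * (2 * (κ * m' + ρ + 1 + d) - d + 3) =
          2 * (d * κ * m') + d * (2 * ρ + 5 + d) := by ring
        have h10 : (r : ℝ) * m * (2 * m' - m + 1) = 2 * (r * m * m') - r * m * m + r * m := by ring
        have h11 : (m' : ℝ) * (2 * (r * m - d * κ)) = 2 * (r * m * m') - 2 * (d * κ * m') := by ring
        have h12 : (d : ℝ) * (2 * ρ + 7 + d) = d * (2 * ρ + 5 + d) + 2 * d := by ring
        rw [h9] at h6
        rw [h11] at h8
        rw [h12] at ht
        rw [h10]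
        linarith
      linarith
    exact_mod_cast h3

end Pool.Agent.Helper7.Free
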