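import Pool.Agent.Helper7.NtNear

set_option autoImplicit false

namespace Pool.Agent.Helper7.Nt

open Filter

theorem exists_log_bound (C k : ℕ) : ∃ r0 : ℕ, ∀ r ≥ r0, C * (Nat.log 2 r + 1) ^ k ≤ r := by
  have h1 : Tendsto (fun n : ℕ => ((n : ℝ)) ^ k / (2 : ℝ) ^ n) atTop (nhds 0) :=
    tendsto_pow_const_div_const_pow_of_one_lt k (by norm_num)
  have h2 : ∀ᶠ n : ℕ in atTop, ((n : ℝ)) ^ k / (2 : ℝ) ^ n < 1 / (2 * (C + 1)) :=
    h1.eventually_lt_const (by positivity)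
  obtain ⟨n0, hn0⟩ := eventually_atTop.mp h2
  refine ⟨2 ^ n0, fun r hr => ?_⟩
  have hr0 : r ≠ 0 := by
    have : 0 < 2 ^ n0 := by positivity
    omega
  have hlog : n0 ≤ Nat.log 2 r := by
    rw [Nat.le_log_iff_pow_le (by norm_num) hr0]
    exact hr
  have h3 := hn0 (Nat.log 2 r + 1) (by omega)
  rw [div_lt_div_iff₀ (by positivity) (by positivity), one_mul] at h3
  have h4 : ((C * (Nat.log 2 r + 1) ^ k : ℕ) : ℝ) ≤ ((2 ^ Nat.log 2 r : ℕ) : ℝ) := by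
    push_cast
    have h5 : (2 : ℝ) ^ (Nat.log 2 r + 1) = 2 * 2 ^ (Nat.log 2 r) := by rw [pow_succ]; ring
    rw [h5] at h3
    push_cast at h3
    have h6 : (0 : ℝ) ≤ ((Nat.log 2 r : ℝ) + 1) ^ k := by positivity
    nlinarith
  have h5 : C * (Nat.log 2 r + 1) ^ k ≤ 2 ^ Nat.log 2 r := by exact_mod_cast h4
  exact le_trans h5 (Nat.pow_log_le_self 2 hr0)

/-- For every `ν`, for all large `r` there is a chain value `x` with `x ^ 2` within the factor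
`1 - r ^ (-ν)` of `r`. -/
theorem exists_chain (ν : ℕ) : ∃ r0 : ℕ, ∀ r ≥ r0, ∃ x, Chain x ∧
    Real.log r - 1 / (r : ℝ) ^ ν ≤ 2 * Real.log x ∧ 2 * Real.log x ≤ Real.log r := by
  set c : ℕ := 2 ^ (ν ^ 2 + 5 * ν + 5) with hcdef
  set D : ℕ := 64 * 2 ^ ν * c * (ν + 1) with hD
  set c0 : ℕ := ∑ i ∈ Finset.range ν, i with hc0
  obtain ⟨r1, hr1⟩ := exists_log_bound (256 * D ^ 2) 2
  obtain ⟨r2, hr2⟩ := exists_log_bound (2 * 8 ^ (ν + 1) * 2 ^ c0 * ν.factorial * D ^ (2 * ν)) (2 * ν)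
  refine ⟨max r1 (max r2 100), fun r hr => ?_⟩
  have hrr1 := hr1 r (le_trans (le_max_left _ _) hr)
  have hrr2 := hr2 r (le_trans (le_trans (le_max_left _ _) (le_max_right _ _)) hr)
  have hr100 : 100 ≤ r := le_trans (le_trans (le_max_right _ _) (le_max_right _ _)) hr
  have hcpos : 0 < c := by rw [hcdef]; positivity
  set ℓ := Nat.log 2 r + 1 with hℓ
  set M := c * (ν * ℓ + 1) with hM
  set h := 64 * (M * 2 ^ ν) with hh
  have hMpos : 0 < M := by rw [hM]; positivity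
  have hhpos : 0 < h := by rw [hh]; positivity
  have hMh : 4 * M ≤ h := by
    rw [hh]
    have : M ≤ M * 2 ^ ν := Nat.le_mul_of_pos_right _ (by positivity)
    omega
  have hhD : h ≤ D * ℓ := by
    rw [hh, hM, hD]
    have h1 : ν * ℓ + 1 ≤ (ν + 1) * ℓ := by
      rw [Nat.add_mul, one_mul]
      have : 1 ≤ ℓ := by omega
      omega
    calc 64 * (c * (ν * ℓ + 1) * 2 ^ ν) ≤ 64 * (c * ((ν + 1) * ℓ) * 2 ^ ν) := by
          apply Nat.mul_le_mul_left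
          apply Nat.mul_le_mul_right
          exact Nat.mul_le_mul_left _ h1
      _ = 64 * 2 ^ ν * c * (ν + 1) * ℓ := by ring
  have hr256 : 256 * h ^ 2 ≤ r := by
    refine le_trans ?_ hrr1
    calc 256 * h ^ 2 ≤ 256 * (D * ℓ) ^ 2 := Nat.mul_le_mul_left _ (Nat.pow_le_pow_left hhD 2)
      _ = 256 * D ^ 2 * ℓ ^ 2 := by ring
  have hrh : 256 * h ≤ r := by
    refine le_trans ?_ hr256
    apply Nat.mul_le_mul_left
    nlinarith
  set L := Nat.sqrt (r / 2) with hL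
  have hL3 : 3 ≤ L := by
    rw [hL, Nat.le_sqrt]
    omega
  have hLle : L * L ≤ r / 2 := Nat.sqrt_le _
  have hLlt : r / 2 < (L + 1) * (L + 1) := Nat.lt_succ_sqrt _
  have hL1 : 2 * L ^ 2 ≤ r := by
    rw [pow_two]
    omega
  have hL2 : r ≤ 4 * L ^ 2 := by
    have h1 : r / 2 < L ^ 2 + 2 * L + 1 := by nlinarith
    have h2 : 4 * L + 1 ≤ 2 * L ^ 2 := by nlinarith
    omega
  set P := (r - L ^ 2) / (4 * h) with hP
  have hP1 : P * (4 * h) ≤ r - L ^ 2 := Nat.div_mul_le_self _ _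
  have hP2 : r - L ^ 2 < (P + 1) * (4 * h) := by
    have := Nat.lt_div_mul_add (a := r - L ^ 2) (b := 4 * h) (by omega)
    rw [← hP] at this
    rw [Nat.add_mul, one_mul]
    exact this
  have hrL : r ≤ 2 * (r - L ^ 2) := by omega
  have hP3 : 3 ≤ P := by
    by_contra hcon
    have h1 : (P + 1) * (4 * h) ≤ 3 * (4 * h) := Nat.mul_le_mul_right _ (by omega)
    omega
  set T := P - 2 with hT
  have hT1 : L ^ 2 + 8 * h + 4 * h * T ≤ r := by
    have h1 : 4 * h * T + 8 * h = P * (4 * h) := by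
      have : P = T + 2 := by omega
      rw [this]
      ring
    omega
  have hT2 : r < L ^ 2 + 12 * h + 4 * h * T := by
    have h1 : 4 * h * T + 12 * h = (P + 1) * (4 * h) := by
      have : P = T + 2 := by omega
      rw [this]
      ring
    omega
  have hT4 : r ≤ 16 * h * T := by
    have h1 : 16 * h * T = 4 * (4 * h * T) := by ring
    rw [h1]
    omega
  have hMT : M * 2 ^ (ν + 1) ≤ T := by
    have h1 : 32 * (M * 2 ^ (ν + 1)) = h := by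
      rw [hh, pow_succ]
      ring
    by_contra hcon
    have h2 : T < M * 2 ^ (ν + 1) := by omega
    have h3 : 16 * h * T ≤ 16 * h * h := by
      apply Nat.mul_le_mul_left
      omega
    nlinarith
  have hTM : 2 ^ (ν + 1) ≤ T / M := by
    rw [Nat.le_div_iff_mul_le hMpos, mul_comm]
    exact hMT
  have hTM0 : T / M ≠ 0 := by
    have : 0 < 2 ^ (ν + 1) := by positivity
    omega
  have hlogTM : ν + 1 ≤ Nat.log 2 (T / M) := by
    rw [Nat.le_log_iff_pow_le (by norm_num) hTM0]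
    exact hTM
  set Q := Nat.log 2 (T / M) - (ν + 1) with hQ
  have hQlog : Q + (ν + 1) = Nat.log 2 (T / M) := by omega
  have hTr : T ≤ r := by
    have : T ≤ 4 * h * T := Nat.le_mul_of_pos_left _ (by omega)
    omega
  have hQℓ : Q ≤ ℓ := by
    have h1 : Nat.log 2 (T / M) ≤ Nat.log 2 r :=
      Nat.log_mono_right (le_trans (Nat.div_le_self _ _) hTr)
    omega
  have hQT : M * (2 ^ (ν + Q) + 1) ≤ T := by
    have h1 : 2 ^ (Q + (ν + 1)) ≤ T / M := by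
      rw [hQlog]
      exact Nat.pow_log_le_self 2 hTM0
    have h2 : 2 ^ (ν + Q) + 1 ≤ 2 ^ (Q + (ν + 1)) := by
      have h3 : 2 ^ (Q + (ν + 1)) = 2 * 2 ^ (ν + Q) := by
        rw [← pow_succ']
        congr 1
        omega
      have h4 : 1 ≤ 2 ^ (ν + Q) := Nat.one_le_two_pow
      omega
    calc M * (2 ^ (ν + Q) + 1) ≤ M * (T / M) := Nat.mul_le_mul_left _ (le_trans h2 h1)
      _ ≤ T := Nat.mul_div_le T M
  have hQT2 : T < M * 2 ^ (Q + ν + 2) := by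
    have h1 : T / M < 2 ^ (Nat.log 2 (T / M) + 1) := Nat.lt_pow_succ_log_self (by norm_num) _
    rw [Nat.div_lt_iff_lt_mul hMpos, ← hQlog] at h1
    have h2 : Q + (ν + 1) + 1 = Q + ν + 2 := by omega
    rw [h2, mul_comm] at h1
    exact h1
  have hM' : c * (ν * Q + 1) ≤ M := by
    rw [hM]
    apply Nat.mul_le_mul_left
    have : ν * Q ≤ ν * ℓ := Nat.mul_le_mul_left _ hQℓ
    omega
  have hc8 : 8 ^ (ν + 1) ≤ c := by
    rw [hcdef]
    have h1 : (8 : ℕ) = 2 ^ 3 := by norm_num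
    rw [h1, ← pow_mul]
    apply Nat.pow_le_pow_right (by norm_num)
    nlinarith
  -- real quantities
  have hr0 : (0 : ℝ) < r := by exact_mod_cast (by omega : 0 < r)
  have hh0 : (0 : ℝ) < h := by exact_mod_cast hhpos
  have hM0 : (0 : ℝ) < M := by exact_mod_cast hMpos
  have hfac : (1 : ℝ) ≤ ν.factorial := by exact_mod_cast Nat.one_le_iff_ne_zero.mpr (Nat.factorial_ne_zero ν)
  set μ : ℝ := (4 * h * M : ℝ) ^ ν * 2 ^ c0 * ν.factorial / (2 * r) ^ (ν + 1) with hμ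
  have hcap : 9 / (r : ℝ) ≤ c * (μ * 2 ^ (ν * Q)) := by
    have h1 : (r : ℝ) / 2 ^ (ν + 4) ≤ 4 * h * M * 2 ^ Q := by
      rw [div_le_iff₀ (by positivity)]
      have h2 : r ≤ 16 * h * (M * 2 ^ (Q + ν + 2)) :=
        le_trans hT4 (Nat.mul_le_mul_left _ hQT2.le)
      have h3 : (r : ℝ) ≤ 16 * h * (M * 2 ^ (Q + ν + 2)) := by exact_mod_cast h2
      refine le_trans h3 (le_of_eq ?_)
      rw [pow_add, pow_add, pow_add]
      ring
    have h2 : ((r : ℝ) / 2 ^ (ν + 4)) ^ ν ≤ (4 * h * M * 2 ^ Q) ^ ν :=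
      pow_le_pow_left₀ (by positivity) h1 ν
    have h3 : ((r : ℝ) / 2 ^ (ν + 4)) ^ ν / (2 * r) ^ (ν + 1) ≤ μ * 2 ^ (ν * Q) := by
      rw [hμ, div_mul_eq_mul_div]
      apply div_le_div_of_nonneg_right _ (by positivity)
      have h4 : (4 * h * M : ℝ) ^ ν * 2 ^ c0 * ν.factorial * 2 ^ (ν * Q) =
          (4 * h * M * 2 ^ Q) ^ ν * (2 ^ c0 * ν.factorial) := by
        rw [mul_pow (4 * h * M : ℝ) (2 ^ Q) ν, ← pow_mul, mul_comm Q ν]
        ring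
      rw [h4]
      have h5 : (1 : ℝ) ≤ 2 ^ c0 * ν.factorial := by
        have : (1 : ℝ) ≤ 2 ^ c0 := one_le_pow₀ (by norm_num)
        nlinarith
      calc ((r : ℝ) / 2 ^ (ν + 4)) ^ ν ≤ (4 * h * M * 2 ^ Q) ^ ν * 1 := by
            rw [mul_one]; exact h2
        _ ≤ _ := mul_le_mul_of_nonneg_left h5 (by positivity)
    have h4 : ((r : ℝ) / 2 ^ (ν + 4)) ^ ν / (2 * r) ^ (ν + 1) =
        1 / (2 ^ (ν ^ 2 + 5 * ν + 1) * r) := by
      rw [div_pow, ← pow_mul, mul_pow, pow_succ (r : ℝ) ν]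
      have h6 : (2 : ℝ) ^ (ν ^ 2 + 5 * ν + 1) = 2 ^ ((ν + 4) * ν) * 2 ^ (ν + 1) := by
        rw [← pow_add]
        congr 1
        ring
      rw [h6]
      field_simp
    have h5 : (c : ℝ) * (1 / (2 ^ (ν ^ 2 + 5 * ν + 1) * r)) = 16 / r := by
      rw [hcdef]
      push_cast
      have h6 : (2 : ℝ) ^ (ν ^ 2 + 5 * ν + 5) = 16 * 2 ^ (ν ^ 2 + 5 * ν + 1) := by
        have : ν ^ 2 + 5 * ν + 5 = 4 + (ν ^ 2 + 5 * ν + 1) := by ring
        rw [this, pow_add]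
        norm_num
      rw [h6]
      field_simp
    calc 9 / (r : ℝ) ≤ 16 / r := div_le_div_of_nonneg_right (by norm_num) hr0.le
      _ = c * (1 / (2 ^ (ν ^ 2 + 5 * ν + 1) * r)) := h5.symm
      _ ≤ c * (μ * 2 ^ (ν * Q)) := by
        apply mul_le_mul_of_nonneg_left _ (by positivity)
        rw [← h4]
        exact h3
  obtain ⟨x, hx1, hx2, hx3⟩ := near ν r L c M h T Q hL3 hL1 hL2 (by omega) hM' hc8 hh hr256 hT1
    hT2 hQT μ hμ hcap
  refine ⟨x, hx1, le_trans ?_ hx2, hx3⟩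
  apply sub_le_sub_left
  -- `2 * 8 ^ (ν + 1) * μ ≤ r ^ (-ν)`
  rw [hμ, le_div_iff₀ (by positivity)]
  have h1 : (4 * h * M : ℝ) ≤ (h : ℝ) ^ 2 := by
    have : (4 * M : ℝ) ≤ h := by exact_mod_cast hMh
    nlinarith
  have h2 : (4 * h * M : ℝ) ^ ν ≤ ((D * ℓ : ℕ) : ℝ) ^ (2 * ν) := by
    have h3 : (h : ℝ) ≤ ((D * ℓ : ℕ) : ℝ) := by exact_mod_cast hhD
    calc (4 * h * M : ℝ) ^ ν ≤ ((h : ℝ) ^ 2) ^ ν := pow_le_pow_left₀ (by positivity) h1 ν
      _ = (h : ℝ) ^ (2 * ν) := by rw [← pow_mul]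
      _ ≤ _ := pow_le_pow_left₀ hh0.le h3 _
  have h3 : 2 * 8 ^ (ν + 1) * 2 ^ c0 * ν.factorial * ((D * ℓ : ℕ) : ℝ) ^ (2 * ν) ≤ r := by
    have h4 : ((2 * 8 ^ (ν + 1) * 2 ^ c0 * ν.factorial * D ^ (2 * ν) * ℓ ^ (2 * ν) : ℕ) : ℝ) ≤ r := by
      exact_mod_cast hrr2
    push_cast at h4 ⊢
    rw [mul_pow]
    linarith
  have h4 : (r : ℝ) ^ (ν + 1) ≤ (2 * r) ^ (ν + 1) := pow_le_pow_left₀ hr0.le (by linarith) _
  have h5 : (2 * (8 ^ (ν + 1) * ((4 * h * M : ℝ) ^ ν * 2 ^ c0 * ν.factorial / (2 * r) ^ (ν + 1)))) *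
      (r : ℝ) ^ ν = (2 * 8 ^ (ν + 1) * 2 ^ c0 * ν.factorial * (4 * h * M : ℝ) ^ ν) * (r : ℝ) ^ ν /
        (2 * r) ^ (ν + 1) := by ring
  rw [h5, div_le_one (by positivity)]
  calc (2 * 8 ^ (ν + 1) * 2 ^ c0 * ν.factorial * (4 * h * M : ℝ) ^ ν) * (r : ℝ) ^ ν
      ≤ (2 * 8 ^ (ν + 1) * 2 ^ c0 * ν.factorial * ((D * ℓ : ℕ) : ℝ) ^ (2 * ν)) * (r : ℝ) ^ ν := by
        apply mul_le_mul_of_nonneg_right _ (by positivity)
        apply mul_le_mul_of_nonneg_left h2 (by positivity)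
    _ ≤ r * (r : ℝ) ^ ν := mul_le_mul_of_nonneg_right h3 (by positivity)
    _ = (r : ℝ) ^ (ν + 1) := by rw [pow_succ]; ring
    _ ≤ _ := h4

end Pool.Agent.Helper7.Nt
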