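import Mathlib

set_option autoImplicit false

open Matrix Module

namespace Pool.Agent.Helper7

/-- Every matrix over a field has a nonvanishing minor of size its rank. -/
theorem exists_minor {K : Type*} [Field K] {m n : Type} [Fintype m] [Fintype n]
    [DecidableEq m] [DecidableEq n] (M : Matrix m n K) (q : ℕ) (hq : M.rank = q) :
    ∃ (f : Fin q → m) (g : Fin q → n), (M.submatrix f g).det ≠ 0 := by
  classical
  subst hq
  obtain ⟨κ, a, ha, hspan, hli⟩ := exists_linearIndependent' K M.col
  have : Finite κ := Finite.of_injective a ha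
  cases nonempty_fintype κ
  have hcard : Fintype.card κ = M.rank := by
    rw [rank_eq_finrank_span_cols, ← hspan, linearIndependent_iff_card_eq_finrank_span.mp hli]
    rfl
  set M1 : Matrix m κ K := M.submatrix id a with hM1
  have hM1col : M1.col = M.col ∘ a := rfl
  have hrank1 : M1.rank = M.rank := by
    rw [rank_eq_finrank_span_cols, hM1col, hspan, ← rank_eq_finrank_span_cols]
  obtain ⟨κ', a', ha', hspan', hli'⟩ := exists_linearIndependent' K M1.row
  have : Finite κ' := Finite.of_injective a' ha'
  cases nonempty_fintype κ'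
  have hcard' : Fintype.card κ' = M.rank := by
    rw [← hrank1, rank_eq_finrank_span_row, ← hspan',
      linearIndependent_iff_card_eq_finrank_span.mp hli']
    rfl
  let e : Fin M.rank ≃ κ := (Fintype.equivFinOfCardEq hcard).symm
  let e' : Fin M.rank ≃ κ' := (Fintype.equivFinOfCardEq hcard').symm
  refine ⟨a' ∘ e', a ∘ e, ?_⟩
  have h1 : LinearIndependent K (M1.submatrix (a' ∘ e') e).row := by
    have h2 : LinearIndependent K ((M1.row ∘ a') ∘ e') := hli'.comp _ e'.injective
    have h3 : (M1.submatrix (a' ∘ e') e).row =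
        (LinearEquiv.funCongrLeft K K e) ∘ ((M1.row ∘ a') ∘ e') := by
      ext i j
      simp [Matrix.row, LinearEquiv.funCongrLeft_apply, LinearMap.funLeft_apply]
    rw [h3]
    exact h2.map' (LinearEquiv.funCongrLeft K K e).toLinearMap
      (LinearEquiv.ker (LinearEquiv.funCongrLeft K K e))
  have h4 := linearIndependent_rows_iff_isUnit.mp h1
  rw [isUnit_iff_isUnit_det] at h4
  have h5 : M1.submatrix (a' ∘ e') e = M.submatrix (a' ∘ e') (a ∘ e) := rfl
  rw [h5] at h4
  exact h4.ne_zero

/-- If `M v = 0` and `L v = 0` imply `v = 0` over a domain `R`, then `M` has a nonzero minor of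
size `card D - card Λ`. -/
theorem exists_minor_of_injective {R : Type*} [CommRing R] [IsDomain R] {Γ D Λ : Type}
    [Fintype Γ] [Fintype D] [Fintype Λ] [DecidableEq Γ] [DecidableEq D]
    (M : Matrix Γ D R) (L : Matrix Λ D R)
    (hinj : ∀ v : D → R, M.mulVec v = 0 → L.mulVec v = 0 → v = 0) (q : ℕ)
    (hq : q + Fintype.card Λ ≤ Fintype.card D) :
    ∃ (f : Fin q → Γ) (g : Fin q → D), (M.submatrix f g).det ≠ 0 := by
  classical
  let K := FractionRing R
  let φ : R →+* K := algebraMap R K
  have hφ : Function.Injective φ := IsFractionRing.injective R K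
  let MK : Matrix Γ D K := M.map φ
  let LK : Matrix Λ D K := L.map φ
  have hinjK : ∀ w : D → K, MK.mulVec w = 0 → LK.mulVec w = 0 → w = 0 := by
    intro w hM hL
    obtain ⟨b, hb⟩ := IsLocalization.exist_integer_multiples_of_finite (nonZeroDivisors R) w
    choose v hv using hb
    have hbne : φ b ≠ 0 := by
      intro h
      have : (b : R) = 0 := hφ (by rw [h, map_zero])
      exact nonZeroDivisors.ne_zero b.2 this
    have hvw : ∀ i, φ (v i) = φ b * w i := by
      intro i
      have := hv i
      rw [Algebra.smul_def] at this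
      exact this
    have hMv : M.mulVec v = 0 := by
      ext i
      apply hφ
      have h1 := congrFun hM i
      simp only [Matrix.mulVec, dotProduct, Pi.zero_apply, MK, Matrix.map_apply] at h1 ⊢
      rw [map_sum, map_zero]
      have : ∀ j, φ (M i j * v j) = φ b * (φ (M i j) * w j) := by
        intro j
        rw [map_mul, hvw]
        ring
      simp_rw [this]
      rw [← Finset.mul_sum, h1, mul_zero]
    have hLv : L.mulVec v = 0 := by
      ext i
      apply hφ
      have h1 := congrFun hL i
      simp only [Matrix.mulVec, dotProduct, Pi.zero_apply, LK, Matrix.map_apply] at h1 ⊢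
      rw [map_sum, map_zero]
      have : ∀ j, φ (L i j * v j) = φ b * (φ (L i j) * w j) := by
        intro j
        rw [map_mul, hvw]
        ring
      simp_rw [this]
      rw [← Finset.mul_sum, h1, mul_zero]
    have hv0 := hinj v hMv hLv
    ext i
    have h2 := hvw i
    rw [hv0, Pi.zero_apply, map_zero] at h2
    rcases mul_eq_zero.mp h2.symm with h3 | h3
    · exact absurd h3 hbne
    · exact h3
  have hker : finrank K (LinearMap.ker MK.mulVecLin) ≤ Fintype.card Λ := by
    let ℓ : LinearMap.ker MK.mulVecLin →ₗ[K] (Λ → K) :=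
      LK.mulVecLin.comp (LinearMap.ker MK.mulVecLin).subtype
    have hℓ : Function.Injective ℓ := by
      rw [← LinearMap.ker_eq_bot, LinearMap.ker_eq_bot']
      rintro ⟨w, hw⟩ h
      have h1 : w = 0 := hinjK w (by simpa using hw) (by simpa [ℓ] using h)
      simp [h1]
    have := LinearMap.finrank_le_finrank_of_injective hℓ
    simpa using this
  have hrk : MK.rank + finrank K (LinearMap.ker MK.mulVecLin) = Fintype.card D := by
    have := LinearMap.finrank_range_add_finrank_ker MK.mulVecLin
    simpa [Matrix.rank] using this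
  have hqr : q ≤ MK.rank := by omega
  obtain ⟨f, g, hfg⟩ := exists_minor MK _ rfl
  -- reduce to a smaller minor
  have hrank : (MK.submatrix f g).rank = MK.rank := by
    rw [rank_of_isUnit _ ((isUnit_iff_isUnit_det _).mpr (isUnit_iff_ne_zero.mpr hfg)),
      Fintype.card_fin]
  have hunit : IsUnit (MK.submatrix f g) :=
    (isUnit_iff_isUnit_det _).mpr (isUnit_iff_ne_zero.mpr hfg)
  have hcols : LinearIndependent K (MK.submatrix f g).col :=
    linearIndependent_cols_iff_isUnit.mpr hunit
  let ι : Fin q → Fin MK.rank := Fin.castLE hqr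
  have hcols' : LinearIndependent K ((MK.submatrix f g).submatrix id ι).col :=
    hcols.comp ι (Fin.castLE_injective hqr)
  have hrank' : ((MK.submatrix f g).submatrix id ι).rank = q := by
    rw [rank_eq_finrank_span_cols, ← Set.finrank,
      ← linearIndependent_iff_card_eq_finrank_span.mp hcols', Fintype.card_fin]
  obtain ⟨f', g', hfg'⟩ := exists_minor ((MK.submatrix f g).submatrix id ι) q hrank'
  refine ⟨f ∘ f', g ∘ ι ∘ g', ?_⟩
  intro h0
  apply hfg'
  have h1 : ((MK.submatrix f g).submatrix id ι).submatrix f' g' =
      φ.mapMatrix (M.submatrix (f ∘ f') (g ∘ ι ∘ g')) := by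
    ext i j
    rfl
  rw [h1, ← RingHom.map_det, h0, map_zero]

end Pool.Agent.Helper7
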