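import Pool.Agent.Helper7.ShellA
import Pool.Agent.Helper7.LinAlg
import Pool.Agent.Helper41.FatCore

set_option autoImplicit false

open MvPolynomial Module

namespace Pool.Agent.Helper7.Shell

noncomputable section

/-- A matrix over a field of rank at least `q` has a nonzero minor of size `q`. -/
theorem exists_minor_le {K : Type*} [Field K] {m n : Type} [Fintype m] [Fintype n]
    [DecidableEq m] [DecidableEq n] (M : Matrix m n K) (q : ℕ) (hq : q ≤ M.rank) :
    ∃ (f : Fin q → m) (g : Fin q → n), (M.submatrix f g).det ≠ 0 := by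
  obtain ⟨f, g, hfg⟩ := exists_minor M _ rfl
  have hunit : IsUnit (M.submatrix f g) :=
    (Matrix.isUnit_iff_isUnit_det _).mpr (isUnit_iff_ne_zero.mpr hfg)
  have hcols : LinearIndependent K (M.submatrix f g).col :=
    Matrix.linearIndependent_cols_iff_isUnit.mpr hunit
  let ι : Fin q → Fin M.rank := Fin.castLE hq
  have hcols' : LinearIndependent K ((M.submatrix f g).submatrix id ι).col :=
    hcols.comp ι (Fin.castLE_injective hq)
  have hrank' : ((M.submatrix f g).submatrix id ι).rank = q := by
    rw [Matrix.rank_eq_finrank_span_cols, ← Set.finrank,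
      ← linearIndependent_iff_card_eq_finrank_span.mp hcols', Fintype.card_fin]
  obtain ⟨f', g', hfg'⟩ := exists_minor ((M.submatrix f g).submatrix id ι) q hrank'
  exact ⟨f ∘ f', g ∘ ι ∘ g', hfg'⟩

theorem le_rank_of_minor {K : Type*} [Field K] {m n : Type} [Fintype m] [Fintype n]
    [DecidableEq m] [DecidableEq n] (M : Matrix m n K) (q : ℕ) (f : Fin q → m) (g : Fin q → n)
    (h : (M.submatrix f g).det ≠ 0) : q ≤ M.rank := by
  have hunit : IsUnit (M.submatrix f g) :=
    (Matrix.isUnit_iff_isUnit_det _).mpr (isUnit_iff_ne_zero.mpr h)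
  have hcols : LinearIndependent K (M.submatrix f g).col :=
    Matrix.linearIndependent_cols_iff_isUnit.mpr hunit
  -- the columns `g i` of `M` are linearly independent
  have h1 : LinearIndependent K (fun i => M.col (g i)) := by
    rw [Fintype.linearIndependent_iff] at hcols ⊢
    intro c hc
    apply hcols c
    ext j
    have := congrFun hc (f j)
    simpa [Finset.sum_apply, Matrix.col] using this
  rw [Matrix.rank_eq_finrank_span_cols]
  have h2 : finrank K (Submodule.span K (Set.range fun i => M.col (g i))) = q := by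
    rw [finrank_span_eq_card h1, Fintype.card_fin]
  rw [← h2]
  apply Submodule.finrank_mono
  apply Submodule.span_mono
  rintro _ ⟨i, rfl⟩
  exact ⟨g i, rfl⟩

/-! ### comparison with `K[X][X]` -/

section
variable {K : Type*} [Field K]

/-- The homomorphism `K[x][y] → K[x,y]`. -/
def theta (K : Type*) [Field K] : Polynomial (Polynomial K) →+* MvPolynomial (Fin 2) K :=
  Polynomial.eval₂RingHom ((Polynomial.aeval (X 0 : MvPolynomial (Fin 2) K)).toRingHom) (X 1)

theorem theta_C (a : Polynomial K) :
    theta K (Polynomial.C a) = Polynomial.aeval (X 0 : MvPolynomial (Fin 2) K) a := by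
  simp [theta]

theorem theta_X : theta K Polynomial.X = X 1 := by
  simp [theta]

theorem coeff_theta (G : Polynomial (Polynomial K)) (s : Fin 2 →₀ ℕ) :
    (theta K G).coeff s = (G.coeff (s 1)).coeff (s 0) := by
  induction G using Polynomial.induction_on' with
  | add p q hp hq => rw [map_add, coeff_add, hp, hq, Polynomial.coeff_add, Polynomial.coeff_add]
  | monomial n f =>
    induction f using Polynomial.induction_on' with
    | add p q hp hq =>
      rw [map_add, map_add, coeff_add, hp, hq, Polynomial.coeff_add, Polynomial.coeff_add]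
    | monomial j x =>
      rw [← Polynomial.C_mul_X_pow_eq_monomial, map_mul, map_pow, theta_C, theta_X,
        Polynomial.aeval_monomial, algebraMap_eq, mul_assoc, coeff_C_mul]
      have h1 : (X 0 ^ j * X 1 ^ n : MvPolynomial (Fin 2) K) =
          monomial (Finsupp.single 0 j + Finsupp.single 1 n) 1 := by
        rw [X_pow_eq_monomial, X_pow_eq_monomial, monomial_mul, one_mul]
      rw [h1, coeff_monomial, Polynomial.coeff_C_mul_X_pow]
      by_cases h2 : s 1 = n
      · rw [if_pos h2, Polynomial.coeff_monomial]
        by_cases h3 : j = s 0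
        · rw [if_pos h3, if_pos, mul_one]
          ext e
          fin_cases e
          · simp [h3]
          · simp [h2]
        · rw [if_neg h3, if_neg, mul_zero]
          intro h4
          apply h3
          have := DFunLike.congr_fun h4 0
          simpa using this
      · rw [if_neg h2, if_neg, mul_zero, Polynomial.coeff_zero]
        intro h4
        apply h2
        have := DFunLike.congr_fun h4 1
        simpa using this.symm

/-- The coefficient vector. -/
def vec (d : ℕ) (w : Polynomial (Polynomial K)) : Mon d → K :=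
  fun p => (w.coeff (p.1.2 : ℕ)).coeff (p.1.1 : ℕ)

theorem theta_rows {d : ℕ} {w : Polynomial (Polynomial K)}
    (hw : ∀ j, w.coeff j ∈ Polynomial.degreeLT K (d + 1 - j)) : theta K w = poly (vec d w) := by
  have hdeg : ∀ i j, (w.coeff j).coeff i ≠ 0 → i + j ≤ d := by
    intro i j h
    have h1 := hw j
    rw [Polynomial.mem_degreeLT] at h1
    by_contra hc
    apply h
    apply Polynomial.coeff_eq_zero_of_degree_lt
    refine lt_of_lt_of_le h1 ?_
    exact_mod_cast (by omega : d + 1 - j ≤ i)
  ext s
  rw [coeff_theta, poly, coeff_sum]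
  have h2 : ∀ p : Mon d, (C (vec d w p) * (X 0 ^ (p.1.1 : ℕ) * X 1 ^ (p.1.2 : ℕ)) :
      MvPolynomial (Fin 2) K).coeff s =
      if (Finsupp.single 0 (p.1.1 : ℕ) + Finsupp.single 1 (p.1.2 : ℕ) : Fin 2 →₀ ℕ) = s
        then vec d w p else 0 := by
    intro p
    have h1 : (X 0 ^ (p.1.1 : ℕ) * X 1 ^ (p.1.2 : ℕ) : MvPolynomial (Fin 2) K) =
        monomial (Finsupp.single 0 (p.1.1 : ℕ) + Finsupp.single 1 (p.1.2 : ℕ)) 1 := by
      rw [X_pow_eq_monomial, X_pow_eq_monomial, monomial_mul, one_mul]
    rw [h1, coeff_C_mul, coeff_monomial]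
    split_ifs <;> simp
  simp_rw [h2]
  by_cases hs : s 0 + s 1 ≤ d
  · let p0 : Mon d := ⟨(⟨s 0, by omega⟩, ⟨s 1, by omega⟩), hs⟩
    rw [Finset.sum_eq_single p0]
    · rw [if_pos]
      · rfl
      · ext e
        fin_cases e
        · simp [p0]
        · simp [p0]
    · intro p _ hp
      rw [if_neg]
      intro h
      apply hp
      apply Subtype.ext
      apply Prod.ext
      · apply Fin.ext
        have := DFunLike.congr_fun h 0
        simpa [p0] using this
      · apply Fin.ext
        have := DFunLike.congr_fun h 1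
        simpa [p0] using this
    · intro h
      exact absurd (Finset.mem_univ _) h
  · rw [Finset.sum_eq_zero]
    · by_contra hc
      exact hs (hdeg _ _ hc)
    · intro p _
      rw [if_neg]
      intro h
      apply hs
      have e0 := DFunLike.congr_fun h 0
      have e1 := DFunLike.congr_fun h 1
      simp at e0 e1
      have := p.2
      omega

/-- The pair `(x, y + η(x))`. -/
def curveP (η : Polynomial K) (e : Fin 2) : MvPolynomial (Fin 2) K :=
  if e = 0 then X 0 else X 1 + Polynomial.aeval (X 0 : MvPolynomial (Fin 2) K) η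

/-- Its jet. -/
def curveα (r m : ℕ) (η : Polynomial K) : Fin 2 × Idx r m → K :=
  fun p => (curveP η p.1).coeff (expo p.2)

theorem theta_taylor (η : Polynomial K) (w : Polynomial (Polynomial K)) :
    theta K (Polynomial.taylor η w) = aeval (curveP η) (theta K w) := by
  have key : (theta K).comp
      ((Polynomial.taylorAlgHom η : Polynomial (Polynomial K) →ₐ[Polynomial K] _) :
        Polynomial (Polynomial K) →+* Polynomial (Polynomial K)) =
      ((aeval (curveP η) : MvPolynomial (Fin 2) K →ₐ[K] MvPolynomial (Fin 2) K) :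
        MvPolynomial (Fin 2) K →+* MvPolynomial (Fin 2) K).comp (theta K) := by
    apply Polynomial.ringHom_ext
    · intro a
      simp only [RingHom.coe_comp, RingHom.coe_coe, Function.comp_apply,
        Polynomial.taylorAlgHom_apply, Polynomial.taylor_C, theta_C]
      rw [← Polynomial.aeval_algHom_apply, aeval_X]
      rfl
    · simp only [RingHom.coe_comp, RingHom.coe_coe, Function.comp_apply,
        Polynomial.taylorAlgHom_apply, Polynomial.taylor_X, theta_C, theta_X, map_add, aeval_X]
      rfl
  have := congrArg (fun f => f w) key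
  simpa using this

theorem coeff_aeval_congr {r m : ℕ} {P Q : Fin 2 → MvPolynomial (Fin 2) K}
    (h : ∀ e, Ideal.Quotient.mk (zIdeal K r m) (P e) = Ideal.Quotient.mk (zIdeal K r m) (Q e))
    (G : MvPolynomial (Fin 2) K) (c : Idx r m) :
    (aeval P G).coeff (expo c) = (aeval Q G).coeff (expo c) := by
  have h1 : Ideal.Quotient.mk (zIdeal K r m) (aeval P G - aeval Q G) = 0 := by
    rw [map_sub, sub_eq_zero]
    have h2 : ∀ S : Fin 2 → MvPolynomial (Fin 2) K,
        Ideal.Quotient.mk (zIdeal K r m) (aeval S G) =
        aeval (fun e => Ideal.Quotient.mk (zIdeal K r m) (S e)) G := by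
      intro S
      have := MvPolynomial.comp_aeval_apply (Ideal.Quotient.mkₐ K (zIdeal K r m)) (f := S) G
      simpa using this
    rw [h2, h2]
    congr 2
    funext e
    exact h e
  have h3 := mk_eq_zero.mp h1 c
  rwa [coeff_sub, sub_eq_zero] at h3

theorem evm_curve {r m d : ℕ} (η : Polynomial K) {w : Polynomial (Polynomial K)}
    (hw : ∀ j, w.coeff j ∈ Polynomial.degreeLT K (d + 1 - j)) (c : Idx r m) :
    (evm (curveα r m η) d).mulVec (vec d w) c =
      ((Polynomial.taylor η w).coeff (c.1 : ℕ)).coeff (c.2 : ℕ) := by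
  rw [evm_mulVec, ← theta_rows hw]
  have h1 : ∀ e, Ideal.Quotient.mk (zIdeal K r m) (jet (curveα r m η) e) =
      Ideal.Quotient.mk (zIdeal K r m) (curveP η e) := exists_jet r m (curveP η)
  rw [coeff_aeval_congr h1, ← theta_taylor, coeff_theta, expo_zero, expo_one]

/-- The `Good` condition gives a rank estimate for the evaluation matrix at one jet. -/
theorem le_rank_of_good {r m d ρ : ℕ} (h : Pool.Agent.Helper41.Fat.Good K r m (fun b => d + 1 - b) ρ) :
    ∃ α : Fin 2 × Idx r m → K, ρ ≤ (evm α d).rank := by
  obtain ⟨η, w, hw, hli⟩ := h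
  refine ⟨curveα r m η, ?_⟩
  have hli2 : LinearIndependent K
      (fun i => (evm (curveα r m η) d).mulVecLin (vec d (w i))) := by
    rw [Fintype.linearIndependent_iff] at hli ⊢
    intro g hg
    apply hli g
    have h1 : ∑ i, g i • Pool.Agent.Helper41.Fat.Phi K r m η (w i) =
        Pool.Agent.Helper41.Fat.Phi K r m η (∑ i, g i • w i) := by
      rw [map_sum]
      apply Finset.sum_congr rfl
      intro i _
      rw [map_smul]
    rw [h1, Pool.Agent.Helper41.Fat.Phi_eq_zero_iff]
    intro j hj
    rw [Polynomial.X_pow_dvd_iff]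
    intro i hi
    let c : Idx r m := ⟨⟨j, hj⟩, ⟨i, hi⟩⟩
    have h2 := congrFun hg c
    have h3 : ∑ x, g x • w x ∈ Pool.Agent.Helper41.Fat.rows K (fun b => d + 1 - b) :=
      Submodule.sum_mem _ (fun i _ => Submodule.smul_mem _ _ (hw i))
    have h4 := evm_curve (r := r) (m := m) η h3 c
    have h5 : vec d (∑ x, g x • w x) = ∑ x, g x • vec d (w x) := by
      funext p
      simp only [vec, Polynomial.finsetSum_coeff, Polynomial.coeff_smul, Finset.sum_apply,
        Pi.smul_apply]
    rw [h5, ← Matrix.mulVecLin_apply, map_sum] at h4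
    simp only [map_smul] at h4
    rw [h2] at h4
    exact h4.symm
  have h6 := hli2.fintype_card_le_finrank
  rw [Matrix.rank]
  have h7 : LinearIndependent K (fun i => (⟨(evm (curveα r m η) d).mulVecLin (vec d (w i)),
      LinearMap.mem_range_self _ _⟩ : LinearMap.range (evm (curveα r m η) d).mulVecLin)) := by
    rw [Fintype.linearIndependent_iff] at hli2 ⊢
    intro g hg
    apply hli2 g
    have := congrArg Subtype.val hg
    simpa using this
  have h8 := h7.fintype_card_le_finrank
  rwa [Fintype.card_fin] at h8

end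

end

end Pool.Agent.Helper7.Shell
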