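import Pool.Agent.Helper7.FineCore
import Pool.Agent.Helper7.NtAsym
import Pool.Agent.Helper42.Envelope

set_option autoImplicit false

namespace Pool.Agent.Helper7.Nt

theorem exists_const (a b c d f g B : ℕ) :
    ∃ C : ℕ, a ≤ C ∧ b < C ∧ c ≤ C ∧ d ≤ C ∧ f ≤ C ∧ g ≤ C ∧ B ≤ C :=
  ⟨a + b + 1 + c + d + f + g + B, by omega, by omega, by omega, by omega, by omega, by omega,
    by omega⟩

theorem log_step {N C r e : ℕ} (hC : N + 1 ≤ C) (her : e ≤ r) :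
    N * Nat.log 2 e + 1 ≤ C * (Nat.log 2 r + 1) := by
  have h1 : Nat.log 2 e ≤ Nat.log 2 r := Nat.log_mono_right her
  have h2 : N * Nat.log 2 e ≤ N * Nat.log 2 r := Nat.mul_le_mul_left _ h1
  have h3 : (N + 1) * (Nat.log 2 r + 1) ≤ C * (Nat.log 2 r + 1) := Nat.mul_le_mul_right _ hC
  have h4 : (N + 1) * (Nat.log 2 r + 1) = N * Nat.log 2 r + N + (Nat.log 2 r + 1) := by ring
  omega

theorem big_step {Λ P e : ℕ} {r δ B : ℝ} (hBδ : 1 ≤ B * δ)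
    (h1 : 4 * B ^ 2 * (((Λ ^ P : ℕ) : ℝ)) ^ 2 ≤ r) (hδe : δ ^ 2 * r ≤ 4 * (e : ℝ) ^ 2) :
    Λ ^ P ≤ e := by
  have h2 : ((Λ ^ P : ℕ) : ℝ) ≤ (e : ℝ) := by
    generalize ((Λ ^ P : ℕ) : ℝ) = X at h1
    have h3 : δ ^ 2 * (4 * B ^ 2 * X ^ 2) ≤ δ ^ 2 * r :=
      mul_le_mul_of_nonneg_left h1 (by positivity)
    have h4 : δ ^ 2 * (4 * B ^ 2 * X ^ 2) = 4 * (B * δ) ^ 2 * X ^ 2 := by ring
    have h5 : 1 ≤ (B * δ) ^ 2 := one_le_pow₀ hBδ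
    have h6 : X ^ 2 ≤ (e : ℝ) ^ 2 := by
      have h7 : 0 ≤ X ^ 2 := by positivity
      nlinarith
    exact le_of_sq_le_sq h6 (by positivity)
  exact_mod_cast h2

theorem exists_par (N B : ℕ) (δ : ℝ) (hN : 1 ≤ N) (hδ : 0 < δ) (hBδ : 1 ≤ (B : ℝ) * δ) :
    ∃ r0 : ℕ, ∀ r : ℕ, r0 ≤ r → ∀ e : ℕ, δ ^ 2 * r ≤ 4 * (e : ℝ) ^ 2 →
      16 * (e : ℝ) ^ 2 ≤ r → e ≤ r → ∃ Λ : ℕ, Par N Λ e r ∧ 1 ≤ (Λ : ℝ) ^ 2 * δ ^ 2 := by
  obtain ⟨C, c1, c2, c3, c4, c5, c6, c7⟩ := exists_const (8 ^ (N + 1)) (4 * 2 ^ N)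
    (1000 * (N + 2)) (16 * N * 2 ^ (N + 3))
    (8 ^ (N + 1) * 4 ^ N * 2 ^ (N * N) * N.factorial * (8 * N ^ 2 * 4 ^ (N + 3))) (N + 1) B
  obtain ⟨P, hP⟩ : ∃ P, P = 3 * ae N + 6 := ⟨_, rfl⟩
  obtain ⟨r0, hr0⟩ := exists_log_bound (4 * B ^ 2 * C ^ (2 * P)) (2 * P)
  refine ⟨r0, fun r hr e hδe her1 her => ?_⟩
  have hrr := hr0 r hr
  have hCΛ : C ≤ C * (Nat.log 2 r + 1) := Nat.le_mul_of_pos_right _ (by omega)
  have hlog := log_step c6 her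
  obtain ⟨Λ, hΛ⟩ : ∃ Λ, Λ = C * (Nat.log 2 r + 1) := ⟨_, rfl⟩
  rw [← hΛ] at hCΛ hlog
  have hBΛ : (B : ℝ) ≤ Λ := by exact_mod_cast le_trans c7 hCΛ
  have hΛδ : 1 ≤ (Λ : ℝ) * δ := le_trans hBδ (mul_le_mul_of_nonneg_right hBΛ hδ.le)
  have hΛδ2 : 1 ≤ (Λ : ℝ) ^ 2 * δ ^ 2 := by
    rw [← mul_pow]
    exact one_le_pow₀ hΛδ
  have h1 : 4 * B ^ 2 * (Λ ^ P) ^ 2 ≤ r := by
    refine le_trans (le_of_eq ?_) hrr
    rw [hΛ, mul_pow, mul_pow, ← pow_mul, ← pow_mul, mul_comm P 2]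
    ring
  have h1R : 4 * (B : ℝ) ^ 2 * ((Λ ^ P : ℕ) : ℝ) ^ 2 ≤ r := by exact_mod_cast h1
  have hbig : Λ ^ P ≤ e := big_step hBδ h1R hδe
  rw [hP] at hbig
  refine ⟨Λ, ⟨hN, le_trans c1 hCΛ, lt_of_lt_of_le c2 hCΛ, le_trans c3 hCΛ, le_trans c4 hCΛ,
    le_trans c5 hCΛ, hlog, hbig, her1, ?_⟩, hΛδ2⟩
  have h2 : (r : ℝ) ≤ (Λ : ℝ) ^ 2 * δ ^ 2 * r := le_mul_of_one_le_left (by positivity) hΛδ2
  have h3 : (Λ : ℝ) ^ 2 * (δ ^ 2 * r) ≤ Λ ^ 2 * (4 * (e : ℝ) ^ 2) :=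
    mul_le_mul_of_nonneg_left hδe (by positivity)
  linarith

theorem fine_tune (δ : ℝ) (hδ : 0 < δ) (hδ1 : δ ≤ 1/8) (ν : ℕ) : ∃ r0 : ℕ, ∀ r : ℕ, r0 ≤ r →
    ∀ x0 : ℝ, 1 ≤ x0 → ∀ e : ℕ, δ * √r ≤ 2*e → 2*e ≤ 4*δ*√r → δ^2/512 ≤ r - x0^2 - 2*e →
    r - x0^2 - 2*e ≤ δ^2/128 →
    ∃ x : ℝ, Pool.Agent.Helper42.Game.Chain x0 x ∧ Real.log r - 1/(r:ℝ)^ν ≤ 2*Real.log x ∧
      2*Real.log x ≤ Real.log r := by
  obtain ⟨B, hB⟩ := exists_nat_gt (1 / δ)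
  have hBδ : 1 ≤ (B : ℝ) * δ := by
    rw [div_lt_iff₀ hδ] at hB
    exact hB.le
  obtain ⟨r0, hr0⟩ := exists_par (ν + 1) B δ (by omega) hδ hBδ
  refine ⟨max r0 1, fun r hr x0 hx0 e he1 he2 hη1 hη2 => ?_⟩
  have hr1 : 1 ≤ r := le_trans (le_max_right _ _) hr
  have hrR : (1 : ℝ) ≤ r := by exact_mod_cast hr1
  have hrpos : (0 : ℝ) < r := by linarith
  have hsq : √(r : ℝ) * √(r : ℝ) = r := Real.mul_self_sqrt hrpos.le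
  have hsq0 : 0 < √(r : ℝ) := Real.sqrt_pos.mpr hrpos
  have hδe : δ ^ 2 * r ≤ 4 * (e : ℝ) ^ 2 := by
    have h1 : (δ * √r) * (δ * √r) ≤ (2 * e) * (2 * e) :=
      mul_le_mul he1 he1 (by positivity) (by positivity)
    have h2 : (δ * √(r : ℝ)) * (δ * √r) = δ ^ 2 * (√r * √r) := by ring
    rw [h2, hsq] at h1
    linarith
  have her1 : 16 * (e : ℝ) ^ 2 ≤ r := by
    have h0 : 2 * (e : ℝ) ≤ √r / 2 := by
      refine le_trans he2 ?_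
      have : 4 * δ * √(r : ℝ) ≤ (1 / 2) * √r := mul_le_mul_of_nonneg_right (by linarith) hsq0.le
      linarith
    have h1 : (2 * (e : ℝ)) * (2 * e) ≤ (√r / 2) * (√r / 2) :=
      mul_le_mul h0 h0 (by positivity) (by positivity)
    have h2 : (√(r : ℝ) / 2) * (√r / 2) = (√r * √r) / 4 := by ring
    rw [h2, hsq] at h1
    linarith
  have her : e ≤ r := by
    have heR : (e : ℝ) ≤ r := by
      rcases Nat.eq_zero_or_pos e with h | h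
      · rw [h]
        push_cast
        linarith
      · have : (1 : ℝ) ≤ e := by exact_mod_cast h
        nlinarith
    exact_mod_cast heR
  obtain ⟨Λ, p, hΛδ2⟩ := hr0 r (le_trans (le_max_left _ _) hr) e hδe her1 her
  obtain ⟨x, hx1, hx2, hx3, hx4⟩ := fine_core (fun x => Pool.Agent.Helper42.Game.Chain x0 x)
    (by
      intro x lam b hx hxpos h1 h2
      have hlam : (0 : ℝ) < lam := lt_of_le_of_lt (by positivity) h1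
      have h3 : Pool.Agent.Helper42.Game.Chain x0 ((lam : ℝ) / x) := by
        refine Pool.Agent.Helper42.Game.Chain.step (k := lam) hx ?_ ?_
        · rw [le_div_iff₀ hxpos]
          nlinarith
        · field_simp
      refine Pool.Agent.Helper42.Game.Chain.step (k := b) h3 ?_ ?_
      · rw [div_le_iff₀ hxpos]
        have h4 : x * (b / lam) * x = b * x ^ 2 / lam := by ring
        rw [h4, le_div_iff₀ hlam]
        nlinarith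
      · field_simp)
    p ν rfl δ hΛδ2 hδe (by nlinarith) x0 (by linarith) Pool.Agent.Helper42.Game.Chain.base hη1 hη2
  exact ⟨x, hx1, hx3, hx4⟩

end Pool.Agent.Helper7.Nt
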