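import Pool.Agent.Helper7.NSCore

/-!
Kernel checks for module NS-SEARCH of `MP_8fc134_al`.
-/

namespace NS57
namespace Srch

theorem chk_3_7_4_70 : check 3 7 4 70 = true := by decide +kernel
theorem chk_3_8_4_75 : check 3 8 4 75 = true := by decide +kernel
theorem chk_3_8_4_76 : check 3 8 4 76 = true := by decide +kernel
theorem chk_3_8_4_77 : check 3 8 4 77 = true := by decide +kernel
theorem chk_3_8_4_78 : check 3 8 4 78 = true := by decide +kernel
theorem chk_3_8_4_79 : check 3 8 4 79 = true := by decide +kernel

end Srch
end NS57
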