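import Pool.Agent.Helper7.NSPart

/-!
Kernel check for `(r, e, d, m) = (3, 11, 5, 133)` (module NS-SEARCH of `MP_8fc134_al`).
-/

namespace NS57
namespace Srch

theorem part_124 : srchP 124 133 (2 ^ 133 - 1) 133 (11 - 5) (phase2 (2 ^ 133 - 1) 133 (11 - 5)) 3
    [133 - 1] (maskL 3) (2 ^ (3 + 1) - 1) ((range 133).filter fun x => Nat.ble 2 x)
    (2 ^ 133 - 4) = true := by decide +kernel

theorem part_116 : srchP 116 124 (2 ^ 133 - 1) 133 (11 - 5) (phase2 (2 ^ 133 - 1) 133 (11 - 5)) 3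
    [133 - 1] (maskL 3) (2 ^ (3 + 1) - 1) ((range 133).filter fun x => Nat.ble 2 x)
    (2 ^ 133 - 4) = true := by decide +kernel

theorem part_107 : srchP 107 116 (2 ^ 133 - 1) 133 (11 - 5) (phase2 (2 ^ 133 - 1) 133 (11 - 5)) 3
    [133 - 1] (maskL 3) (2 ^ (3 + 1) - 1) ((range 133).filter fun x => Nat.ble 2 x)
    (2 ^ 133 - 4) = true := by decide +kernel

theorem part_94 : srchP 94 107 (2 ^ 133 - 1) 133 (11 - 5) (phase2 (2 ^ 133 - 1) 133 (11 - 5)) 3
    [133 - 1] (maskL 3) (2 ^ (3 + 1) - 1) ((range 133).filter fun x => Nat.ble 2 x)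
    (2 ^ 133 - 4) = true := by decide +kernel

theorem part_77 : srchP 77 94 (2 ^ 133 - 1) 133 (11 - 5) (phase2 (2 ^ 133 - 1) 133 (11 - 5)) 3
    [133 - 1] (maskL 3) (2 ^ (3 + 1) - 1) ((range 133).filter fun x => Nat.ble 2 x)
    (2 ^ 133 - 4) = true := by decide +kernel

theorem part_0 : srchP 0 77 (2 ^ 133 - 1) 133 (11 - 5) (phase2 (2 ^ 133 - 1) 133 (11 - 5)) 3
    [133 - 1] (maskL 3) (2 ^ (3 + 1) - 1) ((range 133).filter fun x => Nat.ble 2 x)
    (2 ^ 133 - 4) = true := by decide +kernel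

theorem part_nonunit : srch (2 ^ 133 - 1) 133 (11 - 5) (phase2 (2 ^ 133 - 1) 133 (11 - 5)) 5 []
    (List.replicate (3 - 1) 1) 1 ((range 133).filter fun x => !(Nat.beq (Nat.gcd x 133) 1))
    (2 ^ 133 - 2) = true := by decide +kernel

theorem chk_3_11_5_133 : check 3 11 5 133 = true := by
  rw [check, part_nonunit, Bool.and_true]
  apply srchP_all [(124, 133), (116, 124), (107, 116), (94, 107), (77, 94), (0, 77)]
  · intro x hx
    have hx := (mem_range _ _).1 (List.mem_of_mem_filter hx)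
    simp only [List.mem_cons, List.not_mem_nil, or_false, exists_eq_or_imp, exists_eq_left]
    omega
  · intro k hk
    simp only [List.mem_cons, List.not_mem_nil, or_false] at hk
    rcases hk with rfl | rfl | rfl | rfl | rfl | rfl
    · exact part_124
    · exact part_116
    · exact part_107
    · exact part_94
    · exact part_77
    · exact part_0

end Srch
end NS57
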