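import Pool.Agent.Helper7.NSRunA
import Pool.Agent.Helper7.NSRunB
import Pool.Agent.Helper7.NSRunC

/-!
Module NS-SEARCH of `MP_8fc134_al`: no Sidon type sets for a finite list of parameters.
-/

namespace NS57

open Srch in
theorem search_none {e m r d : ℕ}
    (hl : (r = 3 ∧ ((e = 3 ∧ d = 2 ∧ 15 ≤ m ∧ m ≤ 16) ∨ (e = 4 ∧ d = 2 ∧ 21 ≤ m ∧ m ≤ 24) ∨
       (e = 4 ∧ d = 3 ∧ 32 ≤ m ∧ m ≤ 34) ∨ (e = 5 ∧ d = 3 ∧ 36 ≤ m ∧ m ≤ 40) ∨
       (e = 6 ∧ d = 3 ∧ 43 ≤ m ∧ m ≤ 47) ∨
       (e = 7 ∧ d = 4 ∧ m = 70) ∨ (e = 8 ∧ d = 4 ∧ 75 ≤ m ∧ m ≤ 79) ∨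
       (e = 11 ∧ d = 5 ∧ m = 133))) ∨
    (r = 4 ∧ ((e = 3 ∧ d = 2 ∧ 28 ≤ m ∧ m ≤ 34) ∨ (e = 4 ∧ d = 3 ∧ 55 ≤ m ∧ m ≤ 69))) ∨
    (r = 5 ∧ e = 3 ∧ d = 2 ∧ 50 ≤ m ∧ m ≤ 55) ∨ (r = 6 ∧ e = 3 ∧ d = 2 ∧ 80 ≤ m ∧ m ≤ 83) ∨
    (r = 7 ∧ e = 3 ∧ d = 2 ∧ m = 119))
    (D : Finset (Fin e)) (hD : D.card = d) (a : Fin e → ZMod m) : ¬ Dist r m D a := by
  rcases hl with ⟨rfl, h⟩ | ⟨rfl, h⟩ | ⟨rfl, rfl, rfl, h1, h2⟩ | ⟨rfl, rfl, rfl, h1, h2⟩ |
    ⟨rfl, rfl, rfl, rfl⟩
  · rcases h with ⟨rfl, rfl, h1, h2⟩ | ⟨rfl, rfl, h1, h2⟩ | ⟨rfl, rfl, h1, h2⟩ |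
      ⟨rfl, rfl, h1, h2⟩ | ⟨rfl, rfl, h1, h2⟩ | ⟨rfl, rfl, rfl⟩ | ⟨rfl, rfl, h1, h2⟩ |
      ⟨rfl, rfl, rfl⟩
    · interval_cases m
      · exact check_sound chk_3_3_2_15 (by norm_num) (by norm_num) hD
      · exact check_sound chk_3_3_2_16 (by norm_num) (by norm_num) hD
    · interval_cases m
      · exact check_sound chk_3_4_2_21 (by norm_num) (by norm_num) hD
      · exact check_sound chk_3_4_2_22 (by norm_num) (by norm_num) hD
      · exact check_sound chk_3_4_2_23 (by norm_num) (by norm_num) hD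
      · exact check_sound chk_3_4_2_24 (by norm_num) (by norm_num) hD
    · interval_cases m
      · exact check_sound chk_3_4_3_32 (by norm_num) (by norm_num) hD
      · exact check_sound chk_3_4_3_33 (by norm_num) (by norm_num) hD
      · exact check_sound chk_3_4_3_34 (by norm_num) (by norm_num) hD
    · interval_cases m
      · exact check_sound chk_3_5_3_36 (by norm_num) (by norm_num) hD
      · exact check_sound chk_3_5_3_37 (by norm_num) (by norm_num) hD
      · exact check_sound chk_3_5_3_38 (by norm_num) (by norm_num) hD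
      · exact check_sound chk_3_5_3_39 (by norm_num) (by norm_num) hD
      · exact check_sound chk_3_5_3_40 (by norm_num) (by norm_num) hD
    · interval_cases m
      · exact check_sound chk_3_6_3_43 (by norm_num) (by norm_num) hD
      · exact check_sound chk_3_6_3_44 (by norm_num) (by norm_num) hD
      · exact check_sound chk_3_6_3_45 (by norm_num) (by norm_num) hD
      · exact check_sound chk_3_6_3_46 (by norm_num) (by norm_num) hD
      · exact check_sound chk_3_6_3_47 (by norm_num) (by norm_num) hD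
    · exact check_sound chk_3_7_4_70 (by norm_num) (by norm_num) hD
    · interval_cases m
      · exact check_sound chk_3_8_4_75 (by norm_num) (by norm_num) hD
      · exact check_sound chk_3_8_4_76 (by norm_num) (by norm_num) hD
      · exact check_sound chk_3_8_4_77 (by norm_num) (by norm_num) hD
      · exact check_sound chk_3_8_4_78 (by norm_num) (by norm_num) hD
      · exact check_sound chk_3_8_4_79 (by norm_num) (by norm_num) hD
    · exact check_sound chk_3_11_5_133 (by norm_num) (by norm_num) hD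
  · rcases h with ⟨rfl, rfl, h1, h2⟩ | ⟨rfl, rfl, h1, h2⟩
    · interval_cases m
      · exact check_sound chk_4_3_2_28 (by norm_num) (by norm_num) hD
      · exact check_sound chk_4_3_2_29 (by norm_num) (by norm_num) hD
      · exact check_sound chk_4_3_2_30 (by norm_num) (by norm_num) hD
      · exact check_sound chk_4_3_2_31 (by norm_num) (by norm_num) hD
      · exact check_sound chk_4_3_2_32 (by norm_num) (by norm_num) hD
      · exact check_sound chk_4_3_2_33 (by norm_num) (by norm_num) hD
      · exact check_sound chk_4_3_2_34 (by norm_num) (by norm_num) hD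
    · interval_cases m
      · exact check_sound chk_4_4_3_55 (by norm_num) (by norm_num) hD
      · exact check_sound chk_4_4_3_56 (by norm_num) (by norm_num) hD
      · exact check_sound chk_4_4_3_57 (by norm_num) (by norm_num) hD
      · exact check_sound chk_4_4_3_58 (by norm_num) (by norm_num) hD
      · exact check_sound chk_4_4_3_59 (by norm_num) (by norm_num) hD
      · exact check_sound chk_4_4_3_60 (by norm_num) (by norm_num) hD
      · exact check_sound chk_4_4_3_61 (by norm_num) (by norm_num) hD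
      · exact check_sound chk_4_4_3_62 (by norm_num) (by norm_num) hD
      · exact check_sound chk_4_4_3_63 (by norm_num) (by norm_num) hD
      · exact check_sound chk_4_4_3_64 (by norm_num) (by norm_num) hD
      · exact check_sound chk_4_4_3_65 (by norm_num) (by norm_num) hD
      · exact check_sound chk_4_4_3_66 (by norm_num) (by norm_num) hD
      · exact check_sound chk_4_4_3_67 (by norm_num) (by norm_num) hD
      · exact check_sound chk_4_4_3_68 (by norm_num) (by norm_num) hD
      · exact check_sound chk_4_4_3_69 (by norm_num) (by norm_num) hD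
  · interval_cases m
    · exact check_sound chk_5_3_2_50 (by norm_num) (by norm_num) hD
    · exact check_sound chk_5_3_2_51 (by norm_num) (by norm_num) hD
    · exact check_sound chk_5_3_2_52 (by norm_num) (by norm_num) hD
    · exact check_sound chk_5_3_2_53 (by norm_num) (by norm_num) hD
    · exact check_sound chk_5_3_2_54 (by norm_num) (by norm_num) hD
    · exact check_sound chk_5_3_2_55 (by norm_num) (by norm_num) hD
  · interval_cases m
    · exact check_sound chk_6_3_2_80 (by norm_num) (by norm_num) hD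
    · exact check_sound chk_6_3_2_81 (by norm_num) (by norm_num) hD
    · exact check_sound chk_6_3_2_82 (by norm_num) (by norm_num) hD
    · exact check_sound chk_6_3_2_83 (by norm_num) (by norm_num) hD
  · exact check_sound chk_7_3_2_119 (by norm_num) (by norm_num) hD

end NS57
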