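import Mathlib

set_option autoImplicit false

open MvPolynomial

namespace Pool.Agent.Helper7.Shell

noncomputable section

/-- Index set of the monomial basis `x^i y^j`, `j < m`, `i < r (m - j)`, of
`k[x,y]/(y,x^r)^m`; the element `⟨j, i⟩` stands for `x^i y^j`. -/
abbrev Idx (r m : ℕ) : Type := Σ j : Fin m, Fin (r * (m - j))

/-- The exponent of the monomial `x^i y^j`. -/
def expo {r m : ℕ} (c : Idx r m) : Fin 2 →₀ ℕ :=
  Finsupp.single 0 (c.2 : ℕ) + Finsupp.single 1 (c.1 : ℕ)

/-- The ideal `(y, x^r)^m` of `k[x,y]` (`x = X 0`, `y = X 1`). -/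
def zIdeal (K : Type*) [CommRing K] (r m : ℕ) : Ideal (MvPolynomial (Fin 2) K) :=
  (Ideal.span {X 1, X 0 ^ r}) ^ m

/-- The polynomial with coefficients `α (e, ·)` in the monomial basis. -/
def jet {R : Type*} [CommRing R] {r m : ℕ} (α : Fin 2 × Idx r m → R) (e : Fin 2) :
    MvPolynomial (Fin 2) R :=
  ∑ c : Idx r m, monomial (expo c) (α (e, c))

/-- The algebra homomorphism `K[x,y] → K[x,y]/(y,x^r)^m` whose two images are the classes of the
polynomials with coefficients `α` in the monomial basis `x^i y^j`, `i < r (m - j)`. -/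
def psi {K : Type*} [Field K] {r m : ℕ} (α : Fin 2 × Idx r m → K) :
    MvPolynomial (Fin 2) K →ₐ[K] (MvPolynomial (Fin 2) K ⧸ zIdeal K r m) :=
  aeval (fun e => Ideal.Quotient.mk (zIdeal K r m) (jet α e))

/-- The space of degree `d` forms `F(X_0,X_1,X_2)` whose dehomogenization `F(1,x,y)` is killed by
`psi α`; that is, the space `H^0(I_Y(d))` for the subscheme `Y = Spec K[x,y]/ker (psi α)` of the
chart `X_0 ≠ 0` of the plane. -/
def H0 {K : Type*} [Field K] {r m : ℕ} (d : ℕ) (α : Fin 2 × Idx r m → K) :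
    Submodule K (MvPolynomial (Fin 3) K) :=
  homogeneousSubmodule (Fin 3) K d ⊓
    LinearMap.ker ((psi α).comp (aeval (![1, X 0, X 1] : Fin 3 → MvPolynomial (Fin 2) K))).toLinearMap

end

end Pool.Agent.Helper7.Shell
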