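import Pool.Agent.Helper7.FinePar

set_option autoImplicit false

namespace Pool.Agent.Helper7.Nt

/-- The errors after the levels. -/
noncomputable def epsL (Λ e : ℕ) (r : ℝ) : ℕ → ℝ
  | 0 => 4 * e / r ^ 2
  | (j + 1) => 8 ^ (j + 1 + 1) * muL r j (hL Λ j) (ML Λ j)

section

variable {N Λ e : ℕ} {r : ℝ} (p : Par N Λ e r)
include p

theorem Par.HbigR : (Λ : ℝ) ^ 6 * ((Λ : ℝ) ^ ae N) ^ 3 ≤ e := by
  have := p.Hbig
  exact_mod_cast this

theorem Par.LR : (1000 : ℝ) ≤ Λ := by exact_mod_cast p.Lpos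

theorem Par.HR : (1 : ℝ) ≤ (Λ : ℝ) ^ ae N := one_le_pow₀ (by linarith [p.LR])

theorem Par.LH_le : (Λ : ℝ) ^ 2 * ((Λ : ℝ) ^ ae N) ≤ e := by
  have h1 := p.HbigR
  have h2 := p.LR
  have h3 := p.HR
  refine le_trans ?_ h1
  apply mul_le_mul
  · exact pow_le_pow_right₀ (by linarith) (by norm_num)
  · exact le_self_pow₀ h3 (by norm_num)
  · positivity
  · positivity

theorem Par.E_le {j : ℕ} (hj : j < N) :
    (e : ℝ) / (N * 2 ^ (N + 3)) ≤ 4 * (hL Λ j : ℕ) * (ML Λ j : ℕ) * 2 ^ QL Λ N e j := by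
  have h1 : ((TL Λ N e j : ℕ) : ℝ) ≤ (ML Λ j : ℕ) * 2 ^ (QL Λ N e j + j + 3) := by
    exact_mod_cast (p.QT2 hj).le
  have h2 : (e : ℝ) < 4 * N * (hL Λ j : ℕ) * ((TL Λ N e j : ℕ) + 1) := by
    exact_mod_cast p.T_lt j
  have hNR : (1 : ℝ) ≤ N := by exact_mod_cast p.hN
  have hNΛ : 1000 * (N : ℝ) ≤ Λ := by
    have := p.h3
    exact_mod_cast (by omega : 1000 * N ≤ Λ)
  have h3 : ((hL Λ j : ℕ) : ℝ) ≤ (Λ : ℝ) ^ ae N := by exact_mod_cast p.hL_le hj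
  have h4 := p.LH_le
  have h5 := p.LR
  have h6 := p.HR
  have h7 : 8 * N * ((hL Λ j : ℕ) : ℝ) ≤ e := by
    have h8 : 8 * (N : ℝ) ≤ Λ ^ 2 := by nlinarith
    calc 8 * N * ((hL Λ j : ℕ) : ℝ) ≤ Λ ^ 2 * (Λ : ℝ) ^ ae N :=
          mul_le_mul h8 h3 (by positivity) (by positivity)
      _ ≤ e := h4
  have h8 : (e : ℝ) / 2 ≤ N * (4 * (hL Λ j : ℕ) * (TL Λ N e j : ℕ)) := by linarith
  have h9 : 4 * ((hL Λ j : ℕ) : ℝ) * (TL Λ N e j : ℕ) ≤
      4 * (hL Λ j : ℕ) * (ML Λ j : ℕ) * 2 ^ QL Λ N e j * 2 ^ (N + 2) := by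
    have h10 : (2 : ℝ) ^ (QL Λ N e j + j + 3) ≤ 2 ^ QL Λ N e j * 2 ^ (N + 2) := by
      rw [← pow_add]
      exact pow_le_pow_right₀ (by norm_num) (by omega)
    calc 4 * ((hL Λ j : ℕ) : ℝ) * (TL Λ N e j : ℕ)
        ≤ 4 * (hL Λ j : ℕ) * ((ML Λ j : ℕ) * 2 ^ (QL Λ N e j + j + 3)) :=
          mul_le_mul_of_nonneg_left h1 (by positivity)
      _ ≤ 4 * (hL Λ j : ℕ) * ((ML Λ j : ℕ) * (2 ^ QL Λ N e j * 2 ^ (N + 2))) := by
          apply mul_le_mul_of_nonneg_left _ (by positivity)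
          exact mul_le_mul_of_nonneg_left h10 (by positivity)
      _ = _ := by ring
  rw [div_le_iff₀ (by positivity)]
  have h10 : N * (4 * ((hL Λ j : ℕ) : ℝ) * (TL Λ N e j : ℕ)) ≤
      N * (4 * (hL Λ j : ℕ) * (ML Λ j : ℕ) * 2 ^ QL Λ N e j * 2 ^ (N + 2)) :=
    mul_le_mul_of_nonneg_left h9 (by positivity)
  have h11 : (2 : ℝ) ^ (N + 3) = 2 * 2 ^ (N + 2) := by rw [pow_succ]; ring
  rw [h11]
  linarith

theorem Par.cap {j : ℕ} (hj : j < N) :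
    (cL Λ j : ℕ) * (((e : ℝ) / (N * 2 ^ (N + 3))) ^ (j + 1) / (2 * r) ^ (j + 1 + 1)) ≤
      (cL Λ j : ℕ) * (muL r j (hL Λ j) (ML Λ j) * 2 ^ ((j + 1) * QL Λ N e j)) := by
  have hr : 0 < r := by
    have := p.r_big
    have := p.e_big
    linarith
  apply mul_le_mul_of_nonneg_left _ (by positivity)
  have h1 : muL r j (hL Λ j) (ML Λ j) * 2 ^ ((j + 1) * QL Λ N e j) =
      (4 * (hL Λ j : ℕ) * (ML Λ j : ℕ) * 2 ^ QL Λ N e j) ^ (j + 1) *
        (2 ^ (∑ i ∈ Finset.range (j + 1), i) * (j + 1).factorial) / (2 * r) ^ (j + 1 + 1) := by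
    rw [muL, mul_pow _ ((2 : ℝ) ^ QL Λ N e j), ← pow_mul, mul_comm (QL Λ N e j) (j + 1)]
    ring
  rw [h1]
  apply div_le_div_of_nonneg_right _ (by positivity)
  have h2 : ((e : ℝ) / (N * 2 ^ (N + 3))) ^ (j + 1) ≤
      (4 * (hL Λ j : ℕ) * (ML Λ j : ℕ) * 2 ^ QL Λ N e j) ^ (j + 1) :=
    pow_le_pow_left₀ (by positivity) (p.E_le hj) _
  refine le_trans h2 ?_
  apply le_mul_of_one_le_right (by positivity)
  have h3 : (1 : ℝ) ≤ 2 ^ (∑ i ∈ Finset.range (j + 1), i) := one_le_pow₀ (by norm_num)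
  have h4 : (1 : ℝ) ≤ (j + 1).factorial := by
    exact_mod_cast Nat.one_le_iff_ne_zero.mpr (Nat.factorial_ne_zero _)
  nlinarith

theorem Par.const_le {j : ℕ} (hj : j < N) :
    (8 : ℝ) ^ (j + 1 + 1) * 4 ^ (j + 1) * (2 ^ (∑ i ∈ Finset.range (j + 1), i) * (j + 1).factorial) *
      (8 * N ^ 2 * 4 ^ (N + 3)) ≤ Λ := by
  have h1 : (8 : ℝ) ^ (j + 1 + 1) ≤ 8 ^ (N + 1) := pow_le_pow_right₀ (by norm_num) (by omega)
  have h2 : (4 : ℝ) ^ (j + 1) ≤ 4 ^ N := pow_le_pow_right₀ (by norm_num) (by omega)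
  have h3 : ∑ i ∈ Finset.range (j + 1), i ≤ N * N := by
    have h4 : ∀ i ∈ Finset.range (j + 1), i ≤ N := by
      intro i hi
      rw [Finset.mem_range] at hi
      omega
    have h5 := Finset.sum_le_card_nsmul _ _ _ h4
    rw [Finset.card_range, smul_eq_mul] at h5
    exact le_trans h5 (Nat.mul_le_mul_right _ (by omega))
  have h4 : (2 : ℝ) ^ (∑ i ∈ Finset.range (j + 1), i) ≤ 2 ^ (N * N) :=
    pow_le_pow_right₀ (by norm_num) h3
  have h5 : ((j + 1).factorial : ℝ) ≤ N.factorial := by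
    exact_mod_cast Nat.factorial_le (by omega)
  have h6 : (8 : ℝ) ^ (N + 1) * 4 ^ N * 2 ^ (N * N) * N.factorial * (8 * N ^ 2 * 4 ^ (N + 3)) ≤ Λ := by
    exact_mod_cast p.h5
  refine le_trans ?_ h6
  apply mul_le_mul_of_nonneg_right _ (by positivity)
  calc (8 : ℝ) ^ (j + 1 + 1) * 4 ^ (j + 1) *
        (2 ^ (∑ i ∈ Finset.range (j + 1), i) * (j + 1).factorial)
      ≤ 8 ^ (N + 1) * 4 ^ N * (2 ^ (N * N) * N.factorial) := by gcongr
    _ = _ := by ring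

omit p in
theorem epsL_succ (j : ℕ) :
    epsL Λ e r (j + 1) = ((8 : ℝ) ^ (j + 1 + 1) * 4 ^ (j + 1) *
      (2 ^ (∑ i ∈ Finset.range (j + 1), i) * (j + 1).factorial)) *
      (((hL Λ j : ℕ) : ℝ) * (ML Λ j : ℕ)) ^ (j + 1) / (2 * r) ^ (j + 1 + 1) := by
  rw [epsL, muL]
  rw [show (4 * ((hL Λ j : ℕ) : ℝ) * (ML Λ j : ℕ)) ^ (j + 1) =
    4 ^ (j + 1) * (((hL Λ j : ℕ) : ℝ) * (ML Λ j : ℕ)) ^ (j + 1) by rw [← mul_pow]; ring]
  ring

theorem Par.eps_cap {j : ℕ} (hj : j < N) :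
    epsL Λ e r j ≤ (cL Λ j : ℕ) * (muL r j (hL Λ j) (ML Λ j) * 2 ^ ((j + 1) * QL Λ N e j)) := by
  refine le_trans ?_ (p.cap hj)
  have hr : 0 < r := by
    have := p.r_big
    have := p.e_big
    linarith
  have he := p.e_big
  have hNR : (1 : ℝ) ≤ N := by exact_mod_cast p.hN
  have hNpos : (0 : ℝ) < N := by linarith
  cases j with
  | zero =>
    have h1 : (16 * N * 2 ^ (N + 3) : ℝ) ≤ Λ := by exact_mod_cast p.h4
    have h2 : ((cL Λ 0 : ℕ) : ℝ) = Λ := by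
      rw [cL, ae, pow_one]
    rw [h2, epsL, zero_add, pow_one]
    have h3 : (Λ : ℝ) * ((e : ℝ) / (N * 2 ^ (N + 3)) / (2 * r) ^ (1 + 1)) =
        (e * (Λ / (4 * N * 2 ^ (N + 3)))) / r ^ 2 := by
      rw [show (2 * r) ^ (1 + 1) = 4 * r ^ 2 by ring]
      field_simp
    rw [h3]
    apply div_le_div_of_nonneg_right _ (by positivity)
    rw [mul_comm (4 : ℝ)]
    apply mul_le_mul_of_nonneg_left _ (by positivity)
    rw [le_div_iff₀ (by positivity)]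
    linarith
  | succ j =>
    rw [epsL_succ]
    have h1 := p.const_le (by omega : j < N)
    set X : ℝ := (8 : ℝ) ^ (j + 1 + 1) * 4 ^ (j + 1) *
      (2 ^ (∑ i ∈ Finset.range (j + 1), i) * (j + 1).factorial) with hX
    have hX0 : 0 < X := by positivity
    have h2 : ((cL Λ (j + 1) : ℕ) : ℝ) =
        Λ ^ 3 * (((hL Λ j : ℕ) : ℝ) * (ML Λ j : ℕ)) ^ (j + 1) := by
      have h3 : (hL Λ j * ML Λ j) ^ (j + 1) = Λ ^ ((2 * ae j + 3) * (j + 1)) := by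
        rw [hL, ML, ← pow_add, ← pow_mul]
        congr 1
        ring
      have h4 : cL Λ (j + 1) = Λ ^ 3 * (hL Λ j * ML Λ j) ^ (j + 1) := by
        rw [cL, ae, h3, ← pow_add]
        congr 1
        ring
      rw [h4]
      push_cast
      ring
    rw [h2]
    set Y : ℝ := (((hL Λ j : ℕ) : ℝ) * (ML Λ j : ℕ)) ^ (j + 1) with hY
    have hY0 : 0 ≤ Y := by positivity
    set E : ℝ := (e : ℝ) / (N * 2 ^ (N + 3)) with hE
    have hE1 : 1 ≤ E := by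
      rw [hE, le_div_iff₀ (by positivity), one_mul]
      have h3 : (16 * N * 2 ^ (N + 3) : ℝ) ≤ Λ := by exact_mod_cast p.h4
      have h4 := p.LH_le
      have h5 := p.HR
      have h6 := p.LR
      have h7 : (Λ : ℝ) ≤ Λ ^ 2 := by nlinarith
      have h8 : (Λ : ℝ) ^ 2 ≤ Λ ^ 2 * (Λ : ℝ) ^ ae N := le_mul_of_one_le_right (by positivity) h5
      have h9 : (0 : ℝ) ≤ N * 2 ^ (N + 3) := by positivity
      linarith
    have hE2 : E ^ 2 ≤ E ^ (j + 1 + 1) := pow_le_pow_right₀ hE1 (by omega)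
    have h3 : X * (2 * r) ≤ Λ ^ 3 * E ^ 2 := by
      have h4 : 2 * r ≤ 8 * (Λ : ℝ) ^ 2 * (N ^ 2 * 4 ^ (N + 3)) * E ^ 2 := by
        have h5 := p.her2
        have h6 : (N ^ 2 * 4 ^ (N + 3)) * E ^ 2 = (e : ℝ) ^ 2 := by
          rw [hE, div_pow, mul_pow, ← pow_mul, mul_comm (N + 3) 2, pow_mul]
          norm_num
          field_simp
        calc 2 * r ≤ 8 * (Λ : ℝ) ^ 2 * (e : ℝ) ^ 2 := by linarith
          _ = _ := by rw [← h6]; ring
      calc X * (2 * r) ≤ X * (8 * (Λ : ℝ) ^ 2 * (N ^ 2 * 4 ^ (N + 3)) * E ^ 2) :=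
            mul_le_mul_of_nonneg_left h4 hX0.le
        _ = (X * (8 * N ^ 2 * 4 ^ (N + 3))) * (Λ ^ 2 * E ^ 2) := by ring
        _ ≤ Λ * (Λ ^ 2 * E ^ 2) := mul_le_mul_of_nonneg_right h1 (by positivity)
        _ = _ := by ring
    have h4 : (2 * r) ^ (j + 1 + 1 + 1) = (2 * r) ^ (j + 1 + 1) * (2 * r) := pow_succ _ _
    rw [h4, mul_div_assoc']
    rw [div_le_div_iff₀ (by positivity) (by positivity)]
    have h5 : Λ ^ 3 * E ^ 2 ≤ Λ ^ 3 * E ^ (j + 1 + 1) := mul_le_mul_of_nonneg_left hE2 (by positivity)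
    calc X * Y * ((2 * r) ^ (j + 1 + 1) * (2 * r)) =
          (X * (2 * r)) * (Y * (2 * r) ^ (j + 1 + 1)) := by ring
      _ ≤ (Λ ^ 3 * E ^ (j + 1 + 1)) * (Y * (2 * r) ^ (j + 1 + 1)) :=
          mul_le_mul_of_nonneg_right (le_trans h3 h5) (by positivity)
      _ = _ := by ring

theorem Par.eps_le {j : ℕ} (hj : j < N) : epsL Λ e r (j + 1) ≤ e / (2 * r) ^ (j + 1 + 1) := by
  rw [epsL_succ]
  have hr : 0 < r := by
    have := p.r_big
    have := p.e_big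
    linarith
  apply div_le_div_of_nonneg_right _ (by positivity)
  have h1 := p.const_le hj
  have hNR : (1 : ℝ) ≤ N := by exact_mod_cast p.hN
  have h2 : (8 : ℝ) ^ (j + 1 + 1) * 4 ^ (j + 1) *
      (2 ^ (∑ i ∈ Finset.range (j + 1), i) * (j + 1).factorial) ≤ Λ := by
    refine le_trans ?_ h1
    apply le_mul_of_one_le_right (by positivity)
    have h3 : (1 : ℝ) ≤ 4 ^ (N + 3) := one_le_pow₀ (by norm_num)
    have h4 : (1 : ℝ) ≤ (N : ℝ) ^ 2 := one_le_pow₀ hNR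
    nlinarith
  have h3 : (((hL Λ j : ℕ) : ℝ) * (ML Λ j : ℕ)) ^ (j + 1) ≤ (Λ : ℝ) ^ ae N := by
    have h4 : (Λ ^ 3 * (hL Λ j * ML Λ j) ^ (j + 1) : ℝ) ≤ (Λ : ℝ) ^ ae N := by
      exact_mod_cast p.hM_le hj
    refine le_trans ?_ h4
    apply le_mul_of_one_le_left (by positivity)
    exact one_le_pow₀ (by linarith [p.LR])
  calc _ ≤ (Λ : ℝ) * (Λ : ℝ) ^ ae N := mul_le_mul h2 h3 (by positivity) (by positivity)
    _ ≤ Λ ^ 2 * (Λ : ℝ) ^ ae N := by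
        apply mul_le_mul_of_nonneg_right _ (by positivity)
        have := p.LR
        nlinarith
    _ ≤ e := p.LH_le

theorem Par.eps_small {j : ℕ} (hj : j ≤ N) : epsL Λ e r j ≤ 1 / (16 * r) := by
  have hr1 := p.r_big
  have he := p.e_big
  have hr : 0 < r := by linarith
  cases j with
  | zero =>
    rw [epsL, div_le_div_iff₀ (by positivity) (by positivity)]
    nlinarith
  | succ j =>
    refine le_trans (p.eps_le (by omega)) ?_
    rw [div_le_div_iff₀ (by positivity) (by positivity), one_mul, pow_succ, pow_succ]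
    have h1 : (1 : ℝ) ≤ (2 * r) ^ j := one_le_pow₀ (by linarith)
    have h2 : (e : ℝ) * (16 * r) ≤ 1 * (2 * r) * (2 * r) := by nlinarith
    refine le_trans h2 ?_
    apply mul_le_mul_of_nonneg_right _ (by positivity)
    exact mul_le_mul_of_nonneg_right h1 (by positivity)

theorem Par.eps_final {ν : ℕ} (hν : N = ν + 1) : 2 * epsL Λ e r N ≤ 1 / r ^ ν := by
  have hr1 := p.r_big
  have he := p.e_big
  have hr : 0 < r := by linarith
  subst hν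
  have h1 := p.eps_le (by omega : ν < ν + 1)
  refine le_trans (mul_le_mul_of_nonneg_left h1 (by norm_num)) ?_
  rw [mul_div_assoc', div_le_div_iff₀ (by positivity) (by positivity), one_mul]
  have h2 : (2 * r) ^ (ν + 1 + 1) = (2 * r) ^ ν * (4 * r ^ 2) := by ring
  rw [h2]
  have h3 : r ^ ν ≤ (2 * r) ^ ν := pow_le_pow_left₀ hr.le (by linarith) _
  have h4 : 2 * (e : ℝ) ≤ 4 * r ^ 2 := by nlinarith
  calc 2 * (e : ℝ) * r ^ ν ≤ 4 * r ^ 2 * (2 * r) ^ ν :=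
        mul_le_mul h4 h3 (by positivity) (by positivity)
    _ = _ := by ring

end

end Pool.Agent.Helper7.Nt
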