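import Pool.Agent.Helper7.FineStart

set_option autoImplicit false

namespace Pool.Agent.Helper7.Nt

/-- The window at the start. -/
theorem win_aux {s g e l Fr w : ℝ} (he : 1000 ≤ e) (hg0 : 0 ≤ g) (hF1 : s < Fr)
    (hF2 : Fr ≤ s + 1)
    (hw0 : 0 ≤ w) (hw : 2 * w ≤ g + 1) (hl : l = Fr + w) (hlp : 0 < l)
    (h3 : g ^ 2 / l ≤ 1 / 8) (h4 : g / l ≤ 1 / (8 * e)) :
    s * ((l + g) / l) ^ 2 + 3 / 4 ≤ Fr + 2 * g + 1 ∧ Fr + 2 * g + 1 ≤ s * ((l + g) / l) ^ 2 + 3 := by
  have hu0 : 0 ≤ l - s := by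
    rw [hl]
    linarith
  have hu1 : 2 * (l - s) ≤ g + 4 := by
    rw [hl]
    linarith
  have h1 := y0_high' (s := s) hlp hg0 hu0
  have h2 := y0_low' (s := s) hlp hg0 hu0 hu1
  have h8e : 1 / (8 * e) ≤ 1 / 8000 := by
    apply div_le_div_of_nonneg_left (by norm_num) (by norm_num)
    linarith
  constructor
  · linarith
  · have h5 : 4 * g / l = 4 * (g / l) := by ring
    have h6 : (g / 2 + 2) * g ^ 2 / l ^ 2 = (g ^ 2 / l) * (g / l) / 2 + 2 * ((g / l) * (g / l)) := by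
      ring
    rw [h5, h6] at h2
    have h7 : 0 ≤ g / l := by positivity
    have h9 : (g ^ 2 / l) * (g / l) ≤ (1 / 8) * (1 / 8000) :=
      mul_le_mul h3 (by linarith) h7 (by norm_num)
    have h10 : (g / l) * (g / l) ≤ (1 / 8000) * (1 / 8000) :=
      mul_le_mul (by linarith) (by linarith) h7 (by norm_num)
    linarith

theorem start_aux {s g r e l δ D η : ℝ} (he : 1000 ≤ e) (hg0 : 0 ≤ g) (hlp : 0 < l)
    (hl1 : l ≤ s + 1) (hlr : l ≤ r)
    (h2 : g / l ≤ 1 / (8 * e)) (hδ2 : 2 / e ≤ δ ^ 2 / 1000) (hδe : δ ^ 2 * r ≤ 4 * e ^ 2)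
    (hg1 : e / 3 ≤ g) (hgD : g = e - D) (hη : r = s + 2 * e + η) (hη2 : η ≤ δ ^ 2 / 128) :
    r ≤ s * ((l + g) / l) ^ 2 + 2 * D - δ ^ 2 / 1000 := by
  have hδ0 : 0 ≤ δ ^ 2 := by positivity
  have h1 := y0_low (s := s) hlp hg0 (by linarith)
  have h3 : 2 * g / l = 2 * (g / l) := by ring
  have h4 : g ^ 2 / l ^ 2 = (g / l) * (g / l) := by ring
  have h5 : 0 ≤ g / l := by positivity
  have h8e : 1 / (8 * e) ≤ 1 / 8000 := by
    apply div_le_div_of_nonneg_left (by norm_num) (by norm_num)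
    linarith
  have h6 : (g / l) * (g / l) ≤ (1 / (8 * e)) * 1 :=
    mul_le_mul h2 (by linarith) h5 (by positivity)
  have h7 : 3 * (1 / (8 * e)) ≤ 2 / e := by
    rw [mul_one_div, div_le_div_iff₀ (by linarith) (by linarith)]
    linarith
  have h8 : δ ^ 2 / 36 ≤ g ^ 2 / l := by
    rw [div_le_div_iff₀ (by norm_num) hlp]
    have h10 : δ ^ 2 * l ≤ δ ^ 2 * r := mul_le_mul_of_nonneg_left hlr hδ0
    have h11 : (e / 3) ^ 2 ≤ g ^ 2 := pow_le_pow_left₀ (by positivity) hg1 2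
    have h12 : (e / 3) ^ 2 = e ^ 2 / 9 := by ring
    linarith
  rw [h3, h4] at h1
  linarith

theorem choose_w {s g r e G : ℝ} {F W : ℕ} (hs0 : 0 < s) (hr : 0 < r) (hr4 : 4 < r) (hg0 : 0 ≤ g)
    (hg2 : g ≤ e) (hG : 0 < G) (hF : r / 2 ≤ (F : ℝ)) (hstart : r ≤ y0w s g F 0 * G)
    (hend : y0w s g F W * G ≤ r) :
    ∃ w : ℕ, w ≤ W ∧ y0w s g F w * G ≤ r ∧
      Real.log r - Real.log (y0w s g F w * G) ≤ 2 * (4 * e / r ^ 2) := by
  classical
  have hlr : ∀ w : ℕ, r / 2 ≤ ((F + w : ℕ) : ℝ) := by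
    intro w
    push_cast
    have : (0 : ℝ) ≤ w := by positivity
    linarith
  have hy0pos : ∀ w : ℕ, 0 < y0w s g F w := by
    intro w
    rw [y0w]
    have : (0 : ℝ) < ((F + w : ℕ) : ℝ) := lt_of_lt_of_le (by positivity) (hlr w)
    positivity
  have he0 : 0 ≤ e := by linarith
  have hex : ∃ w, y0w s g F w * G ≤ r := ⟨_, hend⟩
  refine ⟨Nat.find hex, Nat.find_min' hex hend, Nat.find_spec hex, ?_⟩
  rcases Nat.eq_zero_or_pos (Nat.find hex) with h0 | h0
  · have h1 := Nat.find_spec hex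
    rw [h0] at h1 ⊢
    have h2 : y0w s g F 0 * G = r := le_antisymm h1 hstart
    rw [h2, sub_self]
    positivity
  · have h1 := Nat.find_min hex (by omega : Nat.find hex - 1 < Nat.find hex)
    rw [not_le] at h1
    have h2 : Real.log r ≤ Real.log (y0w s g F (Nat.find hex - 1) * G) :=
      Real.log_le_log hr h1.le
    set w := Nat.find hex with hw
    rw [Real.log_mul (hy0pos _).ne' hG.ne'] at h2 ⊢
    have h3 : ((F + (w - 1) : ℕ) : ℝ) = ((F + w : ℕ) : ℝ) - 1 := by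
      have : F + w = F + (w - 1) + 1 := by omega
      rw [this]
      push_cast
      ring
    have h4 : r / 2 ≤ ((F + w : ℕ) : ℝ) - 1 := by
      rw [← h3]
      exact hlr _
    have h5 := y0_step (s := s) (l := ((F + w : ℕ) : ℝ)) (by linarith) hg0 hs0
    have h6 : Real.log (y0w s g F (w - 1)) ≤ Real.log (y0w s g F w) +
        2 * (g / ((((F + w : ℕ) : ℝ) - 1) * (((F + w : ℕ) : ℝ) - 1))) := by
      rw [y0w, y0w, h3]
      exact h5
    have h7 : g / ((((F + w : ℕ) : ℝ) - 1) * (((F + w : ℕ) : ℝ) - 1)) ≤ 4 * e / r ^ 2 := by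
      rw [div_le_div_iff₀ (by nlinarith) (by positivity)]
      have h8 : (r / 2) * (r / 2) ≤ (((F + w : ℕ) : ℝ) - 1) * (((F + w : ℕ) : ℝ) - 1) :=
        mul_le_mul h4 h4 (by positivity) (by linarith)
      have h9 : g * r ^ 2 ≤ e * r ^ 2 := mul_le_mul_of_nonneg_right hg2 (by positivity)
      have h10 : e * r ^ 2 = 4 * e * ((r / 2) * (r / 2)) := by ring
      have h11 : 4 * e * ((r / 2) * (r / 2)) ≤
          4 * e * ((((F + w : ℕ) : ℝ) - 1) * (((F + w : ℕ) : ℝ) - 1)) :=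
        mul_le_mul_of_nonneg_left h8 (by positivity)
      linarith
    linarith

theorem step_aux {s g l : ℝ} (h1 : 8 * g ^ 2 ≤ l) (h2 : l - s ≤ g / 2 + 2) (h3 : 300 ≤ g)
    (hl : 0 < l) : l ^ 2 < (l + g) * s := by
  have h4 : l ^ 2 + (l * (g - (l - s)) - g * (l - s)) = (l + g) * s := by ring
  have h5 : l * (g / 4) ≤ l * (g - (l - s)) := by
    apply mul_le_mul_of_nonneg_left _ hl.le
    linarith
  have h6 : g * (l - s) ≤ g * g := by
    apply mul_le_mul_of_nonneg_left _ (by linarith)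
    linarith
  have h7 : (8 * g ^ 2) * (g / 4) ≤ l * (g / 4) :=
    mul_le_mul_of_nonneg_right h1 (by linarith)
  have h8 : (8 * g ^ 2) * (g / 4) = 2 * ((g * g) * g) := by ring
  have h9 : g * g * 300 ≤ (g * g) * g := mul_le_mul_of_nonneg_left h3 (by positivity)
  have h10 : 0 < g * g := by
    have : 0 < g := by linarith
    positivity
  linarith

theorem log_win1 {a y r : ℝ} (hr : 0 < r) (ha : a ≤ 2 * r) (hy : 0 < y) (hay : y + 1 / 2 ≤ a) :
    1 / (4 * r) ≤ Real.log a - Real.log y := by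
  have hap : 0 < a := by linarith
  rw [← Real.log_div hap.ne' hy.ne']
  refine le_trans ?_ (Real.one_sub_inv_le_log_of_pos (by positivity))
  rw [inv_div]
  have h2 : 1 - y / a = (a - y) / a := by field_simp
  rw [h2, div_le_div_iff₀ (by positivity) hap]
  nlinarith

theorem log_win2 {a y r n : ℝ} (hr : 0 < r) (hn : 1 ≤ n) (ha : 0 < a) (hay : a ≤ y + (n + 3))
    (hy1 : 2 * r / 5 ≤ y) : Real.log a - Real.log y ≤ (4 * n + 7) / r := by
  have hy : 0 < y := lt_of_lt_of_le (by positivity) hy1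
  rw [← Real.log_div ha.ne' hy.ne']
  refine le_trans (Real.log_le_sub_one_of_pos (by positivity)) ?_
  have h2 : a / y - 1 = (a - y) / y := by field_simp
  rw [h2, div_le_div_iff₀ hy hr]
  have h3 : (a - y) * r ≤ (n + 3) * r := by
    apply mul_le_mul_of_nonneg_right _ hr.le
    linarith
  have h4 : (4 * n + 7) * (2 * r / 5) ≤ (4 * n + 7) * y :=
    mul_le_mul_of_nonneg_left hy1 (by linarith)
  nlinarith

/-- The core of the fine tuning, with explicit parameters. -/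
theorem fine_core (P : ℝ → Prop)
    (hP : ∀ (x : ℝ) (lam b : ℕ), P x → 0 < x → x ^ 2 < lam → (lam : ℝ) ^ 2 < b * x ^ 2 →
      P (x * (b / lam)))
    {N Λ e : ℕ} {r : ℝ} (p : Par N Λ e r) (ν : ℕ) (hν : N = ν + 1) (δ : ℝ)
    (hδΛ : 1 ≤ (Λ : ℝ) ^ 2 * δ ^ 2) (hδe : δ ^ 2 * r ≤ 4 * (e : ℝ) ^ 2) (hδ1 : δ ^ 2 ≤ 1)
    (x0 : ℝ) (hx0 : 0 < x0) (hPx : P x0)
    (hη1 : δ ^ 2 / 512 ≤ r - x0 ^ 2 - 2 * e) (hη2 : r - x0 ^ 2 - 2 * e ≤ δ ^ 2 / 128) :
    ∃ x, P x ∧ 0 < x ∧ Real.log r - 1 / r ^ ν ≤ 2 * Real.log x ∧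
      2 * Real.log x ≤ Real.log r := by
  have hNR : (1 : ℝ) ≤ N := by exact_mod_cast p.hN
  have hNΛ : (1000 * (N + 2) : ℝ) ≤ Λ := by exact_mod_cast p.h3
  have he := p.e_big
  have hr1 := p.r_big
  have hr : 0 < r := by linarith
  have hLR := p.LR
  have hHR := p.HR
  have her := p.her1
  have hks := p.kap_small
  have hkp := p.kap_pos
  have he6 : (Λ : ℝ) ^ 6 ≤ e := by
    refine le_trans ?_ p.HbigR
    apply le_mul_of_one_le_right (by positivity)
    exact one_le_pow₀ hHR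
  have hΛe : 1000 * (Λ : ℝ) ≤ e := by
    refine le_trans ?_ he6
    have h1 : (1 : ℝ) ≤ (Λ : ℝ) ^ 4 := one_le_pow₀ (by linarith)
    have h2 : (Λ : ℝ) ^ 6 = Λ * Λ * Λ ^ 4 := by ring
    rw [h2]
    nlinarith
  -- `δ ^ 2` against the errors
  have hδ2 : 2 / (e : ℝ) ≤ δ ^ 2 / 1000 := by
    have h1 : (2000 : ℝ) * Λ ^ 2 ≤ e := by
      refine le_trans ?_ he6
      have h2 : (2000 : ℝ) ≤ (Λ : ℝ) ^ 4 := by
        have h3 : (1000 : ℝ) ^ 4 ≤ (Λ : ℝ) ^ 4 := pow_le_pow_left₀ (by norm_num) hLR 4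
        linarith
      have h3 : (Λ : ℝ) ^ 6 = Λ ^ 4 * Λ ^ 2 := by ring
      rw [h3]
      exact mul_le_mul_of_nonneg_right h2 (by positivity)
    rw [div_le_div_iff₀ (by linarith) (by norm_num)]
    have h2 : 2000 * ((Λ : ℝ) ^ 2 * δ ^ 2) ≤ δ ^ 2 * e := by
      have : δ ^ 2 * (2000 * (Λ : ℝ) ^ 2) ≤ δ ^ 2 * e := mul_le_mul_of_nonneg_left h1 (by positivity)
      linarith
    linarith
  have hNκ : N * kap N Λ e ≤ δ ^ 2 / 1000 := by
    have h1 : ((N + 2) * kap N Λ e) * (1000000 * Λ ^ 2) ≤ (Λ : ℝ) ^ 2 * δ ^ 2 := by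
      refine le_trans (le_of_eq ?_) (le_trans hks hδΛ)
      ring
    have h2 : ((N + 2) * kap N Λ e) * 1000000 ≤ δ ^ 2 := by
      have h3 : (0 : ℝ) < (Λ : ℝ) ^ 2 := by positivity
      have h4 : (Λ : ℝ) ^ 2 * (((N + 2) * kap N Λ e) * 1000000) ≤ (Λ : ℝ) ^ 2 * δ ^ 2 := by linarith
      exact le_of_mul_le_mul_left h4 h3
    have h3 : N * kap N Λ e ≤ (N + 2) * kap N Λ e :=
      mul_le_mul_of_nonneg_right (by linarith) hkp.le
    have h4 : 0 ≤ δ ^ 2 := by positivity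
    linarith
  have hδ0 : 0 ≤ δ ^ 2 := by positivity
  -- the start
  set s : ℝ := x0 ^ 2 with hs
  have hs0 : 0 < s := by positivity
  have hs1 : r / 2 + 10 ≤ s := by linarith only [hη2, hδ1, hr1, he]
  have hs2 : s ≤ r := by linarith only [hη1, hδ0, he]
  have hs2' : s + 1 ≤ r := by linarith only [hη1, hδ0, he]
  set F : ℕ := Nat.floor s + 1 with hF
  have hF1 : s < F := by
    rw [hF]
    push_cast
    exact Nat.lt_floor_add_one s
  have hF2 : (F : ℝ) ≤ s + 1 := by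
    rw [hF]
    push_cast
    have := Nat.floor_le hs0.le
    linarith
  -- the gap of the first double step
  set D : ℕ := ∑ j ∈ Finset.range N, DL Λ N e j with hD
  have hDR : ((D : ℕ) : ℝ) = ∑ j ∈ Finset.range N, ((DL Λ N e j : ℕ) : ℝ) := by
    rw [hD]
    push_cast
    rfl
  have hD1 : (D : ℝ) ≤ 2 * e / 3 := by
    rw [hDR]
    exact p.sumDL
  have hDe : D ≤ e := by
    have : (D : ℝ) ≤ e := by linarith
    exact_mod_cast this
  set g : ℕ := e - D with hg
  have hgR : (g : ℝ) = e - D := by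
    rw [hg, Nat.cast_sub hDe]
  have hg1 : (e : ℝ) / 3 ≤ g := by
    rw [hgR]
    linarith
  have hg2 : (g : ℝ) ≤ e := by
    rw [hgR]
    have : (0 : ℝ) ≤ D := by positivity
    linarith
  have hg0 : (0 : ℝ) ≤ g := by positivity
  set A0 : ℕ := F + 2 * g + 1 with hA0
  have hA0R : (A0 : ℝ) = F + 2 * g + 1 := by
    rw [hA0]
    push_cast
    ring
  have hA0r : r / 2 ≤ (A0 : ℝ) := by linarith
  -- bounds for the slopes after the first double step
  have hlr : ∀ w : ℕ, r / 2 ≤ ((F + w : ℕ) : ℝ) := by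
    intro w
    push_cast
    have : (0 : ℝ) ≤ w := by positivity
    linarith
  have hlpos : ∀ w : ℕ, (0 : ℝ) < ((F + w : ℕ) : ℝ) := fun w => lt_of_lt_of_le (by positivity) (hlr w)
  have hge : (g : ℝ) ^ 2 ≤ (e : ℝ) ^ 2 := pow_le_pow_left₀ hg0 hg2 2
  have hgl : ∀ l : ℝ, r / 2 ≤ l → (g : ℝ) ^ 2 / l ≤ 1 / 8 := by
    intro l hl
    rw [div_le_div_iff₀ (by linarith) (by norm_num)]
    linarith
  have hel : ∀ l : ℝ, r / 2 ≤ l → (g : ℝ) / l ≤ 1 / (8 * e) := by
    intro l hl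
    rw [div_le_div_iff₀ (by linarith) (by linarith)]
    have h1 : (g : ℝ) * (8 * e) ≤ e * (8 * e) := mul_le_mul_of_nonneg_right hg2 (by linarith)
    have h2 : (e : ℝ) * (8 * e) = 8 * (e : ℝ) ^ 2 := by ring
    linarith
  have h8e : 1 / (8 * (e : ℝ)) ≤ 1 / 8000 := by
    apply div_le_div_of_nonneg_left (by norm_num) (by norm_num)
    linarith
  -- the window at the start
  have hwin : ∀ w : ℕ, 2 * w ≤ g + 1 → y0w s g F w + 3 / 4 ≤ A0 ∧ (A0 : ℝ) ≤ y0w s g F w + 3 := by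
    intro w hw
    have hwR : 2 * (w : ℝ) ≤ g + 1 := by exact_mod_cast hw
    have hw0 : (0 : ℝ) ≤ w := by positivity
    have hl := hlr w
    have hlp := hlpos w
    have hleq : ((F + w : ℕ) : ℝ) = F + w := by push_cast; ring
    have := win_aux he hg0 hF1 hF2 hw0 hwR hleq hlp (hgl _ hl) (hel _ hl)
    rw [hA0R, y0w]
    exact this
  set G : ℝ := yL N Λ e A0 1 N with hG
  have hGpos : 0 < G := yL_one_pos N Λ e A0 N
  -- final slopes
  have hfin : ∀ w : ℕ, 2 * w ≤ g + 1 →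
      y0w s g F w + 2 * D - δ ^ 2 / 1000 ≤ y0w s g F w * G ∧
      y0w s g F w * G ≤ y0w s g F w + 2 * D + δ ^ 2 / 1000 := by
    intro w hw
    obtain ⟨h1, h2⟩ := hwin w hw
    obtain ⟨_, _, h3, _⟩ := p.track A0 (y0w s g F w) hA0r h1 h2 N le_rfl
    rw [yL_mul, ← hG, ← hDR, abs_le] at h3
    constructor
    · linarith [h3.1]
    · linarith [h3.2]
  have hy0pos : ∀ w : ℕ, 0 < y0w s g F w := by
    intro w
    rw [y0w]
    have := hlpos w
    positivity
  -- at `w = 0` the value is at least `r`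
  have hstart : r ≤ y0w s g F 0 * G := by
    refine le_trans ?_ (hfin 0 (by omega)).1
    have hl := hlr 0
    have hlp := hlpos 0
    have hl1 : ((F + 0 : ℕ) : ℝ) ≤ s + 1 := by
      rw [Nat.add_zero]
      exact hF2
    rw [y0w]
    exact start_aux (η := r - s - 2 * e) he hg0 hlp hl1 (by linarith only [hl1, hs2']) (hel _ hl) hδ2
      hδe hg1 hgR (by ring) hη2
  -- at `w = (g + 1) / 2` the value is at most `r`
  have hend : y0w s g F ((g + 1) / 2) * G ≤ r := by
    refine le_trans (hfin ((g + 1) / 2) (by omega)).2 ?_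
    have hl := hlr ((g + 1) / 2)
    have hlp := hlpos ((g + 1) / 2)
    have h0 : g ≤ 2 * ((g + 1) / 2) := by omega
    have h0R : (g : ℝ) ≤ 2 * (((g + 1) / 2 : ℕ) : ℝ) := by exact_mod_cast h0
    have h1 := y0_high (s := s) hlp hg0 (by
      push_cast
      linarith : (g : ℝ) ≤ 2 * (((F + (g + 1) / 2 : ℕ) : ℝ) - s))
    rw [y0w]
    linarith
  -- choice of `w`
  obtain ⟨w, hw1', hw2, hw3⟩ := choose_w hs0 hr (by linarith only [hr1, he]) hg0 hg2 hGpos
    (by simpa using hlr 0) hstart hend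
  have hw1 : 2 * w ≤ g + 1 := by omega
  obtain ⟨hwa, hwb⟩ := hwin w hw1
  have htr := p.track A0 (y0w s g F w) hA0r hwa hwb
  -- the first double step
  have hwR : 2 * (w : ℝ) ≤ g + 1 := by exact_mod_cast hw1
  have hw0 : (0 : ℝ) ≤ w := by positivity
  have hx1 : P (x0 * (((F + w + g : ℕ) : ℝ) / ((F + w : ℕ) : ℝ))) := by
    apply hP x0 (F + w) (F + w + g) hPx hx0
    · rw [← hs]
      push_cast
      linarith
    · rw [← hs]
      push_cast
      exact step_aux (by linarith only [her, hge, hs1, hF1, hw0])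
        (by linarith only [hF2, hwR]) (by linarith only [hg1, he]) (by linarith only [hs0, hF1, hw0])
  have hx1pos : 0 < x0 * (((F + w + g : ℕ) : ℝ) / ((F + w : ℕ) : ℝ)) := by
    apply mul_pos hx0
    apply div_pos _ (hlpos w)
    push_cast
    linarith
  have hx1sq : (x0 * (((F + w + g : ℕ) : ℝ) / ((F + w : ℕ) : ℝ))) ^ 2 =
      yL N Λ e A0 (y0w s g F w) 0 := by
    rw [yL, y0w, mul_pow, ← hs]
    push_cast
    ring
  -- the levels
  have hlev := levels P hP N (fun j => AL Λ N e A0 j) (fun j => hL Λ j) (fun j => TL Λ N e j)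
    (fun j => QL Λ N e j) (fun j => cL Λ j) (fun j => ML Λ j) r ((4 * N + 8) / r)
    ((Real.log r - Real.log (y0w s g F w * G)) / 2) (yL N Λ e A0 (y0w s g F w)) (epsL Λ e r) hr
    (by
      intro j hj
      obtain ⟨t1, t2, t3, t4⟩ := htr j hj.le
      apply p.levelOk hj
      · rw [t4]
        have : 0 ≤ ∑ i ∈ Finset.range j, ((DL Λ N e i : ℕ) : ℝ) := by positivity
        have : (0 : ℝ) ≤ j := by positivity
        linarith
      · rw [t4]
        have h1 : ∑ i ∈ Finset.range j, ((DL Λ N e i : ℕ) : ℝ) ≤ D := by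
          rw [hDR]
          apply Finset.sum_le_sum_of_subset_of_nonneg
          · exact Finset.range_subset_range.mpr hj.le
          · intro _ _ _
            positivity
        have h2 : (j : ℝ) ≤ N := by exact_mod_cast hj.le
        linarith)
    (fun j _ => rfl)
    (by
      intro j _
      rw [yL_mul]
      exact mul_pos (hy0pos w) (yL_one_pos _ _ _ _ _))
    (fun j hj => p.eps_cap hj)
    (fun j _ => rfl)
    (by
      intro j hj
      obtain ⟨t1, t2, t3, t4⟩ := htr j hj.le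
      have hyp : 0 < yL N Λ e A0 (y0w s g F w) j := by
        rw [yL_mul]
        exact mul_pos (hy0pos w) (yL_one_pos _ _ _ _ _)
      have hA1 : (AL Λ N e A0 j : ℝ) ≤ 2 * r := by
        rw [t4]
        have h1 : ∑ i ∈ Finset.range j, ((DL Λ N e i : ℕ) : ℝ) ≤ D := by
          rw [hDR]
          apply Finset.sum_le_sum_of_subset_of_nonneg
          · exact Finset.range_subset_range.mpr hj.le
          · intro _ _ _
            positivity
        have h2 : (j : ℝ) ≤ N := by exact_mod_cast hj.le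
        linarith
      have hAp : (0 : ℝ) < AL Λ N e A0 j := by linarith
      have h1 := log_win1 hr hA1 hyp t1
      have h2 := p.eps_small (Nat.zero_le N)
      rw [epsL] at h2
      have h3 : 2 * (1 / (16 * r)) ≤ 1 / (4 * r) := by
        rw [mul_one_div, div_le_div_iff₀ (by positivity) (by positivity)]
        linarith
      linarith)
    (by
      intro j hj
      obtain ⟨t1, t2, t3, t4⟩ := htr j hj.le
      have hj1 : (j : ℝ) + 1 ≤ N := by exact_mod_cast hj
      have hj0 : (0 : ℝ) ≤ j := by positivity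
      have hA1 : r / 2 ≤ (AL Λ N e A0 j : ℝ) := by
        rw [t4]
        have : 0 ≤ ∑ i ∈ Finset.range j, ((DL Λ N e i : ℕ) : ℝ) := by positivity
        linarith
      have hAp : (0 : ℝ) < AL Λ N e A0 j := by linarith
      have hy1 : 2 * r / 5 ≤ yL N Λ e A0 (y0w s g F w) j := by linarith
      have hyp : 0 < yL N Λ e A0 (y0w s g F w) j := by linarith
      have h1 := log_win2 (n := (N : ℝ)) hr hNR hAp (by linarith only [t2, hj1]) hy1
      have h2 := p.eps_small hj.le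
      have h3 : (4 * (N : ℝ) + 8) / r = (4 * N + 7) / r + 1 / r := by
        rw [← add_div]
        congr 1
        ring
      have h4 : 2 * (1 / (16 * r)) ≤ 1 / r := by
        rw [mul_one_div, div_le_div_iff₀ (by positivity) (by positivity)]
        linarith
      show Real.log (AL Λ N e A0 j : ℝ) - (4 * N + 8) / r + 2 * epsL Λ e r j ≤
        Real.log (yL N Λ e A0 (y0w s g F w) j)
      rw [h3]
      linarith)
    (by
      have h1 : Real.log (y0w s g F w * G) ≤ Real.log r :=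
        Real.log_le_log (mul_pos (hy0pos w) hGpos) hw2
      linarith)
    (by
      rw [epsL]
      linarith)
    _ hx1 hx1pos hx1sq N le_rfl
  obtain ⟨x', hx'1, hx'2, hx'3, hx'4⟩ := hlev
  rw [yL_mul, ← hG] at hx'3 hx'4
  refine ⟨x', hx'1, hx'2, ?_, ?_⟩
  · have := p.eps_final hν
    linarith
  · linarith

end Pool.Agent.Helper7.Nt
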