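import Pool.Agent.Helper7.FineSeg

set_option autoImplicit false

namespace Pool.Agent.Helper7.Nt

/-- The slope of the configuration without options after one segment. -/
theorem drift (A h T Q n c M : ℕ) (b1 v κ y K : ℝ) (hh : 0 < h) (hA2 : 2 * h ≤ A)
    (hvA : v ≤ A) (hy1 : A - v ≤ y) (hy2 : y ≤ A)
    (hM' : c * (n * Q + 1) ≤ M) (hQT : M * (2 ^ (n + Q) + 1) ≤ T)
    (hb1 : (A : ℝ) + 3 * h + 4 * h * T + 1 ≤ b1)
    (hK : K = (Koff Q n c (c * (n * Q + 1)) : ℝ)) (hKA : 2 * K ≤ A)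
    (hκ1 : 2 * K * (b1 - A) / A + b1 * (4 * K ^ 2 / (A : ℝ) ^ 2) ≤ κ)
    (hκ2 : 4 * h * T * v / A + 2 * K * (b1 - A + v) / b1 +
      b1 * (T * (8 * (h : ℝ) ^ 3 / (A : ℝ) ^ 3)) ≤ κ) :
    y + (4 * h * T + 2 * K) - κ ≤ y * Real.exp (Bf A h T Q n c M) ∧
      y * Real.exp (Bf A h T Q n c M) ≤ y + (4 * h * T + 2 * K) + κ := by
  have hhR : (0 : ℝ) < h := by exact_mod_cast hh
  have hA2R : 2 * (h : ℝ) ≤ A := by exact_mod_cast hA2
  have hApos : (0 : ℝ) < A := by linarith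
  have hK0 : 0 ≤ K := by rw [hK]; positivity
  have hT0 : (0 : ℝ) ≤ 4 * h * T := by positivity
  have hy0 : 0 ≤ y := by linarith
  have hb1pos : 0 < b1 := by linarith
  have hV := Voff_bounds Q n c M T (4 * h) ((A : ℝ) + 3 * h) A b1 (by positivity) hApos
    (by linarith) hM' hQT (by linarith)
  rw [← hK] at hV
  set z : ℝ := ∑ l ∈ Finset.range T, Gd A h l +
    2 * Voff Q n c M (c * (n * Q + 1)) (4 * h) ((A : ℝ) + 3 * h) with hz
  have hG1 : ∑ l ∈ Finset.range T, Gd A h l ≤ 0 :=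
    Finset.sum_nonpos (fun l _ => (Gd_bounds A h l hA2 hh).1)
  have hG2 : -(T * (8 * (h : ℝ) ^ 3 / (A : ℝ) ^ 3)) ≤ ∑ l ∈ Finset.range T, Gd A h l := by
    have h4 : ∑ l ∈ Finset.range T, (-(8 * (h : ℝ) ^ 3 / (A : ℝ) ^ 3)) ≤
        ∑ l ∈ Finset.range T, Gd A h l :=
      Finset.sum_le_sum (fun l _ => (Gd_bounds A h l hA2 hh).2)
    rw [Finset.sum_const, Finset.card_range, nsmul_eq_mul] at h4
    linarith
  have hF : Real.exp (Bf A h T Q n c M) = ((A : ℝ) + 4 * h * T) / A * Real.exp z := by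
    have h1 : Bf A h T Q n c M = Real.log (((A : ℝ) + 4 * h * T) / A) + z := by
      rw [Bf, hz, Real.log_div (by positivity) (by positivity)]
      push_cast
      ring
    rw [h1, Real.exp_add, Real.exp_log (by positivity)]
  rw [hF]
  have hY : y * (((A : ℝ) + 4 * h * T) / A * Real.exp z) =
      (y + 4 * h * T * y / A) * Real.exp z := by
    field_simp
  rw [hY]
  have hYA : 4 * h * T * y / A ≤ 4 * h * T := by
    rw [div_le_iff₀ hApos]
    exact mul_le_mul_of_nonneg_left hy2 hT0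
  have hYA2 : 4 * h * T - 4 * h * T * v / A ≤ 4 * h * T * y / A := by
    have h1 : 4 * h * T - 4 * h * T * v / A = 4 * h * T * (A - v) / A := by
      field_simp
    rw [h1]
    apply div_le_div_of_nonneg_right _ hApos.le
    exact mul_le_mul_of_nonneg_left hy1 hT0
  have hYA0 : 0 ≤ 4 * h * T * y / A := by positivity
  constructor
  · have hzl : 2 * K / b1 - T * (8 * (h : ℝ) ^ 3 / (A : ℝ) ^ 3) ≤ z := by
      have : 2 * K / b1 = 2 * (K / b1) := by ring
      rw [this]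
      linarith [hV.1]
    have h1 : 1 + z ≤ Real.exp z := by
      have := Real.add_one_le_exp z
      linarith
    have hYpos : 0 ≤ y + 4 * h * T * y / A := by positivity
    have h2 : (y + 4 * h * T * y / A) * (1 + (2 * K / b1 - T * (8 * (h : ℝ) ^ 3 / (A : ℝ) ^ 3))) ≤
        (y + 4 * h * T * y / A) * Real.exp z := by
      apply mul_le_mul_of_nonneg_left _ hYpos
      linarith
    refine le_trans ?_ h2
    have h3 : (A - v) * (2 * K / b1) ≤ (y + 4 * h * T * y / A) * (2 * K / b1) := by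
      apply mul_le_mul_of_nonneg_right _ (by positivity)
      linarith
    have h4 : (y + 4 * h * T * y / A) * (T * (8 * (h : ℝ) ^ 3 / (A : ℝ) ^ 3)) ≤
        b1 * (T * (8 * (h : ℝ) ^ 3 / (A : ℝ) ^ 3)) := by
      apply mul_le_mul_of_nonneg_right _ (by positivity)
      linarith
    have h5 : (A - v) * (2 * K / b1) = 2 * K - 2 * K * (b1 - A + v) / b1 := by
      field_simp
      ring
    have h6 : (y + 4 * h * T * y / A) * (1 + (2 * K / b1 - T * (8 * (h : ℝ) ^ 3 / (A : ℝ) ^ 3))) =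
        (y + 4 * h * T * y / A) + (y + 4 * h * T * y / A) * (2 * K / b1) -
        (y + 4 * h * T * y / A) * (T * (8 * (h : ℝ) ^ 3 / (A : ℝ) ^ 3)) := by ring
    rw [h6]
    linarith
  · have hzu : z ≤ 2 * K / A := by
      have : 2 * K / A = 2 * (K / A) := by ring
      rw [this]
      linarith [hV.2]
    have ht1 : 2 * K / A ≤ 1 := by
      rw [div_le_one hApos]
      exact hKA
    have ht0 : 0 ≤ 2 * K / A := by positivity
    have h1 : Real.exp z ≤ 1 + 2 * K / A + (2 * K / A) ^ 2 := by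
      refine le_trans (Real.exp_le_exp.mpr hzu) ?_
      have h2 := Real.abs_exp_sub_one_sub_id_le (x := 2 * K / A) (by
        rw [abs_of_nonneg ht0]
        exact ht1)
      have h3 := (abs_le.mp h2).2
      linarith
    have h2 : (y + 4 * h * T * y / A) * Real.exp z ≤
        (y + 4 * h * T) * (1 + 2 * K / A + (2 * K / A) ^ 2) := by
      apply mul_le_mul (by linarith) h1 (Real.exp_pos z).le (by positivity)
    refine le_trans h2 ?_
    have h3 : (y + 4 * h * T) * (2 * K / A) ≤ b1 * (2 * K / A) :=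
      mul_le_mul_of_nonneg_right (by linarith) ht0
    have h4 : (y + 4 * h * T) * ((2 * K / A) ^ 2) ≤ b1 * ((2 * K / A) ^ 2) :=
      mul_le_mul_of_nonneg_right (by linarith) (by positivity)
    have h5 : b1 * (2 * K / A) = 2 * K + 2 * K * (b1 - A) / A := by
      field_simp
      ring
    have h6 : b1 * ((2 * K / A) ^ 2) = b1 * (4 * K ^ 2 / (A : ℝ) ^ 2) := by
      rw [div_pow]
      ring
    have h7 : (y + 4 * h * T) * (1 + 2 * K / A + (2 * K / A) ^ 2) =
      (y + 4 * h * T) + (y + 4 * h * T) * (2 * K / A) + (y + 4 * h * T) * ((2 * K / A) ^ 2) := by ring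
    rw [h7]
    linarith

/-- The constant `μ` of level `j` (order `j + 1`). -/
noncomputable def muL (r : ℝ) (j h M : ℕ) : ℝ :=
  (4 * h * M : ℝ) ^ (j + 1) * 2 ^ (∑ i ∈ Finset.range (j + 1), i) * (j + 1).factorial /
    (2 * r) ^ (j + 1 + 1)

/-- The hypotheses of `level` for level `j`. -/
structure LevelOk (r τ : ℝ) (j A h T Q c M : ℕ) : Prop where
  hM : 1 ≤ M
  hc : 8 ^ (j + 1 + 1) ≤ c
  hM' : c * ((j + 1) * Q + 1) ≤ M
  hQT : M * (2 ^ (j + 1 + Q) + 1) ≤ T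
  hh : 0 < h
  hA2 : 2 * h ≤ A
  hAr : r / 4 ≤ A
  hAT : (A : ℝ) + 3 * h + 4 * h * T + 1 ≤ 2 * r
  hRA : 4 * h * T ≤ A
  hS : 4 * (c * ((j + 1) * Q + 1) * 2 ^ (j + 1)) < h
  hτ : 4 * (τ + T * (8 * (h : ℝ) ^ 3 / (A : ℝ) ^ 3)) * A < h

theorem levels (P : ℝ → Prop)
    (hP : ∀ (x : ℝ) (lam b : ℕ), P x → 0 < x → x ^ 2 < lam → (lam : ℝ) ^ 2 < b * x ^ 2 →
      P (x * (b / lam)))
    (N : ℕ) (A h T Q c M : ℕ → ℕ) (r τ ρ : ℝ) (y ε : ℕ → ℝ) (hr : 0 < r)
    (hok : ∀ j < N, LevelOk r τ j (A j) (h j) (T j) (Q j) (c j) (M j))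
    (hy : ∀ j < N, y (j + 1) = y j * Real.exp (Bf (A j) (h j) (T j) (Q j) (j + 1) (c j) (M j)))
    (hypos : ∀ j ≤ N, 0 < y j)
    (hcap : ∀ j < N, ε j ≤ c j * (muL r j (h j) (M j) * 2 ^ ((j + 1) * Q j)))
    (hε : ∀ j < N, ε (j + 1) = 8 ^ (j + 1 + 1) * muL r j (h j) (M j))
    (hw1 : ∀ j < N, Real.log (y j) + 2 * ρ ≤ Real.log (A j))
    (hw2 : ∀ j < N, Real.log (A j) - τ + 2 * ε j ≤ Real.log (y j))
    (hρ0 : 0 ≤ ρ) (hρ : ρ ≤ ε 0) (x : ℝ) (hx : P x) (hx0 : 0 < x) (hxy : x ^ 2 = y 0) :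
    ∀ k ≤ N, ∃ x', P x' ∧ 0 < x' ∧ 2 * Real.log x' ≤ Real.log (y k) + 2 * ρ ∧
      Real.log (y k) + 2 * ρ ≤ 2 * Real.log x' + 2 * ε k := by
  intro k
  induction k with
  | zero =>
    intro _
    refine ⟨x, hx, hx0, ?_, ?_⟩
    · rw [← hxy, Real.log_pow]
      push_cast
      linarith
    · rw [← hxy, Real.log_pow]
      push_cast
      linarith
  | succ k ih =>
    intro hk
    obtain ⟨x1, h1, h2, h3, h4⟩ := ih (by omega)
    have hL := hok k (by omega)
    obtain ⟨x2, h5, h6, h7, h8⟩ := level P hP (k + 1) (A k) (h k) (T k) (Q k) (c k) (M k) r τ hL.hM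
      hL.hc hL.hM' hL.hQT hL.hh hL.hA2 hr hL.hAr hL.hAT hL.hRA hL.hS hL.hτ x1 h1 h2
      (by linarith [hw1 k (by omega)]) (by linarith [hw2 k (by omega)])
      (muL r k (h k) (M k)) rfl ((Real.log (y k) + 2 * ρ - 2 * Real.log x1) / 2) (by linarith)
      (by linarith [hcap k (by omega)])
    refine ⟨x2, h5, h6, ?_, ?_⟩
    · rw [hy k (by omega), Real.log_mul (hypos k (by omega)).ne' (Real.exp_pos _).ne', Real.log_exp]
      linarith
    · rw [hy k (by omega), Real.log_mul (hypos k (by omega)).ne' (Real.exp_pos _).ne', Real.log_exp,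
        hε k (by omega)]
      linarith

end Pool.Agent.Helper7.Nt
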