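import Pool.Agent.Helper7.FineDrift

set_option autoImplicit false

namespace Pool.Agent.Helper7.Nt

/-- Exponents of the parameters. -/
def ae : ℕ → ℕ
  | 0 => 1
  | (j + 1) => (2 * ae j + 3) * (j + 1) + 3

theorem ae_lt (j : ℕ) : 2 * ae j + 6 ≤ ae (j + 1) := by
  rw [ae]
  nlinarith

theorem ae_mono {i j : ℕ} (h : i ≤ j) : ae i ≤ ae j := by
  refine monotone_nat_of_le_succ (f := ae) (fun n => ?_) h
  have := ae_lt n
  omega

theorem ae_pos (j : ℕ) : 1 ≤ ae j := by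
  have := ae_mono (Nat.zero_le j)
  rw [ae] at this
  exact this

def cL (Λ j : ℕ) : ℕ := Λ ^ ae j
def ML (Λ j : ℕ) : ℕ := Λ ^ (ae j + 1)
def hL (Λ j : ℕ) : ℕ := Λ ^ (ae j + 2)
def TL (Λ N e j : ℕ) : ℕ := e / (4 * N * hL Λ j)
def QL (Λ N e j : ℕ) : ℕ := Nat.log 2 (TL Λ N e j / ML Λ j) - (j + 2)
def KL (Λ N e j : ℕ) : ℕ :=
  Koff (QL Λ N e j) (j + 1) (cL Λ j) (cL Λ j * ((j + 1) * QL Λ N e j + 1))
def DL (Λ N e j : ℕ) : ℕ := 2 * hL Λ j * TL Λ N e j + KL Λ N e j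
def AL (Λ N e A0 : ℕ) : ℕ → ℕ
  | 0 => A0
  | (j + 1) => AL Λ N e A0 j + 2 * DL Λ N e j + 1

/-- Smallness of the parameters. -/
structure Par (N Λ e : ℕ) (r : ℝ) : Prop where
  hN : 1 ≤ N
  h1 : 8 ^ (N + 1) ≤ Λ
  h2 : 4 * 2 ^ N < Λ
  h3 : 1000 * (N + 2) ≤ Λ
  h4 : 16 * N * 2 ^ (N + 3) ≤ Λ
  h5 : 8 ^ (N + 1) * 4 ^ N * 2 ^ (N * N) * N.factorial * (8 * N ^ 2 * 4 ^ (N + 3)) ≤ Λ
  hlog : N * Nat.log 2 e + 1 ≤ Λ
  hbig : Λ ^ (3 * ae N + 6) ≤ e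
  her1 : 16 * (e : ℝ) ^ 2 ≤ r
  her2 : r ≤ 4 * (Λ : ℝ) ^ 2 * (e : ℝ) ^ 2

theorem ML_le (Λ j : ℕ) : Λ * ML Λ j ≤ hL Λ j := by
  rw [hL, ML, ← pow_succ']

theorem TL_le (N Λ e j : ℕ) : 4 * hL Λ j * TL Λ N e j * N ≤ e := by
  have h1 : TL Λ N e j * (4 * N * hL Λ j) ≤ e := Nat.div_mul_le_self _ _
  refine le_trans (le_of_eq ?_) h1
  ring

section

variable {N Λ e : ℕ} {r : ℝ} (p : Par N Λ e r)
include p

theorem Par.Lpos : 1000 ≤ Λ := by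
  have := p.h3
  omega

theorem Par.hL_le {j : ℕ} (hj : j < N) : hL Λ j ≤ Λ ^ ae N := by
  rw [hL]
  apply Nat.pow_le_pow_right (by have := p.Lpos; omega)
  have h1 := ae_lt j
  have h2 := ae_mono (by omega : j + 1 ≤ N)
  omega

theorem Par.Hbig : Λ ^ 6 * (Λ ^ ae N) ^ 3 ≤ e := by
  refine le_trans (le_of_eq ?_) p.hbig
  rw [← pow_mul, ← pow_add]
  congr 1
  ring

theorem Par.Hpos : 1 ≤ Λ ^ ae N := Nat.one_le_iff_ne_zero.mpr (pow_ne_zero _ (by have := p.Lpos; omega))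

theorem Par.hM_le {j : ℕ} (hj : j < N) : Λ ^ 3 * (hL Λ j * ML Λ j) ^ (j + 1) ≤ Λ ^ ae N := by
  have h1 : (hL Λ j * ML Λ j) ^ (j + 1) = Λ ^ ((2 * ae j + 3) * (j + 1)) := by
    rw [hL, ML, ← pow_add, ← pow_mul]
    congr 1
    ring
  rw [h1, ← pow_add]
  apply Nat.pow_le_pow_right (by have := p.Lpos; omega)
  have h2 := ae_mono (by omega : j + 1 ≤ N)
  rw [ae] at h2
  omega

theorem Par.hL_ge (j : ℕ) : Λ ^ 3 ≤ hL Λ j := by
  rw [hL]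
  apply Nat.pow_le_pow_right (by have := p.Lpos; omega)
  have := ae_pos j
  omega

theorem Par.ML_ge (j : ℕ) : 1 ≤ ML Λ j := by
  rw [ML]
  exact Nat.one_le_iff_ne_zero.mpr (pow_ne_zero _ (by have := p.Lpos; omega))

theorem Par.T_le' (j : ℕ) : 4 * hL Λ j * TL Λ N e j ≤ e :=
  le_trans (Nat.le_mul_of_pos_right _ p.hN) (TL_le N Λ e j)

theorem Par.T_lt (j : ℕ) : e < 4 * N * hL Λ j * (TL Λ N e j + 1) := by
  have h0 : 0 < 4 * N * hL Λ j := by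
    have h1 := p.hN
    have h2 := p.hL_ge j
    have h3 : 0 < Λ ^ 3 := by have := p.Lpos; positivity
    have : 0 < hL Λ j := by omega
    positivity
  have h1 := Nat.lt_div_mul_add (a := e) h0
  rw [TL]
  refine lt_of_lt_of_le h1 (le_of_eq ?_)
  ring

theorem Par.MT {j : ℕ} (hj : j < N) : ML Λ j * 2 ^ (j + 2) ≤ TL Λ N e j := by
  have hLp := p.Lpos
  have h0 : 0 < hL Λ j := by
    rw [hL]
    positivity
  rw [TL, Nat.le_div_iff_mul_le (by have := p.hN; positivity)]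
  have h1 : 4 * N * 2 ^ (j + 2) ≤ Λ := by
    refine le_trans ?_ p.h4
    have : 2 ^ (j + 2) ≤ 2 ^ (N + 3) := Nat.pow_le_pow_right (by norm_num) (by omega)
    exact Nat.mul_le_mul (by omega) this
  have h2 : ML Λ j ≤ Λ ^ ae N := by
    have h3 := ML_le Λ j
    have h4 := p.hL_le hj
    have h5 : ML Λ j ≤ Λ * ML Λ j := Nat.le_mul_of_pos_left _ (by omega)
    omega
  have h3 := p.hL_le hj
  calc ML Λ j * 2 ^ (j + 2) * (4 * N * hL Λ j) = (4 * N * 2 ^ (j + 2)) * (ML Λ j * hL Λ j) := by ring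
    _ ≤ Λ * (Λ ^ ae N * Λ ^ ae N) := Nat.mul_le_mul h1 (Nat.mul_le_mul h2 h3)
    _ ≤ Λ ^ 6 * (Λ ^ ae N) ^ 3 := by
      have h4 := p.Hpos
      have h5 : Λ ≤ Λ ^ 6 := Nat.le_self_pow (by norm_num) _
      calc Λ * (Λ ^ ae N * Λ ^ ae N) ≤ Λ ^ 6 * (Λ ^ ae N * Λ ^ ae N) := Nat.mul_le_mul_right _ h5
        _ ≤ Λ ^ 6 * (Λ ^ ae N * Λ ^ ae N) * Λ ^ ae N := Nat.le_mul_of_pos_right _ h4
        _ = _ := by ring
    _ ≤ e := p.Hbig

theorem Par.Q_spec {j : ℕ} (hj : j < N) :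
    QL Λ N e j + (j + 2) = Nat.log 2 (TL Λ N e j / ML Λ j) := by
  have h1 : 2 ^ (j + 2) ≤ TL Λ N e j / ML Λ j := by
    rw [Nat.le_div_iff_mul_le (p.ML_ge j), mul_comm]
    exact p.MT hj
  have h2 : j + 2 ≤ Nat.log 2 (TL Λ N e j / ML Λ j) := by
    rw [Nat.le_log_iff_pow_le (by norm_num) (by
      have : 0 < 2 ^ (j + 2) := by positivity
      omega)]
    exact h1
  rw [QL]
  omega

theorem Par.QT {j : ℕ} (hj : j < N) :
    ML Λ j * (2 ^ (j + 1 + QL Λ N e j) + 1) ≤ TL Λ N e j := by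
  have h0 : TL Λ N e j / ML Λ j ≠ 0 := by
    have h1 : 2 ^ (j + 2) ≤ TL Λ N e j / ML Λ j := by
      rw [Nat.le_div_iff_mul_le (p.ML_ge j), mul_comm]
      exact p.MT hj
    have : 0 < 2 ^ (j + 2) := by positivity
    omega
  have h1 : 2 ^ (QL Λ N e j + (j + 2)) ≤ TL Λ N e j / ML Λ j := by
    rw [p.Q_spec hj]
    exact Nat.pow_log_le_self 2 h0
  have h2 : 2 ^ (j + 1 + QL Λ N e j) + 1 ≤ 2 ^ (QL Λ N e j + (j + 2)) := by
    have h3 : 2 ^ (QL Λ N e j + (j + 2)) = 2 * 2 ^ (j + 1 + QL Λ N e j) := by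
      rw [← pow_succ']
      congr 1
      omega
    have h4 : 1 ≤ 2 ^ (j + 1 + QL Λ N e j) := Nat.one_le_two_pow
    omega
  calc ML Λ j * (2 ^ (j + 1 + QL Λ N e j) + 1) ≤ ML Λ j * (TL Λ N e j / ML Λ j) :=
        Nat.mul_le_mul_left _ (le_trans h2 h1)
    _ ≤ TL Λ N e j := Nat.mul_div_le _ _

theorem Par.QT2 {j : ℕ} (hj : j < N) :
    TL Λ N e j < ML Λ j * 2 ^ (QL Λ N e j + j + 3) := by
  have h1 : TL Λ N e j / ML Λ j < 2 ^ (Nat.log 2 (TL Λ N e j / ML Λ j) + 1) :=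
    Nat.lt_pow_succ_log_self (by norm_num) _
  rw [Nat.div_lt_iff_lt_mul (p.ML_ge j), ← p.Q_spec hj] at h1
  have h2 : QL Λ N e j + (j + 2) + 1 = QL Λ N e j + j + 3 := by omega
  rw [h2, mul_comm] at h1
  exact h1

theorem Par.M'_le {j : ℕ} (hj : j < N) :
    cL Λ j * ((j + 1) * QL Λ N e j + 1) ≤ ML Λ j := by
  have h0 : ML Λ j = cL Λ j * Λ := by rw [ML, cL, pow_succ]
  rw [h0]
  apply Nat.mul_le_mul_left
  refine le_trans ?_ p.hlog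
  have h1 : QL Λ N e j ≤ Nat.log 2 e := by
    have h2 : Nat.log 2 (TL Λ N e j / ML Λ j) ≤ Nat.log 2 e := by
      apply Nat.log_mono_right
      refine le_trans (Nat.div_le_self _ _) ?_
      rw [TL]
      exact Nat.div_le_self _ _
    have h3 := p.Q_spec hj
    omega
  have h2 : (j + 1) * QL Λ N e j ≤ N * Nat.log 2 e := Nat.mul_le_mul (by omega) h1
  omega

theorem Par.K_lt {j : ℕ} (hj : j < N) : 4 * KL Λ N e j < hL Λ j := by
  have h1 := Koff_le (QL Λ N e j) (j + 1) (cL Λ j) (cL Λ j * ((j + 1) * QL Λ N e j + 1))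
  have h2 := p.M'_le hj
  have h3 := p.h2
  have h4 : 2 ^ (j + 1) ≤ 2 ^ N := Nat.pow_le_pow_right (by norm_num) (by omega)
  have hM := p.ML_ge j
  have h5 := ML_le Λ j
  rw [KL]
  calc 4 * Koff (QL Λ N e j) (j + 1) (cL Λ j) (cL Λ j * ((j + 1) * QL Λ N e j + 1))
      ≤ 4 * (cL Λ j * ((j + 1) * QL Λ N e j + 1) * 2 ^ (j + 1)) := Nat.mul_le_mul_left _ h1
    _ ≤ 4 * (ML Λ j * 2 ^ N) := Nat.mul_le_mul_left _ (Nat.mul_le_mul h2 h4)
    _ = (4 * 2 ^ N) * ML Λ j := by ring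
    _ < Λ * ML Λ j := Nat.mul_lt_mul_of_pos_right h3 hM
    _ ≤ hL Λ j := h5

theorem Par.e_big : (1000 : ℝ) ≤ e := by
  have h1 := p.Hbig
  have h2 := p.Hpos
  have h3 := p.Lpos
  have h4 : Λ ≤ Λ ^ 6 * (Λ ^ ae N) ^ 3 := by
    calc Λ ≤ Λ ^ 6 := Nat.le_self_pow (by norm_num) _
      _ ≤ Λ ^ 6 * (Λ ^ ae N) ^ 3 := Nat.le_mul_of_pos_right _ (by positivity)
  exact_mod_cast (by omega : 1000 ≤ e)

theorem Par.r_big : 16000 * (e : ℝ) ≤ r := by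
  have h1 := p.her1
  have h2 := p.e_big
  nlinarith

theorem Par.levelOk {j A : ℕ} (hj : j < N) (hA1 : r / 2 ≤ A) (hA2 : A ≤ r + Λ) :
    LevelOk r ((4 * N + 8) / r) j A (hL Λ j) (TL Λ N e j) (QL Λ N e j) (cL Λ j) (ML Λ j) := by
  have he := p.e_big
  have hr := p.r_big
  have hr0 : 0 < r := by linarith
  have hLp := p.Lpos
  have hHR : ((Λ ^ ae N : ℕ) : ℝ) * 1000 ≤ e := by
    have h1 := p.Hbig
    have h2 := p.Hpos
    have h3 : Λ ^ ae N * 1000 ≤ e := by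
      refine le_trans ?_ h1
      calc Λ ^ ae N * 1000 ≤ Λ ^ ae N * Λ ^ 6 :=
            Nat.mul_le_mul_left _ (le_trans hLp (Nat.le_self_pow (by norm_num) _))
        _ = Λ ^ 6 * Λ ^ ae N := by ring
        _ ≤ Λ ^ 6 * (Λ ^ ae N) ^ 3 := Nat.mul_le_mul_left _ (Nat.le_self_pow (by norm_num) _)
    exact_mod_cast h3
  have hHLR : ((Λ : ℕ) : ℝ) ≤ ((Λ ^ ae N : ℕ) : ℝ) := by
    exact_mod_cast Nat.le_self_pow (by have := ae_pos N; omega) _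
  have hhR : ((hL Λ j : ℕ) : ℝ) ≤ ((Λ ^ ae N : ℕ) : ℝ) := by exact_mod_cast p.hL_le hj
  have hTR : 4 * ((hL Λ j : ℕ) : ℝ) * (TL Λ N e j : ℕ) ≤ e := by exact_mod_cast p.T_le' j
  have hΛ3 : Λ ≤ hL Λ j := le_trans (Nat.le_self_pow (by norm_num) _) (p.hL_ge j)
  have hApos : (0 : ℝ) < A := by linarith
  refine ⟨p.ML_ge j, ?_, p.M'_le hj, p.QT hj, by omega, ?_, by linarith, ?_, ?_, ?_, ?_⟩
  · have h1 : 8 ^ (j + 1 + 1) ≤ 8 ^ (N + 1) := Nat.pow_le_pow_right (by norm_num) (by omega)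
    have h2 : Λ ≤ cL Λ j := by
      rw [cL]
      exact Nat.le_self_pow (by have := ae_pos j; omega) _
    have := p.h1
    omega
  · have : 2 * ((hL Λ j : ℕ) : ℝ) ≤ A := by linarith
    exact_mod_cast this
  · linarith
  · have : 4 * ((hL Λ j : ℕ) : ℝ) * (TL Λ N e j : ℕ) ≤ A := by linarith
    exact_mod_cast this
  · have h2 := p.M'_le hj
    have h3 := p.h2
    have h4 : 2 ^ (j + 1) ≤ 2 ^ N := Nat.pow_le_pow_right (by norm_num) (by omega)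
    have hM := p.ML_ge j
    have h5 := ML_le Λ j
    calc 4 * (cL Λ j * ((j + 1) * QL Λ N e j + 1) * 2 ^ (j + 1))
        ≤ 4 * (ML Λ j * 2 ^ N) := Nat.mul_le_mul_left _ (Nat.mul_le_mul h2 h4)
      _ = (4 * 2 ^ N) * ML Λ j := by ring
      _ < Λ * ML Λ j := Nat.mul_lt_mul_of_pos_right h3 hM
      _ ≤ hL Λ j := h5
  · -- the window
    have hhL : (1000 * (N + 2) : ℝ) ≤ (hL Λ j : ℕ) := by
      have := p.h3
      exact_mod_cast (by omega : 1000 * (N + 2) ≤ hL Λ j)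
    generalize ((hL Λ j : ℕ) : ℝ) = h at *
    generalize ((TL Λ N e j : ℕ) : ℝ) = T at *
    generalize ((Λ ^ ae N : ℕ) : ℝ) = H at *
    have hN0 : (0 : ℝ) ≤ N := by positivity
    have hh0 : 0 < h := by linarith
    have h1 : 4 * ((4 * N + 8) / r) * A ≤ 32 * N + 64 := by
      have h2 : A ≤ 2 * r := by linarith
      have h3 : 4 * ((4 * N + 8) / r) * A ≤ 4 * ((4 * N + 8) / r) * (2 * r) :=
        mul_le_mul_of_nonneg_left h2 (by positivity)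
      have h4 : 4 * ((4 * N + 8) / r) * (2 * r) = 32 * N + 64 := by
        field_simp
        ring
      linarith
    have h2 : 4 * (T * (8 * h ^ 3 / (A : ℝ) ^ 3)) * A ≤ 1 := by
      have h3 : 4 * (T * (8 * h ^ 3 / (A : ℝ) ^ 3)) * A = 8 * (4 * h * T) * h ^ 2 / (A : ℝ) ^ 2 := by
        field_simp
      rw [h3, div_le_one (by positivity)]
      have h4 : 8 * (4 * h * T) * h ^ 2 ≤ 8 * e * h ^ 2 := by
        apply mul_le_mul_of_nonneg_right _ (by positivity)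
        linarith
      have h5 : h ^ 2 ≤ (e : ℝ) ^ 2 := pow_le_pow_left₀ hh0.le (by linarith) 2
      have h6 : 8 * (e : ℝ) * h ^ 2 ≤ 8 * e * (e : ℝ) ^ 2 := mul_le_mul_of_nonneg_left h5 (by positivity)
      have h7 : (8 * (e : ℝ) ^ 2) ^ 2 ≤ (A : ℝ) ^ 2 := by
        apply pow_le_pow_left₀ (by positivity)
        linarith [p.her1]
      have h8 : 8 * (e : ℝ) * (e : ℝ) ^ 2 ≤ (8 * (e : ℝ) ^ 2) ^ 2 := by
        have h9 : (8 * (e : ℝ) ^ 2) ^ 2 = 64 * (e : ℝ) ^ 3 * e := by ring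
        have h10 : 8 * (e : ℝ) * (e : ℝ) ^ 2 = 8 * (e : ℝ) ^ 3 * 1 := by ring
        rw [h9, h10]
        apply mul_le_mul _ (by linarith) (by norm_num) (by positivity)
        have : 0 ≤ (e : ℝ) ^ 3 := by positivity
        linarith
      linarith
    have h3 : 4 * ((4 * N + 8) / r + T * (8 * h ^ 3 / (A : ℝ) ^ 3)) * A =
        4 * ((4 * N + 8) / r) * A + 4 * (T * (8 * h ^ 3 / (A : ℝ) ^ 3)) * A := by ring
    rw [h3]
    linarith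

end

end Pool.Agent.Helper7.Nt
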