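import Pool.Agent.Helper7.NtMain

set_option autoImplicit false

namespace Pool.Agent.Helper7.Nt

/-- The segment lemma, for a general predicate closed under double steps. -/
theorem segment_gen (P : ℝ → Prop)
    (hP : ∀ (x : ℝ) (lam b : ℕ), P x → 0 < x → x ^ 2 < lam → (lam : ℝ) ^ 2 < b * x ^ 2 →
      P (x * (b / lam)))
    (A h T : ℕ) (hh : 0 < h) (hA : 2 * h ≤ A) (e : ℕ → ℕ) (x0 : ℝ) (hx0 : P x0)
    (hx0pos : 0 < x0)
    (S R τ : ℝ) (hR : ((A + 4 * h * T : ℕ) : ℝ) ≤ R)
    (hS : (∑ l ∈ Finset.range T, e l : ℕ) ≤ S)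
    (h1 : 2 * S * R < h * A)
    (h2 : 2 * (τ + T * (8 * (h : ℝ) ^ 3 / (A : ℝ) ^ 3)) * R < h)
    (hU1 : 2 * Real.log x0 - Real.log A ≤ 0) (hU2 : -τ ≤ 2 * Real.log x0 - Real.log A) :
    P (xs A h e x0 T) := by
  have hh' : (0 : ℝ) < h := by exact_mod_cast hh
  have hA' : 2 * (h : ℝ) ≤ A := by exact_mod_cast hA
  have hApos : (0 : ℝ) < A := by linarith
  have hS0 : 0 ≤ S := le_trans (by positivity) hS
  have key : ∀ i, i ≤ T → P (xs A h e x0 i) := by
    intro i
    induction i with
    | zero =>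
      intro _
      exact hx0
    | succ i ih =>
      intro hi
      have hch := ih (by omega)
      have hxpos := xs_pos A h hh e x0 hx0pos i
      have hlog := xs_log A h hh (by omega) e x0 hx0pos i
      set x := xs A h e x0 i with hxdef
      set a : ℝ := ((A + 4 * h * i : ℕ) : ℝ) with ha
      have hAa : (A : ℝ) ≤ a := by
        rw [ha]; push_cast
        have : (0 : ℝ) ≤ 4 * h * i := by positivity
        linarith
      have haR : a + 4 * h ≤ R := by
        refine le_trans ?_ hR
        rw [ha]; push_cast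
        have h3 : (i : ℝ) + 1 ≤ T := by exact_mod_cast hi
        nlinarith
      have hapos : 0 < a := by linarith
      have hRpos : 0 < R := by linarith
      have e1 : ((A + h + 4 * h * i : ℕ) : ℝ) = a + h := by rw [ha]; push_cast; ring
      -- upper bound
      have hup : 2 * Real.log x ≤ Real.log a + 2 * S / A := by
        have h3 : ∑ l ∈ Finset.range i, Gd A h l ≤ 0 :=
          Finset.sum_nonpos (fun l _ => (Gd_bounds A h l hA hh).1)
        have h4 : ∑ l ∈ Finset.range i, (Real.log ((A + 3 * h + 4 * h * l + e l : ℕ) : ℝ) -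
            Real.log ((A + 3 * h + 4 * h * l : ℕ) : ℝ)) ≤ S / A := by
          have h5 : ∀ l ∈ Finset.range i, Real.log ((A + 3 * h + 4 * h * l + e l : ℕ) : ℝ) -
              Real.log ((A + 3 * h + 4 * h * l : ℕ) : ℝ) ≤ (e l : ℝ) / A := by
            intro l _
            have h6 : (0 : ℝ) < ((A + 3 * h + 4 * h * l : ℕ) : ℝ) := by
              exact_mod_cast (by omega : 0 < A + 3 * h + 4 * h * l)
            have h7 : (0 : ℝ) < ((A + 3 * h + 4 * h * l + e l : ℕ) : ℝ) := by
              exact_mod_cast (by omega : 0 < A + 3 * h + 4 * h * l + e l)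
            rw [← Real.log_div h7.ne' h6.ne']
            refine le_trans (Real.log_le_sub_one_of_pos (div_pos h7 h6)) ?_
            have h8 : ((A + 3 * h + 4 * h * l + e l : ℕ) : ℝ) / ((A + 3 * h + 4 * h * l : ℕ) : ℝ) - 1
                = (e l : ℝ) / ((A + 3 * h + 4 * h * l : ℕ) : ℝ) := by
              rw [div_sub_one h6.ne']
              congr 1
              push_cast
              ring
            rw [h8]
            apply div_le_div_of_nonneg_left (by positivity) hApos
            exact_mod_cast (by omega : A ≤ A + 3 * h + 4 * h * l)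
          refine le_trans (Finset.sum_le_sum h5) ?_
          rw [← Finset.sum_div]
          apply div_le_div_of_nonneg_right _ hApos.le
          refine le_trans ?_ hS
          push_cast
          apply Finset.sum_le_sum_of_subset_of_nonneg
          · exact Finset.range_subset_range.mpr (by omega)
          · intro _ _ _
            positivity
        have h9 : 2 * S / A = 2 * (S / A) := by ring
        rw [hlog, h9]
        linarith
      -- lower bound
      have hlo : Real.log a - (τ + T * (8 * (h : ℝ) ^ 3 / (A : ℝ) ^ 3)) ≤ 2 * Real.log x := by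
        have h3 : -(T * (8 * (h : ℝ) ^ 3 / (A : ℝ) ^ 3)) ≤ ∑ l ∈ Finset.range i, Gd A h l := by
          have h4 : ∑ l ∈ Finset.range i, (-(8 * (h : ℝ) ^ 3 / (A : ℝ) ^ 3)) ≤
              ∑ l ∈ Finset.range i, Gd A h l :=
            Finset.sum_le_sum (fun l _ => (Gd_bounds A h l hA hh).2)
          rw [Finset.sum_const, Finset.card_range, nsmul_eq_mul] at h4
          have h5 : (i : ℝ) ≤ T := by exact_mod_cast (by omega : i ≤ T)
          have h6 : 0 ≤ 8 * (h : ℝ) ^ 3 / (A : ℝ) ^ 3 := by positivity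
          nlinarith
        have h4 : 0 ≤ ∑ l ∈ Finset.range i, (Real.log ((A + 3 * h + 4 * h * l + e l : ℕ) : ℝ) -
            Real.log ((A + 3 * h + 4 * h * l : ℕ) : ℝ)) := by
          apply Finset.sum_nonneg
          intro l _
          rw [sub_nonneg]
          apply Real.log_le_log
          · exact_mod_cast (by omega : 0 < A + 3 * h + 4 * h * l)
          · exact_mod_cast (by omega : A + 3 * h + 4 * h * l ≤ A + 3 * h + 4 * h * l + e l)
        rw [hlog]
        linarith
      rw [xs]
      apply hP _ _ _ hch hxpos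
      · rw [e1, ← Real.log_lt_log_iff (by positivity) (by positivity), Real.log_pow]
        push_cast
        refine lt_of_le_of_lt hup ?_
        have h3 : Real.log (a + h) = Real.log a + Real.log (1 + h / a) := by
          rw [← Real.log_mul (by positivity) (by positivity)]
          congr 1
          field_simp
        rw [h3]
        have h4 : 1 - (1 + h / a)⁻¹ ≤ Real.log (1 + h / a) :=
          Real.one_sub_inv_le_log_of_pos (by positivity)
        have h5 : 1 - (1 + h / a)⁻¹ = h / (a + h) := by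
          field_simp
          ring
        have h6 : 2 * S / A < h / (a + h) := by
          rw [div_lt_div_iff₀ hApos (by positivity)]
          calc 2 * S * (a + h) ≤ 2 * S * R := by
                apply mul_le_mul_of_nonneg_left _ (by positivity)
                linarith
            _ < h * A := h1
        linarith
      · rw [e1]
        have h3 : (a + h) ^ 2 < (a + 3 * h) * x ^ 2 := by
          rw [← Real.log_lt_log_iff (by positivity) (by positivity), Real.log_pow,
            Real.log_mul (by positivity) (by positivity), Real.log_pow]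
          push_cast
          have h4 : 2 * Real.log (a + h) - Real.log (a + 3 * h) - Real.log a =
              Real.log ((a + h) ^ 2 / ((a + 3 * h) * a)) := by
            rw [Real.log_div (by positivity) (by positivity),
              Real.log_mul (by positivity) (by positivity), Real.log_pow]
            push_cast
            ring
          have h5 : Real.log ((a + h) ^ 2 / ((a + 3 * h) * a)) ≤ -(h / (2 * R)) := by
            refine le_trans (Real.log_le_sub_one_of_pos (by positivity)) ?_
            have h6 : (a + h) ^ 2 / ((a + 3 * h) * a) - 1 = -(h * (a - h) / ((a + 3 * h) * a)) := by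
              field_simp
              ring
            rw [h6]
            apply neg_le_neg
            rw [div_le_div_iff₀ (by positivity) (by positivity)]
            have h7 : a + 3 * h ≤ R := by linarith
            have h8 : a ≤ 2 * (a - h) := by linarith
            have h9 : (a + 3 * h) * a ≤ R * (2 * (a - h)) :=
              mul_le_mul h7 h8 hapos.le hRpos.le
            calc h * ((a + 3 * h) * a) ≤ h * (R * (2 * (a - h))) :=
                  mul_le_mul_of_nonneg_left h9 hh'.le
              _ = h * (a - h) * (2 * R) := by ring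
          have h6 : τ + T * (8 * (h : ℝ) ^ 3 / (A : ℝ) ^ 3) < h / (2 * R) := by
            rw [lt_div_iff₀ (by positivity)]
            linarith
          linarith
        refine lt_of_lt_of_le h3 ?_
        apply mul_le_mul_of_nonneg_right _ (by positivity)
        rw [ha]
        push_cast
        have : (0 : ℝ) ≤ e i := by positivity
        linarith
  exact key T le_rfl

/-- Twice the logarithmic gain of a segment without options. -/
noncomputable def Bf (A h T Q n c M : ℕ) : ℝ :=
  Real.log ((A + 4 * h * T : ℕ) : ℝ) - Real.log A + ∑ l ∈ Finset.range T, Gd A h l +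
    2 * Voff Q n c M (c * (n * Q + 1)) (4 * h) ((A : ℝ) + 3 * h)

/-- One segment with options of order `n`: the remainder `ρ` is reduced to at most
`8 ^ (n + 1) * μ`. -/
theorem level (P : ℝ → Prop)
    (hP : ∀ (x : ℝ) (lam b : ℕ), P x → 0 < x → x ^ 2 < lam → (lam : ℝ) ^ 2 < b * x ^ 2 →
      P (x * (b / lam)))
    (n A h T Q c M : ℕ) (r τ : ℝ) (hM : 1 ≤ M)
    (hc : 8 ^ (n + 1) ≤ c) (hM' : c * (n * Q + 1) ≤ M) (hQT : M * (2 ^ (n + Q) + 1) ≤ T)
    (hh : 0 < h) (hA2 : 2 * h ≤ A) (hr : 0 < r) (hAr : r / 4 ≤ A)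
    (hAT : (A : ℝ) + 3 * h + 4 * h * T + 1 ≤ 2 * r)
    (hRA : 4 * h * T ≤ A) (hS : 4 * (c * (n * Q + 1) * 2 ^ n) < h)
    (hτ : 4 * (τ + T * (8 * (h : ℝ) ^ 3 / (A : ℝ) ^ 3)) * A < h)
    (x : ℝ) (hx : P x) (hx0 : 0 < x) (hU1 : 2 * Real.log x - Real.log A ≤ 0)
    (hU2 : -τ ≤ 2 * Real.log x - Real.log A)
    (μ : ℝ) (hμ : μ = (4 * h * M : ℝ) ^ n * 2 ^ (∑ i ∈ Finset.range n, i) * n.factorial /
      (2 * r) ^ (n + 1))
    (ρ : ℝ) (hρ0 : 0 ≤ ρ) (hρ : ρ ≤ c * (μ * 2 ^ (n * Q))) :
    ∃ x', P x' ∧ 0 < x' ∧ 2 * Real.log x' ≤ 2 * Real.log x + Bf A h T Q n c M + 2 * ρ ∧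
      2 * Real.log x + Bf A h T Q n c M + 2 * ρ ≤ 2 * Real.log x' + 2 * (8 ^ (n + 1) * μ) := by
  have hcpos : 0 < c := lt_of_lt_of_le (by positivity) hc
  have hApos : (0 : ℝ) < A := lt_of_lt_of_le (by positivity) hAr
  have hhR : (0 : ℝ) < h := by exact_mod_cast hh
  have hdl : ∀ o < c * (n * Q + 1), μ * 2 ^ (o / c) ≤
        dl Q n c M (4 * h) ((A : ℝ) + 3 * h) o ∧
      dl Q n c M (4 * h) ((A : ℝ) + 3 * h) o ≤ 8 ^ (n + 1) * (μ * 2 ^ (o / c)) := by
    intro o ho
    rw [hμ]
    exact dl_bounds Q n c M (by omega) (4 * h) _ r (by positivity) hr (by linarith) o T ho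
      (by omega) hQT (by linarith)
  have hμ0 : 0 ≤ μ := by
    rw [hμ]
    positivity
  have hcc := class_cond (dl Q n c M (4 * h) ((A : ℝ) + 3 * h)) c hcpos μ (8 ^ (n + 1)) hμ0
    (by exact_mod_cast hc) (c * (n * Q + 1)) (fun o ho => (hdl o ho).1) (fun o ho => (hdl o ho).2)
  have hε : 0 ≤ 8 ^ (n + 1) * μ := by positivity
  have htotal : ρ ≤ 8 ^ (n + 1) * μ + ∑ o ∈ Finset.range (c * (n * Q + 1)),
      dl Q n c M (4 * h) ((A : ℝ) + 3 * h) o := by
    have h1 : ρ ≤ ∑ o ∈ Finset.range (c * (n * Q + 1)),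
        dl Q n c M (4 * h) ((A : ℝ) + 3 * h) o := by
      refine le_trans hρ ?_
      generalize hδ : dl Q n c M (4 * h) ((A : ℝ) + 3 * h) = δ at hdl
      rw [Nat.mul_add, Nat.mul_one, Finset.sum_range_add]
      have h2 : 0 ≤ ∑ o ∈ Finset.range (c * (n * Q)), δ o := by
        apply Finset.sum_nonneg
        intro o ho
        rw [Finset.mem_range] at ho
        refine le_trans (by positivity) (hdl o ?_).1
        rw [Nat.mul_add]
        omega
      have h3 : (c : ℝ) * (μ * 2 ^ (n * Q)) ≤ ∑ x ∈ Finset.range c, δ (c * (n * Q) + x) := by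
        have h4 : ∀ x ∈ Finset.range c, μ * 2 ^ (n * Q) ≤ δ (c * (n * Q) + x) := by
          intro x hx
          rw [Finset.mem_range] at hx
          have h5 := (hdl (c * (n * Q) + x) (by rw [Nat.mul_add]; omega)).1
          rwa [Nat.mul_add_div hcpos, Nat.div_eq_of_lt hx, add_zero] at h5
        have := Finset.card_nsmul_le_sum _ _ _ h4
        rwa [Finset.card_range, nsmul_eq_mul] at this
      linarith
    linarith
  obtain ⟨S, hS', hS1, hS2⟩ := greedy (dl Q n c M (4 * h) ((A : ℝ) + 3 * h)) (8 ^ (n + 1) * μ)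
    (c * (n * Q + 1)) hcc ρ hρ0 htotal
  have hRA' : 4 * (h : ℝ) * T ≤ A := by exact_mod_cast hRA
  have hch : P (xs A h (ee Q n c M (c * (n * Q + 1)) S) x T) := by
    apply segment_gen P hP A h T hh hA2 (ee Q n c M (c * (n * Q + 1)) S) x hx hx0
      ((c * (n * Q + 1) * 2 ^ n : ℕ) : ℝ) (2 * A) τ
    · push_cast
      linarith
    · exact_mod_cast ee_sum Q n c M (c * (n * Q + 1)) T S
    · have h1 : 4 * ((c * (n * Q + 1) * 2 ^ n : ℕ) : ℝ) < h := by exact_mod_cast hS
      have h2 : 2 * ((c * (n * Q + 1) * 2 ^ n : ℕ) : ℝ) * (2 * A) =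
        4 * ((c * (n * Q + 1) * 2 ^ n : ℕ) : ℝ) * A := by ring
      rw [h2]
      exact mul_lt_mul_of_pos_right h1 hApos
    · have h2 : 2 * (τ + T * (8 * (h : ℝ) ^ 3 / (A : ℝ) ^ 3)) * (2 * A) =
        4 * (τ + T * (8 * (h : ℝ) ^ 3 / (A : ℝ) ^ 3)) * A := by ring
      rw [h2]
      exact hτ
    · exact hU1
    · exact hU2
  refine ⟨_, hch, xs_pos A h hh _ x hx0 T, ?_, ?_⟩
  · rw [xs_log A h hh (by omega) _ x hx0 T, ee_log_sum Q n c M (c * (n * Q + 1)) T A h S hS' hM' hQT,
      Bf]
    linarith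
  · rw [xs_log A h hh (by omega) _ x hx0 T, ee_log_sum Q n c M (c * (n * Q + 1)) T A h S hS' hM' hQT,
      Bf]
    linarith

/-- The number of shifts of the configuration without options. -/
def Koff (Q n c M' : ℕ) : ℕ := ∑ o ∈ Finset.range M', (OffS (gaps Q n (o / c))).card

theorem Koff_le (Q n c M' : ℕ) : Koff Q n c M' ≤ M' * 2 ^ n := by
  rw [Koff]
  refine le_trans (Finset.sum_le_card_nsmul _ _ (2 ^ n) ?_) ?_
  · intro o _
    have h := (card_le (gaps Q n (o / c))).2
    rw [gaps_length] at h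
    exact h
  · rw [Finset.card_range, smul_eq_mul]

theorem Fl_ge {x : ℝ} (hx : 0 < x) : 1 / (x + 1) ≤ Fl x := by
  rw [Fl, ← Real.log_div (by positivity) (by positivity)]
  refine le_trans ?_ (Real.one_sub_inv_le_log_of_pos (by positivity))
  apply le_of_eq
  field_simp
  ring

theorem Voff_bounds (Q n c M T : ℕ) (w4 β b0 b1 : ℝ) (hw : 0 ≤ w4) (hb0 : 0 < b0) (h : b0 ≤ β)
    (hM' : c * (n * Q + 1) ≤ M) (hQT : M * (2 ^ (n + Q) + 1) ≤ T) (hb1 : β + w4 * T + 1 ≤ b1) :
    (Koff Q n c (c * (n * Q + 1)) : ℝ) / b1 ≤ Voff Q n c M (c * (n * Q + 1)) w4 β ∧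
      Voff Q n c M (c * (n * Q + 1)) w4 β ≤ (Koff Q n c (c * (n * Q + 1)) : ℝ) / b0 := by
  have hkey : ∀ b : ℝ, (Koff Q n c (c * (n * Q + 1)) : ℝ) / b =
      ∑ o ∈ Finset.range (c * (n * Q + 1)), ∑ q ∈ OffS (gaps Q n (o / c)), 1 / b := by
    intro b
    rw [Koff]
    push_cast
    rw [Finset.sum_div]
    apply Finset.sum_congr rfl
    intro o _
    rw [Finset.sum_const, nsmul_eq_mul, mul_one_div]
  rw [hkey, hkey, Voff]
  constructor
  · apply Finset.sum_le_sum
    intro o ho
    rw [Finset.mem_range] at ho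
    apply Finset.sum_le_sum
    intro q hq
    have h3 : 0 ≤ w4 * ((o + M * q : ℕ) : ℝ) := by positivity
    refine le_trans ?_ (Fl_ge (by linarith))
    apply div_le_div_of_nonneg_left (by norm_num) (by linarith)
    have h4 : o + M * q ≤ T := by
      have h5 : q ≤ (gaps Q n (o / c)).sum := (mem_le_sum _).2 q hq
      have h6 := gaps_sum_lt Q n (o / c)
      have h7 : 2 ^ (n + min Q (o / c)) ≤ 2 ^ (n + Q) :=
        Nat.pow_le_pow_right (by norm_num) (by omega)
      have h8 : M * q ≤ M * 2 ^ (n + Q) := Nat.mul_le_mul_left _ (by omega)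
      rw [Nat.mul_add, Nat.mul_one] at hQT
      omega
    have h5 : ((o + M * q : ℕ) : ℝ) ≤ T := by exact_mod_cast h4
    have h6 : w4 * ((o + M * q : ℕ) : ℝ) ≤ w4 * T := mul_le_mul_of_nonneg_left h5 hw
    linarith
  · apply Finset.sum_le_sum
    intro o ho
    apply Finset.sum_le_sum
    intro q hq
    have h3 : 0 ≤ w4 * ((o + M * q : ℕ) : ℝ) := by positivity
    refine le_trans (Fl_le (by linarith)) ?_
    apply div_le_div_of_nonneg_left (by norm_num) hb0
    linarith

end Pool.Agent.Helper7.Nt
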