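import Pool.Agent.Helper7.FineTrack

set_option autoImplicit false

namespace Pool.Agent.Helper7.Nt

/-- The slope after the first double step. -/
noncomputable def y0w (s g : ℝ) (F : ℕ) (w : ℕ) : ℝ := s * (((F + w : ℕ) + g) / ((F + w : ℕ) : ℝ)) ^ 2

theorem y0_eq {s g l : ℝ} (hl : 0 < l) :
    s * ((l + g) / l) ^ 2 = s + 2 * g + g * (g - 2 * (l - s)) / l - (l - s) * g ^ 2 / l ^ 2 := by
  field_simp
  ring

theorem y0_low {s g l : ℝ} (hl : 0 < l) (hg : 0 ≤ g) (hu : l - s ≤ 1) :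
    s + 2 * g + g ^ 2 / l - 2 * g / l - g ^ 2 / l ^ 2 ≤ s * ((l + g) / l) ^ 2 := by
  rw [y0_eq hl]
  have h1 : (g * (g - 2)) / l ≤ g * (g - 2 * (l - s)) / l := by
    apply div_le_div_of_nonneg_right _ hl.le
    apply mul_le_mul_of_nonneg_left _ hg
    linarith
  have h2 : (l - s) * g ^ 2 / l ^ 2 ≤ g ^ 2 / l ^ 2 := by
    apply div_le_div_of_nonneg_right _ (by positivity)
    have : 0 ≤ g ^ 2 := by positivity
    nlinarith
  have h3 : (g * (g - 2)) / l = g ^ 2 / l - 2 * g / l := by ring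
  linarith

theorem y0_high {s g l : ℝ} (hl : 0 < l) (hg : 0 ≤ g) (hu : g ≤ 2 * (l - s)) :
    s * ((l + g) / l) ^ 2 ≤ s + 2 * g := by
  rw [y0_eq hl]
  have h1 : g * (g - 2 * (l - s)) / l ≤ 0 := by
    apply div_nonpos_of_nonpos_of_nonneg _ hl.le
    apply mul_nonpos_of_nonneg_of_nonpos hg
    linarith
  have h2 : 0 ≤ (l - s) * g ^ 2 / l ^ 2 := by
    apply div_nonneg _ (by positivity)
    apply mul_nonneg _ (by positivity)
    linarith
  linarith

theorem y0_high' {s g l : ℝ} (hl : 0 < l) (hg : 0 ≤ g) (hu : 0 ≤ l - s) :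
    s * ((l + g) / l) ^ 2 ≤ s + 2 * g + g ^ 2 / l := by
  rw [y0_eq hl]
  have h1 : g * (g - 2 * (l - s)) / l ≤ g ^ 2 / l := by
    apply div_le_div_of_nonneg_right _ hl.le
    have : 0 ≤ g * (l - s) := by positivity
    nlinarith
  have h2 : 0 ≤ (l - s) * g ^ 2 / l ^ 2 := by positivity
  linarith

theorem y0_low' {s g l : ℝ} (hl : 0 < l) (hg : 0 ≤ g) (hu0 : 0 ≤ l - s) (hu : 2 * (l - s) ≤ g + 4) :
    s + 2 * g - 4 * g / l - (g / 2 + 2) * g ^ 2 / l ^ 2 ≤ s * ((l + g) / l) ^ 2 := by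
  rw [y0_eq hl]
  have h1 : (g * (-4)) / l ≤ g * (g - 2 * (l - s)) / l := by
    apply div_le_div_of_nonneg_right _ hl.le
    apply mul_le_mul_of_nonneg_left _ hg
    linarith
  have h2 : (l - s) * g ^ 2 / l ^ 2 ≤ (g / 2 + 2) * g ^ 2 / l ^ 2 := by
    apply div_le_div_of_nonneg_right _ (by positivity)
    apply mul_le_mul_of_nonneg_right _ (by positivity)
    linarith
  have h3 : (g * (-4)) / l = - (4 * g / l) := by ring
  linarith

theorem y0_step {s g l : ℝ} (hl : 1 < l) (hg : 0 ≤ g) (hs : 0 < s) :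
    Real.log (s * ((l - 1 + g) / (l - 1)) ^ 2) ≤
      Real.log (s * ((l + g) / l) ^ 2) + 2 * (g / ((l - 1) * (l - 1))) := by
  have hl0 : 0 < l := by linarith
  have hl1 : 0 < l - 1 := by linarith
  rw [Real.log_mul hs.ne' (by positivity), Real.log_mul hs.ne' (by positivity), Real.log_pow,
    Real.log_pow]
  push_cast
  have h1 : Real.log ((l - 1 + g) / (l - 1)) - Real.log ((l + g) / l) ≤
      g / ((l - 1) * (l - 1)) := by
    rw [← Real.log_div (by positivity) (by positivity)]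
    refine le_trans (Real.log_le_sub_one_of_pos (by positivity)) ?_
    have h2 : (l - 1 + g) / (l - 1) / ((l + g) / l) - 1 = g / ((l - 1) * (l + g)) := by
      field_simp
      ring
    rw [h2]
    apply div_le_div_of_nonneg_left hg (by positivity)
    apply mul_le_mul_of_nonneg_left _ hl1.le
    linarith
  linarith

theorem yL_mul (N Λ e A0 : ℕ) (y0 : ℝ) (k : ℕ) :
    yL N Λ e A0 y0 k = y0 * yL N Λ e A0 1 k := by
  induction k with
  | zero => simp [yL]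
  | succ k ih =>
    rw [yL, yL, ih]
    ring

theorem yL_one_pos (N Λ e A0 : ℕ) (k : ℕ) : 0 < yL N Λ e A0 1 k := by
  induction k with
  | zero => simp [yL]
  | succ k ih =>
    rw [yL]
    positivity

section

variable {N Λ e : ℕ} {r : ℝ} (p : Par N Λ e r)
include p

theorem Par.sumDL : ∑ j ∈ Finset.range N, ((DL Λ N e j : ℕ) : ℝ) ≤ 2 * e / 3 := by
  have hNR : (1 : ℝ) ≤ N := by exact_mod_cast p.hN
  have hNΛ : (1000 * (N + 2) : ℝ) ≤ Λ := by exact_mod_cast p.h3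
  have hHR := p.HR
  have hLR := p.LR
  have h1 : ∀ j ∈ Finset.range N, ((DL Λ N e j : ℕ) : ℝ) ≤ e / (2 * N) + (Λ : ℝ) ^ ae N := by
    intro j hj
    rw [Finset.mem_range] at hj
    have h2 : 4 * ((hL Λ j : ℕ) : ℝ) * (TL Λ N e j : ℕ) * N ≤ e := by
      exact_mod_cast TL_le N Λ e j
    have h3 : ((hL Λ j : ℕ) : ℝ) ≤ (Λ : ℝ) ^ ae N := by exact_mod_cast p.hL_le hj
    have h4 : 4 * ((KL Λ N e j : ℕ) : ℝ) ≤ (hL Λ j : ℕ) := by exact_mod_cast (p.K_lt hj).le
    have h5 : 2 * ((hL Λ j : ℕ) : ℝ) * (TL Λ N e j : ℕ) ≤ e / (2 * N) := by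
      rw [le_div_iff₀ (by positivity)]
      linarith
    have h6 : ((KL Λ N e j : ℕ) : ℝ) ≤ (Λ : ℝ) ^ ae N := by linarith
    rw [DL]
    push_cast
    linarith
  refine le_trans (Finset.sum_le_sum h1) ?_
  rw [Finset.sum_const, Finset.card_range, nsmul_eq_mul, mul_add]
  have h2 : (N : ℝ) * (e / (2 * N)) = e / 2 := by field_simp
  have h3 : (N : ℝ) * (Λ : ℝ) ^ ae N * 6 ≤ e := by
    refine le_trans ?_ p.LH_le
    have h4 : (N : ℝ) * 6 ≤ Λ ^ 2 := by nlinarith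
    calc (N : ℝ) * (Λ : ℝ) ^ ae N * 6 = (N * 6) * (Λ : ℝ) ^ ae N := by ring
      _ ≤ _ := mul_le_mul_of_nonneg_right h4 (by positivity)
  rw [h2]
  linarith

end

end Pool.Agent.Helper7.Nt
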