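import Pool.Agent.Helper7.FineCap

set_option autoImplicit false

namespace Pool.Agent.Helper7.Nt

/-- The error of the slope per segment. -/
noncomputable def kap (N Λ e : ℕ) : ℝ := 3 * ((Λ : ℝ) ^ ae N) ^ 2 / e

/-- The logarithmic gain of level `j`. -/
noncomputable def BL (N Λ e j A : ℕ) : ℝ :=
  Bf A (hL Λ j) (TL Λ N e j) (QL Λ N e j) (j + 1) (cL Λ j) (ML Λ j)

/-- The slopes of the configuration without options. -/
noncomputable def yL (N Λ e A0 : ℕ) (y0 : ℝ) : ℕ → ℝ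
  | 0 => y0
  | (j + 1) => yL N Λ e A0 y0 j * Real.exp (BL N Λ e j (AL Λ N e A0 j))

theorem kap_one {a h T K H e : ℝ} (hh : 0 ≤ h) (hhT : 0 ≤ 4 * h * T) (hK0 : 0 ≤ K) (hH : 1 ≤ H)
    (he : 1000 ≤ e) (h8 : 8 * e ^ 2 ≤ a) (hA8 : 8000 * e ≤ a) (hHe : 1000 * H ≤ e)
    (hT : 4 * h * T ≤ e) (hh2 : h ≤ H) (hK : 4 * K ≤ H) :
    2 * K * (a + 3 * h + 4 * h * T + 1 - a) / a +
      (a + 3 * h + 4 * h * T + 1) * (4 * K ^ 2 / a ^ 2) ≤ 3 * H ^ 2 / e := by
  have hapos : 0 < a := by linarith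
  have hHH : H ≤ H ^ 2 := le_self_pow₀ hH (by norm_num)
  have hea : e ^ 2 ≤ a := by
    have : 0 ≤ e ^ 2 := by positivity
    linarith
  have h1 : 2 * K * (a + 3 * h + 4 * h * T + 1 - a) / a ≤ H ^ 2 / e := by
    rw [div_le_div_iff₀ hapos (by linarith)]
    have h2 : 2 * K * (a + 3 * h + 4 * h * T + 1 - a) ≤ (H / 2) * (2 * e) := by
      apply mul_le_mul (by linarith) (by linarith) (by linarith) (by linarith)
    calc 2 * K * (a + 3 * h + 4 * h * T + 1 - a) * e ≤ (H / 2) * (2 * e) * e :=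
          mul_le_mul_of_nonneg_right h2 (by linarith)
      _ = H * e ^ 2 := by ring
      _ ≤ H ^ 2 * a := mul_le_mul hHH hea (by positivity) (by positivity)
  have h2 : (a + 3 * h + 4 * h * T + 1) * (4 * K ^ 2 / a ^ 2) ≤ H ^ 2 / e := by
    rw [mul_div_assoc', div_le_div_iff₀ (by positivity) (by linarith)]
    have h3 : a + 3 * h + 4 * h * T + 1 ≤ 2 * a := by linarith
    have h4 : 4 * K ^ 2 ≤ H ^ 2 := by
      have h5 : (2 * K) ^ 2 ≤ H ^ 2 := pow_le_pow_left₀ (by linarith) (by linarith) 2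
      linarith
    calc (a + 3 * h + 4 * h * T + 1) * (4 * K ^ 2) * e ≤ (2 * a) * H ^ 2 * e := by
          apply mul_le_mul_of_nonneg_right _ (by linarith)
          exact mul_le_mul h3 h4 (by positivity) (by positivity)
      _ = (H ^ 2 * a) * (2 * e) := by ring
      _ ≤ (H ^ 2 * a) * a := by
          apply mul_le_mul_of_nonneg_left _ (by positivity)
          linarith
      _ = _ := by ring
  have h3 : 3 * H ^ 2 / e = H ^ 2 / e + H ^ 2 / e + H ^ 2 / e := by ring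
  have h4 : 0 ≤ H ^ 2 / e := div_nonneg (by positivity) (by linarith)
  rw [h3]
  linarith

theorem kap_two {a h T K H L e : ℝ} (hL : 0 ≤ L) (hhT : 0 ≤ 4 * h * T) (hh : 0 < h) (hK0 : 0 ≤ K)
    (hH : 1 ≤ H)
    (he : 1000 ≤ e) (h8 : 8 * e ^ 2 ≤ a) (hA8 : 8000 * e ≤ a) (hHe : 1000 * H ≤ e)
    (hT : 4 * h * T ≤ e) (hh2 : h ≤ H) (hK : 4 * K ≤ H) (hT0 : 0 ≤ T) (hLH : L ≤ H)
    (hapos : 0 < a) :
    4 * h * T * L / a + 2 * K * (a + 3 * h + 4 * h * T + 1 - a + L) /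
      (a + 3 * h + 4 * h * T + 1) +
      (a + 3 * h + 4 * h * T + 1) * (T * (8 * h ^ 3 / a ^ 3)) ≤ 3 * H ^ 2 / e := by
  have hHH : H ≤ H ^ 2 := le_self_pow₀ hH (by norm_num)
  have he0 : 0 < e := by linarith
  have hea : e ^ 2 ≤ a := by
    have : 0 ≤ e ^ 2 := by positivity
    linarith
  have h1 : 4 * h * T * L / a ≤ H ^ 2 / e := by
    rw [div_le_div_iff₀ hapos he0]
    calc 4 * h * T * L * e ≤ e * H * e := by
          apply mul_le_mul_of_nonneg_right _ he0.le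
          exact mul_le_mul hT hLH hL he0.le
      _ = H * e ^ 2 := by ring
      _ ≤ H ^ 2 * a := mul_le_mul hHH hea (by positivity) (by positivity)
  have h2 : 2 * K * (a + 3 * h + 4 * h * T + 1 - a + L) / (a + 3 * h + 4 * h * T + 1) ≤
      H ^ 2 / e := by
    rw [div_le_div_iff₀ (by linarith) he0]
    have h3 : 2 * K * (a + 3 * h + 4 * h * T + 1 - a + L) ≤ (H / 2) * (2 * e) := by
      apply mul_le_mul (by linarith) (by linarith) (by linarith) (by linarith)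
    calc 2 * K * (a + 3 * h + 4 * h * T + 1 - a + L) * e ≤ (H / 2) * (2 * e) * e :=
          mul_le_mul_of_nonneg_right h3 he0.le
      _ = H * e ^ 2 := by ring
      _ ≤ H ^ 2 * a := mul_le_mul hHH hea (by positivity) (by positivity)
      _ ≤ H ^ 2 * (a + 3 * h + 4 * h * T + 1) := by
        apply mul_le_mul_of_nonneg_left _ (by positivity)
        linarith
  have h3 : (a + 3 * h + 4 * h * T + 1) * (T * (8 * h ^ 3 / a ^ 3)) ≤ H ^ 2 / e := by
    have h4 : (a + 3 * h + 4 * h * T + 1) * (T * (8 * h ^ 3 / a ^ 3)) =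
        (a + 3 * h + 4 * h * T + 1) * ((4 * h * T) * (2 * h ^ 2)) / a ^ 3 := by ring
    rw [h4, div_le_div_iff₀ (by positivity) he0]
    have h5 : a + 3 * h + 4 * h * T + 1 ≤ 2 * a := by linarith
    have h6 : h ^ 2 ≤ H ^ 2 := pow_le_pow_left₀ hh.le hh2 2
    have h7 : 4 * e ^ 2 ≤ a * a := by
      have h8 : 4 * e ^ 2 ≤ 1 * a := by
        have : 0 ≤ e ^ 2 := by positivity
        linarith
      exact le_trans h8 (mul_le_mul_of_nonneg_right (by linarith) hapos.le)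
    calc (a + 3 * h + 4 * h * T + 1) * ((4 * h * T) * (2 * h ^ 2)) * e
        ≤ (2 * a) * (e * (2 * H ^ 2)) * e := by
          apply mul_le_mul_of_nonneg_right _ he0.le
          apply mul_le_mul h5 _ (by positivity) (by positivity)
          exact mul_le_mul hT (by linarith) (by positivity) he0.le
      _ = (H ^ 2 * a) * (4 * e ^ 2) := by ring
      _ ≤ (H ^ 2 * a) * (a * a) := by
          apply mul_le_mul_of_nonneg_left h7 (by positivity)
      _ = _ := by ring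
  have h4 : 3 * H ^ 2 / e = H ^ 2 / e + H ^ 2 / e + H ^ 2 / e := by ring
  rw [h4]
  linarith

section

variable {N Λ e : ℕ} {r : ℝ} (p : Par N Λ e r)
include p

theorem Par.kap_pos : 0 < kap N Λ e := by
  have h1 := p.HR
  have h2 := p.e_big
  rw [kap]
  positivity

theorem Par.kap_small : kap N Λ e * (1000 * (N + 2)) * (1000 * Λ ^ 2) ≤ 1 := by
  have h1 := p.HR
  have h2 := p.e_big
  have h3 := p.LR
  have h4 := p.HbigR
  have h5 : (1000 * (N + 2) : ℝ) ≤ Λ := by exact_mod_cast p.h3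
  rw [kap, div_mul_eq_mul_div, div_mul_eq_mul_div, div_le_one (by linarith)]
  have h6 : ((Λ : ℝ) ^ ae N) ^ 2 ≤ ((Λ : ℝ) ^ ae N) ^ 3 := pow_le_pow_right₀ h1 (by norm_num)
  calc 3 * ((Λ : ℝ) ^ ae N) ^ 2 * (1000 * (N + 2)) * (1000 * Λ ^ 2)
      ≤ Λ * ((Λ : ℝ) ^ ae N) ^ 3 * Λ * (Λ * Λ ^ 2) := by
        apply mul_le_mul _ _ (by positivity) (by positivity)
        · apply mul_le_mul _ h5 (by positivity) (by positivity)
          apply mul_le_mul (by linarith) h6 (by positivity) (by positivity)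
        · apply mul_le_mul_of_nonneg_right h3 (by positivity)
    _ = (Λ : ℝ) ^ 5 * ((Λ : ℝ) ^ ae N) ^ 3 := by ring
    _ ≤ (Λ : ℝ) ^ 6 * ((Λ : ℝ) ^ ae N) ^ 3 := by
        apply mul_le_mul_of_nonneg_right _ (by positivity)
        exact pow_le_pow_right₀ (by linarith) (by norm_num)
    _ ≤ e := h4

theorem Par.drift {j A : ℕ} (hj : j < N) (hA1 : r / 2 ≤ A) (y : ℝ)
    (hy1 : A - Λ ≤ y) (hy2 : y ≤ A) :
    y + 2 * (DL Λ N e j : ℕ) - kap N Λ e ≤ y * Real.exp (BL N Λ e j A) ∧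
      y * Real.exp (BL N Λ e j A) ≤ y + 2 * (DL Λ N e j : ℕ) + kap N Λ e := by
  have hr1 := p.r_big
  have he := p.e_big
  have hr : 0 < r := by linarith
  have hLR := p.LR
  have hHR := p.HR
  have hLH := p.LH_le
  have hHe : 1000 * (Λ : ℝ) ^ ae N ≤ e := by
    refine le_trans ?_ hLH
    apply mul_le_mul_of_nonneg_right _ (by positivity)
    nlinarith
  have hΛH : (Λ : ℝ) ≤ (Λ : ℝ) ^ ae N := le_self_pow₀ (by linarith) (by have := ae_pos N; omega)
  have hh : ((hL Λ j : ℕ) : ℝ) ≤ (Λ : ℝ) ^ ae N := by exact_mod_cast p.hL_le hj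
  have hh0 : 0 < hL Λ j := by
    have h1 := p.hL_ge j
    have h2 := p.Lpos
    have : 0 < Λ ^ 3 := by positivity
    omega
  have hK : 4 * ((KL Λ N e j : ℕ) : ℝ) ≤ (Λ : ℝ) ^ ae N := by
    refine le_trans ?_ hh
    exact_mod_cast (p.K_lt hj).le
  have hT : 4 * ((hL Λ j : ℕ) : ℝ) * (TL Λ N e j : ℕ) ≤ e := by exact_mod_cast p.T_le' j
  have h8 : 8 * (e : ℝ) ^ 2 ≤ A := by linarith [p.her1]
  have hA8 : 8000 * (e : ℝ) ≤ A := by linarith
  have hApos : (0 : ℝ) < A := by linarith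
  have hA2 : 2 * hL Λ j ≤ A := by
    have : 2 * ((hL Λ j : ℕ) : ℝ) ≤ A := by linarith
    exact_mod_cast this
  have hDL : 2 * ((DL Λ N e j : ℕ) : ℝ) =
      4 * (hL Λ j : ℕ) * (TL Λ N e j : ℕ) + 2 * (KL Λ N e j : ℕ) := by
    rw [DL]
    push_cast
    ring
  rw [hDL]
  have hKdef : ((KL Λ N e j : ℕ) : ℝ) =
      (Koff (QL Λ N e j) (j + 1) (cL Λ j) (cL Λ j * ((j + 1) * QL Λ N e j + 1)) : ℝ) := by
    rw [KL]
  have hK0 : (0 : ℝ) ≤ (KL Λ N e j : ℕ) := by positivity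
  have hh0R : (0 : ℝ) < (hL Λ j : ℕ) := by exact_mod_cast hh0
  have hT0 : (0 : ℝ) ≤ (TL Λ N e j : ℕ) := by positivity
  have hhT0 : (0 : ℝ) ≤ 4 * (hL Λ j : ℕ) * (TL Λ N e j : ℕ) := by positivity
  apply Nt.drift A (hL Λ j) (TL Λ N e j) (QL Λ N e j) (j + 1) (cL Λ j) (ML Λ j)
    ((A : ℝ) + 3 * (hL Λ j : ℕ) + 4 * (hL Λ j : ℕ) * (TL Λ N e j : ℕ) + 1) Λ (kap N Λ e) y
    ((KL Λ N e j : ℕ) : ℝ) hh0 hA2 (by linarith) hy1 hy2 (p.M'_le hj) (p.QT hj) le_rfl hKdef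
    (by linarith)
  · rw [kap]
    exact kap_one hh0R.le hhT0 hK0 hHR he h8 hA8 hHe hT hh hK
  · rw [kap]
    exact kap_two (by positivity) hhT0 hh0R hK0 hHR he h8 hA8 hHe hT hh hK hT0 hΛH hApos

/-- Tracking the slopes. -/
theorem Par.track (A0 : ℕ) (y0 : ℝ) (hA0 : r / 2 ≤ A0) (h1 : y0 + 3 / 4 ≤ A0) (h2 : A0 ≤ y0 + 3) :
    ∀ k ≤ N, yL N Λ e A0 y0 k + 1 / 2 ≤ AL Λ N e A0 k ∧
      (AL Λ N e A0 k : ℝ) ≤ yL N Λ e A0 y0 k + 4 + k ∧
      |yL N Λ e A0 y0 k - y0 - 2 * ∑ j ∈ Finset.range k, ((DL Λ N e j : ℕ) : ℝ)| ≤ k * kap N Λ e ∧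
      (AL Λ N e A0 k : ℝ) = A0 + 2 * ∑ j ∈ Finset.range k, ((DL Λ N e j : ℕ) : ℝ) + k := by
  have hks := p.kap_small
  have hkp := p.kap_pos
  have hLR := p.LR
  have hNk : (N + 2) * kap N Λ e ≤ 1 / 4 := by
    have h3 : (0 : ℝ) ≤ (N + 2) * kap N Λ e := by positivity
    have h4 : kap N Λ e * (1000 * (N + 2)) * (1000 * Λ ^ 2) =
        ((N + 2) * kap N Λ e) * (1000000 * Λ ^ 2) := by ring
    rw [h4] at hks
    have h5 : (4 : ℝ) ≤ 1000000 * Λ ^ 2 := by nlinarith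
    nlinarith
  intro k
  induction k with
  | zero =>
    intro _
    simp only [yL, AL, Finset.range_zero, Finset.sum_empty, Nat.cast_zero, sub_self, mul_zero,
      abs_zero, zero_mul, add_zero]
    refine ⟨by linarith, by linarith, ?_, trivial⟩
    norm_num
  | succ k ih =>
    intro hk
    obtain ⟨i1, i2, i3, i4⟩ := ih (by omega)
    have hkN : (k : ℝ) + 1 ≤ N := by exact_mod_cast hk
    have hNΛ : (1000 * (N + 2) : ℝ) ≤ Λ := by exact_mod_cast p.h3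
    have hsum0 : 0 ≤ ∑ j ∈ Finset.range k, ((DL Λ N e j : ℕ) : ℝ) := by positivity
    have hA : r / 2 ≤ AL Λ N e A0 k := by
      rw [i4]
      have : (0 : ℝ) ≤ k := by positivity
      linarith
    obtain ⟨d1, d2⟩ := p.drift (by omega : k < N) hA (yL N Λ e A0 y0 k) (by linarith) (by linarith)
    have hyS : yL N Λ e A0 y0 (k + 1) =
      yL N Λ e A0 y0 k * Real.exp (BL N Λ e k (AL Λ N e A0 k)) := rfl
    rw [← hyS] at d1 d2
    have hAS : ((AL Λ N e A0 (k + 1) : ℕ) : ℝ) = (AL Λ N e A0 k : ℕ) + 2 * (DL Λ N e k : ℕ) + 1 := by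
      rw [AL]
      push_cast
      ring
    have i3' := abs_le.mp i3
    have hkk : (k + 1) * kap N Λ e ≤ 1 / 4 := by
      have : (k + 1) * kap N Λ e ≤ (N + 2) * kap N Λ e :=
        mul_le_mul_of_nonneg_right (by linarith) hkp.le
      linarith
    have hk0 : (0 : ℝ) ≤ k * kap N Λ e := by positivity
    have hkk' : k * kap N Λ e + kap N Λ e ≤ 1 / 4 := by
      have : k * kap N Λ e + kap N Λ e = (k + 1) * kap N Λ e := by ring
      linarith
    rw [Finset.sum_range_succ, hAS]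
    push_cast
    refine ⟨?_, ?_, ?_, ?_⟩
    · linarith
    · rw [i4]
      linarith
    · rw [abs_le]
      constructor
      · linarith
      · linarith
    · rw [i4]
      ring

end

end Pool.Agent.Helper7.Nt
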