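import Pool.Agent.Helper57.NS.Base

/-!
Kernel bit mask search for Sidon type sets in `ZMod m`: definitions and soundness.
(module NS-SEARCH of `MP_8fc134_al`)
-/

namespace NS57
namespace Srch

/-- rotation of a bit mask of length `m`, where `M = 2 ^ m - 1` -/
def rot (M x S : ℕ) : ℕ := Nat.mod (Nat.shiftLeft S x) M

/-- validity test of the new element `x` -/
def ok (M x G : ℕ) (L : List ℕ) : ℕ → Bool :=
  List.rec (fun prev => Nat.beq (Nat.land (rot M x prev) G) 0)
    (fun S _ ih prev => ih (Nat.lor S (rot M x prev))) L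

/-- new masks -/
def next (M x : ℕ) (L : List ℕ) : ℕ → (List ℕ → ℕ → Bool) → Bool :=
  List.rec (fun prev k => k [] prev)
    (fun S _ ih prev k => (fun n => ih n (fun L' last => k (n :: L') last))
      (Nat.lor S (rot M x prev))) L

/-- forbidden mask -/
def forb (M G : ℕ) (N : List ℕ) : ℕ :=
  List.rec G (fun s _ ih => Nat.lor ih (rot M s G)) N

/-- bit `x` of `F` is not set -/
def tb (F x : ℕ) : Bool := Nat.beq (Nat.land (Nat.shiftRight F x) 1) 0

/-- filter candidates -/
def filt (M G F : ℕ) (L : List ℕ) (C : List ℕ) : (List ℕ → Bool) → Bool :=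
  List.rec (fun k => k [])
    (fun x _ ih k => Bool.rec (ih k) (ih (fun L' => k (List.cons x L')))
      (Bool.rec false (ok M x G L 1) (tb F x))) C

/-- the elements of the list whose bit in `Y` is set -/
def filtM (Y : ℕ) (C : List ℕ) : (List ℕ → Bool) → Bool :=
  List.rec (fun k => k [])
    (fun x _ ih k => Bool.rec (ih (fun L' => k (List.cons x L'))) (ih k) (tb Y x)) C

/-- at least `n` bits are set -/
def atLeast (n : ℕ) : ℕ → Bool :=
  Nat.rec (fun _ => true)
    (fun _ ih C => Bool.rec (ih (Nat.land C (Nat.sub C 1))) false (Nat.beq C 0)) n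

/-- the list has at least `n` elements -/
def lenGE (n : ℕ) : List ℕ → Bool :=
  Nat.rec (fun _ => true) (fun _ ih C => List.rec false (fun _ tl _ => ih tl) C) n

abbrev Cont := List ℕ → List ℕ → ℕ → List ℕ → ℕ → Bool

def inner (M m n : ℕ) (N L : List ℕ) (G : ℕ) (Y : ℕ) (cont : Cont) (C : List ℕ) : Bool :=
  List.rec true
    (fun x tl ih => Bool.rec false ih
      (Bool.rec true (next M x L 1 (fun L' last =>
        cont (List.cons (Nat.sub m x) N) L' (Nat.lor G (rot M x last)) tl Y)) (lenGE n tl))) C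

def srch (M m q : ℕ) (base : Cont) (n : ℕ) : Cont :=
  Nat.rec (fun N L G C Y =>
     (fun Y1 => Bool.rec true (base N L G C Y1) (atLeast q Y1))
       (Nat.xor Y (Nat.land Y (forb M G N))))
    (fun n ih N L G C Y =>
     (fun F => filt M G F L C (fun C2 =>
       inner M m n N L G (Nat.xor Y (Nat.land Y F)) ih C2)) (forb M G N)) n

def range (m : ℕ) : List ℕ := Nat.rec [] (fun k ih => List.cons k ih) m

/-- phase 2 -/
def phase2 (M m q : ℕ) : Cont :=
  fun N L G _ Y => filtM Y (range m)
    (fun C => srch M m 0 (fun _ _ _ _ _ => false) q N L.dropLast G C Y)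

/-! ### unfolding lemmas -/

theorem ok_nil (M x G prev : ℕ) : ok M x G [] prev = Nat.beq (Nat.land (rot M x prev) G) 0 := rfl
theorem ok_cons (M x G S prev : ℕ) (L : List ℕ) :
    ok M x G (S :: L) prev = ok M x G L (S ||| rot M x prev) := rfl
theorem next_nil (M x prev : ℕ) (k : List ℕ → ℕ → Bool) : next M x [] prev k = k [] prev := rfl
theorem next_cons (M x S prev : ℕ) (L : List ℕ) (k : List ℕ → ℕ → Bool) :
    next M x (S :: L) prev k =
      next M x L (S ||| rot M x prev) (fun L' last => k ((S ||| rot M x prev) :: L') last) := rfl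

/-- the list of new masks -/
def newL (M x : ℕ) : ℕ → List ℕ → List ℕ
  | _, [] => []
  | prev, S :: L => (S ||| rot M x prev) :: newL M x (S ||| rot M x prev) L

/-- the last new mask -/
def lastL (M x : ℕ) : ℕ → List ℕ → ℕ
  | prev, [] => prev
  | prev, S :: L => lastL M x (S ||| rot M x prev) L

theorem ok_eq (M x G : ℕ) (L : List ℕ) (prev : ℕ) :
    ok M x G L prev = Nat.beq (rot M x (lastL M x prev L) &&& G) 0 := by
  induction L generalizing prev with
  | nil => rfl
  | cons S L ih => rw [ok_cons, ih]; rfl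

theorem next_eq (M x : ℕ) (L : List ℕ) (prev : ℕ) (k : List ℕ → ℕ → Bool) :
    next M x L prev k = k (newL M x prev L) (lastL M x prev L) := by
  induction L generalizing prev k with
  | nil => rfl
  | cons S L ih => rw [next_cons, ih]; rfl

theorem length_newL (M x : ℕ) (L : List ℕ) (prev : ℕ) :
    (newL M x prev L).length = L.length := by
  induction L generalizing prev with
  | nil => rfl
  | cons S L ih => simp [newL, ih]

theorem beq0 (a : ℕ) : Nat.beq a 0 = true ↔ a = 0 := by
  cases a with
  | zero => simp [Nat.beq]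
  | succ k => simp [Nat.beq]

theorem tb_eq (F x : ℕ) : tb F x = !(F.testBit x) := by
  have h : tb F x = Nat.beq ((F >>> x) &&& 1) 0 := rfl
  rw [h, Bool.eq_iff_iff, beq0]
  simp [Nat.testBit, Nat.and_comm]

theorem filt_eq (M G F : ℕ) (L C : List ℕ) (k : List ℕ → Bool) :
    filt M G F L C k = k (C.filter fun x => !(F.testBit x) && ok M x G L 1) := by
  induction C generalizing k with
  | nil => rfl
  | cons x C ih =>
    have h : filt M G F L (x :: C) k = Bool.rec (filt M G F L C k)
      (filt M G F L C (fun L' => k (List.cons x L')))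
      (Bool.rec false (ok M x G L 1) (tb F x)) := rfl
    rw [h, tb_eq]
    rw [List.filter_cons]
    cases hF : F.testBit x <;> cases ho : ok M x G L 1 <;> simp [ih]

theorem filtM_eq (Y : ℕ) (C : List ℕ) (k : List ℕ → Bool) :
    filtM Y C k = k (C.filter fun x => Y.testBit x) := by
  induction C generalizing k with
  | nil => rfl
  | cons x C ih =>
    have h : filtM Y (x :: C) k = Bool.rec (filtM Y C (fun L' => k (List.cons x L')))
      (filtM Y C k) (tb Y x) := rfl
    rw [h, tb_eq, List.filter_cons]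
    cases hF : Y.testBit x <;> simp [ih]

theorem mem_range (m x : ℕ) : x ∈ range m ↔ x < m := by
  induction m with
  | zero => simp [range]
  | succ k ih =>
    have : range (k + 1) = k :: range k := rfl
    rw [this, List.mem_cons, ih]; omega

theorem lenGE_of (n : ℕ) (L : List ℕ) (h : n ≤ L.length) : lenGE n L = true := by
  induction n generalizing L with
  | zero => rfl
  | succ k ih =>
    cases L with
    | nil => simp at h
    | cons x L =>
      have : lenGE (k + 1) (x :: L) = lenGE k L := rfl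
      rw [this]; apply ih; simpa using h

/-! ### bits -/

theorem rot_bit {m x S t : ℕ} (hS : S < 2 ^ m) (hx : x < m)
    (h : (rot (2 ^ m - 1) x S).testBit t = true) :
    t < m ∧ ∃ s, S.testBit s = true ∧ (s + x) % m = t := by
  have hrot : rot (2 ^ m - 1) x S = (S * 2 ^ x) % (2 ^ m - 1) := by
    show (S <<< x) % (2 ^ m - 1) = _
    rw [Nat.shiftLeft_eq]
  rw [hrot] at h
  set hi := (S * 2 ^ x) / 2 ^ m with hhi
  set lo := (S * 2 ^ x) % 2 ^ m with hlo
  have h2x : 0 < 2 ^ x := Nat.two_pow_pos x
  have h2m : 0 < 2 ^ m := Nat.two_pow_pos m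
  have hxm : 2 ^ m = 2 ^ (m - x) * 2 ^ x := by rw [← pow_add]; congr 1; omega
  have hdecomp : S * 2 ^ x = 2 ^ m * hi + lo := (Nat.div_add_mod _ _).symm
  have hhilt : hi < 2 ^ x := by
    rw [hhi, Nat.div_lt_iff_lt_mul h2m, mul_comm (2 ^ x)]
    exact Nat.mul_lt_mul_of_pos_right hS h2x
  have hlo' : lo = (S % 2 ^ (m - x)) * 2 ^ x := by
    rw [hlo, hxm, Nat.mul_mod_mul_right]
  have hlt : S % 2 ^ (m - x) < 2 ^ (m - x) := Nat.mod_lt _ (Nat.two_pow_pos _)
  have hlole : lo + 2 ^ x ≤ 2 ^ m := by
    rw [hlo', hxm]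
    have : (S % 2 ^ (m - x) + 1) * 2 ^ x ≤ 2 ^ (m - x) * 2 ^ x := Nat.mul_le_mul_right _ hlt
    linarith [this, Nat.add_mul (S % 2 ^ (m - x)) 1 (2 ^ x)]
  have hsum : (S * 2 ^ x) % (2 ^ m - 1) = (hi + lo) % (2 ^ m - 1) := by
    rw [hdecomp]
    have : 2 ^ m * hi + lo = (hi + lo) + (2 ^ m - 1) * hi := by
      have : 2 ^ m * hi = (2 ^ m - 1) * hi + hi := by
        conv_lhs => rw [← Nat.sub_add_cancel h2m]
        ring
      rw [this]; ring
    rw [this, Nat.add_mul_mod_self_left]
  rw [hsum] at h
  have hle : hi + lo ≤ 2 ^ m - 1 := by omega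
  have hor : hi + lo = lo ||| hi := by
    rw [hlo', mul_comm _ (2 ^ x), add_comm, Nat.two_pow_add_eq_or_of_lt hhilt]
  rcases Nat.lt_or_eq_of_le hle with hlt2 | heq
  · rw [Nat.mod_eq_of_lt hlt2, hor, Nat.testBit_or, Bool.or_eq_true] at h
    rcases h with h | h
    · rw [hlo, Nat.testBit_mod_two_pow, Bool.and_eq_true, decide_eq_true_eq, ← Nat.shiftLeft_eq,
        Nat.testBit_shiftLeft, Bool.and_eq_true, decide_eq_true_eq] at h
      obtain ⟨htm, hxt, hb⟩ := h
      refine ⟨htm, t - x, hb, ?_⟩
      rw [Nat.sub_add_cancel hxt, Nat.mod_eq_of_lt htm]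
    · rw [hhi, Nat.testBit_div_two_pow, ← Nat.shiftLeft_eq, Nat.testBit_shiftLeft,
        Bool.and_eq_true, decide_eq_true_eq] at h
      obtain ⟨hxt, hb⟩ := h
      have hs : t + m - x < m := by
        by_contra hc
        have := Nat.testBit_lt_two_pow (x := S) (i := t + m - x)
          (lt_of_lt_of_le hS (Nat.pow_le_pow_right (by norm_num) (not_lt.mp hc)))
        rw [this] at hb; exact Bool.false_ne_true hb
      refine ⟨by omega, t + m - x, hb, ?_⟩
      rw [Nat.sub_add_cancel hxt, Nat.add_mod_right, Nat.mod_eq_of_lt (by omega)]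
  · rw [heq, Nat.mod_self] at h
    simp at h

theorem lt_of_bits {m S : ℕ} (h : ∀ t, S.testBit t = true → t < m) : S < 2 ^ m := by
  apply Nat.lt_pow_two_of_testBit
  intro i hi
  by_contra hc
  have := h i (by simpa using hc)
  omega

theorem xor_land_bit (Y F t : ℕ) :
    (Nat.xor Y (Nat.land Y F)).testBit t = (Y.testBit t && !(F.testBit t)) := by
  have : Nat.xor Y (Nat.land Y F) = Y ^^^ (Y &&& F) := rfl
  rw [this, Nat.testBit_xor, Nat.testBit_and]
  cases Y.testBit t <;> cases F.testBit t <;> rfl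

theorem exists_low (C : ℕ) (hC : C ≠ 0) :
    ∃ t, ∀ s, s ≠ t → (C &&& (C - 1)).testBit s = C.testBit s := by
  induction C using Nat.strong_induction_on with
  | _ C ih =>
    rcases Nat.even_or_odd' C with ⟨c, hc | hc⟩
    · have hc0 : c ≠ 0 := by rintro rfl; exact hC hc
      obtain ⟨t, ht⟩ := ih c (by omega) hc0
      refine ⟨t + 1, fun s hs => ?_⟩
      have h1 : C - 1 = 2 * (c - 1) + 1 := by omega
      rw [Nat.testBit_and]
      cases s with
      | zero => simp [hc]
      | succ s =>
        have := ht s (by omega)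
        rw [Nat.testBit_and] at this
        have e1 : C.testBit (s + 1) = c.testBit s := by
          rw [hc, Nat.testBit_succ]; congr 1; omega
        have e2 : (C - 1).testBit (s + 1) = (c - 1).testBit s := by
          rw [h1, Nat.testBit_succ]; congr 1; omega
        rw [e1, e2, this]
    · refine ⟨0, fun s hs => ?_⟩
      have h1 : C - 1 = 2 * c := by omega
      rw [Nat.testBit_and]
      cases s with
      | zero => exact absurd rfl hs
      | succ s =>
        have e1 : C.testBit (s + 1) = c.testBit s := by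
          rw [hc, Nat.testBit_succ]; congr 1; omega
        have e2 : (C - 1).testBit (s + 1) = c.testBit s := by
          rw [h1, Nat.testBit_succ]; congr 1; omega
        rw [e1, e2, Bool.and_self]

theorem atLeast_of (n : ℕ) (C : ℕ) (A : Finset ℕ) (hA : ∀ t ∈ A, C.testBit t = true)
    (hn : n ≤ A.card) : atLeast n C = true := by
  induction n generalizing C A with
  | zero => rfl
  | succ k ih =>
    have hne : A.Nonempty := by rw [← Finset.card_pos]; omega
    obtain ⟨a, ha⟩ := hne
    have hC : C ≠ 0 := by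
      rintro rfl
      simpa using hA a ha
    have h : atLeast (k + 1) C = Bool.rec (atLeast k (C &&& (C - 1))) false (Nat.beq C 0) := rfl
    have hb : Nat.beq C 0 = false := by
      cases hh : Nat.beq C 0
      · rfl
      · exact absurd ((beq0 C).1 hh) hC
    rw [h, hb]
    show atLeast k (C &&& (C - 1)) = true
    obtain ⟨t, ht⟩ := exists_low C hC
    apply ih _ (A.erase t)
    · intro s hs
      rw [Finset.mem_erase] at hs
      rw [ht s hs.1]; exact hA s hs.2
    · have := Finset.pred_card_le_card_erase (s := A) (a := t)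
      omega

/-! ### invariants -/

section
variable {e m r : ℕ} (D : Finset (Fin e)) (a : Fin e → ZMod m)

/-- every bit of `S` is the sum of at most `j` elements of `P` -/
def MS (P : Finset (Fin e)) (j S : ℕ) : Prop :=
  ∀ t, S.testBit t = true → t < m ∧ ∃ M : Multiset (Fin e), M.card ≤ j ∧ (∀ x ∈ M, x ∈ P) ∧
    (M.map a).sum = (t : ZMod m)

/-- the list of masks -/
def Chain (P : Finset (Fin e)) : ℕ → List ℕ → Prop
  | _, [] => True
  | j, S :: L => MS a P (j + 1) S ∧ Chain P (j + 1) L

/-- every bit of `G` is the sum of a good monomial -/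
def MG (r : ℕ) (P : Finset (Fin e)) (G : ℕ) : Prop :=
  ∀ t, G.testBit t = true → t < m ∧ ∃ M : Multiset (Fin e), Good r D M ∧ (∀ x ∈ M, x ∈ P) ∧
    (M.map a).sum = (t : ZMod m)

/-- the list of negatives -/
def MN (P : Finset (Fin e)) (N : List ℕ) : Prop :=
  ∀ s ∈ N, ∃ i ∈ P, s = m - (a i).val ∧ (a i).val ≠ 0

variable {D a}

theorem MS.mono {P P' : Finset (Fin e)} {j j' S : ℕ} (h : MS a P j S) (hP : P ⊆ P') (hj : j ≤ j') :
    MS a P' j' S := by
  intro t ht
  obtain ⟨h1, M, h2, h3, h4⟩ := h t ht
  exact ⟨h1, M, h2.trans hj, fun x hx => hP (h3 x hx), h4⟩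

theorem MS.or {P : Finset (Fin e)} {j S T : ℕ} (h : MS a P j S) (h' : MS a P j T) :
    MS a P j (S ||| T) := by
  intro t ht
  rw [Nat.testBit_or, Bool.or_eq_true] at ht
  rcases ht with ht | ht
  · exact h t ht
  · exact h' t ht

theorem MS.lt {P : Finset (Fin e)} {j S : ℕ} (h : MS a P j S) : S < 2 ^ m :=
  lt_of_bits fun t ht => (h t ht).1

theorem MG.lt {P : Finset (Fin e)} {G : ℕ} (h : MG D a r P G) : G < 2 ^ m :=
  lt_of_bits fun t ht => (h t ht).1

theorem MS_one [NeZero m] (P : Finset (Fin e)) : MS a P 0 1 := by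
  intro t ht
  have h0 : t = 0 := by
    by_contra h
    obtain ⟨s, rfl⟩ := Nat.exists_eq_succ_of_ne_zero h
    simp [Nat.testBit_succ] at ht
  subst h0
  exact ⟨Nat.pos_of_ne_zero (NeZero.ne m), 0, by simp, by simp, by simp⟩

theorem rot_sum [NeZero m] {P : Finset (Fin e)} {i : Fin e} {j S t : ℕ} (h : MS a P j S)
    (ht : (rot (2 ^ m - 1) (a i).val S).testBit t = true) :
    t < m ∧ ∃ M : Multiset (Fin e), M.card ≤ j ∧ (∀ x ∈ M, x ∈ P) ∧
      ((i ::ₘ M).map a).sum = (t : ZMod m) := by
  obtain ⟨h1, s, hs, hst⟩ := rot_bit h.lt (ZMod.val_lt (a i)) ht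
  obtain ⟨_, M, h2, h3, h4⟩ := h s hs
  refine ⟨h1, M, h2, h3, ?_⟩
  rw [Multiset.map_cons, Multiset.sum_cons, h4, ← hst, ZMod.natCast_mod]
  push_cast
  rw [ZMod.natCast_zmod_val]
  ring

theorem rot_MS [NeZero m] {P : Finset (Fin e)} {i : Fin e} {j S : ℕ} (hi : i ∈ P)
    (h : MS a P j S) : MS a P (j + 1) (rot (2 ^ m - 1) (a i).val S) := by
  intro t ht
  obtain ⟨h1, M, h2, h3, h4⟩ := rot_sum h ht
  refine ⟨h1, i ::ₘ M, by simpa using h2, ?_, h4⟩
  intro x hx
  rw [Multiset.mem_cons] at hx
  rcases hx with rfl | hx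
  · exact hi
  · exact h3 x hx

theorem new_chain [NeZero m] {P : Finset (Fin e)} {i : Fin e} (L : List ℕ) (j prev : ℕ)
    (hp : MS a (insert i P) j prev) (hL : Chain a P j L) :
    Chain a (insert i P) j (newL (2 ^ m - 1) (a i).val prev L) ∧
      MS a (insert i P) (j + L.length) (lastL (2 ^ m - 1) (a i).val prev L) := by
  induction L generalizing j prev with
  | nil => exact ⟨trivial, hp⟩
  | cons S L ih =>
    have h1 : MS a (insert i P) (j + 1) (S ||| rot (2 ^ m - 1) (a i).val prev) :=
      (hL.1.mono (Finset.subset_insert i P) le_rfl).or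
        (rot_MS (Finset.mem_insert_self i P) hp)
    obtain ⟨h2, h3⟩ := ih (j + 1) _ h1 hL.2
    refine ⟨⟨h1, h2⟩, ?_⟩
    have : j + (S :: L).length = j + 1 + L.length := by simp; omega
    rw [this]
    exact h3

theorem Chain.dropLast {P : Finset (Fin e)} (L : List ℕ) (j : ℕ) (h : Chain a P j L) :
    Chain a P j L.dropLast := by
  induction L generalizing j with
  | nil => exact trivial
  | cons S L ih =>
    cases L with
    | nil => exact trivial
    | cons T L => exact ⟨h.1, ih (j + 1) h.2⟩

/-- admissibility of a new element -/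
def Adm (D : Finset (Fin e)) (r k : ℕ) (P : Finset (Fin e)) (i : Fin e) : Prop :=
  ∀ M : Multiset (Fin e), M.card ≤ k → (∀ x ∈ M, x ∈ insert i P) → Good r D (i ::ₘ M)

theorem ok_true [NeZero m] (hd : Dist r m D a) {P : Finset (Fin e)} {i : Fin e} (hi : i ∉ P)
    {L : List ℕ} {G : ℕ} (hL : Chain a P 0 L) (hG : MG D a r P G)
    (hadm : Adm D r L.length P i) : ok (2 ^ m - 1) (a i).val G L 1 = true := by
  rw [ok_eq, beq0]
  obtain ⟨-, h2⟩ := new_chain (i := i) L 0 1 (MS_one _) hL
  rw [Nat.zero_add] at h2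
  apply Nat.eq_of_testBit_eq
  intro t
  rw [Nat.zero_testBit, Nat.testBit_and]
  by_contra hc
  rw [Bool.not_eq_false, Bool.and_eq_true] at hc
  obtain ⟨_, M, hM1, hM2, hM3⟩ := rot_sum h2 hc.1
  obtain ⟨_, M', hM1', hM2', hM3'⟩ := hG t hc.2
  have := hd _ _ (hadm M hM1 hM2) hM1' (hM3.trans hM3'.symm)
  exact hi (hM2' i (this ▸ Multiset.mem_cons_self i M))

theorem step_G [NeZero m] {P : Finset (Fin e)} {i : Fin e}
    {L : List ℕ} {G : ℕ} (hL : Chain a P 0 L) (hG : MG D a r P G)
    (hadm : Adm D r L.length P i) :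
    MG D a r (insert i P)
      (G ||| rot (2 ^ m - 1) (a i).val (lastL (2 ^ m - 1) (a i).val 1 L)) := by
  obtain ⟨-, h2⟩ := new_chain (i := i) L 0 1 (MS_one _) hL
  rw [Nat.zero_add] at h2
  intro t ht
  rw [Nat.testBit_or, Bool.or_eq_true] at ht
  rcases ht with ht | ht
  · obtain ⟨h1, M, h2, h3, h4⟩ := hG t ht
    exact ⟨h1, M, h2, fun x hx => Finset.mem_insert_of_mem (h3 x hx), h4⟩
  · obtain ⟨h1, M, hM1, hM2, hM3⟩ := rot_sum h2 ht
    refine ⟨h1, i ::ₘ M, hadm M hM1 hM2, ?_, hM3⟩
    intro x hx
    rw [Multiset.mem_cons] at hx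
    rcases hx with rfl | hx
    · exact Finset.mem_insert_self _ _
    · exact hM2 x hx

theorem forb_bit' {G : ℕ} (M : ℕ) (N : List ℕ) (t : ℕ) (h : (forb M G N).testBit t = true) :
    G.testBit t = true ∨ ∃ s ∈ N, (rot M s G).testBit t = true := by
  induction N with
  | nil => exact Or.inl h
  | cons s N ih =>
    have : forb M G (s :: N) = forb M G N ||| rot M s G := rfl
    rw [this, Nat.testBit_or, Bool.or_eq_true] at h
    rcases h with h | h
    · rcases ih h with h | ⟨s', hs', h⟩
      · exact Or.inl h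
      · exact Or.inr ⟨s', List.mem_cons_of_mem _ hs', h⟩
    · exact Or.inr ⟨s, List.mem_cons_self, h⟩

theorem forb_bit [NeZero m] (hr : 3 ≤ r) (hd : Dist r m D a) {P : Finset (Fin e)} {i : Fin e}
    (hi : i ∉ P) {N : List ℕ} {G : ℕ} (hG : MG D a r P G) (hN : MN a P N) :
    (forb (2 ^ m - 1) G N).testBit (a i).val = false := by
  by_contra hc
  rw [Bool.not_eq_false] at hc
  rcases forb_bit' _ _ _ hc with h | ⟨s, hs, h⟩
  · obtain ⟨_, M, h1, h2, h3⟩ := hG _ h
    rw [ZMod.natCast_zmod_val] at h3
    have := hd {i} M (Or.inl (by simpa using (by omega : 1 + 1 ≤ r))) h1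
      (by rw [h3]; simp)
    exact hi (h2 i (this ▸ Multiset.mem_singleton_self i))
  · obtain ⟨p, hp, rfl, hp0⟩ := hN s hs
    have hvl := ZMod.val_lt (a p)
    obtain ⟨_, g, hg, hgt⟩ := rot_bit hG.lt (by omega) h
    obtain ⟨_, M, h1, h2, h3⟩ := hG _ hg
    have hsum : (({i, p} : Multiset (Fin e)).map a).sum = (g : ZMod m) := by
      have e1 : (((g + (m - (a p).val)) % m : ℕ) : ZMod m) = a i := by
        rw [hgt, ZMod.natCast_zmod_val]
      rw [ZMod.natCast_mod, Nat.cast_add, Nat.cast_sub hvl.le, ZMod.natCast_self,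
        ZMod.natCast_zmod_val] at e1
      have : (({i, p} : Multiset (Fin e)).map a).sum = a i + a p := by
        simp
      rw [this, ← e1]; ring
    have := hd {i, p} M (Or.inl (by simpa using (by omega : 2 + 1 ≤ r))) h1
      (by rw [h3, hsum])
    exact hi (h2 i (this ▸ by simp))

theorem dist_inj (hr : 2 ≤ r) (hd : Dist r m D a) {i j : Fin e} (h : a i = a j) : i = j := by
  have := hd {i} {j} (Or.inl (by simpa using hr)) (Or.inl (by simpa using hr)) (by simpa using h)
  simpa using this

theorem dist_ne_zero (hr : 2 ≤ r) (hd : Dist r m D a) (i : Fin e) : a i ≠ 0 := by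
  intro h
  have := hd {i} 0 (Or.inl (by simpa using hr)) (Or.inl (by simp; omega)) (by simpa using h)
  simp at this

theorem val_inj [NeZero m] (hr : 2 ≤ r) (hd : Dist r m D a) {i j : Fin e}
    (h : (a i).val = (a j).val) : i = j :=
  dist_inj hr hd (ZMod.val_injective m h)

theorem inner_sound [NeZero m] (hr : 3 ≤ r) (hd : Dist r m D a) (R : Finset (Fin e)) (k n : ℕ)
    (cont : Cont) (P : Finset (Fin e)) (hcard : (R \ P).card = n + 1)
    (hcont : ∀ i ∈ R, i ∉ P → ∀ N L G C Y, L.length = k → Chain a (insert i P) 0 L →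
      MG D a r (insert i P) G → MN a (insert i P) N →
      (∀ j ∈ R, j ∉ insert i P → (a j).val ∈ C) →
      (∀ j, j ∉ insert i P → Y.testBit (a j).val = true) → cont N L G C Y = false)
    (N L : List ℕ) (G Y : ℕ) (hk : L.length = k) (hL : Chain a P 0 L) (hG : MG D a r P G)
    (hN : MN a P N) (hY : ∀ j, j ∉ P → Y.testBit (a j).val = true)
    (hadm : ∀ i ∈ R, i ∉ P → Adm D r k P i)
    (C : List ℕ) (hC : ∀ i ∈ R, i ∉ P → (a i).val ∈ C) :
    inner (2 ^ m - 1) m n N L G Y cont C = false := by
  induction C with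
  | nil =>
    have : (R \ P).Nonempty := by rw [← Finset.card_pos]; omega
    obtain ⟨i, hi⟩ := this
    rw [Finset.mem_sdiff] at hi
    simpa using hC i hi.1 hi.2
  | cons x C ih =>
    have hun : inner (2 ^ m - 1) m n N L G Y cont (x :: C) =
      Bool.rec false (inner (2 ^ m - 1) m n N L G Y cont C)
        (Bool.rec true (next (2 ^ m - 1) x L 1 (fun L' last =>
          cont ((m - x) :: N) L' (G ||| rot (2 ^ m - 1) x last) C Y)) (lenGE n C)) := rfl
    rw [hun]
    by_cases hx : ∃ i ∈ R, i ∉ P ∧ (a i).val = x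
    · obtain ⟨i, hiR, hiP, rfl⟩ := hx
      have hC' : ∀ j ∈ R, j ∉ insert i P → (a j).val ∈ C := by
        intro j hj hjP
        rw [Finset.mem_insert, not_or] at hjP
        have := hC j hj hjP.2
        rw [List.mem_cons] at this
        rcases this with h | h
        · exact absurd (val_inj (by omega) hd h) hjP.1
        · exact h
      have hlen : lenGE n C = true := by
        apply lenGE_of
        have h1 : ((R \ insert i P).image fun j => (a j).val) ⊆ C.toFinset := by
          intro y hy
          rw [Finset.mem_image] at hy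
          obtain ⟨j, hj, rfl⟩ := hy
          rw [Finset.mem_sdiff] at hj
          rw [List.mem_toFinset]
          exact hC' j hj.1 hj.2
        have h2 : ((R \ insert i P).image fun j => (a j).val).card = (R \ insert i P).card :=
          Finset.card_image_of_injective _ fun j j' h => val_inj (by omega) hd h
        have h3 : (R \ insert i P).card = n := by
          have : R \ insert i P = (R \ P).erase i := by
            ext j; simp [and_left_comm, not_or]
          rw [this, Finset.card_erase_of_mem (by rw [Finset.mem_sdiff]; exact ⟨hiR, hiP⟩), hcard]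
          rfl
        calc n = ((R \ insert i P).image fun j => (a j).val).card := by rw [h2, h3]
          _ ≤ C.toFinset.card := Finset.card_le_card h1
          _ ≤ C.length := List.toFinset_card_le C
      obtain ⟨c1, c2⟩ := new_chain (i := i) L 0 1 (MS_one _) hL
      have hnext : next (2 ^ m - 1) (a i).val L 1 (fun L' last =>
          cont ((m - (a i).val) :: N) L' (G ||| rot (2 ^ m - 1) (a i).val last) C Y) = false := by
        rw [next_eq]
        apply hcont i hiR hiP
        · rw [length_newL, hk]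
        · exact c1
        · exact step_G hL hG (hk ▸ hadm i hiR hiP)
        · intro s hs
          rw [List.mem_cons] at hs
          rcases hs with rfl | hs
          · refine ⟨i, Finset.mem_insert_self _ _, rfl, ?_⟩
            rw [Ne, ZMod.val_eq_zero]
            exact dist_ne_zero (by omega) hd i
          · obtain ⟨j, hj, h⟩ := hN s hs
            exact ⟨j, Finset.mem_insert_of_mem hj, h⟩
        · exact hC'
        · intro j hj
          rw [Finset.mem_insert, not_or] at hj
          exact hY j hj.2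
      rw [hlen, hnext]
    · have hC' : ∀ j ∈ R, j ∉ P → (a j).val ∈ C := by
        intro j hj hjP
        have := hC j hj hjP
        rw [List.mem_cons] at this
        rcases this with h | h
        · exact absurd ⟨j, hj, hjP, h⟩ hx
        · exact h
      rw [ih hC']
      generalize (Bool.rec true (next (2 ^ m - 1) x L 1 (fun L' last =>
          cont ((m - x) :: N) L' (G ||| rot (2 ^ m - 1) x last) C Y)) (lenGE n C) : Bool) = b
      cases b <;> rfl

theorem srch_sound [NeZero m] (hr : 3 ≤ r) (hd : Dist r m D a) (R : Finset (Fin e)) (k q : ℕ)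
    (base : Cont) (hq : q ≤ (Finset.univ \ R).card)
    (hadm : ∀ P ⊆ R, ∀ i ∈ R, i ∉ P → Adm D r k P i)
    (hbase : ∀ N L G C Y, L.length = k → Chain a R 0 L → MG D a r R G → MN a R N →
      (∀ j, j ∉ R → Y.testBit (a j).val = true) → base N L G C Y = false)
    (n : ℕ) : ∀ P ⊆ R, (R \ P).card = n → ∀ N L G C Y, L.length = k → Chain a P 0 L →
      MG D a r P G → MN a P N → (∀ j ∈ R, j ∉ P → (a j).val ∈ C) →
      (∀ j, j ∉ P → Y.testBit (a j).val = true) →
      srch (2 ^ m - 1) m q base n N L G C Y = false := by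
  induction n with
  | zero =>
    intro P hP hcard N L G C Y hk hL hG hN hC hY
    have hPR : P = R := by
      apply Finset.Subset.antisymm hP
      rw [Finset.card_eq_zero, Finset.sdiff_eq_empty_iff_subset] at hcard
      exact hcard
    subst hPR
    have hun : srch (2 ^ m - 1) m q base 0 N L G C Y =
      Bool.rec true (base N L G C (Nat.xor Y (Nat.land Y (forb (2 ^ m - 1) G N))))
        (atLeast q (Nat.xor Y (Nat.land Y (forb (2 ^ m - 1) G N)))) := rfl
    rw [hun]
    have hY' : ∀ j, j ∉ P → (Nat.xor Y (Nat.land Y (forb (2 ^ m - 1) G N))).testBit (a j).val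
        = true := by
      intro j hj
      rw [xor_land_bit, hY j hj, forb_bit hr hd hj hG hN]; rfl
    have hat : atLeast q (Nat.xor Y (Nat.land Y (forb (2 ^ m - 1) G N))) = true := by
      apply atLeast_of q _ ((Finset.univ \ P).image fun j => (a j).val)
      · intro t ht
        rw [Finset.mem_image] at ht
        obtain ⟨j, hj, rfl⟩ := ht
        rw [Finset.mem_sdiff] at hj
        exact hY' j hj.2
      · rw [Finset.card_image_of_injective _ fun j j' h => val_inj (by omega) hd h]
        exact hq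
    rw [hat]
    exact hbase N L G C _ hk hL hG hN hY'
  | succ n ih =>
    intro P hP hcard N L G C Y hk hL hG hN hC hY
    have hun : srch (2 ^ m - 1) m q base (n + 1) N L G C Y =
      filt (2 ^ m - 1) G (forb (2 ^ m - 1) G N) L C (fun C2 =>
        inner (2 ^ m - 1) m n N L G (Nat.xor Y (Nat.land Y (forb (2 ^ m - 1) G N)))
          (srch (2 ^ m - 1) m q base n) C2) := rfl
    rw [hun, filt_eq]
    apply inner_sound hr hd R k n _ P hcard _ N L G _ hk hL hG hN _ (hadm P hP)
    · intro j hj hjP
      rw [List.mem_filter]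
      refine ⟨hC j hj hjP, ?_⟩
      rw [forb_bit hr hd hjP hG hN, ok_true hd hjP hL hG (hk ▸ hadm P hP j hj hjP)]; rfl
    · intro i hi hiP N' L' G' C' Y' h1 h2 h3 h4 h5 h6
      apply ih (insert i P) (Finset.insert_subset hi hP) _ N' L' G' C' Y' h1 h2 h3 h4 h5 h6
      have : R \ insert i P = (R \ P).erase i := by
        ext j; simp [and_left_comm, not_or]
      rw [this, Finset.card_erase_of_mem (by rw [Finset.mem_sdiff]; exact ⟨hi, hiP⟩), hcard]
      rfl
    · intro j hj
      rw [xor_land_bit, hY j hj, forb_bit hr hd hj hG hN]; rfl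

theorem adm_phase1 (hr : 3 ≤ r) {P : Finset (Fin e)} (hP : P ⊆ D) {i : Fin e} (hi : i ∈ D) :
    Adm D r (r - 1) P i := by
  intro M hM hM2
  refine Or.inr ⟨by rw [Multiset.card_cons]; omega, ?_⟩
  intro x hx
  rw [Multiset.mem_cons] at hx
  rcases hx with rfl | hx
  · exact hi
  · have := hM2 x hx
    rw [Finset.mem_insert] at this
    rcases this with rfl | h
    · exact hi
    · exact hP h

theorem adm_phase2 (_hr : 3 ≤ r) (P : Finset (Fin e)) (i : Fin e) :
    Adm D r (r - 2) P i := by
  intro M hM hM2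
  exact Or.inl (by rw [Multiset.card_cons]; omega)

theorem phase2_sound [NeZero m] (hr : 3 ≤ r) (hd : Dist r m D a) {q : ℕ}
    (hq : (Finset.univ \ D).card = q) (N L : List ℕ) (G : ℕ) (C : List ℕ) (Y : ℕ)
    (hk : L.length = r - 1) (hL : Chain a D 0 L) (hG : MG D a r D G) (hN : MN a D N)
    (hY : ∀ j, j ∉ D → Y.testBit (a j).val = true) :
    phase2 (2 ^ m - 1) m q N L G C Y = false := by
  have hun : phase2 (2 ^ m - 1) m q N L G C Y = filtM Y (range m)
    (fun C => srch (2 ^ m - 1) m 0 (fun _ _ _ _ _ => false) q N L.dropLast G C Y) := rfl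
  rw [hun, filtM_eq]
  apply srch_sound hr hd Finset.univ (r - 2) 0 _ (Nat.zero_le _)
    (fun P _ i _ _ => adm_phase2 hr P i) (fun _ _ _ _ _ _ _ _ _ _ => rfl) q D
    (Finset.subset_univ _) hq
  · rw [List.length_dropLast, hk]; omega
  · exact Chain.dropLast L 0 hL
  · exact hG
  · exact hN
  · intro j _ hj
    rw [List.mem_filter, mem_range]
    exact ⟨ZMod.val_lt _, hY j hj⟩
  · exact hY

/-- masks for one element with value `1` -/
def maskL (r : ℕ) : List ℕ := (List.range (r - 1)).map fun j => 2 ^ (j + 2) - 1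

theorem pow_sub_one_bit (k t : ℕ) (h : (2 ^ k - 1).testBit t = true) : t < k := by
  rw [Nat.testBit_two_pow_sub_one] at h
  simpa using h

theorem chain_maskL [NeZero m] {i : Fin e} (hi : a i = 1) (l : List ℕ)
    (j : ℕ) (h : ∀ t (ht : t < l.length), l[t] = 2 ^ (j + 2 + t) - 1) (hj : j + l.length < m) :
    Chain a {i} j l := by
  induction l generalizing j with
  | nil => exact trivial
  | cons S l ih =>
    refine ⟨?_, ih (j + 1) (fun t ht => ?_) (by simp at hj; omega)⟩
    · have h0 := h 0 (by simp)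
      simp only [List.getElem_cons_zero, Nat.add_zero] at h0
      subst h0
      intro t ht
      have ht := pow_sub_one_bit _ _ ht
      refine ⟨by simp at hj; omega, Multiset.replicate t i, by simp; omega, ?_, by simp [hi]⟩
      intro x hx
      rw [Multiset.eq_of_mem_replicate hx]; exact Finset.mem_singleton_self i
    · have := h (t + 1) (by simpa using ht)
      rw [List.getElem_cons_succ] at this
      rw [this]; congr 2; omega

theorem final_unit [NeZero m] (hr : 3 ≤ r) (hrm : r < m) (hd : Dist r m D a) {d : ℕ}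
    (hD : D.card = d) (i : Fin e) (hi : i ∈ D) (hi1 : a i = 1)
    (h : srch (2 ^ m - 1) m (e - d) (phase2 (2 ^ m - 1) m (e - d)) (d - 1) [m - 1] (maskL r)
      (2 ^ (r + 1) - 1) ((range m).filter fun x => Nat.ble 2 x) (2 ^ m - 4) = true) : False := by
  have hv1 : (a i).val = 1 := by
    rw [hi1, ZMod.val_one'' (by omega)]
  have hval : ∀ j, j ∉ ({i} : Finset (Fin e)) → 2 ≤ (a j).val := by
    intro j hj
    have h0 : (a j).val ≠ 0 := by
      rw [Ne, ZMod.val_eq_zero]
      exact dist_ne_zero (by omega) hd j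
    have h1 : (a j).val ≠ 1 := by
      intro hc
      apply hj
      rw [Finset.mem_singleton]
      exact val_inj (by omega) hd (hc.trans hv1.symm)
    omega
  have hq : (Finset.univ \ D).card = e - d := by
    rw [Finset.card_sdiff_of_subset (Finset.subset_univ _), hD]; simp
  have := srch_sound hr hd D (r - 1) (e - d) (phase2 (2 ^ m - 1) m (e - d)) hq.ge
    (fun P hP i hi _ => adm_phase1 hr hP hi)
    (fun N L G C Y h1 h2 h3 h4 h5 => phase2_sound hr hd hq N L G C Y h1 h2 h3 h4 h5)
    (d - 1) {i} (Finset.singleton_subset_iff.2 hi)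
    (by rw [Finset.card_sdiff_of_subset (Finset.singleton_subset_iff.2 hi), hD]; simp)
    [m - 1] (maskL r) (2 ^ (r + 1) - 1) ((range m).filter fun x => Nat.ble 2 x) (2 ^ m - 4)
    (by simp [maskL])
    (chain_maskL hi1 _ 0 (fun t ht => by simp [maskL]; ring_nf) (by simp [maskL]; omega))
    (by
      intro t ht
      have ht := pow_sub_one_bit _ _ ht
      refine ⟨by omega, Multiset.replicate t i, Or.inr ⟨by simp; omega, ?_⟩, ?_, by simp [hi1]⟩
      · intro x hx; rw [Multiset.eq_of_mem_replicate hx]; exact hi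
      · intro x hx; rw [Multiset.eq_of_mem_replicate hx]; exact Finset.mem_singleton_self i)
    (by
      intro s hs
      rw [List.mem_singleton] at hs
      exact ⟨i, Finset.mem_singleton_self i, by rw [hs, hv1], by rw [hv1]; exact one_ne_zero⟩)
    (by
      intro j _ hj
      rw [List.mem_filter, mem_range]
      exact ⟨ZMod.val_lt _, Nat.ble_eq_true_of_le (hval j hj)⟩)
    (by
      intro j hj
      have h2 := hval j hj
      have hlt := ZMod.val_lt (a j)
      have hm2 : 2 ≤ m := by omega
      have e1 : 2 ^ m - 4 = (2 ^ (m - 2) - 1) * 2 ^ 2 := by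
        rw [Nat.sub_mul, ← pow_add, Nat.sub_add_cancel hm2]; norm_num
      rw [e1, ← Nat.shiftLeft_eq, Nat.testBit_shiftLeft, Nat.testBit_two_pow_sub_one]
      simp
      omega)
  rw [h] at this
  exact Bool.noConfusion this

theorem final_nonunit [NeZero m] (hr : 3 ≤ r) (hd : Dist r m D a) {d : ℕ}
    (hD : D.card = d) (hu : ∀ i ∈ D, ¬ IsUnit (a i))
    (h : srch (2 ^ m - 1) m (e - d) (phase2 (2 ^ m - 1) m (e - d)) d [] (List.replicate (r - 1) 1)
      1 ((range m).filter fun x => !(Nat.beq (Nat.gcd x m) 1)) (2 ^ m - 2) = true) : False := by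
  have hm1 : 0 < m := Nat.pos_of_ne_zero (NeZero.ne m)
  have hval : ∀ j, 1 ≤ (a j).val := by
    intro j
    have h0 : (a j).val ≠ 0 := by
      rw [Ne, ZMod.val_eq_zero]
      exact dist_ne_zero (by omega) hd j
    omega
  have hq : (Finset.univ \ D).card = e - d := by
    rw [Finset.card_sdiff_of_subset (Finset.subset_univ _), hD]; simp
  have hch : ∀ (k j : ℕ), Chain a (∅ : Finset (Fin e)) j (List.replicate k 1) := by
    intro k
    induction k with
    | zero => intro j; exact trivial
    | succ k ih =>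
      intro j
      exact ⟨(MS_one _).mono (Finset.Subset.refl _) (Nat.zero_le _), ih (j + 1)⟩
  have := srch_sound hr hd D (r - 1) (e - d) (phase2 (2 ^ m - 1) m (e - d)) hq.ge
    (fun P hP i hi _ => adm_phase1 hr hP hi)
    (fun N L G C Y h1 h2 h3 h4 h5 => phase2_sound hr hd hq N L G C Y h1 h2 h3 h4 h5)
    d ∅ (Finset.empty_subset _)
    (by simp [hD])
    [] (List.replicate (r - 1) 1) 1 ((range m).filter fun x => !(Nat.beq (Nat.gcd x m) 1))
    (2 ^ m - 2)
    (by simp)
    (hch _ _)
    (by
      intro t ht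
      obtain ⟨h1, M, h2, h3, h4⟩ := MS_one (a := a) ∅ t ht
      refine ⟨h1, M, Or.inl (by omega), h3, h4⟩)
    (by
      intro s hs
      simp at hs)
    (by
      intro j hj _
      rw [List.mem_filter, mem_range]
      refine ⟨ZMod.val_lt _, ?_⟩
      have h1 := hu j hj
      cases hb : Nat.beq (Nat.gcd (a j).val m) 1
      · rfl
      · exfalso
        apply h1
        have := Nat.eq_of_beq_eq_true hb
        rw [← ZMod.natCast_zmod_val (a j), ZMod.isUnit_iff_coprime]
        exact this)
    (by
      intro j hj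
      have h2 := hval j
      have hlt := ZMod.val_lt (a j)
      have e1 : 2 ^ m - 2 = (2 ^ (m - 1) - 1) * 2 ^ 1 := by
        rw [Nat.sub_mul, ← pow_add, Nat.sub_add_cancel hm1]; norm_num
      rw [e1, ← Nat.shiftLeft_eq, Nat.testBit_shiftLeft, Nat.testBit_two_pow_sub_one]
      simp
      omega)
  rw [h] at this
  exact Bool.noConfusion this

theorem dist_smul [NeZero m] (hd : Dist r m D a) (u : (ZMod m)ˣ) :
    Dist r m D (fun i => (u : ZMod m) * a i) := by
  intro M N hM hN h
  apply hd M N hM hN
  rw [Multiset.sum_map_mul_left, Multiset.sum_map_mul_left] at h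
  exact u.isUnit.mul_left_cancel h

/-- the complete check for one parameter set -/
def check (r e d m : ℕ) : Bool :=
  srch (2 ^ m - 1) m (e - d) (phase2 (2 ^ m - 1) m (e - d)) (d - 1) [m - 1] (maskL r)
      (2 ^ (r + 1) - 1) ((range m).filter fun x => Nat.ble 2 x) (2 ^ m - 4) &&
  srch (2 ^ m - 1) m (e - d) (phase2 (2 ^ m - 1) m (e - d)) d [] (List.replicate (r - 1) 1)
      1 ((range m).filter fun x => !(Nat.beq (Nat.gcd x m) 1)) (2 ^ m - 2)

theorem check_sound {d : ℕ} (hc : check r e d m = true) (hr : 3 ≤ r) (hrm : r < m)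
    (hD : D.card = d) : ¬ Dist r m D a := by
  intro hd
  have : NeZero m := ⟨by omega⟩
  rw [check, Bool.and_eq_true] at hc
  by_cases hu : ∃ i ∈ D, IsUnit (a i)
  · obtain ⟨i, hi, hu⟩ := hu
    obtain ⟨u, hu⟩ := hu
    exact final_unit hr hrm (dist_smul hd u⁻¹) hD i hi (by rw [← hu]; simp) hc.1
  · push Not at hu
    exact final_nonunit hr hd hD hu hc.2

end

end Srch
end NS57
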