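import Pool.Agent.Helper7.NSCore

/-!
Splitting the search of `NSCore` into parts (module NS-SEARCH of `MP_8fc134_al`).
-/

namespace NS57
namespace Srch

/-- `inner` restricted to the first elements in `[lo, hi)` -/
def innerP (lo hi M m n : ℕ) (N L : List ℕ) (G : ℕ) (Y : ℕ) (cont : Cont) (C : List ℕ) : Bool :=
  List.rec true
    (fun x tl ih => Bool.rec false ih
      (Bool.rec true (Bool.rec true (next M x L 1 (fun L' last =>
        cont (List.cons (Nat.sub m x) N) L' (Nat.lor G (rot M x last)) tl Y)) (lenGE n tl))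
        (and (Nat.ble lo x) (Nat.blt x hi)))) C

/-- `srch` restricted to the first elements in `[lo, hi)` -/
def srchP (lo hi M m q : ℕ) (base : Cont) (n : ℕ) (N L : List ℕ) (G : ℕ) (C : List ℕ) (Y : ℕ) :
    Bool :=
  (fun F => filt M G F L C (fun C2 =>
       innerP lo hi M m n N L G (Nat.xor Y (Nat.land Y F)) (srch M m q base n) C2)) (forb M G N)

theorem innerP_all (K : List (ℕ × ℕ)) (M m n : ℕ) (N L : List ℕ) (G : ℕ) (Y : ℕ) (cont : Cont)
    (C : List ℕ) (hK : ∀ x ∈ C, ∃ k ∈ K, k.1 ≤ x ∧ x < k.2)
    (h : ∀ k ∈ K, innerP k.1 k.2 M m n N L G Y cont C = true) :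
    inner M m n N L G Y cont C = true := by
  induction C with
  | nil => rfl
  | cons x C ih =>
    have e1 : inner M m n N L G Y cont (x :: C) =
      Bool.rec false (inner M m n N L G Y cont C)
        (Bool.rec true (next M x L 1 (fun L' last =>
          cont ((m - x) :: N) L' (G ||| rot M x last) C Y)) (lenGE n C)) := rfl
    have e2 : ∀ k : ℕ × ℕ, innerP k.1 k.2 M m n N L G Y cont (x :: C) =
      Bool.rec false (innerP k.1 k.2 M m n N L G Y cont C)
        (Bool.rec true (Bool.rec true (next M x L 1 (fun L' last =>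
          cont ((m - x) :: N) L' (G ||| rot M x last) C Y)) (lenGE n C))
          (and (Nat.ble k.1 x) (Nat.blt x k.2))) := fun k => rfl
    have h1 : inner M m n N L G Y cont C = true := by
      apply ih (fun y hy => hK y (List.mem_cons_of_mem _ hy))
      intro k hk
      have := h k hk
      rw [e2] at this
      generalize (Bool.rec true (Bool.rec true (next M x L 1 (fun L' last =>
          cont ((m - x) :: N) L' (G ||| rot M x last) C Y)) (lenGE n C))
          (and (Nat.ble k.1 x) (Nat.blt x k.2)) : Bool) = b at this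
      cases b
      · exact Bool.noConfusion this
      · exact this
    obtain ⟨k, hk, hk1, hk2⟩ := hK x List.mem_cons_self
    have h2 := h k hk
    rw [e2] at h2
    have hb : (and (Nat.ble k.1 x) (Nat.blt x k.2)) = true := by
      rw [Bool.and_eq_true]
      exact ⟨Nat.ble_eq_true_of_le hk1, by rw [Nat.blt_eq]; exact hk2⟩
    rw [hb] at h2
    rw [e1, h1]
    change (Bool.rec false (innerP k.1 k.2 M m n N L G Y cont C)
      (Bool.rec true (next M x L 1 (fun L' last =>
          cont ((m - x) :: N) L' (G ||| rot M x last) C Y)) (lenGE n C)) : Bool) = true at h2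
    generalize (Bool.rec true (next M x L 1 (fun L' last =>
          cont ((m - x) :: N) L' (G ||| rot M x last) C Y)) (lenGE n C) : Bool) = b at h2 ⊢
    cases b
    · exact Bool.noConfusion h2
    · rfl

theorem srchP_all (K : List (ℕ × ℕ)) (M m q : ℕ) (base : Cont) (n : ℕ) (N L : List ℕ) (G : ℕ)
    (C : List ℕ) (Y : ℕ) (hK : ∀ x ∈ C, ∃ k ∈ K, k.1 ≤ x ∧ x < k.2)
    (h : ∀ k ∈ K, srchP k.1 k.2 M m q base n N L G C Y = true) :
    srch M m q base (n + 1) N L G C Y = true := by
  have hun : srch M m q base (n + 1) N L G C Y =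
      filt M G (forb M G N) L C (fun C2 =>
        inner M m n N L G (Nat.xor Y (Nat.land Y (forb M G N)))
          (srch M m q base n) C2) := rfl
  rw [hun, filt_eq]
  apply innerP_all K
  · intro x hx
    exact hK x (List.mem_of_mem_filter hx)
  · intro k hk
    have := h k hk
    have hun2 : srchP k.1 k.2 M m q base n N L G C Y =
      filt M G (forb M G N) L C (fun C2 =>
        innerP k.1 k.2 M m n N L G (Nat.xor Y (Nat.land Y (forb M G N)))
          (srch M m q base n) C2) := rfl
    rw [hun2, filt_eq] at this
    exact this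

end Srch
end NS57
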