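import Pool.Agent.Helper7.NSCore

/-!
Kernel checks for module NS-SEARCH of `MP_8fc134_al`.
-/

namespace NS57
namespace Srch

theorem chk_3_3_2_15 : check 3 3 2 15 = true := by decide +kernel
theorem chk_3_3_2_16 : check 3 3 2 16 = true := by decide +kernel
theorem chk_3_4_2_21 : check 3 4 2 21 = true := by decide +kernel
theorem chk_3_4_2_22 : check 3 4 2 22 = true := by decide +kernel
theorem chk_3_4_2_23 : check 3 4 2 23 = true := by decide +kernel
theorem chk_3_4_2_24 : check 3 4 2 24 = true := by decide +kernel
theorem chk_3_4_3_32 : check 3 4 3 32 = true := by decide +kernel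
theorem chk_3_4_3_33 : check 3 4 3 33 = true := by decide +kernel
theorem chk_3_4_3_34 : check 3 4 3 34 = true := by decide +kernel
theorem chk_3_5_3_36 : check 3 5 3 36 = true := by decide +kernel
theorem chk_3_5_3_37 : check 3 5 3 37 = true := by decide +kernel
theorem chk_3_5_3_38 : check 3 5 3 38 = true := by decide +kernel
theorem chk_3_5_3_39 : check 3 5 3 39 = true := by decide +kernel
theorem chk_3_5_3_40 : check 3 5 3 40 = true := by decide +kernel
theorem chk_3_6_3_43 : check 3 6 3 43 = true := by decide +kernel
theorem chk_3_6_3_44 : check 3 6 3 44 = true := by decide +kernel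
theorem chk_3_6_3_45 : check 3 6 3 45 = true := by decide +kernel
theorem chk_3_6_3_46 : check 3 6 3 46 = true := by decide +kernel
theorem chk_3_6_3_47 : check 3 6 3 47 = true := by decide +kernel
theorem chk_4_3_2_28 : check 4 3 2 28 = true := by decide +kernel
theorem chk_4_3_2_29 : check 4 3 2 29 = true := by decide +kernel
theorem chk_4_3_2_30 : check 4 3 2 30 = true := by decide +kernel
theorem chk_4_3_2_31 : check 4 3 2 31 = true := by decide +kernel
theorem chk_4_3_2_32 : check 4 3 2 32 = true := by decide +kernel
theorem chk_4_3_2_33 : check 4 3 2 33 = true := by decide +kernel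
theorem chk_4_3_2_34 : check 4 3 2 34 = true := by decide +kernel
theorem chk_4_4_3_55 : check 4 4 3 55 = true := by decide +kernel
theorem chk_4_4_3_56 : check 4 4 3 56 = true := by decide +kernel
theorem chk_4_4_3_57 : check 4 4 3 57 = true := by decide +kernel
theorem chk_4_4_3_58 : check 4 4 3 58 = true := by decide +kernel
theorem chk_4_4_3_59 : check 4 4 3 59 = true := by decide +kernel
theorem chk_4_4_3_60 : check 4 4 3 60 = true := by decide +kernel
theorem chk_4_4_3_61 : check 4 4 3 61 = true := by decide +kernel
theorem chk_4_4_3_62 : check 4 4 3 62 = true := by decide +kernel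
theorem chk_4_4_3_63 : check 4 4 3 63 = true := by decide +kernel
theorem chk_4_4_3_64 : check 4 4 3 64 = true := by decide +kernel
theorem chk_4_4_3_65 : check 4 4 3 65 = true := by decide +kernel
theorem chk_4_4_3_66 : check 4 4 3 66 = true := by decide +kernel
theorem chk_4_4_3_67 : check 4 4 3 67 = true := by decide +kernel
theorem chk_4_4_3_68 : check 4 4 3 68 = true := by decide +kernel
theorem chk_4_4_3_69 : check 4 4 3 69 = true := by decide +kernel
theorem chk_5_3_2_50 : check 5 3 2 50 = true := by decide +kernel
theorem chk_5_3_2_51 : check 5 3 2 51 = true := by decide +kernel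
theorem chk_5_3_2_52 : check 5 3 2 52 = true := by decide +kernel
theorem chk_5_3_2_53 : check 5 3 2 53 = true := by decide +kernel
theorem chk_5_3_2_54 : check 5 3 2 54 = true := by decide +kernel
theorem chk_5_3_2_55 : check 5 3 2 55 = true := by decide +kernel
theorem chk_6_3_2_80 : check 6 3 2 80 = true := by decide +kernel
theorem chk_6_3_2_81 : check 6 3 2 81 = true := by decide +kernel
theorem chk_6_3_2_82 : check 6 3 2 82 = true := by decide +kernel
theorem chk_6_3_2_83 : check 6 3 2 83 = true := by decide +kernel
theorem chk_7_3_2_119 : check 7 3 2 119 = true := by decide +kernel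

end Srch
end NS57
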