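import Mathlib

set_option autoImplicit false

namespace Pool.Agent.Helper7.Nt

/-- Chain values: `ρ_0 = 1`, `ρ_{k+1} = l / ρ_k` with an integer `l > ρ_k ^ 2`. -/
inductive Chain : ℝ → Prop
  | one : Chain 1
  | step {x : ℝ} (l : ℕ) : Chain x → x ^ 2 < l → Chain (l / x)

theorem Chain.one_le {x : ℝ} (h : Chain x) : 1 ≤ x := by
  induction h with
  | one => exact le_rfl
  | @step x l _ hl ih =>
    rw [le_div_iff₀ (by linarith)]
    nlinarith

theorem Chain.two_step {x : ℝ} (h : Chain x) (lam b : ℕ) (h1 : x ^ 2 < lam)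
    (h2 : (lam : ℝ) ^ 2 < b * x ^ 2) : Chain (x * (b / lam)) := by
  have hx := h.one_le
  have hx0 : 0 < x := by linarith
  have hlam : (0 : ℝ) < lam := lt_of_le_of_lt (by positivity) h1
  have h3 : Chain (lam / x) := Chain.step lam h h1
  have h4 : ((lam : ℝ) / x) ^ 2 < b := by
    rw [div_pow, div_lt_iff₀ (by positivity)]
    exact h2
  have h5 := Chain.step b h3 h4
  have h6 : (b : ℝ) / (lam / x) = x * (b / lam) := by
    field_simp
  rwa [h6] at h5

/-- The values along a segment. -/
noncomputable def xs (A h : ℕ) (e : ℕ → ℕ) (x0 : ℝ) : ℕ → ℝ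
  | 0 => x0
  | (i + 1) => xs A h e x0 i * (((A + 3 * h + 4 * h * i + e i : ℕ) : ℝ) /
      ((A + h + 4 * h * i : ℕ) : ℝ))

/-- The defect of one double step. -/
noncomputable def Gd (A h i : ℕ) : ℝ :=
  2 * Real.log ((A + 3 * h + 4 * h * i : ℕ) : ℝ) - 2 * Real.log ((A + h + 4 * h * i : ℕ) : ℝ) -
    Real.log ((A + 4 * h * (i + 1) : ℕ) : ℝ) + Real.log ((A + 4 * h * i : ℕ) : ℝ)

theorem Gd_bounds (A h i : ℕ) (hA : 2 * h ≤ A) (hh : 0 < h) :
    Gd A h i ≤ 0 ∧ -(8 * (h : ℝ) ^ 3 / (A : ℝ) ^ 3) ≤ Gd A h i := by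
  set a : ℝ := ((A + 4 * h * i : ℕ) : ℝ) with ha
  have hh' : (0 : ℝ) < h := by exact_mod_cast hh
  have hAa : (A : ℝ) ≤ a := by
    rw [ha]; push_cast
    have : (0 : ℝ) ≤ 4 * h * i := by positivity
    linarith
  have hA' : 2 * (h : ℝ) ≤ A := by exact_mod_cast hA
  have hApos : (0 : ℝ) < A := by linarith
  have hapos : 0 < a := by linarith
  have e1 : ((A + 3 * h + 4 * h * i : ℕ) : ℝ) = a + 3 * h := by rw [ha]; push_cast; ring
  have e2 : ((A + h + 4 * h * i : ℕ) : ℝ) = a + h := by rw [ha]; push_cast; ring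
  have e3 : ((A + 4 * h * (i + 1) : ℕ) : ℝ) = a + 4 * h := by rw [ha]; push_cast; ring
  have hG : Gd A h i = Real.log ((a + 3 * h) ^ 2 * a / ((a + h) ^ 2 * (a + 4 * h))) := by
    rw [Gd, e1, e2, e3, ← ha, Real.log_div (by positivity) (by positivity),
      Real.log_mul (by positivity) (by positivity), Real.log_mul (by positivity) (by positivity),
      Real.log_pow, Real.log_pow]
    push_cast
    ring
  have hfrac : (a + 3 * h) ^ 2 * a / ((a + h) ^ 2 * (a + 4 * h)) =
      1 - 4 * (h : ℝ) ^ 3 / ((a + h) ^ 2 * (a + 4 * h)) := by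
    field_simp
    ring
  have hθ : 4 * (h : ℝ) ^ 3 / ((a + h) ^ 2 * (a + 4 * h)) ≤ 4 * (h : ℝ) ^ 3 / (A : ℝ) ^ 3 := by
    apply div_le_div_of_nonneg_left (by positivity) (by positivity)
    have h1 : (A : ℝ) ^ 2 ≤ (a + h) ^ 2 := by
      apply pow_le_pow_left₀ hApos.le
      linarith
    calc (A : ℝ) ^ 3 = (A : ℝ) ^ 2 * A := by ring
      _ ≤ (a + h) ^ 2 * (a + 4 * h) := by
        apply mul_le_mul h1 (by linarith) hApos.le (by positivity)
  have hθ0 : 0 ≤ 4 * (h : ℝ) ^ 3 / ((a + h) ^ 2 * (a + 4 * h)) := by positivity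
  have hθ2 : 4 * (h : ℝ) ^ 3 / (A : ℝ) ^ 3 ≤ 1 / 2 := by
    rw [div_le_iff₀ (by positivity)]
    have : (2 * (h : ℝ)) ^ 3 ≤ (A : ℝ) ^ 3 := pow_le_pow_left₀ (by positivity) hA' 3
    nlinarith
  set θ := 4 * (h : ℝ) ^ 3 / ((a + h) ^ 2 * (a + 4 * h)) with hθdef
  rw [hG, hfrac]
  constructor
  · apply Real.log_nonpos
    · linarith
    · linarith
  · have h1 : 1 - (1 - θ)⁻¹ ≤ Real.log (1 - θ) := Real.one_sub_inv_le_log_of_pos (by linarith)
    have h2 : -(2 * θ) ≤ 1 - (1 - θ)⁻¹ := by
      have h3 : (1 - θ)⁻¹ ≤ 1 + 2 * θ := by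
        rw [inv_le_iff_one_le_mul₀ (by linarith)]
        nlinarith
      linarith
    have h4 : 8 * (h : ℝ) ^ 3 / (A : ℝ) ^ 3 = 2 * (4 * (h : ℝ) ^ 3 / (A : ℝ) ^ 3) := by ring
    rw [h4]
    linarith

theorem xs_pos (A h : ℕ) (hh : 0 < h) (e : ℕ → ℕ) (x0 : ℝ) (hx0 : 0 < x0) (i : ℕ) :
    0 < xs A h e x0 i := by
  induction i with
  | zero => exact hx0
  | succ i ih =>
    rw [xs]
    apply mul_pos ih
    apply div_pos
    · exact_mod_cast (by omega : 0 < A + 3 * h + 4 * h * i + e i)
    · exact_mod_cast (by omega : 0 < A + h + 4 * h * i)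

theorem xs_log (A h : ℕ) (hh : 0 < h) (hA : 0 < A) (e : ℕ → ℕ) (x0 : ℝ) (hx0 : 0 < x0) (i : ℕ) :
    2 * Real.log (xs A h e x0 i) = (2 * Real.log x0 - Real.log A) +
      Real.log ((A + 4 * h * i : ℕ) : ℝ) + ∑ l ∈ Finset.range i, Gd A h l +
      2 * ∑ l ∈ Finset.range i, (Real.log ((A + 3 * h + 4 * h * l + e l : ℕ) : ℝ) -
        Real.log ((A + 3 * h + 4 * h * l : ℕ) : ℝ)) := by
  induction i with
  | zero => simp [xs]
  | succ i ih =>
    have h1 : (0 : ℝ) < ((A + 3 * h + 4 * h * i + e i : ℕ) : ℝ) := by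
      exact_mod_cast (by omega : 0 < A + 3 * h + 4 * h * i + e i)
    have h2 : (0 : ℝ) < ((A + h + 4 * h * i : ℕ) : ℝ) := by
      exact_mod_cast (by omega : 0 < A + h + 4 * h * i)
    rw [xs, Real.log_mul (xs_pos A h hh e x0 hx0 i).ne' (div_pos h1 h2).ne',
      Real.log_div h1.ne' h2.ne', mul_add, ih, Finset.sum_range_succ, Finset.sum_range_succ, Gd]
    ring

/-- The segment lemma. -/
theorem segment (A h T : ℕ) (hh : 0 < h) (hA : 2 * h ≤ A) (e : ℕ → ℕ) (x0 : ℝ) (hx0 : Chain x0)
    (S R τ : ℝ) (hR : ((A + 4 * h * T : ℕ) : ℝ) ≤ R)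
    (hS : (∑ l ∈ Finset.range T, e l : ℕ) ≤ S)
    (h1 : 2 * S * R < h * A)
    (h2 : 2 * (τ + T * (8 * (h : ℝ) ^ 3 / (A : ℝ) ^ 3)) * R < h)
    (hU1 : 2 * Real.log x0 - Real.log A ≤ 0) (hU2 : -τ ≤ 2 * Real.log x0 - Real.log A) :
    Chain (xs A h e x0 T) := by
  have hx0pos : 0 < x0 := by linarith [hx0.one_le]
  have hh' : (0 : ℝ) < h := by exact_mod_cast hh
  have hA' : 2 * (h : ℝ) ≤ A := by exact_mod_cast hA
  have hApos : (0 : ℝ) < A := by linarith
  have hS0 : 0 ≤ S := le_trans (by positivity) hS
  have key : ∀ i, i ≤ T → Chain (xs A h e x0 i) := by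
    intro i
    induction i with
    | zero =>
      intro _
      exact hx0
    | succ i ih =>
      intro hi
      have hch := ih (by omega)
      have hxpos := xs_pos A h hh e x0 hx0pos i
      have hlog := xs_log A h hh (by omega) e x0 hx0pos i
      set x := xs A h e x0 i with hxdef
      set a : ℝ := ((A + 4 * h * i : ℕ) : ℝ) with ha
      have hAa : (A : ℝ) ≤ a := by
        rw [ha]; push_cast
        have : (0 : ℝ) ≤ 4 * h * i := by positivity
        linarith
      have haR : a + 4 * h ≤ R := by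
        refine le_trans ?_ hR
        rw [ha]; push_cast
        have h3 : (i : ℝ) + 1 ≤ T := by exact_mod_cast hi
        nlinarith
      have hapos : 0 < a := by linarith
      have hRpos : 0 < R := by linarith
      have e1 : ((A + h + 4 * h * i : ℕ) : ℝ) = a + h := by rw [ha]; push_cast; ring
      -- upper bound
      have hup : 2 * Real.log x ≤ Real.log a + 2 * S / A := by
        have h3 : ∑ l ∈ Finset.range i, Gd A h l ≤ 0 :=
          Finset.sum_nonpos (fun l _ => (Gd_bounds A h l hA hh).1)
        have h4 : ∑ l ∈ Finset.range i, (Real.log ((A + 3 * h + 4 * h * l + e l : ℕ) : ℝ) -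
            Real.log ((A + 3 * h + 4 * h * l : ℕ) : ℝ)) ≤ S / A := by
          have h5 : ∀ l ∈ Finset.range i, Real.log ((A + 3 * h + 4 * h * l + e l : ℕ) : ℝ) -
              Real.log ((A + 3 * h + 4 * h * l : ℕ) : ℝ) ≤ (e l : ℝ) / A := by
            intro l _
            have h6 : (0 : ℝ) < ((A + 3 * h + 4 * h * l : ℕ) : ℝ) := by
              exact_mod_cast (by omega : 0 < A + 3 * h + 4 * h * l)
            have h7 : (0 : ℝ) < ((A + 3 * h + 4 * h * l + e l : ℕ) : ℝ) := by
              exact_mod_cast (by omega : 0 < A + 3 * h + 4 * h * l + e l)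
            rw [← Real.log_div h7.ne' h6.ne']
            refine le_trans (Real.log_le_sub_one_of_pos (div_pos h7 h6)) ?_
            have h8 : ((A + 3 * h + 4 * h * l + e l : ℕ) : ℝ) / ((A + 3 * h + 4 * h * l : ℕ) : ℝ) - 1
                = (e l : ℝ) / ((A + 3 * h + 4 * h * l : ℕ) : ℝ) := by
              rw [div_sub_one h6.ne']
              congr 1
              push_cast
              ring
            rw [h8]
            apply div_le_div_of_nonneg_left (by positivity) hApos
            exact_mod_cast (by omega : A ≤ A + 3 * h + 4 * h * l)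
          refine le_trans (Finset.sum_le_sum h5) ?_
          rw [← Finset.sum_div]
          apply div_le_div_of_nonneg_right _ hApos.le
          refine le_trans ?_ hS
          push_cast
          apply Finset.sum_le_sum_of_subset_of_nonneg
          · exact Finset.range_subset_range.mpr (by omega)
          · intro _ _ _
            positivity
        have h9 : 2 * S / A = 2 * (S / A) := by ring
        rw [hlog, h9]
        linarith
      -- lower bound
      have hlo : Real.log a - (τ + T * (8 * (h : ℝ) ^ 3 / (A : ℝ) ^ 3)) ≤ 2 * Real.log x := by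
        have h3 : -(T * (8 * (h : ℝ) ^ 3 / (A : ℝ) ^ 3)) ≤ ∑ l ∈ Finset.range i, Gd A h l := by
          have h4 : ∑ l ∈ Finset.range i, (-(8 * (h : ℝ) ^ 3 / (A : ℝ) ^ 3)) ≤
              ∑ l ∈ Finset.range i, Gd A h l :=
            Finset.sum_le_sum (fun l _ => (Gd_bounds A h l hA hh).2)
          rw [Finset.sum_const, Finset.card_range, nsmul_eq_mul] at h4
          have h5 : (i : ℝ) ≤ T := by exact_mod_cast (by omega : i ≤ T)
          have h6 : 0 ≤ 8 * (h : ℝ) ^ 3 / (A : ℝ) ^ 3 := by positivity
          nlinarith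
        have h4 : 0 ≤ ∑ l ∈ Finset.range i, (Real.log ((A + 3 * h + 4 * h * l + e l : ℕ) : ℝ) -
            Real.log ((A + 3 * h + 4 * h * l : ℕ) : ℝ)) := by
          apply Finset.sum_nonneg
          intro l _
          rw [sub_nonneg]
          apply Real.log_le_log
          · exact_mod_cast (by omega : 0 < A + 3 * h + 4 * h * l)
          · exact_mod_cast (by omega : A + 3 * h + 4 * h * l ≤ A + 3 * h + 4 * h * l + e l)
        rw [hlog]
        linarith
      rw [xs]
      apply hch.two_step
      · rw [e1, ← Real.log_lt_log_iff (by positivity) (by positivity), Real.log_pow]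
        push_cast
        refine lt_of_le_of_lt hup ?_
        have h3 : Real.log (a + h) = Real.log a + Real.log (1 + h / a) := by
          rw [← Real.log_mul (by positivity) (by positivity)]
          congr 1
          field_simp
        rw [h3]
        have h4 : 1 - (1 + h / a)⁻¹ ≤ Real.log (1 + h / a) :=
          Real.one_sub_inv_le_log_of_pos (by positivity)
        have h5 : 1 - (1 + h / a)⁻¹ = h / (a + h) := by
          field_simp
          ring
        have h6 : 2 * S / A < h / (a + h) := by
          rw [div_lt_div_iff₀ hApos (by positivity)]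
          calc 2 * S * (a + h) ≤ 2 * S * R := by
                apply mul_le_mul_of_nonneg_left _ (by positivity)
                linarith
            _ < h * A := h1
        linarith
      · rw [e1]
        have h3 : (a + h) ^ 2 < (a + 3 * h) * x ^ 2 := by
          rw [← Real.log_lt_log_iff (by positivity) (by positivity), Real.log_pow,
            Real.log_mul (by positivity) (by positivity), Real.log_pow]
          push_cast
          have h4 : 2 * Real.log (a + h) - Real.log (a + 3 * h) - Real.log a =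
              Real.log ((a + h) ^ 2 / ((a + 3 * h) * a)) := by
            rw [Real.log_div (by positivity) (by positivity),
              Real.log_mul (by positivity) (by positivity), Real.log_pow]
            push_cast
            ring
          have h5 : Real.log ((a + h) ^ 2 / ((a + 3 * h) * a)) ≤ -(h / (2 * R)) := by
            refine le_trans (Real.log_le_sub_one_of_pos (by positivity)) ?_
            have h6 : (a + h) ^ 2 / ((a + 3 * h) * a) - 1 = -(h * (a - h) / ((a + 3 * h) * a)) := by
              field_simp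
              ring
            rw [h6]
            apply neg_le_neg
            rw [div_le_div_iff₀ (by positivity) (by positivity)]
            have h7 : a + 3 * h ≤ R := by linarith
            have h8 : a ≤ 2 * (a - h) := by linarith
            have h9 : (a + 3 * h) * a ≤ R * (2 * (a - h)) :=
              mul_le_mul h7 h8 hapos.le hRpos.le
            calc h * ((a + 3 * h) * a) ≤ h * (R * (2 * (a - h))) :=
                  mul_le_mul_of_nonneg_left h9 hh'.le
              _ = h * (a - h) * (2 * R) := by ring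
          have h6 : τ + T * (8 * (h : ℝ) ^ 3 / (A : ℝ) ^ 3) < h / (2 * R) := by
            rw [lt_div_iff₀ (by positivity)]
            linarith
          linarith
        refine lt_of_lt_of_le h3 ?_
        apply mul_le_mul_of_nonneg_right _ (by positivity)
        rw [ha]
        push_cast
        have : (0 : ℝ) ≤ e i := by positivity
        linarith
  exact key T le_rfl

end Pool.Agent.Helper7.Nt
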