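import Mathlib

set_option autoImplicit false

namespace Pool.Agent.Helper7.Nt

/-- Iterated (negative) differences: `Dif F [g] t = F t - F (t + g)`. -/
def Dif (F : ℝ → ℝ) : List ℝ → ℝ → ℝ
  | [], t => F t
  | g :: gs, t => Dif F gs t - Dif F gs (t + g)

/-- `Fam 0 = - log`, and `Fam (m+1)` is minus the derivative of `Fam m`. -/
noncomputable def Fam : ℕ → ℝ → ℝ
  | 0, t => - Real.log t
  | (m + 1), t => (m.factorial : ℝ) / t ^ (m + 1)

theorem hasDerivAt_Fam (m : ℕ) {t : ℝ} (ht : 0 < t) : HasDerivAt (Fam m) (- Fam (m + 1) t) t := by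
  cases m with
  | zero =>
    have h := (Real.hasDerivAt_log ht.ne').neg
    have h2 : - Fam (0 + 1) t = - t⁻¹ := by
      simp [Fam]
    rw [h2]
    exact h
  | succ m =>
    have h1 : HasDerivAt (fun t : ℝ => (m.factorial : ℝ) / t ^ (m + 1))
        (- (((m + 1).factorial : ℝ) / t ^ (m + 2))) t := by
      have h := ((hasDerivAt_pow (m + 1) t).inv (pow_ne_zero _ ht.ne')).const_mul (m.factorial : ℝ)
      have h3 : (m.factorial : ℝ) * (-(((m + 1 : ℕ) : ℝ) * t ^ (m + 1 - 1)) / (t ^ (m + 1)) ^ 2) =
          - (((m + 1).factorial : ℝ) / t ^ (m + 2)) := by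
        rw [Nat.factorial_succ, Nat.add_sub_cancel]
        push_cast
        field_simp
        ring
      rw [h3] at h
      exact h
    exact h1

theorem hasDerivAt_Dif (gs : List ℝ) (hgs : ∀ g ∈ gs, 0 ≤ g) (m : ℕ) {t : ℝ} (ht : 0 < t) :
    HasDerivAt (Dif (Fam m) gs) (- Dif (Fam (m + 1)) gs t) t := by
  induction gs generalizing t with
  | nil => exact hasDerivAt_Fam m ht
  | cons g gs ih =>
    have hg : 0 ≤ g := hgs g (by simp)
    have hgs' : ∀ g' ∈ gs, 0 ≤ g' := fun g' hg' => hgs g' (by simp [hg'])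
    have h1 := ih hgs' ht
    have h2 : HasDerivAt (Dif (Fam m) gs) (- Dif (Fam (m + 1)) gs (t + g)) (t + g) :=
      ih hgs' (by linarith)
    have h3 : HasDerivAt (fun x => Dif (Fam m) gs (x + g)) (- Dif (Fam (m + 1)) gs (t + g)) t :=
      h2.comp_add_const t g
    have h4 := h1.sub h3
    have h5 : - Dif (Fam (m + 1)) (g :: gs) t =
        - Dif (Fam (m + 1)) gs t - - Dif (Fam (m + 1)) gs (t + g) := by
      simp only [Dif]
      ring
    rw [h5]
    exact h4

theorem Dif_eq (gs : List ℝ) (hgs : ∀ g ∈ gs, 0 < g) (m : ℕ) {t : ℝ} (ht : 0 < t) :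
    ∃ ξ, t ≤ ξ ∧ ξ ≤ t + gs.sum ∧ Dif (Fam m) gs t = gs.prod * Fam (m + gs.length) ξ := by
  induction gs generalizing t m with
  | nil =>
    refine ⟨t, le_rfl, by simp, ?_⟩
    simp [Dif]
  | cons g gs ih =>
    have hg : 0 < g := hgs g (by simp)
    have hgs' : ∀ g' ∈ gs, 0 < g' := fun g' hg' => hgs g' (by simp [hg'])
    have hsum : 0 ≤ gs.sum := List.sum_nonneg (fun x hx => (hgs' x hx).le)
    have hcont : ContinuousOn (Dif (Fam m) gs) (Set.Icc t (t + g)) := by
      intro x hx
      exact (hasDerivAt_Dif gs (fun x hx => (hgs' x hx).le) m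
        (lt_of_lt_of_le ht hx.1)).continuousAt.continuousWithinAt
    obtain ⟨c, hc, hc2⟩ := exists_hasDerivAt_eq_slope (Dif (Fam m) gs)
      (fun x => - Dif (Fam (m + 1)) gs x) (by linarith : t < t + g) hcont
      (fun x hx => hasDerivAt_Dif gs (fun x hx => (hgs' x hx).le) m (lt_trans ht hx.1))
    obtain ⟨ξ, h1, h2, h3⟩ := ih hgs' (m + 1) (lt_trans ht hc.1)
    refine ⟨ξ, le_trans hc.1.le h1, ?_, ?_⟩
    · rw [List.sum_cons]
      linarith [hc.2]
    · simp only [Dif]
      have h4 : Dif (Fam m) gs t - Dif (Fam m) gs (t + g) = g * Dif (Fam (m + 1)) gs c := by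
        have h5 : t + g - t = g := by ring
        rw [h5, eq_div_iff hg.ne'] at hc2
        linarith
      rw [h4, h3, List.prod_cons, List.length_cons]
      have h6 : m + 1 + gs.length = m + (gs.length + 1) := by ring
      rw [h6]
      ring

/-! ### The index sets of a pattern -/

mutual
/-- Even subset sums. -/
def OnS : List ℕ → Finset ℕ
  | [] => {0}
  | g :: gs => OnS gs ∪ (OffS gs).image (fun q => g + q)
/-- Odd subset sums. -/
def OffS : List ℕ → Finset ℕ
  | [] => ∅
  | g :: gs => OffS gs ∪ (OnS gs).image (fun q => g + q)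
end

/-- Superincreasing lists (largest first). -/
def SupInc : List ℕ → Prop
  | [] => True
  | g :: gs => gs.sum < g ∧ SupInc gs

theorem mem_le_sum (gs : List ℕ) : (∀ q ∈ OnS gs, q ≤ gs.sum) ∧ (∀ q ∈ OffS gs, q ≤ gs.sum) := by
  induction gs with
  | nil => simp [OnS, OffS]
  | cons g gs ih =>
    constructor
    · intro q hq
      rw [OnS, Finset.mem_union, Finset.mem_image] at hq
      rw [List.sum_cons]
      rcases hq with h | ⟨q', h, rfl⟩
      · have := ih.1 q h
        omega
      · have := ih.2 q' h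
        omega
    · intro q hq
      rw [OffS, Finset.mem_union, Finset.mem_image] at hq
      rw [List.sum_cons]
      rcases hq with h | ⟨q', h, rfl⟩
      · have := ih.2 q h
        omega
      · have := ih.1 q' h
        omega

theorem card_le (gs : List ℕ) : (OnS gs).card ≤ 2 ^ gs.length ∧ (OffS gs).card ≤ 2 ^ gs.length := by
  induction gs with
  | nil => simp [OnS, OffS]
  | cons g gs ih =>
    rw [List.length_cons, pow_succ]
    constructor
    · rw [OnS]
      refine le_trans (Finset.card_union_le _ _) ?_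
      have := Finset.card_image_le (s := OffS gs) (f := fun q => g + q)
      omega
    · rw [OffS]
      refine le_trans (Finset.card_union_le _ _) ?_
      have := Finset.card_image_le (s := OnS gs) (f := fun q => g + q)
      omega

theorem sum_union_image {F : ℕ → ℝ} {A B : Finset ℕ} {g s : ℕ} (hA : ∀ q ∈ A, q ≤ s) (hs : s < g) :
    ∑ q ∈ A ∪ B.image (fun q => g + q), F q = ∑ q ∈ A, F q + ∑ q ∈ B, F (g + q) := by
  rw [Finset.sum_union, Finset.sum_image]
  · intro a _ b _ h
    have h' : g + a = g + b := h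
    omega
  · rw [Finset.disjoint_left]
    intro q hq hq2
    rw [Finset.mem_image] at hq2
    obtain ⟨q', _, h⟩ := hq2
    have := hA q hq
    omega

theorem pattern_sum (F : ℝ → ℝ) (w : ℝ) (gs : List ℕ) (hgs : SupInc gs) (t : ℝ) :
    ∑ q ∈ OnS gs, F (t + w * q) - ∑ q ∈ OffS gs, F (t + w * q) =
      Dif F (gs.map (fun g : ℕ => w * (g : ℝ))) t := by
  induction gs generalizing t with
  | nil => simp [OnS, OffS, Dif]
  | cons g gs ih =>
    rw [OnS, OffS, sum_union_image (F := fun q => F (t + w * (q : ℝ))) (mem_le_sum gs).1 hgs.1,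
      sum_union_image (F := fun q => F (t + w * (q : ℝ))) (mem_le_sum gs).2 hgs.1, List.map_cons]
    simp only [Dif]
    rw [← ih hgs.2 t, ← ih hgs.2 (t + w * g)]
    have h : ∀ q : ℕ, F (t + w * ((g + q : ℕ) : ℝ)) = F (t + w * g + w * q) := by
      intro q
      congr 1
      push_cast
      ring
    simp_rw [h]
    ring

theorem Dif_append_one (gs : List ℝ) (t : ℝ) (F : ℝ → ℝ) :
    Dif F (gs ++ [1]) t = Dif (fun x => F x - F (x + 1)) gs t := by
  induction gs generalizing t with
  | nil => simp [Dif]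
  | cons g gs ih =>
    rw [List.cons_append]
    simp only [Dif]
    rw [ih, ih]

/-! ### The gaps -/

/-- The gaps of class `κ`. -/
def gaps (Q : ℕ) : ℕ → ℕ → List ℕ
  | 0, _ => []
  | (k + 1), κ => 2 ^ (k + min Q κ) :: gaps Q k (κ - Q)

theorem gaps_length (Q k κ : ℕ) : (gaps Q k κ).length = k := by
  induction k generalizing κ with
  | zero => rfl
  | succ k ih => rw [gaps, List.length_cons, ih]

theorem gaps_sum_lt (Q k κ : ℕ) : (gaps Q k κ).sum < 2 ^ (k + min Q κ) := by
  induction k generalizing κ with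
  | zero =>
    rw [gaps, List.sum_nil]
    positivity
  | succ k ih =>
    rw [gaps, List.sum_cons]
    have h1 := ih (κ - Q)
    have h2 : 2 ^ (k + min Q (κ - Q)) ≤ 2 ^ (k + min Q κ) := by
      apply Nat.pow_le_pow_right (by norm_num)
      omega
    have h3 : 2 ^ (k + 1 + min Q κ) = 2 * 2 ^ (k + min Q κ) := by
      rw [← pow_succ']
      congr 1
      omega
    omega

theorem gaps_supInc (Q k κ : ℕ) : SupInc (gaps Q k κ) := by
  induction k generalizing κ with
  | zero => trivial
  | succ k ih =>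
    rw [gaps]
    refine ⟨?_, ih _⟩
    have h1 := gaps_sum_lt Q k (κ - Q)
    have h2 : 2 ^ (k + min Q (κ - Q)) ≤ 2 ^ (k + min Q κ) := by
      apply Nat.pow_le_pow_right (by norm_num)
      omega
    omega

theorem gaps_prod (Q k κ : ℕ) (h : κ ≤ k * Q) :
    (gaps Q k κ).prod = 2 ^ (∑ i ∈ Finset.range k, i + κ) := by
  induction k generalizing κ with
  | zero =>
    have : κ = 0 := by simpa using h
    subst this
    simp [gaps]
  | succ k ih =>
    rw [gaps, List.prod_cons, ih (κ - Q) (by rw [Nat.add_mul, one_mul] at h; omega), ← pow_add,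
      Finset.sum_range_succ]
    congr 1
    rcases le_total Q κ with h1 | h1
    · rw [min_eq_left h1]
      omega
    · rw [min_eq_right h1]
      omega

theorem gaps_pos (Q k κ : ℕ) : ∀ g ∈ gaps Q k κ, 0 < g := by
  induction k generalizing κ with
  | zero =>
    intro g hg
    simp [gaps] at hg
  | succ k ih =>
    intro g hg
    rw [gaps, List.mem_cons] at hg
    rcases hg with rfl | hg
    · positivity
    · exact ih _ g hg

/-! ### Greedy approximation -/

theorem greedy (δ : ℕ → ℝ) (ε : ℝ) (M : ℕ)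
    (h : ∀ o < M, δ o ≤ ε + ∑ i ∈ Finset.range o, δ i) (R : ℝ) (hR0 : 0 ≤ R)
    (hR : R ≤ ε + ∑ i ∈ Finset.range M, δ i) :
    ∃ S ⊆ Finset.range M, 0 ≤ R - ∑ i ∈ S, δ i ∧ R - ∑ i ∈ S, δ i ≤ ε := by
  induction M generalizing R with
  | zero =>
    refine ⟨∅, by simp, ?_, ?_⟩
    · simpa using hR0
    · simpa using hR
  | succ M ih =>
    rw [Finset.sum_range_succ] at hR
    by_cases hc : δ M ≤ R
    · obtain ⟨S, hS, h1, h2⟩ := ih (fun o ho => h o (by omega)) (R - δ M) (by linarith)
        (by linarith)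
      have hnot : M ∉ S := fun hM => by
        have := hS hM
        simp at this
      refine ⟨insert M S, ?_, ?_, ?_⟩
      · intro x hx
        rw [Finset.mem_insert] at hx
        rw [Finset.mem_range]
        rcases hx with rfl | hx
        · omega
        · have := Finset.mem_range.mp (hS hx)
          omega
      · rw [Finset.sum_insert hnot]
        linarith
      · rw [Finset.sum_insert hnot]
        linarith
    · push Not at hc
      obtain ⟨S, hS, h1, h2⟩ := ih (fun o ho => h o (by omega)) R hR0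
        (by linarith [h M (by omega)])
      refine ⟨S, ?_, h1, h2⟩
      intro x hx
      rw [Finset.mem_range]
      have := Finset.mem_range.mp (hS hx)
      omega

/-- The class condition for the greedy lemma. -/
theorem class_cond (δ : ℕ → ℝ) (c : ℕ) (hc : 0 < c) (μ C : ℝ) (hμ : 0 ≤ μ)
    (hcC : C ≤ c) (M : ℕ)
    (hlow : ∀ o < M, μ * 2 ^ (o / c) ≤ δ o) (hup : ∀ o < M, δ o ≤ C * (μ * 2 ^ (o / c))) :
    ∀ o < M, δ o ≤ C * μ + ∑ i ∈ Finset.range o, δ i := by
  have hgeo : ∀ κ : ℕ, ∑ i ∈ Finset.range (c * κ), (μ * 2 ^ (i / c) : ℝ) = c * (μ * (2 ^ κ - 1)) := by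
    intro κ
    induction κ with
    | zero => simp
    | succ κ ih =>
      rw [Nat.mul_succ, Finset.sum_range_add, ih]
      have h1 : ∀ x ∈ Finset.range c, (μ * 2 ^ ((c * κ + x) / c) : ℝ) = μ * 2 ^ κ := by
        intro x hx
        rw [Finset.mem_range] at hx
        congr 2
        rw [Nat.mul_add_div hc, Nat.div_eq_of_lt hx, add_zero]
      rw [Finset.sum_congr rfl h1, Finset.sum_const, Finset.card_range, nsmul_eq_mul]
      ring
  intro o ho
  refine le_trans (hup o ho) ?_
  have h1 : c * (μ * (2 ^ (o / c) - 1)) ≤ ∑ i ∈ Finset.range o, δ i := by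
    rw [← hgeo (o / c)]
    calc ∑ i ∈ Finset.range (c * (o / c)), (μ * 2 ^ (i / c) : ℝ)
        ≤ ∑ i ∈ Finset.range (c * (o / c)), δ i := by
          apply Finset.sum_le_sum
          intro i hi
          rw [Finset.mem_range] at hi
          have : c * (o / c) ≤ o := Nat.mul_div_le o c
          exact hlow i (by omega)
      _ ≤ ∑ i ∈ Finset.range o, δ i := by
          apply Finset.sum_le_sum_of_subset_of_nonneg
          · apply Finset.range_subset_range.mpr
            exact Nat.mul_div_le o c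
          · intro i hi _
            rw [Finset.mem_range] at hi
            exact le_trans (by positivity) (hlow i (by omega))
  have h2 : C * (μ * (2 ^ (o / c) - 1)) ≤ c * (μ * (2 ^ (o / c) - 1)) := by
    apply mul_le_mul_of_nonneg_right hcC
    apply mul_nonneg hμ
    have : (1 : ℝ) ≤ 2 ^ (o / c) := one_le_pow₀ (by norm_num)
    linarith
  nlinarith

end Pool.Agent.Helper7.Nt
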