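import Pool.Agent.Helper7.NtDiff
import Pool.Agent.Helper7.NtChain

set_option autoImplicit false

namespace Pool.Agent.Helper7.Nt

/-- The gain of a unit shift. -/
noncomputable def Fl (x : ℝ) : ℝ := Real.log (x + 1) - Real.log x

theorem Fl_nonneg {x : ℝ} (hx : 0 < x) : 0 ≤ Fl x := by
  rw [Fl, sub_nonneg]
  exact Real.log_le_log hx (by linarith)

theorem Fl_le {x : ℝ} (hx : 0 < x) : Fl x ≤ 1 / x := by
  rw [Fl, ← Real.log_div (by positivity) (by positivity)]
  refine le_trans (Real.log_le_sub_one_of_pos (by positivity)) ?_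
  have : (x + 1) / x - 1 = 1 / x := by field_simp; ring
  rw [this]

theorem Fl_anti {x y : ℝ} (hx : 0 < x) (hxy : x ≤ y) : Fl y ≤ Fl x := by
  have hy : 0 < y := by linarith
  rw [Fl, Fl, ← Real.log_div (by positivity) (by positivity),
    ← Real.log_div (by positivity) (by positivity)]
  apply Real.log_le_log (by positivity)
  rw [div_le_div_iff₀ hy hx]
  nlinarith

theorem Dif_Fl (gs : List ℝ) (t : ℝ) : Dif Fl gs t = Dif (Fam 0) (gs ++ [1]) t := by
  rw [Dif_append_one]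
  congr 1
  funext x
  simp only [Fl, Fam]
  ring

theorem Dif_Fl_eq (gs : List ℝ) (hgs : ∀ g ∈ gs, 0 < g) {t : ℝ} (ht : 0 < t) :
    ∃ ξ, t ≤ ξ ∧ ξ ≤ t + gs.sum + 1 ∧
      Dif Fl gs t = gs.prod * ((gs.length.factorial : ℝ) / ξ ^ (gs.length + 1)) := by
  obtain ⟨ξ, h1, h2, h3⟩ := Dif_eq (gs ++ [1]) (by
    intro g hg
    rw [List.mem_append, List.mem_singleton] at hg
    rcases hg with h | h
    · exact hgs g h
    · rw [h]; norm_num) 0 ht
  refine ⟨ξ, h1, ?_, ?_⟩
  · rw [List.sum_append, List.sum_singleton] at h2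
    linarith
  · rw [Dif_Fl, h3, List.prod_append, List.prod_singleton, mul_one, List.length_append,
      List.length_singleton, Nat.zero_add]
    rfl

/-- The set of (relative) shifted positions of the option `o`. -/
def Pset (Q ν c : ℕ) (S : Finset ℕ) (o : ℕ) : Finset ℕ :=
  if o ∈ S then OnS (gaps Q ν (o / c)) else OffS (gaps Q ν (o / c))

/-- The set of shifted positions. -/
def Shift (Q ν c M M' : ℕ) (S : Finset ℕ) : Finset ℕ :=
  (Finset.range M').biUnion (fun o => (Pset Q ν c S o).image (fun q => o + M * q))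

/-- The shift function. -/
def ee (Q ν c M M' : ℕ) (S : Finset ℕ) (i : ℕ) : ℕ := if i ∈ Shift Q ν c M M' S then 1 else 0

theorem Pset_le (Q ν c : ℕ) (S : Finset ℕ) (o : ℕ) : ∀ q ∈ Pset Q ν c S o, q < 2 ^ (ν + Q) := by
  intro q hq
  have h1 : q ≤ (gaps Q ν (o / c)).sum := by
    rw [Pset] at hq
    split_ifs at hq
    · exact (mem_le_sum _).1 q hq
    · exact (mem_le_sum _).2 q hq
  have h2 := gaps_sum_lt Q ν (o / c)
  have h3 : 2 ^ (ν + min Q (o / c)) ≤ 2 ^ (ν + Q) :=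
    Nat.pow_le_pow_right (by norm_num) (by omega)
  omega

theorem Pset_card (Q ν c : ℕ) (S : Finset ℕ) (o : ℕ) : (Pset Q ν c S o).card ≤ 2 ^ ν := by
  have h := card_le (gaps Q ν (o / c))
  rw [gaps_length] at h
  rw [Pset]
  split_ifs
  · exact h.1
  · exact h.2

theorem Shift_subset {Q ν c M M' T : ℕ} (S : Finset ℕ) (hM : M' ≤ M)
    (hT : M * (2 ^ (ν + Q) + 1) ≤ T) : Shift Q ν c M M' S ⊆ Finset.range T := by
  intro i hi
  rw [Shift, Finset.mem_biUnion] at hi
  obtain ⟨o, ho, hi⟩ := hi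
  rw [Finset.mem_image] at hi
  obtain ⟨q, hq, rfl⟩ := hi
  rw [Finset.mem_range] at ho ⊢
  have h1 := Pset_le Q ν c S o q hq
  have h2 : M * q ≤ M * 2 ^ (ν + Q) := Nat.mul_le_mul_left _ h1.le
  rw [Nat.mul_add, Nat.mul_one] at hT
  omega

theorem Shift_card (Q ν c M M' : ℕ) (S : Finset ℕ) : (Shift Q ν c M M' S).card ≤ M' * 2 ^ ν := by
  rw [Shift]
  refine le_trans Finset.card_biUnion_le ?_
  refine le_trans (Finset.sum_le_card_nsmul _ _ (2 ^ ν) ?_) ?_
  · intro o _
    exact le_trans Finset.card_image_le (Pset_card Q ν c S o)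
  · rw [Finset.card_range, smul_eq_mul]

theorem Shift_sum {Q ν c M M' : ℕ} (S : Finset ℕ) (hM : M' ≤ M) (F : ℕ → ℝ) :
    ∑ i ∈ Shift Q ν c M M' S, F i =
      ∑ o ∈ Finset.range M', ∑ q ∈ Pset Q ν c S o, F (o + M * q) := by
  rw [Shift, Finset.sum_biUnion]
  · apply Finset.sum_congr rfl
    intro o ho
    rw [Finset.mem_range] at ho
    rw [Finset.sum_image]
    intro a _ b _ hab
    have h1 : M * a = M * b := by
      have h' : o + M * a = o + M * b := hab
      omega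
    exact Nat.eq_of_mul_eq_mul_left (by omega) h1
  · intro o ho o' ho' hne
    rw [Finset.mem_coe, Finset.mem_range] at ho ho'
    show Disjoint ((Pset Q ν c S o).image (fun q => o + M * q))
      ((Pset Q ν c S o').image (fun q => o' + M * q))
    rw [Finset.disjoint_left]
    intro i hi hi'
    rw [Finset.mem_image] at hi hi'
    obtain ⟨q, _, rfl⟩ := hi
    obtain ⟨q', _, h⟩ := hi'
    apply hne
    have h1 := congrArg (fun x => x % M) h
    simp only [Nat.add_mul_mod_self_left] at h1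
    rw [Nat.mod_eq_of_lt (by omega), Nat.mod_eq_of_lt (by omega)] at h1
    exact h1.symm

theorem ee_sum (Q ν c M M' T : ℕ) (S : Finset ℕ) :
    ∑ l ∈ Finset.range T, ee Q ν c M M' S l ≤ M' * 2 ^ ν := by
  have h1 : ∑ l ∈ Finset.range T, ee Q ν c M M' S l =
      ((Finset.range T).filter (fun l => l ∈ Shift Q ν c M M' S)).card := by
    rw [Finset.card_filter]
    rfl
  rw [h1]
  refine le_trans (Finset.card_le_card ?_) (Shift_card Q ν c M M' S)
  intro x hx
  exact (Finset.mem_filter.mp hx).2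

/-- The value of the configuration with no option switched on. -/
noncomputable def Voff (Q ν c M M' : ℕ) (w4 β : ℝ) : ℝ :=
  ∑ o ∈ Finset.range M', ∑ q ∈ OffS (gaps Q ν (o / c)), Fl (β + w4 * ((o + M * q : ℕ) : ℝ))

/-- The effect of option `o`. -/
noncomputable def dl (Q ν c M : ℕ) (w4 β : ℝ) (o : ℕ) : ℝ :=
  Dif Fl ((gaps Q ν (o / c)).map (fun g : ℕ => (w4 * M) * (g : ℝ))) (β + w4 * o)

theorem ee_log_sum (Q ν c M M' T A h : ℕ) (S : Finset ℕ) (hS : S ⊆ Finset.range M') (hM : M' ≤ M)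
    (hT : M * (2 ^ (ν + Q) + 1) ≤ T) :
    ∑ l ∈ Finset.range T, (Real.log ((A + 3 * h + 4 * h * l + ee Q ν c M M' S l : ℕ) : ℝ) -
        Real.log ((A + 3 * h + 4 * h * l : ℕ) : ℝ)) =
      Voff Q ν c M M' (4 * h) (A + 3 * h) + ∑ o ∈ S, dl Q ν c M (4 * h) (A + 3 * h) o := by
  have h1 : ∑ l ∈ Finset.range T, (Real.log ((A + 3 * h + 4 * h * l + ee Q ν c M M' S l : ℕ) : ℝ) -
        Real.log ((A + 3 * h + 4 * h * l : ℕ) : ℝ)) =
      ∑ l ∈ Shift Q ν c M M' S, Fl ((A + 3 * h : ℝ) + 4 * h * (l : ℝ)) := by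
    rw [← Finset.sum_subset (Shift_subset S hM hT)]
    · apply Finset.sum_congr rfl
      intro l hl
      rw [ee, if_pos hl, Fl]
      push_cast
      rfl
    · intro l _ hl
      rw [ee, if_neg hl]
      simp
  rw [h1, Shift_sum S hM (fun l => Fl ((A + 3 * h : ℝ) + 4 * h * (l : ℝ))), Voff]
  have h2 : ∑ o ∈ S, dl Q ν c M (4 * h) (A + 3 * h) o =
      ∑ o ∈ Finset.range M', if o ∈ S then dl Q ν c M (4 * h) (A + 3 * h) o else 0 := by
    rw [← Finset.sum_filter]
    congr 1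
    ext x
    rw [Finset.mem_filter]
    exact ⟨fun hx => ⟨hS hx, hx⟩, fun hx => hx.2⟩
  rw [h2, ← Finset.sum_add_distrib]
  apply Finset.sum_congr rfl
  intro o _
  have h3 := pattern_sum Fl ((4 * h : ℝ) * M) (gaps Q ν (o / c)) (gaps_supInc _ _ _)
    ((A + 3 * h : ℝ) + 4 * h * o)
  have h4 : ∀ q : ℕ, Fl ((A + 3 * h : ℝ) + 4 * h * ((o + M * q : ℕ) : ℝ)) =
      Fl ((A + 3 * h : ℝ) + 4 * h * o + (4 * h : ℝ) * M * q) := by
    intro q
    congr 1
    push_cast
    ring
  rw [Pset]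
  split_ifs with ho
  · simp_rw [h4]
    rw [dl, ← h3]
    ring
  · rw [add_zero]

/-! ### Bounds for the effects -/

theorem dl_bounds (Q ν c M : ℕ) (hM : 0 < M) (w4 β r : ℝ) (hw : 0 < w4) (hr : 0 < r)
    (hβ : r / 4 ≤ β) (o T : ℕ) (ho : o < c * (ν * Q + 1)) (hoM : o < M)
    (hT : M * (2 ^ (ν + Q) + 1) ≤ T) (hβT : β + w4 * T + 1 ≤ 2 * r) :
    ((w4 * M) ^ ν * 2 ^ (∑ i ∈ Finset.range ν, i) * ν.factorial / (2 * r) ^ (ν + 1)) * 2 ^ (o / c) ≤
        dl Q ν c M w4 β o ∧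
      dl Q ν c M w4 β o ≤ 8 ^ (ν + 1) *
        (((w4 * M) ^ ν * 2 ^ (∑ i ∈ Finset.range ν, i) * ν.factorial / (2 * r) ^ (ν + 1)) *
          2 ^ (o / c)) := by
  have hM' : (0 : ℝ) < M := by exact_mod_cast hM
  have hκ : o / c ≤ ν * Q := by
    have := Nat.div_lt_of_lt_mul ho
    omega
  set gs := (gaps Q ν (o / c)).map (fun g : ℕ => (w4 * M) * (g : ℝ)) with hgs
  have hlen : gs.length = ν := by rw [hgs, List.length_map, gaps_length]
  have hprod : ∀ l : List ℕ, (l.map (fun g : ℕ => (w4 * M) * (g : ℝ))).prod =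
      (w4 * M) ^ l.length * (l.prod : ℕ) := by
    intro l
    induction l with
    | nil => simp
    | cons g l ih =>
      rw [List.map_cons, List.prod_cons, ih, List.length_cons, List.prod_cons]
      push_cast
      ring
  have hsum : ∀ l : List ℕ, (l.map (fun g : ℕ => (w4 * M) * (g : ℝ))).sum =
      (w4 * M) * (l.sum : ℕ) := by
    intro l
    induction l with
    | nil => simp
    | cons g l ih =>
      rw [List.map_cons, List.sum_cons, ih, List.sum_cons]
      push_cast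
      ring
  have hβpos : 0 < β := by linarith
  have htpos : 0 < β + w4 * o := by positivity
  obtain ⟨ξ, h1, h2, h3⟩ := Dif_Fl_eq gs (by
    intro g hg
    rw [hgs, List.mem_map] at hg
    obtain ⟨g', hg', rfl⟩ := hg
    have : (0 : ℝ) < g' := by exact_mod_cast gaps_pos Q ν (o / c) g' hg'
    positivity) htpos
  have hξ1 : r / 4 ≤ ξ := by
    have : 0 ≤ w4 * o := by positivity
    linarith
  have hξ2 : ξ ≤ 2 * r := by
    refine le_trans h2 ?_
    rw [hgs, hsum]
    have h4 : (gaps Q ν (o / c)).sum ≤ 2 ^ (ν + Q) := by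
      have h5 := gaps_sum_lt Q ν (o / c)
      have h6 : 2 ^ (ν + min Q (o / c)) ≤ 2 ^ (ν + Q) :=
        Nat.pow_le_pow_right (by norm_num) (by omega)
      omega
    have h5 : o + M * (gaps Q ν (o / c)).sum ≤ T := by
      have h6 : M * (gaps Q ν (o / c)).sum ≤ M * 2 ^ (ν + Q) := Nat.mul_le_mul_left _ h4
      rw [Nat.mul_add, Nat.mul_one] at hT
      omega
    have h6 : (o : ℝ) + M * ((gaps Q ν (o / c)).sum : ℕ) ≤ T := by exact_mod_cast h5
    have h7 : w4 * (o + M * ((gaps Q ν (o / c)).sum : ℕ)) ≤ w4 * T :=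
      mul_le_mul_of_nonneg_left h6 hw.le
    have h8 : w4 * (o + M * ((gaps Q ν (o / c)).sum : ℕ)) =
        w4 * o + w4 * M * ((gaps Q ν (o / c)).sum : ℕ) := by ring
    linarith
  have hξpos : 0 < ξ := by linarith
  have hval : dl Q ν c M w4 β o = (w4 * M) ^ ν * 2 ^ (∑ i ∈ Finset.range ν, i) * ν.factorial *
      2 ^ (o / c) / ξ ^ (ν + 1) := by
    rw [dl, h3, hlen, hgs, hprod, gaps_length, gaps_prod Q ν (o / c) hκ]
    push_cast
    rw [pow_add]
    ring
  rw [hval]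
  constructor
  · rw [div_mul_eq_mul_div]
    apply div_le_div_of_nonneg_left (by positivity) (by positivity)
    exact pow_le_pow_left₀ hξpos.le hξ2 _
  · have h4 : (8 : ℝ) ^ (ν + 1) *
        (((w4 * M) ^ ν * 2 ^ (∑ i ∈ Finset.range ν, i) * ν.factorial / (2 * r) ^ (ν + 1)) *
          2 ^ (o / c)) = (w4 * M) ^ ν * 2 ^ (∑ i ∈ Finset.range ν, i) * ν.factorial *
      2 ^ (o / c) / (r / 4) ^ (ν + 1) := by
      have h5 : (r / 4) ^ (ν + 1) = (2 * r) ^ (ν + 1) / 8 ^ (ν + 1) := by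
        rw [← div_pow]
        congr 1
        ring
      rw [h5]
      field_simp
    rw [h4]
    apply div_le_div_of_nonneg_left (by positivity) (by positivity)
    exact pow_le_pow_left₀ (by positivity) hξ1 _

end Pool.Agent.Helper7.Nt
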