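import Pool.Agent.Helper7.NtMain

set_option autoImplicit false

namespace Pool.Agent.Helper7.Nt

theorem disc_ivt (Θ : ℕ → ℝ) (y K : ℝ) (a : ℕ) (h1 : Θ a ≤ y) :
    ∀ b, a ≤ b → y - K ≤ Θ b → (∀ i, a ≤ i → i < b → Θ (i + 1) ≤ Θ i + K) →
      ∃ i, a ≤ i ∧ i ≤ b ∧ Θ i ≤ y ∧ y - K ≤ Θ i := by
  intro b
  induction b with
  | zero =>
    intro hab h2 _
    obtain rfl : a = 0 := by omega
    exact ⟨0, le_rfl, le_rfl, h1, h2⟩
  | succ b ih =>
    intro hab h2 hstep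
    by_cases hc : Θ (b + 1) ≤ y
    · exact ⟨b + 1, hab, le_rfl, hc, h2⟩
    · push Not at hc
      have hab' : a ≤ b := by
        by_contra hcon
        have : a = b + 1 := by omega
        rw [this] at h1
        linarith
      have h3 := hstep b hab' (by omega)
      obtain ⟨i, hi1, hi2, hi3, hi4⟩ := ih hab' (by linarith) (fun i h h' => hstep i h (by omega))
      exact ⟨i, hi1, by omega, hi3, hi4⟩

theorem Voff_nonneg (Q ν c M M' : ℕ) (w4 β : ℝ) (hw : 0 ≤ w4) (hβ : 0 < β) :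
    0 ≤ Voff Q ν c M M' w4 β := by
  rw [Voff]
  apply Finset.sum_nonneg
  intro o _
  apply Finset.sum_nonneg
  intro q _
  apply Fl_nonneg
  have : 0 ≤ w4 * ((o + M * q : ℕ) : ℝ) := by positivity
  linarith

theorem Voff_anti (Q ν c M M' : ℕ) (w4 β β' : ℝ) (hw : 0 ≤ w4) (hβ : 0 < β) (h : β ≤ β') :
    Voff Q ν c M M' w4 β' ≤ Voff Q ν c M M' w4 β := by
  rw [Voff, Voff]
  apply Finset.sum_le_sum
  intro o _
  apply Finset.sum_le_sum
  intro q _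
  apply Fl_anti
  · have : 0 ≤ w4 * ((o + M * q : ℕ) : ℝ) := by positivity
    linarith
  · linarith

theorem Voff_le (Q ν c M M' : ℕ) (w4 β b0 : ℝ) (hw : 0 ≤ w4) (hb0 : 0 < b0) (h : b0 ≤ β) :
    Voff Q ν c M M' w4 β ≤ M' * 2 ^ ν / b0 := by
  rw [Voff]
  have h1 : ∀ o ∈ Finset.range M', ∑ q ∈ OffS (gaps Q ν (o / c)),
      Fl (β + w4 * ((o + M * q : ℕ) : ℝ)) ≤ 2 ^ ν / b0 := by
    intro o _
    have h2 : ∀ q ∈ OffS (gaps Q ν (o / c)), Fl (β + w4 * ((o + M * q : ℕ) : ℝ)) ≤ 1 / b0 := by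
      intro q _
      have h3 : 0 ≤ w4 * ((o + M * q : ℕ) : ℝ) := by positivity
      refine le_trans (Fl_le (by linarith)) ?_
      apply div_le_div_of_nonneg_left (by norm_num) hb0
      linarith
    refine le_trans (Finset.sum_le_card_nsmul _ _ _ h2) ?_
    have h4 := (card_le (gaps Q ν (o / c))).2
    rw [gaps_length] at h4
    have h5 : ((OffS (gaps Q ν (o / c))).card : ℝ) ≤ 2 ^ ν := by exact_mod_cast h4
    rw [nsmul_eq_mul, mul_one_div]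
    exact div_le_div_of_nonneg_right h5 hb0.le
  refine le_trans (Finset.sum_le_sum h1) ?_
  rw [Finset.sum_const, Finset.card_range, nsmul_eq_mul, mul_div_assoc]

theorem tiny_one {l h r : ℝ} (hh : 1 ≤ h) (hr : 256 * h ^ 2 ≤ r) (hL : r ≤ 4 * l) :
    8 * (3 * h) ^ 3 / l ^ 3 ≤ 1 / (2 * r) := by
  have hr0 : 0 < r := by nlinarith
  have hl : 0 < l := by linarith
  have hL6 : r ^ 3 ≤ 64 * l ^ 3 := by
    have := pow_le_pow_left₀ hr0.le hL 3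
    calc r ^ 3 ≤ (4 * l) ^ 3 := this
      _ = 64 * l ^ 3 := by ring
  rw [div_le_div_iff₀ (by positivity) (by positivity)]
  have h1 : 65536 * h ^ 4 ≤ r ^ 2 := by
    calc 65536 * h ^ 4 = (256 * h ^ 2) ^ 2 := by ring
      _ ≤ r ^ 2 := pow_le_pow_left₀ (by positivity) hr 2
  have h2 : h ^ 3 ≤ h ^ 4 := pow_le_pow_right₀ hh (by norm_num)
  have h3 : 27648 * h ^ 3 ≤ r ^ 2 := by
    have : 0 ≤ h ^ 4 := by positivity
    linarith
  have h4 : 27648 * h ^ 3 * r ≤ r ^ 2 * r := mul_le_mul_of_nonneg_right h3 hr0.le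
  have h5 : r ^ 2 * r = r ^ 3 := by ring
  have h6 : 8 * (3 * h) ^ 3 * (2 * r) = (27648 * h ^ 3 * r) / 64 := by ring
  rw [h6]
  linarith

theorem tiny_two {l h r T : ℝ} (hh : 1 ≤ h) (hr : 256 * h ^ 2 ≤ r) (hL : r ≤ 4 * l)
    (hT : 4 * h * T ≤ r) : T * (8 * h ^ 3 / l ^ 3) ≤ 1 / (2 * r) := by
  have hr0 : 0 < r := by nlinarith
  have hl : 0 < l := by linarith
  have hL6 : r ^ 3 ≤ 64 * l ^ 3 := by
    have := pow_le_pow_left₀ hr0.le hL 3
    calc r ^ 3 ≤ (4 * l) ^ 3 := this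
      _ = 64 * l ^ 3 := by ring
  rw [mul_div_assoc', div_le_div_iff₀ (by positivity) (by positivity)]
  have h1 : T * (8 * h ^ 3) * (2 * r) = 4 * (4 * h * T) * (h ^ 2 * r) := by ring
  rw [h1]
  have h2 : 4 * (4 * h * T) * (h ^ 2 * r) ≤ 4 * r * (h ^ 2 * r) := by
    apply mul_le_mul_of_nonneg_right _ (by positivity)
    linarith
  have h3 : 4 * r * (h ^ 2 * r) = (256 * h ^ 2 * r ^ 2) / 64 := by ring
  have h4 : 256 * h ^ 2 * r ^ 2 ≤ r * r ^ 2 :=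
    mul_le_mul_of_nonneg_right hr (by positivity)
  have h5 : r * r ^ 2 = r ^ 3 := by ring
  rw [h3] at h2
  linarith

/-- The defect of the alignment step. -/
theorem Gd_one {L h i : ℕ} {r : ℝ} (hh : 1 ≤ h) (hr : 256 * (h : ℝ) ^ 2 ≤ r)
    (hL : r ≤ 4 * (L : ℝ) ^ 2) (h6 : 6 * h ≤ L ^ 2) (hi0 : 0 < i) (hi : i ≤ 3 * h) :
    Gd (L ^ 2) i 0 ≤ 0 ∧ -(1 / (2 * r)) ≤ Gd (L ^ 2) i 0 := by
  have hhR : (1 : ℝ) ≤ h := by exact_mod_cast hh
  have hL0 : (0 : ℝ) < (L : ℝ) ^ 2 := by nlinarith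
  obtain ⟨h1, h2⟩ := Gd_bounds (L ^ 2) i 0 (by omega) hi0
  refine ⟨h1, le_trans ?_ h2⟩
  apply neg_le_neg
  refine le_trans ?_ (tiny_one hhR hr hL)
  push_cast
  apply div_le_div_of_nonneg_right _ (by positivity)
  apply mul_le_mul_of_nonneg_left _ (by norm_num)
  apply pow_le_pow_left₀ (by positivity)
  exact_mod_cast hi

/-- The total defect of the main segment. -/
theorem Gd_sum {L h T : ℕ} {r : ℝ} (hh : 1 ≤ h) (hr : 256 * (h : ℝ) ^ 2 ≤ r)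
    (hL : r ≤ 4 * (L : ℝ) ^ 2) (h6 : 6 * h ≤ L ^ 2) (hT : 4 * (h : ℝ) * T ≤ r) (i : ℕ) :
    ∑ l ∈ Finset.range T, Gd (L ^ 2 + 4 * i) h l ≤ 0 ∧
      -(1 / (2 * r)) ≤ ∑ l ∈ Finset.range T, Gd (L ^ 2 + 4 * i) h l ∧
      T * (8 * (h : ℝ) ^ 3 / (((L ^ 2 + 4 * i : ℕ)) : ℝ) ^ 3) ≤ 1 / (2 * r) := by
  have hhR : (1 : ℝ) ≤ h := by exact_mod_cast hh
  have hL0 : (0 : ℝ) < (L : ℝ) ^ 2 := by nlinarith
  have hT0 : (0 : ℝ) ≤ T := by positivity
  have h3 : T * (8 * (h : ℝ) ^ 3 / (((L ^ 2 + 4 * i : ℕ)) : ℝ) ^ 3) ≤ 1 / (2 * r) := by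
    refine le_trans ?_ (tiny_two hhR hr hL hT)
    apply mul_le_mul_of_nonneg_left _ hT0
    apply div_le_div_of_nonneg_left (by positivity) (by positivity)
    apply pow_le_pow_left₀ hL0.le
    push_cast
    have : (0 : ℝ) ≤ 4 * i := by positivity
    linarith
  have hiL : 2 * h ≤ L ^ 2 + 4 * i := by omega
  refine ⟨Finset.sum_nonpos (fun l _ => (Gd_bounds _ h l hiL (by omega)).1), ?_, h3⟩
  have h1 : ∑ l ∈ Finset.range T, (-(8 * (h : ℝ) ^ 3 / (((L ^ 2 + 4 * i : ℕ)) : ℝ) ^ 3)) ≤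
      ∑ l ∈ Finset.range T, Gd (L ^ 2 + 4 * i) h l :=
    Finset.sum_le_sum (fun l _ => (Gd_bounds _ h l hiL (by omega)).2)
  rw [Finset.sum_const, Finset.card_range, nsmul_eq_mul, mul_neg] at h1
  linarith

/-- The value (twice the logarithm) of the configuration without options. -/
noncomputable def Th (Q ν c M M' L h T i : ℕ) : ℝ :=
  Gd (L ^ 2) i 0 + Real.log ((L ^ 2 + 4 * i + 4 * h * T : ℕ) : ℝ) +
    ∑ l ∈ Finset.range T, Gd (L ^ 2 + 4 * i) h l +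
    2 * Voff Q ν c M M' (4 * h) (((L ^ 2 + 4 * i : ℕ) : ℝ) + 3 * h)

theorem beta_pos {L h : ℕ} {r : ℝ} (hL : r ≤ 4 * (L : ℝ) ^ 2) (i : ℕ) :
    r / 4 ≤ ((L ^ 2 + 4 * i : ℕ) : ℝ) + 3 * h := by
  push_cast
  have h1 : (0 : ℝ) ≤ 4 * i := by positivity
  have h2 : (0 : ℝ) ≤ 3 * h := by positivity
  linarith

theorem Voff_small {Q ν c M M' L h : ℕ} {r : ℝ} (hr0 : 0 < r) (hL : r ≤ 4 * (L : ℝ) ^ 2)
    (hS : (M' : ℝ) * 2 ^ ν ≤ h / 64) (i : ℕ) :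
    2 * Voff Q ν c M M' (4 * h) (((L ^ 2 + 4 * i : ℕ) : ℝ) + 3 * h) ≤ h / (8 * r) := by
  have hw : (0 : ℝ) ≤ 4 * h := by positivity
  have h1 := Voff_le Q ν c M M' (4 * h) (((L ^ 2 + 4 * i : ℕ) : ℝ) + 3 * h) (r / 4) hw
    (by positivity) (beta_pos hL i)
  have h2 : (M' : ℝ) * 2 ^ ν / (r / 4) ≤ (h / 64) / (r / 4) :=
    div_le_div_of_nonneg_right hS (by positivity)
  have h3 : (h : ℝ) / 64 / (r / 4) = h / (16 * r) := by
    field_simp
    ring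
  have h4 : (h : ℝ) / (8 * r) = 2 * (h / (16 * r)) := by
    field_simp
    ring
  rw [h4]
  linarith

theorem Voff_pos {Q ν c M M' L h : ℕ} {r : ℝ} (hr0 : 0 < r) (hL : r ≤ 4 * (L : ℝ) ^ 2) (i : ℕ) :
    0 ≤ Voff Q ν c M M' (4 * h) (((L ^ 2 + 4 * i : ℕ) : ℝ) + 3 * h) :=
  Voff_nonneg Q ν c M M' _ _ (by positivity) (lt_of_lt_of_le (by positivity) (beta_pos hL i))

theorem Th_low {Q ν c M M' L h T : ℕ} {r : ℝ} (hh : 1 ≤ h) (hr : 256 * (h : ℝ) ^ 2 ≤ r)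
    (hL : r ≤ 4 * (L : ℝ) ^ 2) (h6 : 6 * h ≤ L ^ 2) (hT : 4 * (h : ℝ) * T ≤ r)
    (hS : (M' : ℝ) * 2 ^ ν ≤ h / 64) (hT1 : (L : ℝ) ^ 2 + 8 * h + 4 * h * T ≤ r) :
    Th Q ν c M M' L h T h ≤ Real.log r := by
  have hhR : (1 : ℝ) ≤ h := by exact_mod_cast hh
  have hr0 : 0 < r := by nlinarith
  have h1 := (Gd_one hh hr hL h6 (by omega : 0 < h) (by omega : h ≤ 3 * h)).1
  have h2 := (Gd_sum (T := T) hh hr hL h6 hT h).1
  have h3 := Voff_small (Q := Q) (ν := ν) (c := c) (M := M) hr0 hL hS h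
  have h4 : Real.log ((L ^ 2 + 4 * h + 4 * h * T : ℕ) : ℝ) ≤ Real.log r - 4 * h / r := by
    have h5 : ((L ^ 2 + 4 * h + 4 * h * T : ℕ) : ℝ) ≤ r * (1 - 4 * h / r) := by
      push_cast
      have : r * (1 - 4 * h / r) = r - 4 * h := by field_simp
      rw [this]
      linarith
    have h6 : 0 < 1 - 4 * (h : ℝ) / r := by
      rw [sub_pos, div_lt_one hr0]
      nlinarith
    have h7 : (0 : ℝ) < ((L ^ 2 + 4 * h + 4 * h * T : ℕ) : ℝ) := by
      exact_mod_cast (by omega : 0 < L ^ 2 + 4 * h + 4 * h * T)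
    refine le_trans (Real.log_le_log h7 h5) ?_
    rw [Real.log_mul hr0.ne' h6.ne']
    have h8 := Real.log_le_sub_one_of_pos h6
    linarith
  have h5 : (h : ℝ) / (8 * r) ≤ 4 * h / r := by
    rw [div_le_div_iff₀ (by positivity) hr0]
    have : 0 ≤ (h : ℝ) * r := by positivity
    linarith
  rw [Th]
  linarith

theorem Th_high {Q ν c M M' L h T : ℕ} {r : ℝ} (hh : 1 ≤ h) (hr : 256 * (h : ℝ) ^ 2 ≤ r)
    (hL : r ≤ 4 * (L : ℝ) ^ 2) (h6 : 6 * h ≤ L ^ 2) (hT : 4 * (h : ℝ) * T ≤ r)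
    (hT2 : r < (L : ℝ) ^ 2 + 12 * h + 4 * h * T) :
    Real.log r - 18 / r ≤ Th Q ν c M M' L h T (3 * h) := by
  have hhR : (1 : ℝ) ≤ h := by exact_mod_cast hh
  have hr0 : 0 < r := by nlinarith
  have h1 := (Gd_one hh hr hL h6 (by omega : 0 < 3 * h) le_rfl).2
  have h2 := (Gd_sum (T := T) hh hr hL h6 hT (3 * h)).2.1
  have h3 := Voff_pos (Q := Q) (ν := ν) (c := c) (M := M) (M' := M') (h := h) hr0 hL (3 * h)
  have h4 : Real.log r ≤ Real.log ((L ^ 2 + 4 * (3 * h) + 4 * h * T : ℕ) : ℝ) := by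
    apply Real.log_le_log hr0
    push_cast
    linarith
  have h5 : 1 / (2 * r) + 1 / (2 * r) ≤ 18 / r := by
    have : 1 / (2 * r) + 1 / (2 * r) = 1 / r := by field_simp; norm_num
    rw [this]
    apply div_le_div_of_nonneg_right _ hr0.le
    norm_num
  rw [Th]
  linarith

theorem Th_step {Q ν c M M' L h T : ℕ} {r : ℝ} (hh : 1 ≤ h) (hr : 256 * (h : ℝ) ^ 2 ≤ r)
    (hL : r ≤ 4 * (L : ℝ) ^ 2) (h6 : 6 * h ≤ L ^ 2) (hT : 4 * (h : ℝ) * T ≤ r)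
    (i : ℕ) (hi1 : h ≤ i) (hi2 : i < 3 * h) :
    Th Q ν c M M' L h T (i + 1) ≤ Th Q ν c M M' L h T i + 18 / r := by
  have hhR : (1 : ℝ) ≤ h := by exact_mod_cast hh
  have hr0 : 0 < r := by nlinarith
  have h1 := (Gd_one hh hr hL h6 (by omega : 0 < i + 1) (by omega : i + 1 ≤ 3 * h)).1
  have h2 := (Gd_one hh hr hL h6 (by omega : 0 < i) (by omega : i ≤ 3 * h)).2
  have h3 := (Gd_sum (T := T) hh hr hL h6 hT (i + 1)).1
  have h4 := (Gd_sum (T := T) hh hr hL h6 hT i).2.1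
  have h5 : Voff Q ν c M M' (4 * h) (((L ^ 2 + 4 * (i + 1) : ℕ) : ℝ) + 3 * h) ≤
      Voff Q ν c M M' (4 * h) (((L ^ 2 + 4 * i : ℕ) : ℝ) + 3 * h) := by
    apply Voff_anti _ _ _ _ _ _ _ _ (by positivity) (lt_of_lt_of_le (by positivity) (beta_pos hL i))
    push_cast
    linarith
  have h6' : Real.log ((L ^ 2 + 4 * (i + 1) + 4 * h * T : ℕ) : ℝ) ≤
      Real.log ((L ^ 2 + 4 * i + 4 * h * T : ℕ) : ℝ) + 16 / r := by
    have ha : (0 : ℝ) < ((L ^ 2 + 4 * i + 4 * h * T : ℕ) : ℝ) := by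
      exact_mod_cast (by omega : 0 < L ^ 2 + 4 * i + 4 * h * T)
    have haL : r / 4 ≤ ((L ^ 2 + 4 * i + 4 * h * T : ℕ) : ℝ) := by
      push_cast
      have : (0 : ℝ) ≤ 4 * i + 4 * h * T := by positivity
      linarith
    have hsucc : ((L ^ 2 + 4 * (i + 1) + 4 * h * T : ℕ) : ℝ) =
        ((L ^ 2 + 4 * i + 4 * h * T : ℕ) : ℝ) + 4 := by
      push_cast
      ring
    rw [hsucc]
    generalize ((L ^ 2 + 4 * i + 4 * h * T : ℕ) : ℝ) = a at ha haL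
    have h7 : a + 4 = a * (1 + 4 / a) := by field_simp
    rw [h7, Real.log_mul ha.ne' (by positivity)]
    have h8 : Real.log (1 + 4 / a) ≤ 4 / a := by
      have := Real.log_le_sub_one_of_pos (by positivity : (0 : ℝ) < 1 + 4 / a)
      linarith
    have h9 : 4 / a ≤ 16 / r := by
      rw [div_le_div_iff₀ ha hr0]
      linarith
    linarith
  have h7 : 18 / r = 16 / r + 2 / r := by ring
  have h8 : 1 / (2 * r) + 1 / (2 * r) ≤ 2 / r := by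
    have : 1 / (2 * r) + 1 / (2 * r) = 1 / r := by field_simp; norm_num
    rw [this]
    apply div_le_div_of_nonneg_right _ hr0.le
    norm_num
  rw [Th, Th]
  linarith

/-- The chain for a given alignment parameter and a given set of options. -/
theorem chain_of {Q ν c M M' L h T : ℕ} {r : ℝ} (hL3 : 3 ≤ L) (hh : 64 ≤ h)
    (hr : 256 * (h : ℝ) ^ 2 ≤ r)
    (hL1 : 2 * (L : ℝ) ^ 2 ≤ r)
    (hL : r ≤ 4 * (L : ℝ) ^ 2) (h6 : 6 * h ≤ L ^ 2) (hT : 4 * (h : ℝ) * T ≤ r)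
    (hS : (M' : ℝ) * 2 ^ ν ≤ h / 64) (hT1 : (L : ℝ) ^ 2 + 8 * h + 4 * h * T ≤ r)
    (hM' : M' ≤ M) (hQT : M * (2 ^ (ν + Q) + 1) ≤ T)
    (i : ℕ) (hi1 : h ≤ i) (hi2 : i ≤ 3 * h) (S : Finset ℕ) (hSub : S ⊆ Finset.range M') :
    ∃ x, Chain x ∧ 2 * Real.log x = Th Q ν c M M' L h T i +
      2 * ∑ o ∈ S, dl Q ν c M (4 * h) (((L ^ 2 + 4 * i : ℕ) : ℝ) + 3 * h) o := by
  have hhR : (64 : ℝ) ≤ h := by exact_mod_cast hh
  have hh1 : (1 : ℝ) ≤ h := by linarith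
  have hr0 : 0 < r := by nlinarith
  have hr256 : 256 * (h : ℝ) ≤ r := by nlinarith
  have hL0 : (0 : ℝ) < (L : ℝ) ^ 2 := by linarith
  have hiL : 2 * i ≤ L ^ 2 := by omega
  have hiR : (i : ℝ) ≤ 3 * h := by exact_mod_cast hi2
  have hLpos : (0 : ℝ) < L := by exact_mod_cast (by omega : 0 < L)
  have hG := Gd_one (by omega : 1 ≤ h) hr hL h6 (by omega : 0 < i) hi2
  have hG2 := Gd_sum (T := T) (by omega : 1 ≤ h) hr hL h6 hT i
  have hch0 : Chain (L : ℝ) := by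
    have := Chain.step L Chain.one (by
      rw [one_pow]
      exact_mod_cast (by omega : 1 < L))
    rwa [div_one] at this
  have hlogL : 2 * Real.log L - Real.log ((L ^ 2 : ℕ) : ℝ) = 0 := by
    push_cast
    rw [Real.log_pow]
    push_cast
    ring
  have hch1 : Chain (xs (L ^ 2) i (fun _ => 0) L 1) := by
    apply segment (L ^ 2) i 1 (by omega) hiL (fun _ => 0) L hch0 0 (2 * r) 0
    · push_cast
      linarith
    · simp
    · have : (0 : ℝ) < i := by exact_mod_cast (by omega : 0 < i)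
      simp only [mul_zero, zero_mul]
      positivity
    · have h1 : (i : ℝ) ^ 3 ≤ (3 * h : ℝ) ^ 3 := pow_le_pow_left₀ (by positivity) hiR 3
      have h2 : 8 * (i : ℝ) ^ 3 / ((L : ℝ) ^ 2) ^ 3 ≤ 1 / (2 * r) := by
        refine le_trans ?_ (tiny_one hh1 hr hL)
        apply div_le_div_of_nonneg_right _ (by positivity)
        linarith
      have h3 : 2 * (0 + ((1 : ℕ) : ℝ) * (8 * (i : ℝ) ^ 3 / (((L ^ 2 : ℕ)) : ℝ) ^ 3)) * (2 * r) ≤
          2 := by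
        push_cast
        have h4 : 2 * (0 + 1 * (8 * (i : ℝ) ^ 3 / ((L : ℝ) ^ 2) ^ 3)) * (2 * r) =
            4 * r * (8 * (i : ℝ) ^ 3 / ((L : ℝ) ^ 2) ^ 3) := by ring
        rw [h4]
        calc 4 * r * (8 * (i : ℝ) ^ 3 / ((L : ℝ) ^ 2) ^ 3) ≤ 4 * r * (1 / (2 * r)) :=
              mul_le_mul_of_nonneg_left h2 (by positivity)
          _ = 2 := by field_simp; norm_num
      have h5 : (64 : ℝ) ≤ i := by exact_mod_cast (by omega : 64 ≤ i)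
      linarith
    · rw [hlogL]
    · rw [hlogL]
      simp
  have hlog1 : 2 * Real.log (xs (L ^ 2) i (fun _ => 0) L 1) -
      Real.log ((L ^ 2 + 4 * i : ℕ) : ℝ) = Gd (L ^ 2) i 0 := by
    have h1 := xs_log (L ^ 2) i (by omega) (by positivity) (fun _ => 0) L hLpos 1
    rw [hlogL] at h1
    simp only [Finset.sum_range_one, add_zero, sub_self, mul_zero, mul_one, zero_add] at h1
    rw [h1]
    ring
  generalize xs (L ^ 2) i (fun _ => 0) L 1 = x1 at hch1 hlog1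
  have hx1pos : 0 < x1 := by linarith [hch1.one_le]
  have hA1 : ((L ^ 2 + 4 * i : ℕ) : ℝ) = (L : ℝ) ^ 2 + 4 * i := by push_cast; ring
  have hch2 : Chain (xs (L ^ 2 + 4 * i) h (ee Q ν c M M' S) x1 T) := by
    apply segment (L ^ 2 + 4 * i) h T (by omega) (by omega) (ee Q ν c M M' S) x1 hch1
      (h / 64) (2 * r) (1 / (2 * r))
    · push_cast
      linarith
    · refine le_trans ?_ hS
      exact_mod_cast ee_sum Q ν c M M' T S
    · rw [hA1]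
      have h3 : (h : ℝ) * (r / 4) ≤ h * ((L : ℝ) ^ 2 + 4 * i) := by
        apply mul_le_mul_of_nonneg_left _ (by linarith)
        have : (0 : ℝ) ≤ 4 * i := by positivity
        linarith
      have h4 : 0 < (h : ℝ) * r := by positivity
      linarith
    · have h2 : 2 * (1 / (2 * r) + 1 / (2 * r)) * (2 * r) = 4 := by
        field_simp
        norm_num
      have h3 : 2 * (1 / (2 * r) + T * (8 * (h : ℝ) ^ 3 /
          (((L ^ 2 + 4 * i : ℕ)) : ℝ) ^ 3)) * (2 * r) ≤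
          2 * (1 / (2 * r) + 1 / (2 * r)) * (2 * r) := by
        apply mul_le_mul_of_nonneg_right _ (by positivity)
        linarith [hG2.2.2]
      linarith
    · rw [hlog1]
      exact hG.1
    · rw [hlog1]
      exact hG.2
  refine ⟨_, hch2, ?_⟩
  have hlog2 := xs_log (L ^ 2 + 4 * i) h (by omega) (by omega) (ee Q ν c M M' S) x1 hx1pos T
  rw [hlog1, ee_log_sum Q ν c M M' T (L ^ 2 + 4 * i) h S hSub hM' hQT] at hlog2
  rw [hlog2, Th]
  ring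

/-- Existence of chain values extremely close to `√r`, under explicit conditions on auxiliary
parameters. -/
theorem near (ν r L c M h T Q : ℕ)
    (hL3 : 3 ≤ L) (hL1 : 2 * L ^ 2 ≤ r) (hL2 : r ≤ 4 * L ^ 2)
    (hM : 1 ≤ M) (hM' : c * (ν * Q + 1) ≤ M) (hc : 8 ^ (ν + 1) ≤ c)
    (hh : h = 64 * (M * 2 ^ ν)) (hr : 256 * h ^ 2 ≤ r)
    (hT1 : L ^ 2 + 8 * h + 4 * h * T ≤ r) (hT2 : r < L ^ 2 + 12 * h + 4 * h * T)
    (hQT : M * (2 ^ (ν + Q) + 1) ≤ T) (μ : ℝ)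
    (hμ : μ = (4 * h * M : ℝ) ^ ν * 2 ^ (∑ i ∈ Finset.range ν, i) * ν.factorial /
      (2 * r) ^ (ν + 1))
    (hcap : 9 / (r : ℝ) ≤ c * (μ * 2 ^ (ν * Q))) :
    ∃ x, Chain x ∧ Real.log r - 2 * (8 ^ (ν + 1) * μ) ≤ 2 * Real.log x ∧
      2 * Real.log x ≤ Real.log r := by
  have hh64 : 64 ≤ h := by
    rw [hh]
    have : 1 ≤ M * 2 ^ ν := Nat.one_le_iff_ne_zero.mpr (by positivity)
    omega
  have hhR : (1 : ℝ) ≤ h := by exact_mod_cast (by omega : 1 ≤ h)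
  have hrR : 256 * (h : ℝ) ^ 2 ≤ r := by exact_mod_cast hr
  have hr256 : (256 : ℝ) * h ≤ r := by nlinarith
  have hr0 : (0 : ℝ) < r := by linarith
  have hL2R : (r : ℝ) ≤ 4 * (L : ℝ) ^ 2 := by exact_mod_cast hL2
  have hL1R : 2 * (L : ℝ) ^ 2 ≤ r := by exact_mod_cast hL1
  have hT1R : (L : ℝ) ^ 2 + 8 * h + 4 * h * T ≤ r := by exact_mod_cast hT1
  have hT2R : (r : ℝ) < (L : ℝ) ^ 2 + 12 * h + 4 * h * T := by exact_mod_cast hT2
  have hcpos : 0 < c := lt_of_lt_of_le (by positivity) hc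
  have h6 : 6 * h ≤ L ^ 2 := by
    have h1 : 256 * h ≤ r := by exact_mod_cast hr256
    omega
  have hth : 4 * (h : ℝ) * T ≤ r := by
    have h1 : (0 : ℝ) ≤ (L : ℝ) ^ 2 := by positivity
    linarith
  have hSR : ((c * (ν * Q + 1) : ℕ) : ℝ) * 2 ^ ν ≤ h / 64 := by
    rw [hh]
    have h1 : ((c * (ν * Q + 1) : ℕ) : ℝ) ≤ M := by exact_mod_cast hM'
    have h2 : ((c * (ν * Q + 1) : ℕ) : ℝ) * 2 ^ ν ≤ M * 2 ^ ν :=
      mul_le_mul_of_nonneg_right h1 (by positivity)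
    refine le_trans h2 (le_of_eq ?_)
    push_cast
    ring
  obtain ⟨i, hi1, hi2, hi3, hi4⟩ := disc_ivt (Th Q ν c M (c * (ν * Q + 1)) L h T) (Real.log r)
    (18 / r) h (Th_low (by omega) hrR hL2R h6 hth hSR hT1R) (3 * h) (by omega)
    (Th_high (by omega) hrR hL2R h6 hth hT2R)
    (Th_step (by omega) hrR hL2R h6 hth)
  -- the effects
  have hβT : (((L ^ 2 + 4 * i : ℕ) : ℝ) + 3 * h) + 4 * h * T + 1 ≤ 2 * r := by
    have hiR : (i : ℝ) ≤ 3 * h := by exact_mod_cast hi2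
    push_cast
    linarith
  have hdl : ∀ o < c * (ν * Q + 1), μ * 2 ^ (o / c) ≤
        dl Q ν c M (4 * h) (((L ^ 2 + 4 * i : ℕ) : ℝ) + 3 * h) o ∧
      dl Q ν c M (4 * h) (((L ^ 2 + 4 * i : ℕ) : ℝ) + 3 * h) o ≤
        8 ^ (ν + 1) * (μ * 2 ^ (o / c)) := by
    intro o ho
    rw [hμ]
    exact dl_bounds Q ν c M (by omega) (4 * h) _ r (by positivity) hr0 (beta_pos hL2R i) o T ho
      (by omega) hQT hβT
  have hμ0 : 0 ≤ μ := by
    rw [hμ]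
    positivity
  generalize hδ : dl Q ν c M (4 * h) (((L ^ 2 + 4 * i : ℕ) : ℝ) + 3 * h) = δ at hdl
  have hcc := class_cond δ c hcpos μ (8 ^ (ν + 1)) hμ0
    (by exact_mod_cast hc) (c * (ν * Q + 1)) (fun o ho => (hdl o ho).1) (fun o ho => (hdl o ho).2)
  have htotal : 9 / (r : ℝ) ≤ ∑ o ∈ Finset.range (c * (ν * Q + 1)), δ o := by
    refine le_trans hcap ?_
    rw [Nat.mul_add, Nat.mul_one, Finset.sum_range_add]
    have h2 : 0 ≤ ∑ o ∈ Finset.range (c * (ν * Q)), δ o := by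
      apply Finset.sum_nonneg
      intro o ho
      rw [Finset.mem_range] at ho
      refine le_trans (by positivity) (hdl o ?_).1
      rw [Nat.mul_add]
      omega
    have h3 : (c : ℝ) * (μ * 2 ^ (ν * Q)) ≤ ∑ x ∈ Finset.range c, δ (c * (ν * Q) + x) := by
      have h4 : ∀ x ∈ Finset.range c, μ * 2 ^ (ν * Q) ≤ δ (c * (ν * Q) + x) := by
        intro x hx
        rw [Finset.mem_range] at hx
        have h5 := (hdl (c * (ν * Q) + x) (by rw [Nat.mul_add]; omega)).1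
        rwa [Nat.mul_add_div hcpos, Nat.div_eq_of_lt hx, add_zero] at h5
      have := Finset.card_nsmul_le_sum _ _ _ h4
      rwa [Finset.card_range, nsmul_eq_mul] at this
    linarith
  have hε : 0 ≤ 8 ^ (ν + 1) * μ := by positivity
  obtain ⟨S, hS, hS1, hS2⟩ := greedy δ (8 ^ (ν + 1) * μ) (c * (ν * Q + 1)) hcc
    ((Real.log r - Th Q ν c M (c * (ν * Q + 1)) L h T i) / 2) (by linarith) (by
      have h1 : (18 : ℝ) / r = 2 * (9 / r) := by ring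
      rw [h1] at hi4
      linarith)
  obtain ⟨x, hx, hxlog⟩ := chain_of (c := c) hL3 hh64 hrR hL1R hL2R h6 hth hSR hT1R hM' hQT i hi1
    hi2 S hS
  rw [hδ] at hxlog
  refine ⟨x, hx, ?_, ?_⟩
  · rw [hxlog]
    linarith
  · rw [hxlog]
    linarith

end Pool.Agent.Helper7.Nt
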