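import Pool.Agent.Helper7.FatDefs

set_option autoImplicit false

open MvPolynomial

namespace Pool.Agent.Helper7.Shell

noncomputable section

variable {R : Type*} [CommRing R]

theorem expo_zero {r m : ℕ} (c : Idx r m) : expo c 0 = c.2 := by
  simp [expo]

theorem expo_one {r m : ℕ} (c : Idx r m) : expo c 1 = c.1 := by
  simp [expo]

theorem expo_injective {r m : ℕ} : Function.Injective (expo (r := r) (m := m)) := by
  intro c c' h
  have h0 := DFunLike.congr_fun h 0
  have h1 := DFunLike.congr_fun h 1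
  rw [expo_zero, expo_zero] at h0
  rw [expo_one, expo_one] at h1
  obtain ⟨j, i⟩ := c
  obtain ⟨j', i'⟩ := c'
  simp only at h0 h1
  obtain rfl := Fin.ext h1
  obtain rfl := Fin.ext h0
  rfl

theorem expo_lt {r m : ℕ} (c : Idx r m) : expo c 0 + r * expo c 1 < r * m := by
  rw [expo_zero, expo_one]
  obtain ⟨j, i⟩ := c
  have h1 := i.2
  have h2 := j.2
  simp only at h1 ⊢
  have h3 : r * m = r * (m - j) + r * j := by
    rw [← Nat.mul_add]
    congr 1
    omega
  omega

theorem exists_expo {r m : ℕ} {s : Fin 2 →₀ ℕ} (h : s 0 + r * s 1 < r * m) :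
    ∃ c : Idx r m, expo c = s := by
  have h1 : s 1 < m := by
    by_contra hc
    have : r * m ≤ r * s 1 := Nat.mul_le_mul_left _ (by omega)
    omega
  have h3 : r * m = r * (m - s 1) + r * s 1 := by
    rw [← Nat.mul_add]
    congr 1
    omega
  refine ⟨⟨⟨s 1, h1⟩, ⟨s 0, ?_⟩⟩, ?_⟩
  · show s 0 < r * (m - s 1)
    omega
  · ext e
    fin_cases e
    · exact expo_zero _
    · exact expo_one _

/-- The ideal of polynomials all of whose monomials `x^i y^j` satisfy `r m ≤ i + r j`. -/
def Jw (R : Type*) [CommRing R] (r m : ℕ) : Ideal (MvPolynomial (Fin 2) R) where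
  carrier := {G | ∀ s : Fin 2 →₀ ℕ, s 0 + r * s 1 < r * m → G.coeff s = 0}
  add_mem' := by
    intro G H hG hH s hs
    rw [coeff_add, hG s hs, hH s hs, add_zero]
  zero_mem' := by
    intro s _
    exact coeff_zero _
  smul_mem' := by
    intro c G hG s hs
    rw [smul_eq_mul, coeff_mul]
    apply Finset.sum_eq_zero
    intro p hp
    have hp2 : p.1 + p.2 = s := Finset.HasAntidiagonal.mem_antidiagonal.mp hp
    have h0 : p.2 0 ≤ s 0 := by
      rw [← hp2, Finsupp.add_apply]
      omega
    have h1 : r * p.2 1 ≤ r * s 1 := by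
      apply Nat.mul_le_mul_left
      rw [← hp2, Finsupp.add_apply]
      omega
    rw [hG p.2 (by omega), mul_zero]

theorem mem_Jw {r m : ℕ} {G : MvPolynomial (Fin 2) R} :
    G ∈ Jw R r m ↔ ∀ s : Fin 2 →₀ ℕ, s 0 + r * s 1 < r * m → G.coeff s = 0 := Iff.rfl

theorem ideal_pow_succ {A : Type*} [CommRing A] (I : Ideal A) (m : ℕ) :
    I ^ (m + 1) = I ^ m * I := pow_succ I m

theorem ideal_pow_add {A : Type*} [CommRing A] (I : Ideal A) (m n : ℕ) :
    I ^ (m + n) = I ^ m * I ^ n := pow_add I m n

theorem zIdeal_eq (r m : ℕ) : zIdeal R r m = Jw R r m := by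
  apply le_antisymm
  · rw [zIdeal]
    induction m with
    | zero =>
      intro G _ s hs
      omega
    | succ m ih =>
      rw [ideal_pow_succ]
      refine le_trans (Ideal.mul_mono_left ih) ?_
      rw [Ideal.mul_le]
      intro G hG H hH
      rw [Ideal.mem_span_pair] at hH
      obtain ⟨a, c, rfl⟩ := hH
      rw [mul_add]
      apply Ideal.add_mem
      · have h1 : G * (a * X 1) = a * (X 1 * G) := by ring
        rw [h1]
        apply Ideal.mul_mem_left
        intro s hs
        rw [coeff_X_mul']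
        split_ifs with h
        · apply hG
          rw [Finsupp.mem_support_iff] at h
          have h2 : s 1 = (s 1 - 1) + 1 := by omega
          rw [h2, mul_add, mul_add] at hs
          simp only [Finsupp.coe_tsub, Pi.sub_apply, Finsupp.single_eq_same]
          have h3 : (Finsupp.single (1 : Fin 2) 1) 0 = 0 := by simp
          rw [h3]
          omega
        · rfl
      · have h1 : G * (c * X 0 ^ r) = c * (monomial (Finsupp.single 0 r) 1 * G) := by
          rw [X_pow_eq_monomial]
          ring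
        rw [h1]
        apply Ideal.mul_mem_left
        intro s hs
        rw [coeff_monomial_mul']
        split_ifs with h
        · rw [one_mul]
          apply hG
          rw [Finsupp.single_le_iff] at h
          simp only [Finsupp.coe_tsub, Pi.sub_apply, Finsupp.single_eq_same]
          have h3 : (Finsupp.single (0 : Fin 2) r) 1 = 0 := by simp
          rw [h3, Nat.sub_zero]
          rw [mul_add] at hs
          omega
        · rfl
  · intro G hG
    rw [G.as_sum]
    apply Ideal.sum_mem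
    intro s hs
    rw [mem_support_iff] at hs
    have hw : r * m ≤ s 0 + r * s 1 := by
      by_contra hc
      exact hs (hG s (by omega))
    have h1 : monomial s (coeff s G) = C (coeff s G) * (X 0 ^ (s 0) * X 1 ^ (s 1)) := by
      rw [monomial_eq, Finsupp.prod_fintype _ _ (by simp), Fin.prod_univ_two]
    rw [h1]
    apply Ideal.mul_mem_left
    rw [zIdeal]
    have hX : (X 1 : MvPolynomial (Fin 2) R) ∈ Ideal.span {X 1, X 0 ^ r} :=
      Ideal.subset_span (by simp)
    have hC : (X 0 ^ r : MvPolynomial (Fin 2) R) ∈ Ideal.span {X 1, X 0 ^ r} :=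
      Ideal.subset_span (by simp)
    by_cases hb : s 1 ≤ m
    · have h3 : r * (m - s 1) ≤ s 0 := by
        rw [Nat.mul_sub]
        omega
      have h4 : (X 0 : MvPolynomial (Fin 2) R) ^ s 0 * X 1 ^ s 1 =
          X 0 ^ (s 0 - r * (m - s 1)) * ((X 0 ^ r) ^ (m - s 1) * X 1 ^ s 1) := by
        rw [← mul_assoc, ← pow_mul, ← pow_add]
        congr 2
        omega
      rw [h4]
      apply Ideal.mul_mem_left
      have h2 := ideal_pow_add (Ideal.span {(X 1 : MvPolynomial (Fin 2) R), X 0 ^ r})
        (m - s 1) (s 1)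
      rw [Nat.sub_add_cancel hb] at h2
      rw [h2]
      exact Ideal.mul_mem_mul (Ideal.pow_mem_pow hC _) (Ideal.pow_mem_pow hX _)
    · apply Ideal.mul_mem_left
      exact Ideal.pow_le_pow_right (by omega) (Ideal.pow_mem_pow hX _)

theorem mem_zIdeal {r m : ℕ} {G : MvPolynomial (Fin 2) R} :
    G ∈ zIdeal R r m ↔ ∀ c : Idx r m, G.coeff (expo c) = 0 := by
  rw [zIdeal_eq, mem_Jw]
  constructor
  · intro h c
    exact h _ (expo_lt c)
  · intro h s hs
    obtain ⟨c, rfl⟩ := exists_expo hs
    exact h c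

theorem mk_eq_zero {r m : ℕ} {G : MvPolynomial (Fin 2) R} :
    Ideal.Quotient.mk (zIdeal R r m) G = 0 ↔ ∀ c : Idx r m, G.coeff (expo c) = 0 := by
  rw [Ideal.Quotient.eq_zero_iff_mem, mem_zIdeal]

theorem coeff_jet {r m : ℕ} (α : Fin 2 × Idx r m → R) (e : Fin 2) (c : Idx r m) :
    (jet α e).coeff (expo c) = α (e, c) := by
  rw [jet, coeff_sum, Finset.sum_eq_single c]
  · rw [coeff_monomial, if_pos rfl]
  · intro c' _ hne
    rw [coeff_monomial, if_neg]
    intro h
    exact hne (expo_injective h)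
  · intro h
    exact absurd (Finset.mem_univ c) h

/-- Every pair of polynomials is congruent to a jet. -/
theorem exists_jet (r m : ℕ) (P : Fin 2 → MvPolynomial (Fin 2) R) :
    ∀ e, Ideal.Quotient.mk (zIdeal R r m) (jet (fun p : Fin 2 × Idx r m => (P p.1).coeff (expo p.2)) e) =
      Ideal.Quotient.mk (zIdeal R r m) (P e) := by
  intro e
  rw [← sub_eq_zero, ← map_sub, mk_eq_zero]
  intro c
  rw [coeff_sub, coeff_jet, sub_self]

theorem map_jet {S : Type*} [CommRing S] (φ : R →+* S) {r m : ℕ} (α : Fin 2 × Idx r m → R)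
    (e : Fin 2) : MvPolynomial.map φ (jet α e) = jet (φ ∘ α) e := by
  rw [jet, jet, map_sum]
  apply Finset.sum_congr rfl
  intro c _
  rw [map_monomial]
  rfl

/-- Monomials `x^i y^l` with `i + l ≤ d`. -/
abbrev Mon (d : ℕ) : Type := {p : Fin (d + 1) × Fin (d + 1) // (p.1 : ℕ) + p.2 ≤ d}

/-- The evaluation matrix. -/
def evm {r m : ℕ} (α : Fin 2 × Idx r m → R) (d : ℕ) : Matrix (Idx r m) (Mon d) R :=
  fun c p => ((jet α 0) ^ (p.1.1 : ℕ) * (jet α 1) ^ (p.1.2 : ℕ)).coeff (expo c)

theorem map_evm {S : Type*} [CommRing S] (φ : R →+* S) {r m : ℕ} (α : Fin 2 × Idx r m → R)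
    (d : ℕ) : (evm α d).map φ = evm (φ ∘ α) d := by
  ext c p
  rw [Matrix.map_apply, evm, evm, ← map_jet, ← map_jet, ← map_pow, ← map_pow, ← map_mul, coeff_map]

/-- The polynomial with coefficient vector `v`. -/
def poly {d : ℕ} (v : Mon d → R) : MvPolynomial (Fin 2) R :=
  ∑ p : Mon d, C (v p) * (X 0 ^ (p.1.1 : ℕ) * X 1 ^ (p.1.2 : ℕ))

theorem evm_mulVec {r m d : ℕ} (α : Fin 2 × Idx r m → R) (v : Mon d → R) (c : Idx r m) :
    (evm α d).mulVec v c = (aeval (jet α) (poly v)).coeff (expo c) := by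
  rw [poly, map_sum, coeff_sum, Matrix.mulVec, dotProduct]
  apply Finset.sum_congr rfl
  intro p _
  rw [map_mul, map_mul, map_pow, map_pow, aeval_X, aeval_X, aeval_C, algebraMap_eq, coeff_C_mul,
    evm, mul_comm]

end

end Pool.Agent.Helper7.Shell
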